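import Pool.Agent.H815.HF.Gen

set_option autoImplicit false

namespace Pool.Agent.H815.HF

theorem dense_fin_inter {X Y : Type*} [TopologicalSpace X] (A : Y → Set X) (s : Finset Y)
    (h : ∀ y ∈ s, IsOpen (A y) ∧ Dense (A y)) : Dense (⋂ y ∈ s, A y) := by
  classical
  induction s using Finset.induction_on with
  | empty => simp
  | insert a s ha ih =>
    rw [Finset.set_biInter_insert]
    obtain ⟨h1, h2⟩ := h a (Finset.mem_insert_self a s)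
    exact h2.inter_of_isOpen_left (ih fun y hy => h y (Finset.mem_insert_of_mem hy)) h1

/-- Density in general, from the local density and openness. -/
theorem avoid_dense {r : ℕ} (u₀ : Fin r → ℝ → ℝ) (c₀ L₀ R ε₀ c L ε η : ℝ)
    (hc : c₀ < c) (hL : L₀ < L) (hε : ε₀ < ε) (hη : 0 < η)
    (hu₀ : ∀ i, Cons c₀ L₀ R ε₀ (u₀ i)) {V m : ℕ}
    (edges : Finset (Fin V × Fin r)) (tgt : Fin V × Fin r → Fin V)
    (ι : (Fin m → ℝ) → ℝ × (Fin V → ℝ)) (K : NNReal) (hι : LipschitzWith K ι)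
    (Θ : Set (Fin m → ℝ)) (hΘ : IsCompact Θ) (t₀ κ : ℝ) (ht₀ : 0 < t₀) (hκ : 0 < κ)
    (ht : ∀ θ ∈ Θ, t₀ ≤ (ι θ).1)
    (hsep : ∀ θ ∈ Θ, ∀ v w, v ≠ w → κ ≤ |(ι θ).2 v - (ι θ).2 w|)
    (hm : m < edges.card)
    (avoid_open : ∀ Θ : Set (Fin m → ℝ), IsCompact Θ → IsOpen (Avoid u₀ c L R ε η edges tgt ι Θ))
    (avoid_dense_local : ∀ Θ : Set (Fin m → ℝ), IsCompact Θ → (∀ θ ∈ Θ, t₀ ≤ (ι θ).1) →
      (∀ θ ∈ Θ, ∀ v w, v ≠ w → κ ≤ |(ι θ).2 v - (ι θ).2 w|) →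
      ∀ z₀ : Fin V → ℝ, (∀ θ ∈ Θ, ∀ v, |(ι θ).2 v - z₀ v| ≤ κ / 8) →
      Dense (Avoid u₀ c L R ε η edges tgt ι Θ)) :
    Dense (Avoid u₀ c L R ε η edges tgt ι Θ) := by
  have hK0 : (0:ℝ) ≤ K := K.2
  obtain ⟨ρ, hρ⟩ : ∃ ρ : ℝ, ρ = κ / (8 * (K + 1)) := ⟨_, rfl⟩
  have hρ0 : 0 < ρ := by rw [hρ]; positivity
  have hKρ : (K:ℝ) * ρ ≤ κ / 8 := by
    have h1 : ((K:ℝ) + 1) * ρ = κ / 8 := by
      rw [hρ]; field_simp
    nlinarith
  obtain ⟨t, ht1, ht2⟩ := hΘ.elim_nhds_subcover (fun x => Metric.closedBall x ρ)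
    (fun x _ => Metric.closedBall_mem_nhds x hρ0)
  have hloc : ∀ x ∈ t, IsOpen (Avoid u₀ c L R ε η edges tgt ι (Θ ∩ Metric.closedBall x ρ)) ∧
      Dense (Avoid u₀ c L R ε η edges tgt ι (Θ ∩ Metric.closedBall x ρ)) := by
    intro x _
    have hcomp : IsCompact (Θ ∩ Metric.closedBall x ρ) := hΘ.inter_right Metric.isClosed_closedBall
    refine ⟨avoid_open _ hcomp, avoid_dense_local _ hcomp (fun θ hθ => ht θ hθ.1)
      (fun θ hθ => hsep θ hθ.1) (ι x).2 fun θ hθ v => ?_⟩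
    have h1 : |(ι θ).2 v - (ι x).2 v| ≤ dist (ι θ).2 (ι x).2 := by
      rw [← Real.dist_eq]
      exact dist_le_pi_dist _ _ v
    have h2 : dist (ι θ).2 (ι x).2 ≤ dist (ι θ) (ι x) := by
      rw [Prod.dist_eq]
      exact le_max_right _ _
    have h3 : dist (ι θ) (ι x) ≤ K * dist θ x := hι.dist_le_mul θ x
    have h4 : dist θ x ≤ ρ := hθ.2
    have h5 : (K:ℝ) * dist θ x ≤ K * ρ := mul_le_mul_of_nonneg_left h4 hK0
    linarith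
  have hd := dense_fin_inter (fun x => Avoid u₀ c L R ε η edges tgt ι (Θ ∩ Metric.closedBall x ρ)) t hloc
  refine hd.mono fun u hu θ hθ => ?_
  obtain ⟨x, hx, hθx⟩ := Set.mem_iUnion₂.mp (ht2 hθ)
  exact (Set.mem_iInter₂.mp hu x hx) θ ⟨hθ, hθx⟩

end Pool.Agent.H815.HF
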