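import Pool.Agent.H815.HF.Gen

set_option autoImplicit false

open scoped BoundedContinuousFunction

namespace Pool.Agent.H815.HF

open Topology

theorem cons_mix8533 {c₁ L₁ R ε₁ c₂ L₂ ε₂ τ : ℝ} (h0 : 0 ≤ τ) (h1 : τ ≤ 1) {f g : ℝ → ℝ}
    (hf : Cons c₁ L₁ R ε₁ f) (hg : Cons c₂ L₂ R ε₂ g) :
    Cons ((1 - τ) * c₁ + τ * c₂) ((1 - τ) * L₁ + τ * L₂) R ((1 - τ) * ε₁ + τ * ε₂)
      (fun x => (1 - τ) * f x + τ * g x) := by
  have h1' : 0 ≤ 1 - τ := by linarith
  refine ⟨fun x y hxy => ?_, fun x y hx hy => ?_, fun x y hx hy => ?_⟩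
  · have a1 := hf.1 x y hxy
    have a2 := hg.1 x y hxy
    constructor
    · nlinarith [mul_le_mul_of_nonneg_left a1.1 h1', mul_le_mul_of_nonneg_left a2.1 h0]
    · nlinarith [mul_le_mul_of_nonneg_left a1.2 h1', mul_le_mul_of_nonneg_left a2.2 h0]
  · have a1 := mul_le_mul_of_nonneg_left (hf.2.1 x y hx hy) h1'
    have a2 := mul_le_mul_of_nonneg_left (hg.2.1 x y hx hy) h0
    have e : (1 - τ) * f y + τ * g y - ((1 - τ) * f x + τ * g x) =
        (1 - τ) * (f y - f x) + τ * (g y - g x) := by ring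
    rw [e]
    calc |(1 - τ) * (f y - f x) + τ * (g y - g x)| ≤ |(1 - τ) * (f y - f x)| + |τ * (g y - g x)| :=
          abs_add_le _ _
      _ = (1 - τ) * |f y - f x| + τ * |g y - g x| := by
          rw [abs_mul, abs_mul, abs_of_nonneg h1', abs_of_nonneg h0]
      _ ≤ _ := by nlinarith
  · have a1 := mul_le_mul_of_nonneg_left (hf.2.2 x y hx hy) h1'
    have a2 := mul_le_mul_of_nonneg_left (hg.2.2 x y hx hy) h0
    have e : (1 - τ) * f y + τ * g y - ((1 - τ) * f x + τ * g x) =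
        (1 - τ) * (f y - f x) + τ * (g y - g x) := by ring
    rw [e]
    calc |(1 - τ) * (f y - f x) + τ * (g y - g x)| ≤ |(1 - τ) * (f y - f x)| + |τ * (g y - g x)| :=
          abs_add_le _ _
      _ = (1 - τ) * |f y - f x| + τ * |g y - g x| := by
          rw [abs_mul, abs_mul, abs_of_nonneg h1', abs_of_nonneg h0]
      _ ≤ _ := by nlinarith

theorem cons_add8533 {c₁ L₁ R ε₁ c L ε ρ : ℝ} {f g : ℝ → ℝ} (hf : Cons c₁ L₁ R ε₁ f)
    (hg : ∀ x y, |g y - g x| ≤ ρ * |y - x|) (h1 : c₁ + ρ ≤ c) (h2 : L₁ + ρ ≤ L) (h3 : ε₁ + ρ ≤ ε) :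
    Cons c L R ε (fun x => f x + g x) := by
  refine ⟨fun x y hxy => ?_, fun x y hx hy => ?_, fun x y hx hy => ?_⟩
  · have a1 := hf.1 x y hxy
    have a2 := abs_le.mp (hg x y)
    have a3 : 0 ≤ y - x := by linarith
    rw [abs_of_nonneg a3] at a2
    constructor
    · nlinarith [mul_le_mul_of_nonneg_right h1 a3]
    · nlinarith [mul_le_mul_of_nonneg_right h2 a3]
  · have a1 := hf.2.1 x y hx hy
    have a2 := hg x y
    have e : f y + g y - (f x + g x) = (f y - f x) + (g y - g x) := by ring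
    rw [e]
    calc _ ≤ |f y - f x| + |g y - g x| := abs_add_le _ _
      _ ≤ (ε₁ + ρ) * |y - x| := by nlinarith
      _ ≤ _ := mul_le_mul_of_nonneg_right h3 (abs_nonneg _)
  · have a1 := hf.2.2 x y hx hy
    have a2 := hg x y
    have e : f y + g y - (f x + g x) = (f y - f x) + (g y - g x) := by ring
    rw [e]
    calc _ ≤ |f y - f x| + |g y - g x| := abs_add_le _ _
      _ ≤ (ε₁ + ρ) * |y - x| := by nlinarith
      _ ≤ _ := mul_le_mul_of_nonneg_right h3 (abs_nonneg _)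

theorem cons_lip8533 {c L R ε : ℝ} {f : ℝ → ℝ} (hf : Cons c L R ε f) (x y : ℝ) :
    |f y - f x| ≤ (|c| + |L|) * |y - x| := by
  have key : ∀ x y, x ≤ y → |f y - f x| ≤ (|c| + |L|) * |y - x| := by
    intro x y hxy
    have a1 := hf.1 x y hxy
    have a3 : 0 ≤ y - x := by linarith
    rw [abs_of_nonneg a3, abs_le]
    have b1 := le_abs_self c
    have b2 := le_abs_self L
    have b3 := abs_nonneg c
    have b4 := abs_nonneg L
    constructor
    · nlinarith [mul_le_mul_of_nonneg_right b1 a3, mul_nonneg b4 a3]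
    · nlinarith [mul_le_mul_of_nonneg_right b2 a3, mul_nonneg b3 a3]
  rcases le_total x y with h | h
  · exact key x y h
  · have := key y x h
    rwa [abs_sub_comm, abs_sub_comm x y] at this

/-- bump function -/
noncomputable def bump8533 (κ z x : ℝ) : ℝ := max 0 (min 1 (2 - 8 * |x - z| / κ))

theorem bump_nonneg8533 (κ z x : ℝ) : 0 ≤ bump8533 κ z x := le_max_left _ _

theorem bump_le8533 (κ z x : ℝ) : bump8533 κ z x ≤ 1 :=
  max_le zero_le_one (min_le_left _ _)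

theorem bump_one8533 {κ z x : ℝ} (hκ : 0 < κ) (h : |x - z| ≤ κ / 8) : bump8533 κ z x = 1 := by
  unfold bump8533
  have h1 : 1 ≤ 2 - 8 * |x - z| / κ := by
    have : 8 * |x - z| / κ ≤ 1 := by rw [div_le_one hκ]; linarith
    linarith
  rw [min_eq_left h1, max_eq_right zero_le_one]

theorem bump_zero8533 {κ z x : ℝ} (hκ : 0 < κ) (h : κ / 4 ≤ |x - z|) : bump8533 κ z x = 0 := by
  unfold bump8533
  have h1 : 2 - 8 * |x - z| / κ ≤ 0 := by
    have : 2 ≤ 8 * |x - z| / κ := by rw [le_div_iff₀ hκ]; linarith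
    linarith
  rw [min_eq_right (h1.trans zero_le_one), max_eq_left h1]

theorem bump_lip8533 {κ : ℝ} (hκ : 0 < κ) (z x y : ℝ) :
    |bump8533 κ z y - bump8533 κ z x| ≤ 8 / κ * |y - x| := by
  unfold bump8533
  have h1 := abs_max_sub_max_le_abs (min 1 (2 - 8 * |y - z| / κ)) (min 1 (2 - 8 * |x - z| / κ)) 0
  rw [max_comm _ 0, max_comm _ 0] at h1
  have h2 := abs_min_sub_min_le_max 1 (2 - 8 * |y - z| / κ) 1 (2 - 8 * |x - z| / κ)
  rw [sub_self, abs_zero, max_eq_right (abs_nonneg _)] at h2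
  refine h1.trans (h2.trans ?_)
  have h3 : 2 - 8 * |y - z| / κ - (2 - 8 * |x - z| / κ) = 8 / κ * (|x - z| - |y - z|) := by ring
  rw [h3, abs_mul, abs_of_nonneg (by positivity : (0 : ℝ) ≤ 8 / κ)]
  apply mul_le_mul_of_nonneg_left _ (by positivity)
  have h4 := abs_abs_sub_abs_le_abs_sub (x - z) (y - z)
  rw [show x - z - (y - z) = x - y by ring, abs_sub_comm x y] at h4
  exact h4

/-- the perturbation -/
noncomputable def pert8533 {V r : ℕ} (κ : ℝ) (z₀ : Fin V → ℝ) (edges : Finset (Fin V × Fin r))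
    (s : edges → ℝ) (i : Fin r) (x : ℝ) : ℝ :=
  ∑ e : edges, (if e.1.2 = i then s e else 0) * bump8533 κ (z₀ e.1.1) x

theorem pert_abs8533 {V r : ℕ} (κ : ℝ) (z₀ : Fin V → ℝ) (edges : Finset (Fin V × Fin r))
    (s : edges → ℝ) (i : Fin r) (x : ℝ) {σ : ℝ} (hσ : 0 ≤ σ) (hs : ∀ e, |s e| ≤ σ) :
    |pert8533 κ z₀ edges s i x| ≤ edges.card * σ := by
  unfold pert8533
  refine (Finset.abs_sum_le_sum_abs _ _).trans ?_
  calc _ ≤ ∑ _e : edges, σ := by
        apply Finset.sum_le_sum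
        intro e _
        rw [abs_mul, abs_of_nonneg (bump_nonneg8533 _ _ _)]
        have h1 : |(if e.1.2 = i then s e else 0)| ≤ σ := by
          split_ifs
          · exact hs e
          · simpa using hσ
        calc _ ≤ σ * 1 := mul_le_mul h1 (bump_le8533 _ _ _) (bump_nonneg8533 _ _ _) hσ
          _ = σ := mul_one _
    _ = _ := by simp

theorem pert_lip8533 {V r : ℕ} {κ : ℝ} (hκ : 0 < κ) (z₀ : Fin V → ℝ)
    (edges : Finset (Fin V × Fin r))
    (s : edges → ℝ) (i : Fin r) (x y : ℝ) {σ : ℝ} (hσ : 0 ≤ σ) (hs : ∀ e, |s e| ≤ σ) :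
    |pert8533 κ z₀ edges s i y - pert8533 κ z₀ edges s i x| ≤
      (edges.card * σ * (8 / κ)) * |y - x| := by
  unfold pert8533
  rw [← Finset.sum_sub_distrib]
  refine (Finset.abs_sum_le_sum_abs _ _).trans ?_
  calc _ ≤ ∑ _e : edges, σ * (8 / κ * |y - x|) := by
        apply Finset.sum_le_sum
        intro e _
        rw [← mul_sub, abs_mul]
        have h1 : |(if e.1.2 = i then s e else 0)| ≤ σ := by
          split_ifs
          · exact hs e
          · simpa using hσ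
        exact mul_le_mul h1 (bump_lip8533 hκ _ _ _) (abs_nonneg _) hσ
    _ = _ := by simp; ring

/-- Local density: if the positions vary in a small ball, the bad set can be avoided by an
arbitrarily small perturbation, provided there are more edges than parameters. -/
theorem avoid_dense_local {r : ℕ} (u₀ : Fin r → ℝ → ℝ) (c₀ L₀ R ε₀ c L ε η : ℝ)
    (hc : c₀ < c) (hL : L₀ < L) (hε : ε₀ < ε) (hη : 0 < η)
    (hu₀ : ∀ i, Cons c₀ L₀ R ε₀ (u₀ i)) {V m : ℕ}
    (edges : Finset (Fin V × Fin r)) (tgt : Fin V × Fin r → Fin V)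
    (ι : (Fin m → ℝ) → ℝ × (Fin V → ℝ)) (K : NNReal) (hι : LipschitzWith K ι)
    (Θ : Set (Fin m → ℝ)) (hΘ : IsCompact Θ) (t₀ κ : ℝ) (ht₀ : 0 < t₀) (hκ : 0 < κ)
    (ht : ∀ θ ∈ Θ, t₀ ≤ (ι θ).1)
    (hsep : ∀ θ ∈ Θ, ∀ v w, v ≠ w → κ ≤ |(ι θ).2 v - (ι θ).2 w|)
    (z₀ : Fin V → ℝ) (hz₀ : ∀ θ ∈ Θ, ∀ v, |(ι θ).2 v - z₀ v| ≤ κ / 8)
    (hm : m < edges.card) :
    Dense (Avoid u₀ c L R ε η edges tgt ι Θ) := by
  classical
  rw [Metric.dense_iff]
  rintro ⟨u, hu⟩ δ hδ
  have hN : (0 : ℝ) < edges.card := by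
    have : 0 < edges.card := by omega
    exact_mod_cast this
  set N : ℝ := (edges.card : ℝ) with hNdef
  set M : ℝ := min (c - c₀) (min (L - L₀) (ε - ε₀)) with hMdef
  have hM : 0 < M := lt_min (by linarith) (lt_min (by linarith) (by linarith))
  have hM1 : M ≤ c - c₀ := min_le_left _ _
  have hM2 : M ≤ L - L₀ := (min_le_right _ _).trans (min_le_left _ _)
  have hM3 : M ≤ ε - ε₀ := (min_le_right _ _).trans (min_le_right _ _)
  set τ : ℝ := min (1 / 2) (δ / (4 * η)) with hτdef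
  have hτ : 0 < τ := lt_min (by norm_num) (by positivity)
  have hτ1 : τ ≤ 1 / 2 := min_le_left _ _
  have hτ2 : τ * η ≤ δ / 4 := by
    have h1 : τ ≤ δ / (4 * η) := min_le_right _ _
    calc τ * η ≤ δ / (4 * η) * η := mul_le_mul_of_nonneg_right h1 hη.le
      _ = δ / 4 := by field_simp
  set σ : ℝ := min (τ * M * κ / (8 * N)) (min (τ * η / N) (δ / (4 * N))) with hσdef
  have hσ : 0 < σ := lt_min (by positivity) (lt_min (by positivity) (by positivity))
  have hσ1 : N * σ * (8 / κ) ≤ τ * M := by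
    have h1 : σ ≤ τ * M * κ / (8 * N) := min_le_left _ _
    calc N * σ * (8 / κ) ≤ N * (τ * M * κ / (8 * N)) * (8 / κ) := by gcongr
      _ = τ * M := by field_simp
  have hσ2 : N * σ ≤ τ * η := by
    have h1 : σ ≤ τ * η / N := (min_le_right _ _).trans (min_le_left _ _)
    calc N * σ ≤ N * (τ * η / N) := by gcongr
      _ = τ * η := by field_simp
  have hσ3 : N * σ ≤ δ / 4 := by
    have h1 : σ ≤ δ / (4 * N) := (min_le_right _ _).trans (min_le_right _ _)
    calc N * σ ≤ N * (δ / (4 * N)) := by gcongr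
      _ = δ / 4 := by field_simp
  -- the mixture
  set u₁ : Fin r → ℝ → ℝ := fun i x => (1 - τ) * u i x + τ * u₀ i x with hu₁
  have hcu₁ : ∀ i, Cons ((1 - τ) * c + τ * c₀) ((1 - τ) * L + τ * L₀) R ((1 - τ) * ε + τ * ε₀)
      (u₁ i) := fun i => cons_mix8533 hτ.le (by linarith) (hu i).1 (hu₀ i)
  -- the map G
  set Γ1 : ℝ × (Fin V → ℝ) → edges → ℝ := fun p e => (p.2 (tgt e.1) - p.2 e.1.1) / p.1 with hΓ1
  set Γ2 : ℝ × (Fin V → ℝ) → edges → ℝ := fun p e => u₁ e.1.2 (p.2 e.1.1) with hΓ2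
  set Γ : ℝ × (Fin V → ℝ) → edges → ℝ := fun p => Γ1 p - Γ2 p with hΓ
  obtain ⟨K₁, hK₁⟩ : ∃ K₁ : ℝ, 0 ≤ K₁ ∧ ∀ i x y, |u₁ i y - u₁ i x| ≤ K₁ * |y - x| :=
    ⟨|(1 - τ) * c + τ * c₀| + |(1 - τ) * L + τ * L₀|, by positivity,
      fun i x y => cons_lip8533 (hcu₁ i) x y⟩
  have hΓ2L : LipschitzWith K₁.toNNReal Γ2 := by
    apply LipschitzWith.of_dist_le_mul
    intro p q
    rw [Real.coe_toNNReal _ hK₁.1, dist_pi_le_iff (mul_nonneg hK₁.1 dist_nonneg)]
    intro e
    rw [Real.dist_eq]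
    have h1 := hK₁.2 e.1.2 (q.2 e.1.1) (p.2 e.1.1)
    refine h1.trans (mul_le_mul_of_nonneg_left ?_ hK₁.1)
    rw [← Real.dist_eq]
    exact (dist_le_pi_dist p.2 q.2 e.1.1).trans (le_max_right _ _)
  have hloc : ∀ p ∈ ι '' Θ, ∃ C : NNReal, ∃ t ∈ 𝓝[ι '' Θ] p, LipschitzOnWith C Γ t := by
    rintro p ⟨θ, hθ, rfl⟩
    have hne : (ι θ).1 ≠ 0 := (lt_of_lt_of_le ht₀ (ht θ hθ)).ne'
    have hcd : ContDiffAt ℝ 1 Γ1 (ι θ) := by
      rw [contDiffAt_pi]
      intro e
      apply ContDiffAt.div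
      · fun_prop
      · fun_prop
      · exact hne
    obtain ⟨C, t, ht', hC⟩ := hcd.exists_lipschitzOnWith
    exact ⟨C + K₁.toNNReal, t, mem_nhdsWithin_of_mem_nhds ht', hC.sub (hΓ2L.lipschitzOnWith)⟩
  have hdim : dimH (Γ '' (ι '' Θ)) < Module.finrank ℝ (edges → ℝ) := by
    calc dimH (Γ '' (ι '' Θ)) ≤ dimH (ι '' Θ) := dimH_image_le_of_locally_lipschitzOn hloc
      _ ≤ dimH Θ := hι.dimH_image_le _
      _ ≤ dimH (Set.univ : Set (Fin m → ℝ)) := dimH_mono (Set.subset_univ _)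
      _ = m := Real.dimH_univ_pi_fin m
      _ < _ := by
        rw [Module.finrank_fintype_fun_eq_card, Fintype.card_coe]
        exact_mod_cast hm
  have hdense := dense_compl_of_dimH_lt_finrank hdim
  obtain ⟨s, hsball, hs⟩ := (Metric.dense_iff.mp hdense) 0 σ hσ
  have hsσ : ∀ e, |s e| ≤ σ := by
    intro e
    rw [Metric.mem_ball, dist_zero_right] at hsball
    exact (norm_le_pi_norm s e).trans hsball.le
  -- the perturbed tuple
  set f : Fin r → ℝ → ℝ := fun i x => u₁ i x + pert8533 κ z₀ edges s i x with hf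
  have hρ : ∀ i x y, |pert8533 κ z₀ edges s i y - pert8533 κ z₀ edges s i x| ≤
      (N * σ * (8 / κ)) * |y - x| := fun i x y => pert_lip8533 hκ z₀ edges s i x y hσ.le hsσ
  have hcf : ∀ i, Cons c L R ε (f i) := by
    intro i
    refine cons_add8533 (hcu₁ i) (hρ i) ?_ ?_ ?_
    · nlinarith [mul_le_mul_of_nonneg_left hM1 hτ.le]
    · nlinarith [mul_le_mul_of_nonneg_left hM2 hτ.le]
    · nlinarith [mul_le_mul_of_nonneg_left hM3 hτ.le]
  have hfcont : ∀ i, Continuous (f i) := by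
    intro i
    have hl : LipschitzWith (|c| + |L|).toNNReal (f i) := by
      apply LipschitzWith.of_dist_le_mul
      intro x y
      rw [Real.coe_toNNReal _ (by positivity), Real.dist_eq, Real.dist_eq]
      exact cons_lip8533 (hcf i) y x
    exact hl.continuous
  have hfu : ∀ i x, |f i x - u i x| ≤ τ * η + N * σ := by
    intro i x
    have h1 := (hu i).2 x
    have h2 := pert_abs8533 κ z₀ edges s i x hσ.le hsσ
    have e : f i x - u i x = -(τ * (u i x - u₀ i x)) + pert8533 κ z₀ edges s i x := by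
      simp only [hf, hu₁]; ring
    rw [e]
    calc _ ≤ |-(τ * (u i x - u₀ i x))| + |pert8533 κ z₀ edges s i x| := abs_add_le _ _
      _ = τ * |u i x - u₀ i x| + |pert8533 κ z₀ edges s i x| := by
          rw [abs_neg, abs_mul, abs_of_pos hτ]
      _ ≤ _ := by
          have := mul_le_mul_of_nonneg_left h1 hτ.le
          linarith
  have hbd : ∀ i x, ‖f i x‖ ≤ ‖u i‖ + (τ * η + N * σ) := by
    intro i x
    have h1 := hfu i x
    have h2 := (u i).norm_coe_le_norm x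
    rw [Real.norm_eq_abs] at h2 ⊢
    have h3 := abs_sub_abs_le_abs_sub (f i x) (u i x)
    linarith
  set F : Fin r → (ℝ →ᵇ ℝ) := fun i =>
    BoundedContinuousFunction.ofNormedAddCommGroup (f i) (hfcont i) _ (hbd i) with hF
  have hFX : F ∈ XSet u₀ c L R ε η := by
    intro i
    refine ⟨hcf i, fun x => ?_⟩
    change |f i x - u₀ i x| ≤ η
    have h1 := (hu i).2 x
    have h2 := pert_abs8533 κ z₀ edges s i x hσ.le hsσ
    have e : f i x - u₀ i x = (1 - τ) * (u i x - u₀ i x) + pert8533 κ z₀ edges s i x := by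
      simp only [hf, hu₁]; ring
    rw [e]
    have h1' : 0 ≤ 1 - τ := by linarith
    calc _ ≤ |(1 - τ) * (u i x - u₀ i x)| + |pert8533 κ z₀ edges s i x| := abs_add_le _ _
      _ = (1 - τ) * |u i x - u₀ i x| + |pert8533 κ z₀ edges s i x| := by
          rw [abs_mul, abs_of_nonneg h1']
      _ ≤ (1 - τ) * η + N * σ := by
          have := mul_le_mul_of_nonneg_left h1 h1'
          linarith
      _ ≤ η := by linarith
  refine ⟨⟨F, hFX⟩, ?_, ?_⟩
  · rw [Metric.mem_ball, Subtype.dist_eq]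
    have h1 : dist F u ≤ δ / 2 := by
      rw [dist_pi_le_iff (by positivity)]
      intro i
      rw [BoundedContinuousFunction.dist_le (by positivity)]
      intro x
      rw [Real.dist_eq]
      exact (hfu i x).trans (by linarith)
    linarith
  · intro θ hθ
    by_contra hcon
    push Not at hcon
    apply hs
    refine ⟨ι θ, ⟨θ, hθ, rfl⟩, ?_⟩
    funext e
    have h1 := hcon e.1 e.2
    have h2 : (F e.1.2) ((ι θ).2 e.1.1) = u₁ e.1.2 ((ι θ).2 e.1.1) + s e := by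
      change f e.1.2 ((ι θ).2 e.1.1) = _
      simp only [hf]
      congr 1
      unfold pert8533
      rw [Finset.sum_eq_single e]
      · rw [if_pos rfl, bump_one8533 hκ (hz₀ θ hθ e.1.1), mul_one]
      · intro e' _ hne
        by_cases hi : e'.1.2 = e.1.2
        · have hv : e.1.1 ≠ e'.1.1 := by
            intro he
            apply hne
            exact Subtype.ext (Prod.ext he.symm hi)
          have h3 := hsep θ hθ e.1.1 e'.1.1 hv
          have h4 := hz₀ θ hθ e'.1.1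
          have h5 : κ / 4 ≤ |(ι θ).2 e.1.1 - z₀ e'.1.1| := by
            have h6 := abs_sub_abs_le_abs_sub ((ι θ).2 e.1.1 - (ι θ).2 e'.1.1)
              (z₀ e'.1.1 - (ι θ).2 e'.1.1)
            rw [show (ι θ).2 e.1.1 - (ι θ).2 e'.1.1 - (z₀ e'.1.1 - (ι θ).2 e'.1.1) =
              (ι θ).2 e.1.1 - z₀ e'.1.1 by ring, abs_sub_comm (z₀ e'.1.1)] at h6
            linarith
          rw [bump_zero8533 hκ h5, mul_zero]
        · rw [if_neg hi, zero_mul]
      · intro hn
        exact absurd (Finset.mem_univ e) hn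
    have hne : (ι θ).1 ≠ 0 := (lt_of_lt_of_le ht₀ (ht θ hθ)).ne'
    change Γ1 (ι θ) e - Γ2 (ι θ) e = s e
    simp only [hΓ1, hΓ2]
    rw [h2] at h1
    rw [h1]
    field_simp
    ring

end Pool.Agent.H815.HF
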