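import Pool.Agent.H815.HF.Gen

set_option autoImplicit false

open scoped BoundedContinuousFunction

namespace Pool.Agent.H815.HF

/-- openness by compactness. -/
theorem avoid_open {r : ℕ} (u₀ : Fin r → ℝ → ℝ) (c L R ε η : ℝ) {V m : ℕ}
    (edges : Finset (Fin V × Fin r)) (tgt : Fin V × Fin r → Fin V)
    (ι : (Fin m → ℝ) → ℝ × (Fin V → ℝ)) (hι : Continuous ι) (Θ : Set (Fin m → ℝ))
    (hΘ : IsCompact Θ) :
    IsOpen (Avoid u₀ c L R ε η edges tgt ι Θ) := by
  rw [isOpen_iff_mem_nhds]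
  intro u hu
  have := hΘ.eventually_forall_of_forall_eventually (x₀ := u)
    (P := fun (u : XSet u₀ c L R ε η) θ => ∃ e ∈ edges,
      (ι θ).2 (tgt e) ≠ (ι θ).2 e.1 + (ι θ).1 * (u : Fin r → (ℝ →ᵇ ℝ)) e.2 ((ι θ).2 e.1)) ?_
  · exact this
  · intro θ hθ
    obtain ⟨e, he, hne⟩ := hu θ hθ
    have hc1 : Continuous (fun z : (XSet u₀ c L R ε η) × (Fin m → ℝ) => (ι z.2).2 (tgt e)) := by
      fun_prop
    have hc2 : Continuous (fun z : (XSet u₀ c L R ε η) × (Fin m → ℝ) =>
        (z.1 : Fin r → (ℝ →ᵇ ℝ)) e.2 ((ι z.2).2 e.1)) := by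
      have h1 : Continuous (fun z : (XSet u₀ c L R ε η) × (Fin m → ℝ) =>
        (z.1 : Fin r → (ℝ →ᵇ ℝ)) e.2) :=
        (continuous_apply e.2).comp (continuous_subtype_val.comp continuous_fst)
      have h2 : Continuous (fun z : (XSet u₀ c L R ε η) × (Fin m → ℝ) => (ι z.2).2 e.1) := by
        fun_prop
      exact h1.eval h2
    have hc3 : Continuous (fun z : (XSet u₀ c L R ε η) × (Fin m → ℝ) =>
        (ι z.2).2 e.1 + (ι z.2).1 * (z.1 : Fin r → (ℝ →ᵇ ℝ)) e.2 ((ι z.2).2 e.1)) := by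
      fun_prop
    have hopen : IsOpen {z : (XSet u₀ c L R ε η) × (Fin m → ℝ) | (ι z.2).2 (tgt e) ≠
        (ι z.2).2 e.1 + (ι z.2).1 * (z.1 : Fin r → (ℝ →ᵇ ℝ)) e.2 ((ι z.2).2 e.1)} :=
      isOpen_ne_fun hc1 hc3
    filter_upwards [hopen.mem_nhds (show (u, θ) ∈ _ from hne)] with z hz
    exact ⟨e, he, hz⟩

/-- the space of admissible tuples is complete. -/
theorem xset_closed {r : ℕ} (u₀ : Fin r → ℝ → ℝ) (c L R ε η : ℝ) :
    IsClosed (XSet u₀ c L R ε η) := by
  apply isClosed_of_closure_subset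
  intro u hu
  have hev : ∀ (i : Fin r) (x : ℝ), Continuous (fun v : Fin r → (ℝ →ᵇ ℝ) => v i x) := by
    intro i x
    have h1 : Continuous (fun v : Fin r → (ℝ →ᵇ ℝ) => v i) := continuous_apply i
    exact h1.eval continuous_const
  refine fun i => ⟨⟨fun x y hxy => ⟨?_, ?_⟩, fun x y hx hy => ?_, fun x y hx hy => ?_⟩, fun x => ?_⟩
  · exact closure_minimal (s := XSet u₀ c L R ε η)
      (t := {v | -(c * (y - x)) ≤ v i y - v i x}) (fun v hv => ((hv i).1.1 x y hxy).1)
      (isClosed_le continuous_const ((hev i y).sub (hev i x))) hu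
  · exact closure_minimal (s := XSet u₀ c L R ε η)
      (t := {v | v i y - v i x ≤ L * (y - x)}) (fun v hv => ((hv i).1.1 x y hxy).2)
      (isClosed_le ((hev i y).sub (hev i x)) continuous_const) hu
  · exact closure_minimal (s := XSet u₀ c L R ε η)
      (t := {v | |v i y - v i x| ≤ ε * |y - x|}) (fun v hv => (hv i).1.2.1 x y hx hy)
      (isClosed_le ((hev i y).sub (hev i x)).abs continuous_const) hu
  · exact closure_minimal (s := XSet u₀ c L R ε η)
      (t := {v | |v i y - v i x| ≤ ε * |y - x|}) (fun v hv => (hv i).1.2.2 x y hx hy)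
      (isClosed_le ((hev i y).sub (hev i x)).abs continuous_const) hu
  · exact closure_minimal (s := XSet u₀ c L R ε η)
      (t := {v | |v i x - u₀ i x| ≤ η}) (fun v hv => (hv i).2 x)
      (isClosed_le ((hev i x).sub continuous_const).abs continuous_const) hu

end Pool.Agent.H815.HF
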