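import Pool.Agent.H815.HF.Gen

set_option autoImplicit false

namespace Pool.Agent.H815.HF

/-- interpolation -/
theorem ext_8629 {Ω : Type} [LinearOrder Ω] (Y : Finset Ω) (f g : Ω → ℝ) (m : ℝ) (hm : 0 ≤ m)
    (hf : ∀ y ∈ Y, ∀ y' ∈ Y, y < y' → 1 ≤ f y' - f y)
    (hg : ∀ y ∈ Y, ∀ y' ∈ Y, y < y' → 1 ≤ g y' - g y)
    (hf0 : ∀ y ∈ Y, 0 ≤ f y ∧ f y ≤ m) (hg0 : ∀ y ∈ Y, 0 ≤ g y ∧ g y ≤ m) :
    ∃ u : ℝ → ℝ, Cons (m / (m + 1)) m m 0 u ∧ (∀ x, |u x| ≤ m + (m + 1) * m) ∧
      ∀ y ∈ Y, u (f y) = g y - f y := by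
  have hc0 : 0 ≤ m / (m + 1) := by positivity
  obtain ⟨c, hc⟩ : ∃ c, c = m / (m + 1) := ⟨_, rfl⟩
  rw [← hc] at hc0 ⊢
  have hcm : c * (m + 1) = m := by
    rw [hc]
    have : m + 1 ≠ 0 := by positivity
    field_simp
  have hc1 : c ≤ 1 := by
    by_contra h
    push Not at h
    nlinarith
  rcases Y.eq_empty_or_nonempty with hY | hY
  · refine ⟨fun _ => 0, ⟨?_, ?_, ?_⟩, ?_, ?_⟩
    · intro x y hxy
      have h1 : 0 ≤ y - x := by linarith
      have h2 := mul_nonneg hc0 h1
      have h3 := mul_nonneg hm h1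
      constructor <;> linarith
    · intro x y _ _
      simp
    · intro x y _ _
      simp
    · intro x
      rw [abs_zero]
      positivity
    · intro y hy
      rw [hY] at hy
      simp at hy
  obtain ⟨ω, hω⟩ : ∃ ω : ℝ → ℝ, ω = fun d => max (m * d) (-c * d) := ⟨_, rfl⟩
  have hω1 : ∀ d, m * d ≤ ω d := by intro d; rw [hω]; exact le_max_left _ _
  have hω2 : ∀ d, -c * d ≤ ω d := by intro d; rw [hω]; exact le_max_right _ _
  have hωadd : ∀ d d', ω (d + d') ≤ ω d + ω d' := by
    intro d d'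
    have : ω (d + d') = max (m * (d + d')) (-c * (d + d')) := by rw [hω]
    rw [this]
    apply max_le
    · linarith [hω1 d, hω1 d', mul_add m d d']
    · linarith [hω2 d, hω2 d', mul_add (-c) d d']
  have hωpos : ∀ d, 0 ≤ d → ω d = m * d := by
    intro d hd
    have : ω d = max (m * d) (-c * d) := by rw [hω]
    rw [this]
    apply max_eq_left
    have h1 := mul_nonneg hc0 hd
    have h2 := mul_nonneg hm hd
    linarith
  have hωneg : ∀ d, d ≤ 0 → ω d = -c * d := by
    intro d hd
    have : ω d = max (m * d) (-c * d) := by rw [hω]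
    rw [this]
    apply max_eq_right
    have h1 := mul_nonneg hc0 (neg_nonneg.2 hd)
    have h2 := mul_nonneg hm (neg_nonneg.2 hd)
    linarith
  obtain ⟨u1, hu1⟩ : ∃ u1 : ℝ → ℝ, u1 = fun z => Y.inf' hY (fun y => (g y - f y) + ω (z - f y)) :=
    ⟨_, rfl⟩
  have hu1le : ∀ z, ∀ y ∈ Y, u1 z ≤ (g y - f y) + ω (z - f y) := by
    intro z y hy
    rw [hu1]
    exact Finset.inf'_le (fun y => (g y - f y) + ω (z - f y)) hy
  have hleu1 : ∀ z b, (∀ y ∈ Y, b ≤ (g y - f y) + ω (z - f y)) → b ≤ u1 z := by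
    intro z b hb
    rw [hu1]
    exact Finset.le_inf' hY _ hb
  have hLip : ∀ z z', u1 z ≤ u1 z' + ω (z - z') := by
    intro z z'
    rw [← sub_le_iff_le_add]
    apply hleu1
    intro y hy
    have h1 := hu1le z y hy
    have h2 := hωadd (z' - f y) (z - z')
    have h3 : z' - f y + (z - z') = z - f y := by ring
    rw [h3] at h2
    linarith
  have hval : ∀ y ∈ Y, u1 (f y) = g y - f y := by
    intro y hy
    apply le_antisymm
    · have h1 := hu1le (f y) y hy
      rw [sub_self, hωpos 0 le_rfl, mul_zero, add_zero] at h1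
      exact h1
    · apply hleu1
      intro y' hy'
      rcases lt_trichotomy y y' with h | h | h
      · have h1 := hω2 (f y - f y')
        have h2 := hf y hy y' hy' h
        have h3 := hg y hy y' hy' h
        have h4 := (hf0 y' hy').2
        have h5 := (hf0 y hy).1
        have h6 : (1 - c) * (m + 1) = 1 := by linarith
        have h7 : (1 - c) * (f y' - f y) ≤ 1 := by
          have : (1 - c) * (f y' - f y) ≤ (1 - c) * (m + 1) :=
            mul_le_mul_of_nonneg_left (by linarith) (by linarith)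
          linarith
        linarith [h1, h7, h3]
      · rw [h, sub_self, hωpos 0 le_rfl, mul_zero, add_zero]
      · have h1 := hω1 (f y - f y')
        have h2 := hf y' hy' y hy h
        have h3 := (hg0 y hy).2
        have h4 := (hg0 y' hy').1
        have h5 : m * 1 ≤ m * (f y - f y') := mul_le_mul_of_nonneg_left h2 hm
        linarith
  have hup : ∀ z z', z ≤ z' → u1 z' - u1 z ≤ m * (z' - z) := by
    intro z z' h
    have h1 := hLip z' z
    rw [hωpos _ (by linarith)] at h1
    linarith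
  have hdown : ∀ z z', z ≤ z' → -(c * (z' - z)) ≤ u1 z' - u1 z := by
    intro z z' h
    have h1 := hLip z z'
    rw [hωneg _ (by linarith)] at h1
    linarith
  obtain ⟨cl, hcl⟩ : ∃ cl : ℝ → ℝ, cl = fun z => max 0 (min m z) := ⟨_, rfl⟩
  have hclx : ∀ x, cl x = max 0 (min m x) := by intro x; rw [hcl]
  have hcl1 : ∀ x y, x ≤ y → cl x ≤ cl y := by
    intro x y h
    rw [hclx, hclx]
    exact max_le_max le_rfl (min_le_min le_rfl h)
  have hcl2 : ∀ x y, x ≤ y → cl y - cl x ≤ y - x := by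
    intro x y h
    rw [hclx, hclx]
    rcases le_total m x with h1 | h1
    · rw [min_eq_left h1, min_eq_left (h1.trans h)]
      linarith
    · rw [min_eq_right h1]
      rcases le_total m y with h2 | h2
      · rw [min_eq_left h2, max_eq_right hm]
        have := le_max_right (0 : ℝ) x
        linarith
      · rw [min_eq_right h2]
        rcases le_total 0 y with h3 | h3
        · rw [max_eq_right h3]
          have := le_max_right (0 : ℝ) x
          linarith
        · rw [max_eq_left h3]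
          have := le_max_left (0 : ℝ) x
          linarith
  have hclI : ∀ x, 0 ≤ cl x ∧ cl x ≤ m := by
    intro x
    rw [hclx]
    exact ⟨le_max_left _ _, max_le hm (min_le_left _ _)⟩
  have hcleq : ∀ x, 0 ≤ x → x ≤ m → cl x = x := by
    intro x h1 h2
    rw [hclx, min_eq_right h2, max_eq_right h1]
  refine ⟨fun z => u1 (cl z), ⟨?_, ?_, ?_⟩, ?_, ?_⟩
  · intro x y hxy
    have h1 := hcl1 x y hxy
    have h2 := hcl2 x y hxy
    have h3 := hup _ _ h1
    have h4 := hdown _ _ h1
    have h5 := mul_le_mul_of_nonneg_left h2 hm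
    have h6 := mul_le_mul_of_nonneg_left h2 hc0
    constructor
    · show -(c * (y - x)) ≤ u1 (cl y) - u1 (cl x)
      linarith
    · show u1 (cl y) - u1 (cl x) ≤ m * (y - x)
      linarith
  · intro x y hx hy
    have h1 : cl x = m := by rw [hclx, min_eq_left hx, max_eq_right hm]
    have h2 : cl y = m := by rw [hclx, min_eq_left hy, max_eq_right hm]
    show |u1 (cl y) - u1 (cl x)| ≤ 0 * |y - x|
    rw [h1, h2, sub_self, abs_zero, zero_mul]
  · intro x y hx hy
    have h1 : cl x = 0 := by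
      rw [hclx]
      exact max_eq_left ((min_le_right _ _).trans (by linarith))
    have h2 : cl y = 0 := by
      rw [hclx]
      exact max_eq_left ((min_le_right _ _).trans (by linarith))
    show |u1 (cl y) - u1 (cl x)| ≤ 0 * |y - x|
    rw [h1, h2, sub_self, abs_zero, zero_mul]
  · intro x
    show |u1 (cl x)| ≤ m + (m + 1) * m
    obtain ⟨y0, hy0⟩ := hY
    have h0 := hval y0 hy0
    have hI := hclI x
    have hF := hf0 y0 hy0
    have hG := hg0 y0 hy0
    have h1 := hLip (cl x) (f y0)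
    have h2 := hLip (f y0) (cl x)
    have hωb : ∀ d, |d| ≤ m → ω d ≤ (m + 1) * m := by
      intro d hd
      rw [abs_le] at hd
      rcases le_total 0 d with h3 | h3
      · rw [hωpos _ h3]
        have := mul_le_mul_of_nonneg_left hd.2 hm
        linarith
      · rw [hωneg _ h3]
        have h4 : c * (-d) ≤ 1 * m := mul_le_mul hc1 (by linarith) (by linarith) zero_le_one
        have h5 : 0 ≤ m * m := mul_nonneg hm hm
        linarith
    have h3 := hωb (cl x - f y0) (by rw [abs_le]; constructor <;> linarith)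
    have h4 := hωb (f y0 - cl x) (by rw [abs_le]; constructor <;> linarith)
    rw [h0] at h1 h2
    rw [abs_le]
    constructor <;> linarith
  · intro y hy
    show u1 (cl (f y)) = g y - f y
    rw [hcleq _ (hf0 y hy).1 (hf0 y hy).2, hval y hy]

/-- Every finite pattern is realised by a Lipschitz tuple of homeomorphisms of the line, with
displacements constant outside a compact interval. -/
theorem base_tuple {r : ℕ} (N : ℕ) (Ω : Type) [LinearOrder Ω] (a : Fin r → Ω ≃o Ω) (p : Ω) :
    ∃ (u₀ : Fin r → ℝ → ℝ) (c₀ L₀ R M z₀ : ℝ), 0 ≤ c₀ ∧ c₀ < 1 ∧ 0 ≤ L₀ ∧ 0 ≤ R ∧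
      (∀ i, Cons c₀ L₀ R 0 (u₀ i)) ∧ (∀ i x, |u₀ i x| ≤ M) ∧
      ∀ A : Fin r → ℝ ≃o ℝ, (∀ i x, A i x = x + u₀ i x) →
        ∀ w v : FG r, w.norm ≤ N → v.norm ≤ N →
          (wa A w z₀ ≤ wa A v z₀ ↔ wa a w p ≤ wa a v p) := by
  classical
  obtain ⟨B, hB⟩ : ∃ B : Finset (FG r), ∀ w, w ∈ B ↔ w.norm ≤ N :=
    ⟨(finite_ball r N).toFinset, fun w => by simp⟩
  obtain ⟨W, hW⟩ : ∃ W : Finset Ω, W = B.image (fun w => wa a w p) := ⟨_, rfl⟩
  have hWmem : ∀ w : FG r, w.norm ≤ N → wa a w p ∈ W := by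
    intro w hw
    rw [hW]
    exact Finset.mem_image_of_mem _ ((hB w).2 hw)
  obtain ⟨f, hf⟩ : ∃ f : Ω → ℝ, f = fun x => (((W.filter (· < x)).card : ℕ) : ℝ) := ⟨_, rfl⟩
  have hfx : ∀ x, f x = (((W.filter (· < x)).card : ℕ) : ℝ) := by intro x; rw [hf]
  have hf0 : ∀ x, 0 ≤ f x ∧ f x ≤ (W.card : ℝ) := by
    intro x
    rw [hfx]
    refine ⟨Nat.cast_nonneg _, ?_⟩
    exact_mod_cast Finset.card_filter_le _ _
  have hf1 : ∀ x ∈ W, ∀ y, x < y → 1 ≤ f y - f x := by
    intro x hx y hxy
    rw [hfx, hfx]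
    have h1 : insert x (W.filter (· < x)) ⊆ W.filter (· < y) := by
      intro z hz
      rw [Finset.mem_insert] at hz
      rcases hz with rfl | hz
      · exact Finset.mem_filter.2 ⟨hx, hxy⟩
      · rw [Finset.mem_filter] at hz ⊢
        exact ⟨hz.1, hz.2.trans hxy⟩
    have h2 := Finset.card_le_card h1
    rw [Finset.card_insert_of_notMem (by simp)] at h2
    have h3 : (((W.filter (· < x)).card : ℕ) : ℝ) + 1 ≤ (((W.filter (· < y)).card : ℕ) : ℝ) := by
      exact_mod_cast h2
    linarith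
  have hfle : ∀ x ∈ W, ∀ y ∈ W, f x ≤ f y ↔ x ≤ y := by
    intro x hx y hy
    constructor
    · intro h
      by_contra h1
      push Not at h1
      have := hf1 y hy x h1
      linarith
    · intro h
      rcases h.lt_or_eq with h1 | h1
      · have := hf1 x hx y h1
        linarith
      · rw [h1]
  have hm : (0 : ℝ) ≤ (W.card : ℝ) := Nat.cast_nonneg _
  have hex : ∀ i : Fin r, ∃ u : ℝ → ℝ, Cons ((W.card : ℝ) / ((W.card : ℝ) + 1)) W.card W.card 0 u ∧
      (∀ x, |u x| ≤ (W.card : ℝ) + ((W.card : ℝ) + 1) * W.card) ∧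
      ∀ y ∈ W.filter (fun y => a i y ∈ W), u (f y) = f (a i y) - f y := by
    intro i
    apply ext_8629 (W.filter (fun y => a i y ∈ W)) f (fun y => f (a i y)) (W.card : ℝ) hm
    · intro y hy y' _ h
      exact hf1 y (Finset.mem_filter.1 hy).1 y' h
    · intro y hy y' _ h
      exact hf1 (a i y) (Finset.mem_filter.1 hy).2 (a i y') ((a i).strictMono h)
    · intro y _
      exact hf0 y
    · intro y _
      exact hf0 _
  choose u hu1 hu2 hu3 using hex
  refine ⟨u, (W.card : ℝ) / ((W.card : ℝ) + 1), W.card, W.card,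
    (W.card : ℝ) + ((W.card : ℝ) + 1) * W.card, f p, by positivity, ?_, hm, hm, hu1, hu2, ?_⟩
  · rw [div_lt_one (by positivity)]
    linarith
  intro A hA
  have hAf : ∀ i, ∀ y ∈ W, a i y ∈ W → A i (f y) = f (a i y) := by
    intro i y hy hy'
    rw [hA, hu3 i y (Finset.mem_filter.2 ⟨hy, hy'⟩)]
    ring
  have key : ∀ L : List (Fin r × Bool), L.length ≤ N →
      wa A (FreeGroup.mk L) (f p) = f (wa a (FreeGroup.mk L) p) := by
    intro L
    induction L with
    | nil =>
      intro _
      rw [← FreeGroup.one_eq_mk, wa_one, wa_one]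
    | cons y L ih =>
      intro hlen
      rw [List.length_cons] at hlen
      have ih' := ih (by omega)
      have m1 : wa a (FreeGroup.mk L) p ∈ W :=
        hWmem _ (FreeGroup.norm_mk_le.trans (by omega))
      have m2 : wa a (FreeGroup.mk (y :: L)) p ∈ W :=
        hWmem _ (FreeGroup.norm_mk_le.trans (by rw [List.length_cons]; exact hlen))
      have e1 : FreeGroup.mk (y :: L) = FreeGroup.mk [y] * FreeGroup.mk L := by
        rw [FreeGroup.mul_mk]; rfl
      rw [e1, wa_mul] at m2
      rw [e1, wa_mul, wa_mul, ih']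
      obtain ⟨i, b⟩ := y
      cases b
      · have e2 : FreeGroup.mk [(i, false)] = (FreeGroup.of i)⁻¹ := rfl
        rw [e2] at m2 ⊢
        rw [wa_of_inv] at m2
        rw [wa_of_inv, wa_of_inv, OrderIso.symm_apply_eq,
          hAf i _ m2 (by rw [OrderIso.apply_symm_apply]; exact m1), OrderIso.apply_symm_apply]
      · have e2 : FreeGroup.mk [(i, true)] = FreeGroup.of i := rfl
        rw [e2] at m2 ⊢
        rw [wa_of] at m2
        rw [wa_of, wa_of, hAf i _ m1 m2]
  have key2 : ∀ w : FG r, w.norm ≤ N → wa A w (f p) = f (wa a w p) := by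
    intro w hw
    have h1 := key w.toWord hw
    rw [FreeGroup.mk_toWord] at h1
    exact h1
  intro w v hw hv
  rw [key2 w hw, key2 v hv]
  exact hfle _ (hWmem w hw) _ (hWmem v hv)

end Pool.Agent.H815.HF
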