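import Pool.Agent.H815.HF.Defs

set_option autoImplicit false

namespace Pool.Agent.H815.HF

variable {r s : ℕ} {Ω Ω' : Type} [LinearOrder Ω] [LinearOrder Ω']

@[simp] lemma wa_one (a : Fin r → Ω ≃o Ω) (p : Ω) : wa a 1 p = p := by
  simp [wa]

lemma wa_mul (a : Fin r → Ω ≃o Ω) (w v : FG r) (p : Ω) : wa a (w * v) p = wa a w (wa a v p) := by
  simp [wa, map_mul]

@[simp] lemma wa_of (a : Fin r → Ω ≃o Ω) (i : Fin r) (p : Ω) : wa a (FreeGroup.of i) p = a i p := by
  simp [wa]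

@[simp] lemma wa_of_inv (a : Fin r → Ω ≃o Ω) (i : Fin r) (p : Ω) :
    wa a (FreeGroup.of i)⁻¹ p = (a i).symm p := by
  simp only [wa, map_inv, FreeGroup.lift_apply_of]
  rfl

@[simp] lemma wa_inv_wa (a : Fin r → Ω ≃o Ω) (w : FG r) (p : Ω) : wa a w⁻¹ (wa a w p) = p := by
  rw [← wa_mul, inv_mul_cancel, wa_one]

@[simp] lemma wa_wa_inv (a : Fin r → Ω ≃o Ω) (w : FG r) (p : Ω) : wa a w (wa a w⁻¹ p) = p := by
  rw [← wa_mul, mul_inv_cancel, wa_one]

lemma wa_le_iff (a : Fin r → Ω ≃o Ω) (w : FG r) {p q : Ω} : wa a w p ≤ wa a w q ↔ p ≤ q :=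
  (FreeGroup.lift a w : Ω ≃o Ω).le_iff_le

lemma wa_lt_iff (a : Fin r → Ω ≃o Ω) (w : FG r) {p q : Ω} : wa a w p < wa a w q ↔ p < q :=
  (FreeGroup.lift a w : Ω ≃o Ω).lt_iff_lt

lemma wa_inj (a : Fin r → Ω ≃o Ω) (w : FG r) {p q : Ω} : wa a w p = wa a w q ↔ p = q :=
  (FreeGroup.lift a w : Ω ≃o Ω).injective.eq_iff

lemma wa_eq_iff_inv (a : Fin r → Ω ≃o Ω) (w : FG r) {p q : Ω} : wa a w p = q ↔ p = wa a w⁻¹ q := by
  constructor
  · rintro rfl; simp
  · rintro rfl; simp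

/-- Induction principle: a word is a product of letters. -/
lemma fg_induction {P : FG r → Prop} (h1 : P 1) (hof : ∀ i w, P w → P (FreeGroup.of i * w))
    (hinv : ∀ i w, P w → P ((FreeGroup.of i)⁻¹ * w)) (w : FG r) : P w := by
  have key : ∀ v : FG r, ∀ w, P w → P (v * w) := by
    intro v
    induction v using FreeGroup.induction_on with
    | C1 => intro w hw; simpa using hw
    | of i => intro w hw; exact hof i w hw
    | inv_of i _ => intro w hw; exact hinv i w hw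
    | mul x y hx hy => intro w hw; rw [mul_assoc]; exact hx _ (hy _ hw)
  simpa using key w 1 h1

/-- naturality of words. -/
lemma wa_nat (a : Fin r → Ω ≃o Ω) (a' : Fin r → Ω' ≃o Ω') (π : Ω → Ω')
    (h : ∀ i x, π (a i x) = a' i (π x)) (w : FG r) (x : Ω) : π (wa a w x) = wa a' w (π x) := by
  induction w using fg_induction with
  | h1 => simp
  | hof i w ih => rw [wa_mul, wa_mul, wa_of, wa_of, h, ih]
  | hinv i w ih =>
    rw [wa_mul, wa_mul, wa_of_inv, wa_of_inv, ← ih]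
    apply (a' i).injective
    rw [← h]; simp

lemma mon_of_map (N : ℕ) (a : Fin r → Ω ≃o Ω) (a' : Fin r → Ω' ≃o Ω') (π : Ω → Ω')
    (hπ : Monotone π) (h : ∀ i x, π (a i x) = a' i (π x)) (x : Ω) : Mon N a x a' (π x) := by
  intro w v _ _ hwv
  rw [← wa_nat a a' π h, ← wa_nat a a' π h]
  exact hπ hwv

lemma mon_refl (N : ℕ) (a : Fin r → Ω ≃o Ω) (p : Ω) : Mon N a p a p := fun _ _ _ _ h => h

lemma Mon.mono {N M : ℕ} (hNM : M ≤ N) {a : Fin r → Ω ≃o Ω} {p : Ω} {a' : Fin r → Ω' ≃o Ω'}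
    {p' : Ω'} (h : Mon N a p a' p') : Mon M a p a' p' :=
  fun w v hw hv => h w v (hw.trans hNM) (hv.trans hNM)

lemma Mon.eq {N : ℕ} {a : Fin r → Ω ≃o Ω} {p : Ω} {a' : Fin r → Ω' ≃o Ω'}
    {p' : Ω'} (h : Mon N a p a' p') {w v : FG r} (hw : w.norm ≤ N) (hv : v.norm ≤ N)
    (he : wa a w p = wa a v p) : wa a' w p' = wa a' v p' :=
  le_antisymm (h w v hw hv he.le) (h v w hv hw he.ge)

/-- naturality of local operators. -/
lemma Op.nat (O : Op r s) (a : Fin r → Ω ≃o Ω) (a' : Fin r → Ω' ≃o Ω') (π : Ω → Ω')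
    (hπ : Monotone π) (h : ∀ i x, π (a i x) = a' i (π x)) (i : Fin s) (x : Ω) :
    π (O.f Ω a i x) = O.f Ω' a' i (π x) := by
  obtain ⟨w, _, h1, h2⟩ := O.loc Ω a x Ω' a' (π x) (mon_of_map _ a a' π hπ h x) i
  rw [h1, h2, wa_nat a a' π h]

/-- the value of a local operator at a point is given by a word of the ball. -/
lemma Op.exists_word (O : Op r s) (a : Fin r → Ω ≃o Ω) (i : Fin s) (x : Ω) :
    ∃ w : FG r, w.norm ≤ O.N ∧ O.f Ω a i x = wa a w x := by
  obtain ⟨w, h0, h1, _⟩ := O.loc Ω a x Ω a x (mon_refl _ a x) i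
  exact ⟨w, h0, h1⟩

/-- the value of a word in a local operator is given by a word. -/
lemma Op.exists_word' (O : Op r s) (a : Fin r → Ω ≃o Ω) (w : FG s) (x : Ω) :
    ∃ v : FG r, wa (O.f Ω a) w x = wa a v x := by
  induction w using fg_induction with
  | h1 => exact ⟨1, by simp⟩
  | hof i w ih =>
    obtain ⟨v, hv⟩ := ih
    obtain ⟨u, -, hu⟩ := O.exists_word a i (wa a v x)
    exact ⟨u * v, by rw [wa_mul, wa_mul, hv, wa_of, hu]⟩
  | hinv i w ih =>
    obtain ⟨v, hv⟩ := ih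
    obtain ⟨u, -, hu⟩ := O.exists_word a i ((O.f Ω a i).symm (wa a v x))
    refine ⟨u⁻¹ * v, ?_⟩
    rw [wa_mul, wa_mul, hv, wa_of_inv]
    rw [OrderIso.apply_symm_apply] at hu
    nth_rewrite 2 [hu]
    simp

lemma norm_of_le_one (i : Fin r) : (FreeGroup.of i : FG r).norm ≤ 1 := by
  simp

/-- Goodness passes to coarsenings. -/
lemma good_mono (E : Op r r) {a : Fin r → Ω ≃o Ω} {p : Ω} {a' : Fin r → Ω' ≃o Ω'} {p' : Ω'}
    (h : Mon (max E.N 1) a p a' p') (hg : GoodAt E a p) : GoodAt E a' p' := by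
  intro i
  obtain ⟨w, h0, h1, h2⟩ := E.loc Ω a p Ω' a' p' (h.mono (le_max_left _ _)) i
  have h3 : wa a w p = wa a (FreeGroup.of i) p := by
    rw [← h1, hg i, wa_of]
  have h4 := h.eq (h0.trans (le_max_left _ _)) ((norm_of_le_one i).trans (le_max_right _ _)) h3
  rw [h2, h4, wa_of]

/-- the pattern of a point. -/
def patOf (a : Fin r → Ω ≃o Ω) (p : Ω) : Pat r where
  le w v := wa a w p ≤ wa a v p
  refl' _ := le_rfl
  trans' _ _ _ := le_trans
  total' _ _ := le_total _ _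
  mul' u v w h := by
    rw [wa_mul, wa_mul]
    exact (wa_le_iff a u).2 h

lemma hasPat_patOf (a : Fin r → Ω ≃o Ω) (p : Ω) : HasPat a p (patOf a p) := fun _ _ => Iff.rfl

lemma HasPat.shift {a : Fin r → Ω ≃o Ω} {p : Ω} {q : Pat r} (h : HasPat a p q) (g : FG r) :
    HasPat a (wa a g p) (q.shift g) := by
  intro w v
  rw [← wa_mul, ← wa_mul]
  exact h _ _

lemma HasPat.eqv_iff {a : Fin r → Ω ≃o Ω} {p : Ω} {q : Pat r} (h : HasPat a p q) (w v : FG r) :
    q.eqv w v ↔ wa a w p = wa a v p := by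
  rw [Pat.eqv, ← h, ← h]
  exact ⟨fun h => le_antisymm h.1 h.2, fun h => ⟨h.le, h.ge⟩⟩

lemma HasPat.mon {a : Fin r → Ω ≃o Ω} {p : Ω} {q : Pat r} (h : HasPat a p q)
    {a' : Fin r → Ω' ≃o Ω'} {p' : Ω'} {q' : Pat r} (h' : HasPat a' p' q') (N : ℕ)
    (href : q.Refines q') : Mon N a p a' p' := by
  intro w v _ _ hwv
  exact (h' _ _).2 (href _ _ ((h _ _).1 hwv))

lemma Pat.refines_refl (q : Pat r) : q.Refines q := fun _ _ h => h

lemma Pat.Refines.trans {q q' q'' : Pat r} (h : q.Refines q') (h' : q'.Refines q'') :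
    q.Refines q'' := fun w v hh => h' w v (h w v hh)

lemma Pat.Refines.shift {q q' : Pat r} (h : q.Refines q') (g : FG r) :
    (q.shift g).Refines (q'.shift g) := fun _ _ hh => h _ _ hh

/-- The equivalence relation of a pattern. -/
def Pat.setoid (q : Pat r) : Setoid (FG r) where
  r := q.eqv
  iseqv := ⟨fun w => ⟨q.refl' w, q.refl' w⟩, fun h => ⟨h.2, h.1⟩,
    fun h h' => ⟨q.trans' _ _ _ h.1 h'.1, q.trans' _ _ _ h'.2 h.2⟩⟩

/-- The chain of a pattern. -/
def Pat.Q (q : Pat r) : Type := Quotient q.setoid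

/-- The class of a word. -/
def Pat.cls (q : Pat r) (w : FG r) : q.Q := Quotient.mk q.setoid w

lemma Pat.cls_surj (q : Pat r) (x : q.Q) : ∃ w, q.cls w = x := Quotient.exists_rep x

/-- The order of the chain of a pattern. -/
def Pat.qle (q : Pat r) (x y : q.Q) : Prop :=
  Quotient.lift₂ (s₁ := q.setoid) (s₂ := q.setoid) q.le (by
    intro a b a' b' h h'
    exact propext ⟨fun hh => q.trans' _ _ _ h.2 (q.trans' _ _ _ hh h'.1),
      fun hh => q.trans' _ _ _ h.1 (q.trans' _ _ _ hh h'.2)⟩) x y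

lemma Pat.qle_cls (q : Pat r) (w v : FG r) : q.qle (q.cls w) (q.cls v) ↔ q.le w v := Iff.rfl

noncomputable instance Pat.instLinearOrder (q : Pat r) : LinearOrder q.Q where
  le := q.qle
  le_refl x := by
    obtain ⟨w, rfl⟩ := q.cls_surj x
    exact q.refl' w
  le_trans x y z := by
    obtain ⟨w, rfl⟩ := q.cls_surj x
    obtain ⟨v, rfl⟩ := q.cls_surj y
    obtain ⟨u, rfl⟩ := q.cls_surj z
    exact q.trans' _ _ _
  le_antisymm x y := by
    obtain ⟨w, rfl⟩ := q.cls_surj x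
    obtain ⟨v, rfl⟩ := q.cls_surj y
    intro h1 h2
    exact Quotient.sound (s := q.setoid) ⟨h1, h2⟩
  le_total x y := by
    obtain ⟨w, rfl⟩ := q.cls_surj x
    obtain ⟨v, rfl⟩ := q.cls_surj y
    exact q.total' w v
  toDecidableLE := Classical.decRel _

lemma Pat.cls_le_cls (q : Pat r) (w v : FG r) : q.cls w ≤ q.cls v ↔ q.le w v := Iff.rfl

lemma Pat.cls_eq_cls (q : Pat r) (w v : FG r) : q.cls w = q.cls v ↔ q.eqv w v :=
  ⟨fun h => Quotient.exact (s := q.setoid) h, fun h => Quotient.sound (s := q.setoid) h⟩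

lemma Pat.le_mul_iff (q : Pat r) (u w v : FG r) : q.le (u * w) (u * v) ↔ q.le w v := by
  refine ⟨fun h => ?_, fun h => q.mul' _ _ _ h⟩
  have := q.mul' u⁻¹ _ _ h
  simpa using this

/-- Left multiplication by a word on the chain of a pattern. -/
def Pat.qmul (q : Pat r) (u : FG r) : q.Q → q.Q :=
  Quotient.map' (s₁ := q.setoid) (s₂ := q.setoid) (fun w => u * w)
    (fun _ _ h => ⟨q.mul' _ _ _ h.1, q.mul' _ _ _ h.2⟩)

lemma Pat.qmul_cls (q : Pat r) (u w : FG r) : q.qmul u (q.cls w) = q.cls (u * w) := rfl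

/-- Left multiplication by a word as an order isomorphism. -/
noncomputable def Pat.qiso (q : Pat r) (u : FG r) : q.Q ≃o q.Q where
  toFun := q.qmul u
  invFun := q.qmul u⁻¹
  left_inv x := by
    obtain ⟨w, rfl⟩ := q.cls_surj x
    simp [Pat.qmul_cls]
  right_inv x := by
    obtain ⟨w, rfl⟩ := q.cls_surj x
    simp [Pat.qmul_cls]
  map_rel_iff' := by
    intro x y
    obtain ⟨w, rfl⟩ := q.cls_surj x
    obtain ⟨v, rfl⟩ := q.cls_surj y
    exact q.le_mul_iff u w v

/-- The tuple of a pattern. -/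
noncomputable def Pat.act (q : Pat r) (i : Fin r) : q.Q ≃o q.Q := q.qiso (FreeGroup.of i)

lemma Pat.wa_act (q : Pat r) (w v : FG r) : wa q.act w (q.cls v) = q.cls (w * v) := by
  induction w using fg_induction with
  | h1 => simp
  | hof i w ih => rw [wa_mul, wa_of, ih, mul_assoc]; rfl
  | hinv i w ih => rw [wa_mul, wa_of_inv, ih, mul_assoc]; rfl

lemma Pat.hasPat_act (q : Pat r) : HasPat q.act (q.cls 1) q := by
  intro w v
  rw [q.wa_act, q.wa_act, mul_one, mul_one]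
  exact q.cls_le_cls w v

lemma Pat.act_trans (q : Pat r) (x : q.Q) : ∃ w, wa q.act w (q.cls 1) = x := by
  obtain ⟨w, rfl⟩ := q.cls_surj x
  exact ⟨w, by rw [q.wa_act, mul_one]⟩

lemma goodP_iff (E : Op r r) {a : Fin r → Ω ≃o Ω} {p : Ω} {q : Pat r} (h : HasPat a p q) :
    GoodP E q ↔ GoodAt E a p := by
  refine ⟨fun hg => hg Ω a p h, fun hg Ω' _ a' p' h' => ?_⟩
  exact good_mono E (h.mon h' _ q.refines_refl) hg

lemma goodP_mono (E : Op r r) {q q' : Pat r} (h : q'.Refines q) (hg : GoodP E q') : GoodP E q := by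
  intro Ω _ a p hp
  exact good_mono E (q'.hasPat_act.mon hp _ h) (hg _ _ _ q'.hasPat_act)

lemma inC_mono (E : Op r r) {q q' : Pat r} (h : q'.Refines q) (hg : InC E q') : InC E q :=
  fun g => goodP_mono E (h.shift g) (hg g)

lemma InC.goodP {E : Op r r} {q : Pat r} (h : InC E q) : GoodP E q := by
  intro Ω _ a p hp
  refine h 1 Ω a p ?_
  intro w v
  simpa [Pat.shift] using hp w v

lemma Pat.shift_shift (q : Pat r) (g g' : FG r) : (q.shift g).shift g' = q.shift (g' * g) := by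
  simp only [Pat.shift, mul_assoc]

lemma InC.shift {E : Op r r} {q : Pat r} (h : InC E q) (g : FG r) : InC E (q.shift g) := by
  intro g'
  rw [Pat.shift_shift]
  exact h _

lemma inC_of_good (E : Op r r) {a : Fin r → Ω ≃o Ω} {p : Ω} {q : Pat r} (h : HasPat a p q)
    (hg : ∀ g, GoodAt E a (wa a g p)) : InC E q :=
  fun g => (goodP_iff E (h.shift g)).2 (hg g)

lemma InC.goodAt {E : Op r r} {q : Pat r} (hq : InC E q) {a : Fin r → Ω ≃o Ω} {p : Ω}
    (h : HasPat a p q) (g : FG r) : GoodAt E a (wa a g p) :=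
  (goodP_iff E (h.shift g)).1 (hq g)

lemma inC_of_eq (E : Op r r) {a : Fin r → Ω ≃o Ω} {p : Ω} {q : Pat r} (h : HasPat a p q)
    (hg : E.f Ω a = a) : InC E q :=
  inC_of_good E h (fun g i => by rw [hg])

lemma InC.eq {E : Op r r} {q : Pat r} (hq : InC E q) {a : Fin r → Ω ≃o Ω} {p : Ω}
    (h : HasPat a p q) (ht : ∀ x, ∃ w, wa a w p = x) : E.f Ω a = a := by
  funext i
  ext x
  obtain ⟨g, rfl⟩ := ht x
  exact hq.goodAt h g i

lemma mem_stab (q : Pat r) (w : FG r) : w ∈ q.stab ↔ q.eqv w 1 := Iff.rfl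

lemma Pat.eqv_iff (q : Pat r) (w v : FG r) : q.eqv w v ↔ w⁻¹ * v ∈ q.stab := by
  rw [mem_stab, Pat.eqv, Pat.eqv]
  constructor
  · rintro ⟨h1, h2⟩
    have h3 := q.mul' w⁻¹ _ _ h1
    have h4 := q.mul' w⁻¹ _ _ h2
    rw [inv_mul_cancel] at h3 h4
    exact ⟨h4, h3⟩
  · rintro ⟨h1, h2⟩
    have h3 := q.mul' w _ _ h1
    have h4 := q.mul' w _ _ h2
    rw [mul_one, mul_inv_cancel_left] at h3 h4
    exact ⟨h4, h3⟩

lemma HasPat.mem_stab {a : Fin r → Ω ≃o Ω} {p : Ω} {q : Pat r} (h : HasPat a p q) (w : FG r) :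
    w ∈ q.stab ↔ wa a w p = p := by
  rw [HF.mem_stab, h.eqv_iff, wa_one]

lemma mem_stab_shift (q : Pat r) (g w : FG r) : w ∈ (q.shift g).stab ↔ g⁻¹ * w * g ∈ q.stab := by
  rw [mem_stab, Pat.eqv, mem_stab, Pat.eqv]
  simp only [Pat.shift]
  rw [← q.le_mul_iff g (g⁻¹ * w * g), ← q.le_mul_iff g 1 (g⁻¹ * w * g)]
  simp [mul_assoc]

/-- balls of the free group are finite. -/
theorem finite_ball (r N : ℕ) : {w : FG r | w.norm ≤ N}.Finite := by
  have h := List.finite_length_le (Fin r × Bool) N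
  refine Set.Finite.of_finite_image (f := FreeGroup.toWord) (h.subset ?_) ?_
  · rintro _ ⟨w, hw, rfl⟩
    exact hw
  · exact FreeGroup.toWord_injective.injOn

/-- the limit of patterns along an ultrafilter. -/
def limPat {ι : Type} (U : Ultrafilter ι) (q : ι → Pat r) : Pat r where
  le w v := ∀ᶠ k in (U : Filter ι), (q k).le w v
  refl' w := Filter.Eventually.of_forall fun k => (q k).refl' w
  trans' u v w h h' := by
    filter_upwards [h, h'] with k h1 h2 using (q k).trans' _ _ _ h1 h2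
  total' u v := by
    rw [← Ultrafilter.eventually_or]
    exact Filter.Eventually.of_forall fun k => (q k).total' u v
  mul' u v w h := by
    filter_upwards [h] with k h1 using (q k).mul' _ _ _ h1

lemma limPat_le {ι : Type} (U : Ultrafilter ι) (q : ι → Pat r) (w v : FG r) :
    (limPat U q).le w v ↔ ∀ᶠ k in (U : Filter ι), (q k).le w v := Iff.rfl

/-- eventually the patterns agree with the limit on a ball. -/
lemma limPat_ball {ι : Type} (U : Ultrafilter ι) (q : ι → Pat r) (N : ℕ) :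
    ∀ᶠ k in (U : Filter ι), ∀ w v : FG r, w.norm ≤ N → v.norm ≤ N →
      ((q k).le w v ↔ (limPat U q).le w v) := by
  have hf := (finite_ball r N).prod (finite_ball r N)
  have key : ∀ x ∈ ({w : FG r | w.norm ≤ N} ×ˢ {w : FG r | w.norm ≤ N}),
      ∀ᶠ k in (U : Filter ι), ((q k).le x.1 x.2 ↔ (limPat U q).le x.1 x.2) := by
    rintro ⟨w, v⟩ _
    rw [limPat_le]
    by_cases h : ∀ᶠ k in (U : Filter ι), (q k).le w v
    · filter_upwards [h] with k hk using ⟨fun _ => h, fun _ => hk⟩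
    · have h' : ∀ᶠ k in (U : Filter ι), ¬ (q k).le w v := by
        rwa [Ultrafilter.eventually_not]
      filter_upwards [h'] with k hk using ⟨fun hh => absurd hh hk, fun hh => absurd hh h⟩
  have := (Filter.eventually_all_finite hf).2 key
  filter_upwards [this] with k hk w v hw hv
  exact hk (w, v) ⟨hw, hv⟩

lemma goodP_of_ball (E : Op r r) {q q' : Pat r}
    (h : ∀ w v : FG r, w.norm ≤ max E.N 1 → v.norm ≤ max E.N 1 → q'.le w v → q.le w v)
    (hg : GoodP E q') : GoodP E q := by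
  intro Ω _ a p hp
  refine good_mono E (a := q'.act) (p := q'.cls 1) ?_ (hg _ _ _ q'.hasPat_act)
  intro w v hw hv hwv
  exact (hp _ _).2 (h w v hw hv ((q'.hasPat_act _ _).1 hwv))

lemma goodP_lim (E : Op r r) {ι : Type} (U : Ultrafilter ι) (q : ι → Pat r) :
    GoodP E (limPat U q) ↔ ∀ᶠ k in (U : Filter ι), GoodP E (q k) := by
  have h := limPat_ball U q (max E.N 1)
  constructor
  · intro hg
    filter_upwards [h] with k hk
    exact goodP_of_ball E (fun w v hw hv hh => (hk w v hw hv).2 hh) hg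
  · intro hg
    obtain ⟨k, hk, hgk⟩ := (h.and hg).exists
    exact goodP_of_ball E (fun w v hw hv hh => (hk w v hw hv).1 hh) hgk

lemma limPat_shift {ι : Type} (U : Ultrafilter ι) (q : ι → Pat r) (g : FG r) :
    (limPat U q).shift g = limPat U (fun k => (q k).shift g) := rfl

lemma inC_lim (E : Op r r) {ι : Type} (U : Ultrafilter ι) (q : ι → Pat r)
    (h : ∀ᶠ k in (U : Filter ι), InC E (q k)) : InC E (limPat U q) := by
  intro g
  rw [limPat_shift, goodP_lim]
  filter_upwards [h] with k hk using hk g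

end Pool.Agent.H815.HF
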