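import Pool.Agent.H815.HF.Nice

set_option autoImplicit false

open Filter Topology

namespace Pool.Agent.H815.HF

theorem h441_y {α Ω : Type} (S : Finset α) (U : Ultrafilter ℕ) (x : α → ℕ → ℝ) (pt : α → Ω) (o : α)
    (ho : o ∈ S)
    (hbad : ∃ w ∈ S, ∃ v ∈ S, pt w = pt v ∧ ¬ ∀ᶠ k in (U : Filter ℕ), x w k = x v k) :
    ∃ (y : α → ℝ) (δ : ℕ → ℝ) (w0 v0 : α), w0 ∈ S ∧ v0 ∈ S ∧ pt w0 = pt v0 ∧
      (∀ᶠ k in (U : Filter ℕ), 0 < δ k) ∧ (∀ k, δ k = |x w0 k - x v0 k|) ∧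
      (∀ᶠ k in (U : Filter ℕ), ∀ w ∈ S, ∀ v ∈ S, pt w = pt v → |x w k - x v k| ≤ δ k) ∧
      y o = 0 ∧ |y w0 - y v0| = 1 ∧
      (∀ w ∈ S, ∀ v ∈ S, pt w = pt v →
        Tendsto (fun k => (x w k - x v k) / δ k) (U : Filter ℕ) (𝓝 (y w - y v))) := by
  classical
  obtain ⟨R, hRdef⟩ : ∃ R : Finset (α × α), R = (S ×ˢ S).filter (fun q => pt q.1 = pt q.2) :=
    ⟨_, rfl⟩
  have hR : ∀ q : α × α, q ∈ R ↔ q.1 ∈ S ∧ q.2 ∈ S ∧ pt q.1 = pt q.2 := by
    intro q
    rw [hRdef]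
    simp [and_assoc]
  have hRne : R.Nonempty := ⟨(o, o), (hR _).2 ⟨ho, ho, rfl⟩⟩
  have h1 : ∀ᶠ k in (U : Filter ℕ), ∃ q ∈ (R : Set (α × α)), ∀ q' ∈ R,
      |x q'.1 k - x q'.2 k| ≤ |x q.1 k - x q.2 k| :=
    Eventually.of_forall fun k =>
      Finset.exists_max_image R (fun q => |x q.1 k - x q.2 k|) hRne
  rw [Ultrafilter.eventually_exists_mem_iff R.finite_toSet] at h1
  obtain ⟨⟨w0, v0⟩, hq, h2⟩ := h1
  have hq' := (hR _).1 (Finset.mem_coe.mp hq)
  obtain ⟨hw0, hv0, hwv0⟩ := hq'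
  simp only at hw0 hv0 hwv0 h2
  have hle : ∀ᶠ k in (U : Filter ℕ), ∀ w ∈ S, ∀ v ∈ S, pt w = pt v →
      |x w k - x v k| ≤ |x w0 k - x v0 k| := by
    filter_upwards [h2] with k hk w hw v hv hwv
    exact hk (w, v) ((hR _).2 ⟨hw, hv, hwv⟩)
  have hpos : ∀ᶠ k in (U : Filter ℕ), 0 < |x w0 k - x v0 k| := by
    obtain ⟨w, hw, v, hv, hwv, hne⟩ := hbad
    rw [← Ultrafilter.eventually_not] at hne
    filter_upwards [hne, hle] with k h3 h4
    exact lt_of_lt_of_le (abs_pos.mpr (sub_ne_zero.mpr h3)) (h4 w hw v hv hwv)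
  have hlim : ∀ w ∈ S, ∀ v ∈ S, pt w = pt v → ∃ m : ℝ,
      Tendsto (fun k => (x w k - x v k) / |x w0 k - x v0 k|) (U : Filter ℕ) (𝓝 m) := by
    intro w hw v hv hwv
    have h5 : ∀ᶠ k in (U : Filter ℕ), (x w k - x v k) / |x w0 k - x v0 k| ∈ Set.Icc (-1 : ℝ) 1 := by
      filter_upwards [hle, hpos] with k h6 h7
      have h8 := h6 w hw v hv hwv
      rw [Set.mem_Icc, ← abs_le, abs_div, abs_abs, div_le_one h7]
      exact h8
    obtain ⟨m, _, hm⟩ := (isCompact_Icc (a := (-1 : ℝ)) (b := 1)).ultrafilter_le_nhds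
      (U.map (fun k => (x w k - x v k) / |x w0 k - x v0 k|)) (by
        rw [le_principal_iff]
        exact h5)
    exact ⟨m, hm⟩
  obtain ⟨rep, hrep, hrepo⟩ : ∃ rep : Ω → α, (∀ w ∈ S, rep (pt w) ∈ S ∧ pt (rep (pt w)) = pt w) ∧
      rep (pt o) = o := by
    refine ⟨fun l => if l = pt o then o else if h : ∃ w, w ∈ S ∧ pt w = l then h.choose else o,
      ?_, ?_⟩
    · intro w hw
      beta_reduce
      by_cases h3 : pt w = pt o
      · rw [if_pos h3]
        exact ⟨ho, h3.symm⟩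
      · have h4 : ∃ w', w' ∈ S ∧ pt w' = pt w := ⟨w, hw, rfl⟩
        rw [if_neg h3, dif_pos h4]
        exact h4.choose_spec
    · beta_reduce
      rw [if_pos rfl]
  have hy : ∀ w, ∃ m : ℝ, w ∈ S →
      Tendsto (fun k => (x w k - x (rep (pt w)) k) / |x w0 k - x v0 k|) (U : Filter ℕ) (𝓝 m) := by
    intro w
    by_cases hw : w ∈ S
    · obtain ⟨m, hm⟩ := hlim w hw _ (hrep w hw).1 (hrep w hw).2.symm
      exact ⟨m, fun _ => hm⟩
    · exact ⟨0, fun h => absurd h hw⟩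
  choose y hy using hy
  have hyt : ∀ w ∈ S, ∀ v ∈ S, pt w = pt v →
      Tendsto (fun k => (x w k - x v k) / |x w0 k - x v0 k|) (U : Filter ℕ) (𝓝 (y w - y v)) := by
    intro w hw v hv hwv
    refine ((hy w hw).sub (hy v hv)).congr (fun k => ?_)
    rw [hwv, ← sub_div]
    congr 1
    ring
  refine ⟨y, fun k => |x w0 k - x v0 k|, w0, v0, hw0, hv0, hwv0, hpos, fun _ => rfl, hle, ?_, ?_, hyt⟩
  · have h3 := hy o ho
    rw [hrepo] at h3
    simp only [sub_self, zero_div] at h3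
    exact (tendsto_nhds_unique h3 tendsto_const_nhds)
  · have h3 := (hyt w0 hw0 v0 hv0 hwv0).abs
    have h4 : Tendsto (fun k => abs ((x w0 k - x v0 k) / |x w0 k - x v0 k|)) (U : Filter ℕ) (𝓝 1) := by
      apply (tendsto_const_nhds (x := (1 : ℝ))).congr'
      filter_upwards [hpos] with k hk
      rw [abs_div, abs_abs, div_self hk.ne']
    exact tendsto_nhds_unique h3 h4

theorem h441_y5 (U : Ultrafilter ℕ) (ε δ a b c d : ℕ → ℝ) (hε : Tendsto ε (U : Filter ℕ) (𝓝 0))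
    (hδ : ∀ᶠ k in (U : Filter ℕ), 0 < δ k)
    (hle : ∀ᶠ k in (U : Filter ℕ), |c k - d k| ≤ δ k)
    (hx : ∀ k, |(a k - b k) - (c k - d k)| ≤ ε k * |c k - d k|) {m m' : ℝ}
    (h1 : Tendsto (fun k => (a k - b k) / δ k) (U : Filter ℕ) (𝓝 m))
    (h2 : Tendsto (fun k => (c k - d k) / δ k) (U : Filter ℕ) (𝓝 m')) : m = m' := by
  have h3 := h1.sub h2
  have h4 : Tendsto (fun k => (a k - b k) / δ k - (c k - d k) / δ k) (U : Filter ℕ) (𝓝 0) := by
    have hε' : Tendsto (fun k => |ε k|) (U : Filter ℕ) (𝓝 0) := by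
      have := hε.abs
      rwa [abs_zero] at this
    refine squeeze_zero_norm' ?_ hε'
    filter_upwards [hδ, hle] with k hk1 hk2
    rw [← sub_div, Real.norm_eq_abs, abs_div, abs_of_pos hk1, div_le_iff₀ hk1]
    refine (hx k).trans ?_
    calc ε k * |c k - d k| ≤ |ε k| * |c k - d k| :=
          mul_le_mul_of_nonneg_right (le_abs_self _) (abs_nonneg _)
      _ ≤ |ε k| * δ k := mul_le_mul_of_nonneg_left hk2 (abs_nonneg _)
  exact sub_eq_zero.mp (tendsto_nhds_unique h3 h4)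

theorem h441_letter {r : ℕ} (w : FG r) (hw : w ≠ 1) : ∃ (i : Fin r) (w' : FG r), w'.norm < w.norm ∧
    (w = FreeGroup.of i * w' ∨ w = (FreeGroup.of i)⁻¹ * w') := by
  have h0 : w.toWord ≠ [] := fun h => hw (FreeGroup.toWord_eq_nil_iff.mp h)
  obtain ⟨⟨i, b⟩, L, hL⟩ := List.exists_cons_of_ne_nil h0
  have h1 : w = FreeGroup.mk ((i, b) :: L) := by rw [← hL, FreeGroup.mk_toWord]
  refine ⟨i, FreeGroup.mk L, ?_, ?_⟩
  · have h2 : w.norm = L.length + 1 := by
      show w.toWord.length = _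
      rw [hL]
      rfl
    have h3 : (FreeGroup.mk L).norm ≤ L.length := FreeGroup.norm_mk_le
    omega
  · cases b
    · right
      rw [h1]
      rfl
    · left
      rw [h1]
      rfl

/-- compatible systems -/
structure h441Comp {r : ℕ} (P : LP r) (N : ℕ) (U : Ultrafilter ℕ) (x : FG r → ℕ → ℝ)
    (Ω : Type) [LinearOrder Ω] (b : Fin r → Ω ≃o Ω) (G : Subgroup (Ω ≃o Ω)) (p : Ω) : Prop where
  nice : Nice P Ω b G
  sep : ∀ w v : FG r, w.norm ≤ N → v.norm ≤ N → ∀ g ∈ G, g (wa b w p) = wa b v p →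
    wa b w p = wa b v p
  ord : ∀ w v : FG r, w.norm ≤ N → v.norm ≤ N → wa b w p < wa b v p →
    ∀ᶠ k in (U : Filter ℕ), x w k < x v k

open Classical in
/-- unresolved pairs -/
noncomputable def h441bad {r : ℕ} (N : ℕ) (U : Ultrafilter ℕ) (x : FG r → ℕ → ℝ)
    {Ω : Type} [LinearOrder Ω] (b : Fin r → Ω ≃o Ω) (p : Ω) : Finset (FG r × FG r) :=
  ((finite_ball r N).toFinset ×ˢ (finite_ball r N).toFinset).filter
    (fun q => wa b q.1 p = wa b q.2 p ∧ ¬ ∀ᶠ k in (U : Filter ℕ), x q.1 k = x q.2 k)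

theorem h441_mem_bad {r : ℕ} (N : ℕ) (U : Ultrafilter ℕ) (x : FG r → ℕ → ℝ)
    {Ω : Type} [LinearOrder Ω] (b : Fin r → Ω ≃o Ω) (p : Ω) (w v : FG r) :
    (w, v) ∈ h441bad N U x b p ↔ w.norm ≤ N ∧ v.norm ≤ N ∧ wa b w p = wa b v p ∧
      ¬ ∀ᶠ k in (U : Filter ℕ), x w k = x v k := by
  unfold h441bad
  simp [and_assoc]

theorem h441_step {r : ℕ} (P : LP r)
    (nice_step : ∀ (Ω : Type) [LinearOrder Ω] (b : Fin r → Ω ≃o Ω) (G : Subgroup (Ω ≃o Ω)),
      Nice P Ω b G → ∀ (C : AddSubgroup ℝ), C.FG → ∀ (W : Finset Ω),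
      (∀ x ∈ W, ∀ y ∈ W, ∀ g ∈ G, g x = y → x = y) → ∀ (val : Fin r → Ω → C)
      (Z : Finset (Ω × C)), (∀ z ∈ Z, z.1 ∈ W) →
      ∃ (c : Fin r → Ω → C) (G' : Subgroup ((Ω ×ₗ C) ≃o (Ω ×ₗ C))),
        (∀ i, ∀ x ∈ W, c i x = val i x) ∧
        Nice P (Ω ×ₗ C) (lif b (fun i x => OrderIso.addRight (c i x))) G' ∧
        ∀ z ∈ Z, ∀ z' ∈ Z, ∀ g ∈ G', g (toLex z) = toLex z' → z = z')
    (N : ℕ) (U : Ultrafilter ℕ) (x : FG r → ℕ → ℝ) (ε : ℕ → ℝ)
    (hε : Tendsto ε (U : Filter ℕ) (𝓝 0))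
    (hx : ∀ (i : Fin r) (w v : FG r), w.norm ≤ N → v.norm ≤ N →
      (FreeGroup.of i * w).norm ≤ N → (FreeGroup.of i * v).norm ≤ N → ∀ k,
      |(x (FreeGroup.of i * w) k - x (FreeGroup.of i * v) k) - (x w k - x v k)| ≤
        ε k * |x w k - x v k|)
    (Ω : Type) [LinearOrder Ω] (b : Fin r → Ω ≃o Ω) (G : Subgroup (Ω ≃o Ω)) (p : Ω)
    (hc : h441Comp P N U x Ω b G p) (hbad : (h441bad N U x b p).Nonempty) :
    ∃ (Ω' : Type) (_ : LinearOrder Ω') (b' : Fin r → Ω' ≃o Ω') (G' : Subgroup (Ω' ≃o Ω')) (p' : Ω'),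
      h441Comp P N U x Ω' b' G' p' ∧ (h441bad N U x b' p').card < (h441bad N U x b p).card := by
  classical
  obtain ⟨⟨wb, vb⟩, hb⟩ := hbad
  rw [h441_mem_bad] at hb
  obtain ⟨hwb, hvb, hwvb, hneb⟩ := hb
  have hS : ∀ w : FG r, w ∈ (finite_ball r N).toFinset ↔ w.norm ≤ N := by
    intro w
    simp
  have h1N : (1 : FG r).norm ≤ N := by simp
  obtain ⟨y, δ, w0, v0, hw0, hv0, hwv0, hδ, hδe, hle, hy1, hy0, hyt⟩ := h441_y
    (finite_ball r N).toFinset U x (fun w => wa b w p) 1 ((hS 1).2 h1N)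
    ⟨wb, (hS _).2 hwb, vb, (hS _).2 hvb, hwvb, hneb⟩
  simp only [hS] at hw0 hv0 hle hyt
  -- key invariance
  have hinv : ∀ (i : Fin r) (w v : FG r), w.norm ≤ N → v.norm ≤ N →
      (FreeGroup.of i * w).norm ≤ N → (FreeGroup.of i * v).norm ≤ N → wa b w p = wa b v p →
      y (FreeGroup.of i * w) - y (FreeGroup.of i * v) = y w - y v := by
    intro i w v hw hv hiw hiv hwv
    refine h441_y5 U ε δ _ _ _ _ hε hδ ?_ (hx i w v hw hv hiw hiv)
      (hyt _ hiw _ hiv (by rw [wa_mul, wa_mul, hwv])) (hyt w hw v hv hwv)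
    filter_upwards [hle] with k hk
    exact hk w hw v hv hwv
  -- the group
  obtain ⟨C, hC⟩ : ∃ C : AddSubgroup ℝ, C = AddSubgroup.closure
      (((finite_ball r N).toFinset.image y : Finset ℝ) : Set ℝ) := ⟨_, rfl⟩
  have hCFG : C.FG := ⟨(finite_ball r N).toFinset.image y, hC.symm⟩
  have hyC : ∀ w : FG r, w.norm ≤ N → y w ∈ C := by
    intro w hw
    rw [hC]
    apply AddSubgroup.subset_closure
    rw [Finset.mem_coe, Finset.mem_image]
    exact ⟨w, (hS w).2 hw, rfl⟩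
  obtain ⟨yC, hyCe⟩ : ∃ yC : FG r → C, ∀ w : FG r, w.norm ≤ N → ((yC w : C) : ℝ) = y w := by
    refine ⟨fun w => if h : w.norm ≤ N then ⟨y w, hyC w h⟩ else 0, fun w hw => ?_⟩
    beta_reduce
    rw [dif_pos hw]
  obtain ⟨val, hval⟩ : ∃ val : Fin r → Ω → C, ∀ (i : Fin r) (w : FG r), w.norm ≤ N →
      (FreeGroup.of i * w).norm ≤ N → val i (wa b w p) = yC (FreeGroup.of i * w) - yC w := by
    refine ⟨fun i l => if h : ∃ w : FG r, w.norm ≤ N ∧ (FreeGroup.of i * w).norm ≤ N ∧ wa b w p = l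
      then yC (FreeGroup.of i * h.choose) - yC h.choose else 0, fun i w hw hiw => ?_⟩
    have h3 : ∃ w' : FG r, w'.norm ≤ N ∧ (FreeGroup.of i * w').norm ≤ N ∧ wa b w' p = wa b w p :=
      ⟨w, hw, hiw, rfl⟩
    beta_reduce
    rw [dif_pos h3]
    obtain ⟨h4, h5, h6⟩ := h3.choose_spec
    apply Subtype.ext
    show ((yC (FreeGroup.of i * h3.choose) : C) : ℝ) - ((yC h3.choose : C) : ℝ) =
      ((yC (FreeGroup.of i * w) : C) : ℝ) - ((yC w : C) : ℝ)
    rw [hyCe _ h5, hyCe _ h4, hyCe _ hiw, hyCe _ hw]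
    have h7 := hinv i _ _ h4 hw h5 hiw h6
    linarith
  obtain ⟨c, G', hcv, hnice, hZ⟩ := nice_step Ω b G hc.nice C hCFG
    ((finite_ball r N).toFinset.image (fun w => wa b w p)) (by
      intro a ha a' ha' g hg hga
      rw [Finset.mem_image] at ha ha'
      obtain ⟨w, hw, rfl⟩ := ha
      obtain ⟨v, hv, rfl⟩ := ha'
      exact hc.sep w v ((hS w).1 hw) ((hS v).1 hv) g hg hga) val
    ((finite_ball r N).toFinset.image (fun w => (wa b w p, yC w))) (by
      intro z hz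
      rw [Finset.mem_image] at hz ⊢
      obtain ⟨w, hw, rfl⟩ := hz
      exact ⟨w, hw, rfl⟩)
  have hcw : ∀ (i : Fin r) (w : FG r), w.norm ≤ N → (FreeGroup.of i * w).norm ≤ N →
      c i (wa b w p) = yC (FreeGroup.of i * w) - yC w := by
    intro i w hw hiw
    rw [hcv i _ (Finset.mem_image.mpr ⟨w, (hS w).2 hw, rfl⟩), hval i w hw hiw]
  have hy10 : yC 1 = 0 := by
    apply Subtype.ext
    rw [hyCe 1 h1N, hy1]
    rfl
  have hwa : ∀ (n : ℕ) (w : FG r), w.norm ≤ n → w.norm ≤ N →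
      wa (lif b (fun i x => OrderIso.addRight (c i x))) w (toLex (p, (0 : C))) =
        toLex (wa b w p, yC w) := by
    intro n
    induction n with
    | zero =>
      intro w hw _
      have h3 : w = 1 := FreeGroup.norm_eq_zero.mp (Nat.le_zero.mp hw)
      rw [h3, wa_one, wa_one, hy10]
    | succ n ih =>
      intro w hw hwN
      by_cases h1 : w = 1
      · rw [h1, wa_one, wa_one, hy10]
      · obtain ⟨i, w', hlt, h2 | h2⟩ := h441_letter w h1
        · have h3 := ih w' (by omega) (by omega)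
          rw [h2, wa_mul, h3, wa_of, lif_apply, wa_mul, wa_of]
          rw [toLex_inj']
          refine ⟨rfl, ?_⟩
          show yC w' + c i (wa b w' p) = _
          rw [hcw i w' (by omega) (by rw [← h2]; exact hwN)]
          abel
        · have h3 := ih w' (by omega) (by omega)
          have h4 : w' = FreeGroup.of i * w := by rw [h2, mul_inv_cancel_left]
          rw [h2, wa_mul, h3, wa_of_inv, OrderIso.symm_apply_eq, ← h2, lif_apply, toLex_inj']
          refine ⟨by rw [h4, wa_mul, wa_of], ?_⟩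
          show _ = yC w + c i (wa b w p)
          rw [hcw i w hwN (by rw [← h4]; omega), h4]
          abel
  refine ⟨Ω ×ₗ C, inferInstance, lif b (fun i x => OrderIso.addRight (c i x)), G', toLex (p, 0),
    ⟨hnice, ?_, ?_⟩, ?_⟩
  · intro w v hw hv g hg hgw
    rw [hwa _ w le_rfl hw, hwa _ v le_rfl hv] at hgw ⊢
    have h3 := hZ (wa b w p, yC w) (Finset.mem_image.mpr ⟨w, (hS w).2 hw, rfl⟩)
      (wa b v p, yC v) (Finset.mem_image.mpr ⟨v, (hS v).2 hv, rfl⟩) g hg hgw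
    rw [h3]
  · intro w v hw hv hlt
    rw [hwa _ w le_rfl hw, hwa _ v le_rfl hv, Prod.Lex.toLex_lt_toLex] at hlt
    rcases hlt with hlt | ⟨heq, hlt⟩
    · exact hc.ord w v hw hv hlt
    · simp only at heq hlt
      have h3 : y w - y v < 0 := by
        have h4 : ((yC w : C) : ℝ) < ((yC v : C) : ℝ) := hlt
        rw [hyCe w hw, hyCe v hv] at h4
        linarith
      have h5 := (hyt w hw v hv heq).eventually (gt_mem_nhds h3)
      filter_upwards [h5, hδ] with k h6 h7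
      rw [div_neg_iff] at h6
      rcases h6 with h6 | h6
      · linarith [h6.2]
      · linarith [h6.1]
  · apply Finset.card_lt_card
    rw [Finset.ssubset_iff_of_subset]
    · refine ⟨(w0, v0), ?_, ?_⟩
      · rw [h441_mem_bad]
        refine ⟨hw0, hv0, hwv0, fun hev => ?_⟩
        obtain ⟨k, h3, h4⟩ := (hev.and hδ).exists
        rw [hδe, h3, sub_self, abs_zero] at h4
        exact lt_irrefl _ h4
      · rw [h441_mem_bad]
        rintro ⟨_, _, heq, _⟩
        rw [hwa _ w0 le_rfl hw0, hwa _ v0 le_rfl hv0, toLex_inj'] at heq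
        have h3 : ((yC w0 : C) : ℝ) = ((yC v0 : C) : ℝ) := congrArg (fun z : C => (z : ℝ)) heq.2
        rw [hyCe _ hw0, hyCe _ hv0] at h3
        rw [h3, sub_self, abs_zero] at hy0
        norm_num at hy0
    · rintro ⟨w, v⟩ hwv
      rw [h441_mem_bad] at hwv ⊢
      obtain ⟨hw, hv, heq, hne⟩ := hwv
      rw [hwa _ w le_rfl hw, hwa _ v le_rfl hv, toLex_inj'] at heq
      exact ⟨hw, hv, heq.1, hne⟩


/-- The cluster argument: near identity configurations are coarsenings of nice systems. -/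
theorem cluster {r : ℕ} (P : LP r)
    (nice_step : ∀ (Ω : Type) [LinearOrder Ω] (b : Fin r → Ω ≃o Ω) (G : Subgroup (Ω ≃o Ω)),
      Nice P Ω b G → ∀ (C : AddSubgroup ℝ), C.FG → ∀ (W : Finset Ω),
      (∀ x ∈ W, ∀ y ∈ W, ∀ g ∈ G, g x = y → x = y) → ∀ (val : Fin r → Ω → C)
      (Z : Finset (Ω × C)), (∀ z ∈ Z, z.1 ∈ W) →
      ∃ (c : Fin r → Ω → C) (G' : Subgroup ((Ω ×ₗ C) ≃o (Ω ×ₗ C))),
        (∀ i, ∀ x ∈ W, c i x = val i x) ∧
        Nice P (Ω ×ₗ C) (lif b (fun i x => OrderIso.addRight (c i x))) G' ∧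
        ∀ z ∈ Z, ∀ z' ∈ Z, ∀ g ∈ G', g (toLex z) = toLex z' → z = z')
    (N : ℕ) (U : Ultrafilter ℕ) (x : FG r → ℕ → ℝ) (ε : ℕ → ℝ)
    (hε : Tendsto ε (U : Filter ℕ) (𝓝 0))
    (hx : ∀ (i : Fin r) (w v : FG r), w.norm ≤ N → v.norm ≤ N →
      (FreeGroup.of i * w).norm ≤ N → (FreeGroup.of i * v).norm ≤ N → ∀ k,
      |(x (FreeGroup.of i * w) k - x (FreeGroup.of i * v) k) - (x w k - x v k)| ≤
        ε k * |x w k - x v k|) :
    ∃ (Ω : Type) (_ : LinearOrder Ω) (b : Fin r → Ω ≃o Ω) (p : Ω), P.E.f Ω b = b ∧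
      ∀ w v : FG r, w.norm ≤ N → v.norm ≤ N → (∀ᶠ k in (U : Filter ℕ), x v k < x w k) →
        wa b v p < wa b w p := by
  have main : ∀ (n : ℕ) (Ω : Type) [LinearOrder Ω] (b : Fin r → Ω ≃o Ω) (G : Subgroup (Ω ≃o Ω))
      (p : Ω), h441Comp P N U x Ω b G p → (h441bad N U x b p).card ≤ n →
      ∃ (Ω : Type) (_ : LinearOrder Ω) (b : Fin r → Ω ≃o Ω) (p : Ω), P.E.f Ω b = b ∧
      ∀ w v : FG r, w.norm ≤ N → v.norm ≤ N → (∀ᶠ k in (U : Filter ℕ), x v k < x w k) →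
        wa b v p < wa b w p := by
    intro n
    induction n with
    | zero =>
      intro Ω _ b G p hc hcard
      have hempty : h441bad N U x b p = ∅ := Finset.card_eq_zero.mp (Nat.le_zero.mp hcard)
      refine ⟨Ω, inferInstance, b, p, hc.nice.2.2, fun w v hw hv hev => ?_⟩
      rcases lt_trichotomy (wa b v p) (wa b w p) with h | h | h
      · exact h
      · exfalso
        have h1 : (v, w) ∉ h441bad N U x b p := by rw [hempty]; simp
        rw [h441_mem_bad] at h1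
        have h2 : ∀ᶠ k in (U : Filter ℕ), x v k = x w k := by
          by_contra h3
          exact h1 ⟨hv, hw, h, h3⟩
        obtain ⟨k, h4, h5⟩ := (h2.and hev).exists
        linarith
      · exfalso
        have h2 := hc.ord w v hw hv h
        obtain ⟨k, h4, h5⟩ := (h2.and hev).exists
        linarith
    | succ n ih =>
      intro Ω _ b G p hc hcard
      rcases (h441bad N U x b p).eq_empty_or_nonempty with hempty | hne
      · refine ⟨Ω, inferInstance, b, p, hc.nice.2.2, fun w v hw hv hev => ?_⟩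
        rcases lt_trichotomy (wa b v p) (wa b w p) with h | h | h
        · exact h
        · exfalso
          have h1 : (v, w) ∉ h441bad N U x b p := by rw [hempty]; simp
          rw [h441_mem_bad] at h1
          have h2 : ∀ᶠ k in (U : Filter ℕ), x v k = x w k := by
            by_contra h3
            exact h1 ⟨hv, hw, h, h3⟩
          obtain ⟨k, h4, h5⟩ := (h2.and hev).exists
          linarith
        · exfalso
          have h2 := hc.ord w v hw hv h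
          obtain ⟨k, h4, h5⟩ := (h2.and hev).exists
          linarith
      · obtain ⟨Ω', _, b', G', p', hc', hlt⟩ := h441_step P nice_step N U x ε hε hx Ω b G p hc hne
        exact ih Ω' b' G' p' hc' (by omega)
  refine main _ Unit (fun _ => OrderIso.refl _) ⊥ () ⟨⟨?_, ⟨{()}, fun x => ⟨1, Subgroup.one_mem _, by simp⟩⟩, ?_⟩, ?_, ?_⟩ le_rfl
  · intro g _ i
    apply OrderIso.ext
    funext z
    exact Subsingleton.elim _ _
  · funext i
    apply OrderIso.ext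
    funext z
    exact Subsingleton.elim _ _
  · intro w v _ _ g _ _
    exact Subsingleton.elim _ _
  · intro w v _ _ h
    rw [Subsingleton.elim (wa (fun _ => OrderIso.refl Unit) w ())
      (wa (fun _ => OrderIso.refl Unit) v ())] at h
    exact absurd h (lt_irrefl _)

end Pool.Agent.H815.HF
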