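import Pool.Agent.H815.HF.Basic

set_option autoImplicit false

namespace Pool.Agent.H815.HF


lemma mon_shift {r : ℕ} {Ω Ω' : Type} [LinearOrder Ω] [LinearOrder Ω'] {N M : ℕ}
    {a : Fin r → Ω ≃o Ω} {p : Ω} {a' : Fin r → Ω' ≃o Ω'} {p' : Ω'} (h : Mon N a p a' p') (v : FG r)
    (hN : M + v.norm ≤ N) : Mon M a (wa a v p) a' (wa a' v p') := by
  intro w u hw hu hle
  rw [← wa_mul, ← wa_mul] at hle ⊢
  have h1 := FreeGroup.norm_mul_le w v
  have h2 := FreeGroup.norm_mul_le u v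
  exact h _ _ (by omega) (by omega) hle

lemma Op.list_loc {r s : ℕ} (T : Op r s) {Ω Ω' : Type} [LinearOrder Ω]
    [LinearOrder Ω'] (a : Fin r → Ω ≃o Ω) (p : Ω) (a' : Fin r → Ω' ≃o Ω') (p' : Ω')
    (L : List (Fin s × Bool)) (h : Mon (T.N * (L.length + 2)) a p a' p') :
    ∃ v : FG r, v.norm ≤ T.N * L.length ∧ wa (T.f Ω a) (FreeGroup.mk L) p = wa a v p ∧
      wa (T.f Ω' a') (FreeGroup.mk L) p' = wa a' v p' := by
  induction L with
  | nil =>
    refine ⟨1, by simp, ?_, ?_⟩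
    · rw [← FreeGroup.one_eq_mk]; simp
    · rw [← FreeGroup.one_eq_mk]; simp
  | cons x L ih =>
    obtain ⟨i, b⟩ := x
    have hlen : T.N * (((i, b) :: L).length + 2) = T.N * L.length + 3 * T.N := by
      rw [List.length_cons]; ring
    have hlen1 : T.N * ((i, b) :: L).length = T.N * L.length + T.N := by
      rw [List.length_cons]; ring
    rw [hlen] at h
    obtain ⟨v, hv, h1, h2⟩ := ih (h.mono (by
      have : T.N * (L.length + 2) = T.N * L.length + 2 * T.N := by ring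
      omega))
    have hmk : (FreeGroup.mk ((i, b) :: L) : FG s) = FreeGroup.mk [(i, b)] * FreeGroup.mk L := by
      rw [FreeGroup.mul_mk]; rfl
    rw [hmk, wa_mul, wa_mul, h1, h2, hlen1]
    cases b with
    | true =>
      have e : (FreeGroup.mk [(i, true)] : FG s) = FreeGroup.of i := rfl
      rw [e, wa_of, wa_of]
      obtain ⟨u, hu, h3, h4⟩ := T.loc Ω a (wa a v p) Ω' a' (wa a' v p')
        (mon_shift h v (by omega)) i
      refine ⟨u * v, ?_, ?_, ?_⟩
      · have := FreeGroup.norm_mul_le u v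
        omega
      · rw [h3, wa_mul]
      · rw [h4, wa_mul]
    | false =>
      have e : (FreeGroup.mk [(i, false)] : FG s) = (FreeGroup.of i)⁻¹ := rfl
      rw [e, wa_of_inv, wa_of_inv]
      obtain ⟨u, hu, h3⟩ := T.exists_word a i ((T.f Ω a i).symm (wa a v p))
      rw [OrderIso.apply_symm_apply] at h3
      have hx : (T.f Ω a i).symm (wa a v p) = wa a (u⁻¹ * v) p := by
        have h9 := wa_inv_wa a u ((T.f Ω a i).symm (wa a v p))
        rw [← h3] at h9
        rw [wa_mul, h9]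
      have hnorm : (u⁻¹ * v).norm ≤ T.N * L.length + T.N := by
        have := FreeGroup.norm_mul_le u⁻¹ v
        rw [FreeGroup.norm_inv_eq] at this
        omega
      have hmon : Mon T.N a (wa a (u⁻¹ * v) p) a' (wa a' (u⁻¹ * v) p') :=
        mon_shift h (u⁻¹ * v) (by omega)
      obtain ⟨u1, hu1, h4, h5⟩ := T.loc Ω a (wa a (u⁻¹ * v) p) Ω' a' (wa a' (u⁻¹ * v) p') hmon i
      have h6 : wa a u1 (wa a (u⁻¹ * v) p) = wa a u (wa a (u⁻¹ * v) p) := by
        rw [← h4, ← hx, OrderIso.apply_symm_apply]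
        exact h3
      have h7 := hmon.eq hu1 hu h6
      refine ⟨u⁻¹ * v, hnorm, hx, ?_⟩
      rw [OrderIso.symm_apply_eq, h5, h7, ← wa_mul, mul_inv_cancel_left]

/-- A word evaluated in the values of a local operator is local: if the patterns compare on the
ball of radius `T.N * (w.norm + 2)`, then the value of `w` at the tuple `T(a)` and the point `p`
is given by the same word in both systems. -/
theorem Op.word_loc {r s : ℕ} (T : Op r s) (w : FG s) {Ω Ω' : Type} [LinearOrder Ω]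
    [LinearOrder Ω'] (a : Fin r → Ω ≃o Ω) (p : Ω) (a' : Fin r → Ω' ≃o Ω') (p' : Ω')
    (h : Mon (T.N * (w.norm + 2)) a p a' p') :
    ∃ v : FG r, v.norm ≤ T.N * w.norm ∧ wa (T.f Ω a) w p = wa a v p ∧
      wa (T.f Ω' a') w p' = wa a' v p' := by
  have h1 := T.list_loc a p a' p' w.toWord h
  rwa [FreeGroup.mk_toWord] at h1

/-- Composition of local operators. -/
theorem Op.comp {r s m : ℕ} (T : Op r s) (Y : Op s m) :
    ∃ O : Op r m, ∀ (Ω : Type) [LinearOrder Ω] (a : Fin r → Ω ≃o Ω),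
      O.f Ω a = Y.f Ω (T.f Ω a) := by
  refine ⟨{ f := fun Ω _ a => Y.f Ω (T.f Ω a), N := T.N * (Y.N + 2), loc := ?_ }, fun Ω _ a => rfl⟩
  intro Ω _ a p Ω' _ a' p' h i
  have hN : T.N * (Y.N + 2) = T.N * Y.N + 2 * T.N := by ring
  have hmon : Mon Y.N (T.f Ω a) p (T.f Ω' a') p' := by
    intro w v hw hv hle
    have hw1 : T.N * w.norm ≤ T.N * Y.N := Nat.mul_le_mul_left _ hw
    have hv1 : T.N * v.norm ≤ T.N * Y.N := Nat.mul_le_mul_left _ hv
    obtain ⟨w1, hw2, h1, h2⟩ := T.word_loc w a p a' p' (h.mono (Nat.mul_le_mul_left _ (by omega)))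
    obtain ⟨v1, hv2, h3, h4⟩ := T.word_loc v a p a' p' (h.mono (Nat.mul_le_mul_left _ (by omega)))
    rw [h1, h3] at hle
    rw [h2, h4]
    exact h w1 v1 (by omega) (by omega) hle
  obtain ⟨w, hw, h1, h2⟩ := Y.loc Ω (T.f Ω a) p Ω' (T.f Ω' a') p' hmon i
  have hw1 : T.N * w.norm ≤ T.N * Y.N := Nat.mul_le_mul_left _ hw
  obtain ⟨v, hv, h3, h4⟩ := T.word_loc w a p a' p' (h.mono (Nat.mul_le_mul_left _ (by omega)))
  refine ⟨v, by omega, ?_, ?_⟩
  · rw [h1, h3]
  · rw [h2, h4]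

end Pool.Agent.H815.HF
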