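import Mathlib

set_option autoImplicit false

namespace Pool.Agent.H815.HF.CyclicM

/-- Commutative subgroups of free groups are cyclic. -/
theorem cyclic_of_comm {r : ℕ} (H : Subgroup (FreeGroup (Fin r)))
    (h : ∀ a ∈ H, ∀ b ∈ H, a * b = b * a) : ∃ x : FreeGroup (Fin r), H = Subgroup.zpowers x := by
  classical
  have hsub : ∀ a b : IsFreeGroup.Generators H, a = b := by
    intro a b
    by_contra hab
    let F : H →* Equiv.Perm (Fin 3) := IsFreeGroup.lift
      (fun c => if c = a then Equiv.swap 0 1 else Equiv.swap 1 2)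
    have h1 : (IsFreeGroup.of a : H) * IsFreeGroup.of b = IsFreeGroup.of b * IsFreeGroup.of a :=
      Subtype.ext (h _ (IsFreeGroup.of a : H).2 _ (IsFreeGroup.of b : H).2)
    have h2 := congrArg F h1
    rw [map_mul, map_mul] at h2
    have ha : F (IsFreeGroup.of a) = Equiv.swap 0 1 := by
      show IsFreeGroup.lift _ (IsFreeGroup.of a) = _
      rw [IsFreeGroup.lift_of, if_pos rfl]
    have hb : F (IsFreeGroup.of b) = Equiv.swap 1 2 := by
      show IsFreeGroup.lift _ (IsFreeGroup.of b) = _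
      rw [IsFreeGroup.lift_of, if_neg (fun h => hab h.symm)]
    rw [ha, hb] at h2
    revert h2
    decide
  have hy : ∃ y : FreeGroup (IsFreeGroup.Generators H), ∀ w, w ∈ Subgroup.zpowers y := by
    rcases isEmpty_or_nonempty (IsFreeGroup.Generators H) with hE | ⟨⟨a⟩⟩
    · refine ⟨1, fun w => ?_⟩
      rw [Subsingleton.elim w 1]
      exact Subgroup.one_mem _
    · refine ⟨FreeGroup.of a, fun w => ?_⟩
      have h1 : Subgroup.closure (Set.range (FreeGroup.of : IsFreeGroup.Generators H → _)) ≤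
          Subgroup.zpowers (FreeGroup.of a) := by
        rw [Subgroup.closure_le]
        rintro _ ⟨c, rfl⟩
        rw [hsub c a]
        exact Subgroup.mem_zpowers _
      rw [FreeGroup.closure_range_of] at h1
      exact h1 (Subgroup.mem_top _)
  obtain ⟨y, hy⟩ := hy
  refine ⟨((IsFreeGroup.mulEquiv H y : H) : FreeGroup (Fin r)), le_antisymm ?_ ?_⟩
  · intro z hz
    obtain ⟨w, hw⟩ := (IsFreeGroup.mulEquiv H).surjective ⟨z, hz⟩
    obtain ⟨k, hk⟩ := Subgroup.mem_zpowers_iff.1 (hy w)
    refine Subgroup.mem_zpowers_iff.2 ⟨k, ?_⟩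
    have h1 : (IsFreeGroup.mulEquiv H y) ^ k = ⟨z, hz⟩ := by
      rw [← map_zpow, hk, hw]
    have h2 := congrArg (fun t : H => (t : FreeGroup (Fin r))) h1
    simpa using h2
  · rw [Subgroup.zpowers_le]
    exact (IsFreeGroup.mulEquiv H y : H).2

end Pool.Agent.H815.HF.CyclicM
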