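import Mathlib

set_option autoImplicit false

/-! Basic definitions: words acting on chains, local operators, patterns. -/

namespace Pool.Agent.H815.HF

/-- The free group of rank `r`. -/
abbrev FG (r : ℕ) := FreeGroup (Fin r)

/-- The image of the point `p` under the word `w` evaluated at the tuple `a` of automorphisms
of the chain `Ω` (left action). -/
def wa {r : ℕ} {Ω : Type} [LinearOrder Ω] (a : Fin r → Ω ≃o Ω) (w : FG r) (p : Ω) : Ω :=
  (FreeGroup.lift a w : Ω ≃o Ω) p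

/-- `Mon N a p a' p'`: on the ball of radius `N` of the free group the pattern of `(a', p')`
is a coarsening of the pattern of `(a, p)`. -/
def Mon {r : ℕ} (N : ℕ) {Ω : Type} [LinearOrder Ω] (a : Fin r → Ω ≃o Ω) (p : Ω)
    {Ω' : Type} [LinearOrder Ω'] (a' : Fin r → Ω' ≃o Ω') (p' : Ω') : Prop :=
  ∀ w v : FG r, w.norm ≤ N → v.norm ≤ N → wa a w p ≤ wa a v p → wa a' w p' ≤ wa a' v p'

/-- Local operators: natural families of maps `Aut(Ω)^r → Aut(Ω)^s`, determined pointwise by the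
pattern on a ball of the free group. -/
structure Op (r s : ℕ) where
  f : ∀ (Ω : Type) [LinearOrder Ω], (Fin r → Ω ≃o Ω) → Fin s → Ω ≃o Ω
  N : ℕ
  loc : ∀ (Ω : Type) [LinearOrder Ω] (a : Fin r → Ω ≃o Ω) (p : Ω)
    (Ω' : Type) [LinearOrder Ω'] (a' : Fin r → Ω' ≃o Ω') (p' : Ω'),
    Mon N a p a' p' → ∀ i : Fin s, ∃ w : FG r, w.norm ≤ N ∧ f Ω a i p = wa a w p ∧
      f Ω' a' i p' = wa a' w p'

/-- Local pairs: `T ∘ Y = id`, `E = Y ∘ T`. -/
structure LP (r : ℕ) where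
  Y : Op r r
  T : Op r r
  E : Op r r
  TY : ∀ (Ω : Type) [LinearOrder Ω] (a : Fin r → Ω ≃o Ω), T.f Ω (Y.f Ω a) = a
  hE : ∀ (Ω : Type) [LinearOrder Ω] (a : Fin r → Ω ≃o Ω), E.f Ω a = Y.f Ω (T.f Ω a)

/-- `E` fixes the tuple `a` at the point `p`. -/
def GoodAt {r : ℕ} (E : Op r r) {Ω : Type} [LinearOrder Ω] (a : Fin r → Ω ≃o Ω) (p : Ω) : Prop :=
  ∀ i, E.f Ω a i p = a i p

/-- Patterns: left invariant total preorders on the free group. -/
structure Pat (r : ℕ) where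
  le : FG r → FG r → Prop
  refl' : ∀ w, le w w
  trans' : ∀ u v w, le u v → le v w → le u w
  total' : ∀ u v, le u v ∨ le v u
  mul' : ∀ u v w, le v w → le (u * v) (u * w)

/-- `(a, p)` has pattern `q`. -/
def HasPat {r : ℕ} {Ω : Type} [LinearOrder Ω] (a : Fin r → Ω ≃o Ω) (p : Ω) (q : Pat r) : Prop :=
  ∀ w v : FG r, wa a w p ≤ wa a v p ↔ q.le w v

/-- Equivalence of words in a pattern. -/
def Pat.eqv {r : ℕ} (q : Pat r) (w v : FG r) : Prop := q.le w v ∧ q.le v w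

/-- The pattern at the point `g`. -/
def Pat.shift {r : ℕ} (q : Pat r) (g : FG r) : Pat r where
  le w v := q.le (w * g) (v * g)
  refl' _ := q.refl' _
  trans' _ _ _ := q.trans' _ _ _
  total' _ _ := q.total' _ _
  mul' u v w h := by
    have := q.mul' u _ _ h
    simpa only [mul_assoc] using this

/-- `q'` refines `q`. -/
def Pat.Refines {r : ℕ} (q' q : Pat r) : Prop := ∀ w v : FG r, q'.le w v → q.le w v

/-- `E` fixes the base point of the pattern. -/
def GoodP {r : ℕ} (E : Op r r) (q : Pat r) : Prop :=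
  ∀ (Ω : Type) [LinearOrder Ω] (a : Fin r → Ω ≃o Ω) (p : Ω), HasPat a p q → GoodAt E a p

/-- `E` fixes all points of the pattern. -/
def InC {r : ℕ} (E : Op r r) (q : Pat r) : Prop := ∀ g, GoodP E (q.shift g)

/-- The stabiliser of the base point. -/
def Pat.stab {r : ℕ} (q : Pat r) : Subgroup (FG r) where
  carrier := {w | q.eqv w 1}
  one_mem' := ⟨q.refl' 1, q.refl' 1⟩
  mul_mem' := by
    rintro a b ⟨h1, h2⟩ ⟨h3, h4⟩
    have h5 := q.mul' a _ _ h3
    have h6 := q.mul' a _ _ h4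
    rw [mul_one] at h5 h6
    exact ⟨q.trans' _ _ _ h5 h1, q.trans' _ _ _ h2 h6⟩
  inv_mem' := by
    rintro a ⟨h1, h2⟩
    have h5 := q.mul' a⁻¹ _ _ h1
    have h6 := q.mul' a⁻¹ _ _ h2
    rw [mul_one, inv_mul_cancel] at h5 h6
    exact ⟨h6, h5⟩

/-- The descent condition. -/
def DE {r : ℕ} (E : Op r r) (q : Pat r) : Prop :=
  InC E q ∧ (∃ x y : FG r, q.stab = Subgroup.closure {x, y}) ∧
  (∃ q' : Pat r, InC E q' ∧ q'.Refines q ∧ ∃ g₁ ∈ q.stab, ∃ g₂ ∈ q.stab,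
    ¬ q'.eqv (g₁ * g₂) (g₂ * g₁)) ∧
  (∃ q'' : Pat r, q''.Refines q ∧ ¬ InC E q'')

/-- The refinement of `q` by a pattern `ρ` on a free group isomorphic to the stabiliser. -/
def Ind {r s : ℕ} (q : Pat r) (ι : FG s ≃* q.stab) (ρ : Pat s) : FG r → FG r → Prop :=
  fun w v => (q.le w v ∧ ¬ q.le v w) ∨ ∃ h : w⁻¹ * v ∈ q.stab, ρ.le 1 (ι.symm ⟨w⁻¹ * v, h⟩)

/-- Number of edges of the partial Schreier graph inside `D`. -/
def ec {r : ℕ} {X : Type} [DecidableEq X] (f : Fin r → X → X) (D : Finset X) : ℕ :=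
  ((D ×ˢ (Finset.univ : Finset (Fin r))).filter (fun e => f e.2 e.1 ∈ D)).card

end Pool.Agent.H815.HF
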