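import Pool.Agent.H815.HF.IndPatLem

set_option autoImplicit false

namespace Pool.Agent.H815.HF

lemma pow_le_one_9626 {r : ℕ} (q : Pat r) (x : FG r) (n : ℕ) :
    q.le (x ^ (n + 1)) 1 ↔ q.le x 1 := by
  constructor
  · intro h
    by_contra hx
    have hx1 : q.le 1 x := (q.total' 1 x).resolve_right hx
    have key : ∀ m : ℕ, q.le x (x ^ (m + 1)) := by
      intro m
      induction m with
      | zero => simpa using q.refl' x
      | succ m ih =>
        have h1 := q.mul' (x ^ (m + 1)) _ _ hx1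
        rw [mul_one, ← pow_succ] at h1
        exact q.trans' _ _ _ ih h1
    exact hx (q.trans' _ _ _ (key n) h)
  · intro h
    induction n with
    | zero => simpa using h
    | succ n ih =>
      have h1 := q.mul' (x ^ (n + 1)) _ _ h
      rw [mul_one, ← pow_succ] at h1
      exact q.trans' _ _ _ h1 ih

lemma one_le_pow_9626 {r : ℕ} (q : Pat r) (x : FG r) (n : ℕ) :
    q.le 1 (x ^ (n + 1)) ↔ q.le 1 x := by
  constructor
  · intro h
    by_contra hx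
    have hx1 : q.le x 1 := (q.total' 1 x).resolve_left hx
    have key : ∀ m : ℕ, q.le (x ^ (m + 1)) x := by
      intro m
      induction m with
      | zero => simpa using q.refl' x
      | succ m ih =>
        have h1 := q.mul' (x ^ (m + 1)) _ _ hx1
        rw [mul_one, ← pow_succ] at h1
        exact q.trans' _ _ _ h1 ih
    exact hx (q.trans' _ _ _ h (key n))
  · intro h
    induction n with
    | zero => simpa using h
    | succ n ih =>
      have h1 := q.mul' (x ^ (n + 1)) _ _ h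
      rw [mul_one, ← pow_succ] at h1
      exact q.trans' _ _ _ ih h1

lemma one_le_zpow_9626 {r : ℕ} (q1 q2 : Pat r) (x : FG r) (h1 : q1.le 1 x → q2.le 1 x)
    (h2 : q1.le x 1 → q2.le x 1) (m : ℤ) (h : q1.le 1 (x ^ m)) : q2.le 1 (x ^ m) := by
  rcases Int.eq_nat_or_neg m with ⟨n, rfl | rfl⟩
  · rw [zpow_natCast] at h ⊢
    cases n with
    | zero => simpa using q2.refl' 1
    | succ n =>
      rw [one_le_pow_9626] at h ⊢
      exact h1 h
  · rw [zpow_neg, zpow_natCast] at h ⊢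
    cases n with
    | zero => simpa using q2.refl' 1
    | succ n =>
      have e : ∀ q : Pat r, q.le 1 (x ^ (n + 1))⁻¹ ↔ q.le x 1 := by
        intro q
        rw [← q.le_mul_iff (x ^ (n + 1)), mul_one, mul_inv_cancel, pow_le_one_9626]
      rw [e] at h ⊢
      exact h2 h

/-- The base case of the descent: if the short elements of the stabiliser commute, all refinements
are good at the base point. -/
theorem descent_base {r : ℕ} (P : LP r)
    (hsign : ∀ (P' : LP 2) (w : FG 2), w ≠ 1 → (∃ q : Pat 2, InC P'.E q ∧ ¬ q.le w 1) ∧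
      (∃ q : Pat 2, InC P'.E q ∧ ¬ q.le 1 w))
    (hloc : ∀ q : Pat r, DE P.E q → ∃ (P' : LP 2) (ι : FG 2 ≃* q.stab),
      ∀ ρ : Pat 2, InC P'.E ρ ↔ InC P.E (IndPat q ι ρ))
    (cyclic : ∀ H : Subgroup (FG r), (∀ a ∈ H, ∀ b ∈ H, a * b = b * a) →
      ∃ x : FG r, H = Subgroup.zpowers x)
    (k : ℕ) (hk : 2 * max P.E.N 1 ≤ 2 * k + 1) (q : Pat r) (hq : DE P.E q)
    (hcomm : ∀ g₁ ∈ q.stab, ∀ g₂ ∈ q.stab, g₁.norm ≤ 2 * k + 1 → g₂.norm ≤ 2 * k + 1 →
      g₁ * g₂ = g₂ * g₁)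
    (q'' : Pat r) (h'' : q''.Refines q) : GoodP P.E q'' := by
  classical
  set S : Set (FG r) := {w : FG r | w ∈ q.stab ∧ w.norm ≤ 2 * k + 1} with hS
  have hSc : ∀ a ∈ Subgroup.closure S, ∀ b ∈ Subgroup.closure S, a * b = b * a := by
    intro a ha b hb
    have h0 : ∀ x ∈ S, ∀ y ∈ S, x * y = y * x := fun x hx y hy =>
      hcomm x hx.1 y hy.1 hx.2 hy.2
    induction ha, hb using Subgroup.closure_induction₂ with
    | mem x y hx hy => exact h0 x hx y hy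
    | one_left x _ => simp
    | one_right x _ => simp
    | mul_left x y z _ _ _ h1 h2 => rw [mul_assoc, h2, ← mul_assoc, h1, mul_assoc]
    | mul_right x y z _ _ _ h1 h2 => rw [← mul_assoc, h1, mul_assoc, h2, mul_assoc]
    | inv_left x y _ _ h1 => rw [inv_mul_eq_iff_eq_mul, ← mul_assoc, h1, mul_inv_cancel_right]
    | inv_right x y _ _ h1 => rw [eq_inv_mul_iff_mul_eq, ← mul_assoc, ← h1, mul_inv_cancel_right]
  obtain ⟨x, hx⟩ := cyclic _ hSc
  have hxH : x ∈ Subgroup.closure S := by rw [hx]; exact Subgroup.mem_zpowers x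
  have hHs : Subgroup.closure S ≤ q.stab := by
    rw [Subgroup.closure_le]
    intro w hw
    exact hw.1
  have hxs : x ∈ q.stab := hHs hxH
  -- comparison of refinements
  have comp : ∀ q1 : Pat r, q1.Refines q → (q1.le 1 x → q''.le 1 x) →
      (q1.le x 1 → q''.le x 1) → GoodP P.E q1 → GoodP P.E q'' := by
    intro q1 h1 ha hb hg
    refine goodP_of_ball P.E ?_ hg
    intro w v hw hv hwv
    by_cases he : q.eqv w v
    · have hγ := (q.eqv_iff w v).1 he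
      have hn : (w⁻¹ * v).norm ≤ 2 * k + 1 := by
        have e1 := FreeGroup.norm_mul_le w⁻¹ v
        rw [FreeGroup.norm_inv_eq] at e1
        omega
      have hm : w⁻¹ * v ∈ Subgroup.closure S := Subgroup.subset_closure ⟨hγ, hn⟩
      rw [hx, Subgroup.mem_zpowers_iff] at hm
      obtain ⟨m, hm⟩ := hm
      rw [q1.le_iff_inv, ← hm] at hwv
      rw [q''.le_iff_inv, ← hm]
      exact one_le_zpow_9626 q1 q'' x ha hb m hwv
    · by_contra hc
      have h2 : q''.le v w := (q''.total' v w).resolve_right hc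
      exact he ⟨h1 _ _ hwv, h'' _ _ h2⟩
  by_cases h1 : q''.le 1 x
  · by_cases h2 : q''.le x 1
    · exact comp q q.refines_refl (fun _ => h1) (fun _ => h2) hq.1.goodP
    · have hx1 : x ≠ 1 := by
        rintro rfl
        exact h2 (q''.refl' 1)
      obtain ⟨P', ι, hι⟩ := hloc q hq
      have hw0 : ι.symm ⟨x, hxs⟩ ≠ 1 := by
        intro h
        have h3 : (⟨x, hxs⟩ : q.stab) = 1 := by
          rw [← map_one ι.symm] at h
          exact ι.symm.injective h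
        exact hx1 (congrArg Subtype.val h3)
      obtain ⟨ρ, hρ, hρ'⟩ := (hsign P' _ hw0).1
      refine comp (IndPat q ι ρ) (ind_refines q ι ρ) (fun _ => h1) (fun h => ?_)
        ((hι ρ).1 hρ).goodP
      exfalso
      have h3 : x⁻¹ * 1 ∈ q.stab := by rw [mul_one]; exact q.stab.inv_mem hxs
      rw [indPat_le_iff q ι ρ x 1 h3] at h
      have h4 : (⟨x⁻¹ * 1, h3⟩ : q.stab) = (⟨x, hxs⟩ : q.stab)⁻¹ := Subtype.ext (by simp)
      rw [h4, map_inv, ← ρ.le_mul_iff (ι.symm ⟨x, hxs⟩), mul_one, mul_inv_cancel] at h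
      exact hρ' h
  · have h2 : q''.le x 1 := (q''.total' x 1).resolve_right h1
    have hx1 : x ≠ 1 := by
      rintro rfl
      exact h1 (q''.refl' 1)
    obtain ⟨P', ι, hι⟩ := hloc q hq
    have hw0 : ι.symm ⟨x, hxs⟩ ≠ 1 := by
      intro h
      have h3 : (⟨x, hxs⟩ : q.stab) = 1 := by
        rw [← map_one ι.symm] at h
        exact ι.symm.injective h
      exact hx1 (congrArg Subtype.val h3)
    obtain ⟨ρ, hρ, hρ'⟩ := (hsign P' _ hw0).2
    refine comp (IndPat q ι ρ) (ind_refines q ι ρ) (fun h => ?_) (fun _ => h2)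
      ((hι ρ).1 hρ).goodP
    exfalso
    have h3 : (1 : FG r)⁻¹ * x ∈ q.stab := by rw [inv_one, one_mul]; exact hxs
    rw [indPat_le_iff q ι ρ 1 x h3] at h
    have h4 : (⟨(1 : FG r)⁻¹ * x, h3⟩ : q.stab) = (⟨x, hxs⟩ : q.stab) := Subtype.ext (by simp)
    rw [h4] at h
    exact hρ' h

lemma shift_back_9626 {r : ℕ} (q : Pat r) (g : FG r) : (q.shift g).shift g⁻¹ = q := by
  rw [Pat.shift_shift, inv_mul_cancel]
  apply pat_ext
  intro w v
  simp [Pat.shift]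

lemma mem_stab_shift_conj_9626 {r : ℕ} (q : Pat r) (g w : FG r) :
    g * w * g⁻¹ ∈ (q.shift g).stab ↔ w ∈ q.stab := by
  rw [mem_stab_shift]
  rw [show g⁻¹ * (g * w * g⁻¹) * g = w by group]

lemma DE_shift_9626 {r : ℕ} (E : Op r r) (q : Pat r) (h : DE E q) (g : FG r) :
    DE E (q.shift g) := by
  obtain ⟨h1, ⟨x, y, hxy⟩, ⟨q', hq', href, g₁, hg₁, g₂, hg₂, hne⟩, ⟨q'', href'', hn⟩⟩ := h
  refine ⟨h1.shift g, ⟨g * x * g⁻¹, g * y * g⁻¹, ?_⟩, ⟨q'.shift g, hq'.shift g, href.shift g,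
    g * g₁ * g⁻¹, (mem_stab_shift_conj_9626 q g g₁).2 hg₁, g * g₂ * g⁻¹,
    (mem_stab_shift_conj_9626 q g g₂).2 hg₂, ?_⟩, ⟨q''.shift g, href''.shift g, ?_⟩⟩
  · have e : (q.shift g).stab = q.stab.map (MulAut.conj g).toMonoidHom := by
      ext w
      rw [Subgroup.mem_map]
      constructor
      · intro hw
        refine ⟨g⁻¹ * w * g, (mem_stab_shift q g w).1 hw, ?_⟩
        show g * (g⁻¹ * w * g) * g⁻¹ = w
        group
      · rintro ⟨u, hu, rfl⟩
        exact (mem_stab_shift_conj_9626 q g u).2 hu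
    rw [e, hxy, MonoidHom.map_closure, Set.image_pair]
    rfl
  · intro hc
    apply hne
    have h3 : q'.eqv ((g * g₁ * g⁻¹) * (g * g₂ * g⁻¹) * g) ((g * g₂ * g⁻¹) * (g * g₁ * g⁻¹) * g) :=
      hc
    rw [show (g * g₁ * g⁻¹) * (g * g₂ * g⁻¹) * g = g * (g₁ * g₂) by group,
      show (g * g₂ * g⁻¹) * (g * g₁ * g⁻¹) * g = g * (g₂ * g₁) by group] at h3
    exact ⟨(q'.le_mul_iff _ _ _).1 h3.1, (q'.le_mul_iff _ _ _).1 h3.2⟩
  · intro hc
    apply hn
    have := hc.shift g⁻¹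
    rwa [shift_back_9626] at this

lemma ind_mem_9626 {r : ℕ} (q : Pat r) (ι : FG 2 ≃* q.stab) (ρ : Pat 2) (u : FG 2) :
    ((ι u : q.stab) : FG r) ∈ (IndPat q ι ρ).stab ↔ u ∈ ρ.stab := by
  rw [ind_stab]
  constructor
  · rintro ⟨h1, h2⟩
    have e : (⟨((ι u : q.stab) : FG r), h1⟩ : q.stab) = ι u := rfl
    rwa [e, MulEquiv.symm_apply_apply] at h2
  · intro h
    refine ⟨(ι u).2, ?_⟩
    have e : (⟨((ι u : q.stab) : FG r), (ι u).2⟩ : q.stab) = ι u := rfl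
    rwa [e, MulEquiv.symm_apply_apply]

/-- The step of the descent. -/
lemma descent_step_9626 {r : ℕ} (P : LP r)
    (hexit : ∀ (P' : LP 2), (∃ (Ω : Type) (_ : LinearOrder Ω) (a : Fin 2 → Ω ≃o Ω),
      P'.E.f Ω a ≠ a) → ∃ ρ : Pat 2, DE P'.E ρ ∧ ρ.stab ≠ ⊤)
    (hloc : ∀ q : Pat r, DE P.E q → ∃ (P' : LP 2) (ι : FG 2 ≃* q.stab),
      ∀ ρ : Pat 2, InC P'.E ρ ↔ InC P.E (IndPat q ι ρ))
    (q : Pat r) (hq : DE P.E q) : ∃ q1 : Pat r, DE P.E q1 ∧ q1.stab ≤ q.stab ∧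
      q1.stab ≠ q.stab := by
  obtain ⟨P', ι, hι⟩ := hloc q hq
  obtain ⟨q'', href'', hn⟩ := hq.2.2.2
  obtain ⟨ρ'', rfl⟩ := ind_surj q ι q'' href''
  have hn' : ¬ InC P'.E ρ'' := fun h => hn ((hι ρ'').1 h)
  obtain ⟨ρ, hρ, hρtop⟩ := hexit P' ⟨ρ''.Q, inferInstance, ρ''.act, fun h =>
    hn' (inC_of_eq P'.E ρ''.hasPat_act h)⟩
  obtain ⟨h1, ⟨x, y, hxy⟩, ⟨ρ', hρ', href, g₁, hg₁, g₂, hg₂, hne⟩, ⟨ρ3, href3, hn3⟩⟩ := hρ
  refine ⟨IndPat q ι ρ, ⟨(hι ρ).1 h1, ⟨(ι x : FG r), (ι y : FG r), ?_⟩,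
    ⟨IndPat q ι ρ', (hι ρ').1 hρ', ind_mono q ι href, (ι g₁ : FG r),
      (ind_mem_9626 q ι ρ g₁).2 hg₁, (ι g₂ : FG r), (ind_mem_9626 q ι ρ g₂).2 hg₂, ?_⟩,
    ⟨IndPat q ι ρ3, ind_mono q ι href3, fun h => hn3 ((hι ρ3).2 h)⟩⟩, ?_, ?_⟩
  · have e : (IndPat q ι ρ).stab = ρ.stab.map (q.stab.subtype.comp ι.toMonoidHom) := by
      ext w
      rw [Subgroup.mem_map]
      constructor
      · intro hw
        obtain ⟨h, hw'⟩ := (ind_stab q ι ρ w).1 hw
        refine ⟨ι.symm ⟨w, h⟩, hw', ?_⟩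
        show ((ι (ι.symm ⟨w, h⟩) : q.stab) : FG r) = w
        rw [MulEquiv.apply_symm_apply]
      · rintro ⟨u, hu, rfl⟩
        exact (ind_mem_9626 q ι ρ u).2 hu
    rw [e, hxy, MonoidHom.map_closure, Set.image_pair]
    rfl
  · intro hc
    apply hne
    rw [Pat.eqv_iff] at hc ⊢
    rw [← ind_mem_9626 q ι ρ' ((g₁ * g₂)⁻¹ * (g₂ * g₁))]
    have e : ((ι ((g₁ * g₂)⁻¹ * (g₂ * g₁)) : q.stab) : FG r) =
        ((ι g₁ : FG r) * (ι g₂ : FG r))⁻¹ * ((ι g₂ : FG r) * (ι g₁ : FG r)) := by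
      simp only [map_mul, map_inv, Subgroup.coe_mul, Subgroup.coe_inv]
    rw [e]
    exact hc
  · intro w hw
    exact ((ind_stab q ι ρ w).1 hw).1
  · intro hc
    apply hρtop
    rw [eq_top_iff]
    intro u _
    rw [← ind_mem_9626 q ι ρ u, hc]
    exact (ι u).2

/-- The descent: no pattern satisfies the descent condition. -/
theorem descent {r : ℕ} (P : LP r)
    (hexit : ∀ (P' : LP 2), (∃ (Ω : Type) (_ : LinearOrder Ω) (a : Fin 2 → Ω ≃o Ω),
      P'.E.f Ω a ≠ a) → ∃ ρ : Pat 2, DE P'.E ρ ∧ ρ.stab ≠ ⊤)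
    (hsign : ∀ (P' : LP 2) (w : FG 2), w ≠ 1 → (∃ q : Pat 2, InC P'.E q ∧ ¬ q.le w 1) ∧
      (∃ q : Pat 2, InC P'.E q ∧ ¬ q.le 1 w))
    (hloc : ∀ q : Pat r, DE P.E q → ∃ (P' : LP 2) (ι : FG 2 ≃* q.stab),
      ∀ ρ : Pat 2, InC P'.E ρ ↔ InC P.E (IndPat q ι ρ))
    (cyclic : ∀ H : Subgroup (FG r), (∀ a ∈ H, ∀ b ∈ H, a * b = b * a) →
      ∃ x : FG r, H = Subgroup.zpowers x)
    (star : ∀ (k : ℕ) (Δ : Subgroup (FG r)), (∃ x y : FG r, Δ = Subgroup.closure {x, y}) →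
      ∀ g₁ g₂ : FG r, g₁ ∈ Δ → g₂ ∈ Δ → g₁.norm ≤ 2 * k + 1 → g₂.norm ≤ 2 * k + 1 →
      g₁ * g₂ ≠ g₂ * g₁ → Subgroup.closure {w : FG r | w ∈ Δ ∧ w.norm ≤ 2 * k + 1} = Δ)
    (q : Pat r) : ¬ DE P.E q := by
  classical
  intro hDE
  set k : ℕ := max P.E.N 1 with hkdef
  have hk : 2 * max P.E.N 1 ≤ 2 * k + 1 := by omega
  have hfin : ∀ (q : Pat r) (g : FG r),
      {w : FG r | w ∈ (q.shift g).stab ∧ w.norm ≤ 2 * k + 1}.Finite := fun q g =>
    (finite_ball r (2 * k + 1)).subset (fun w hw => hw.2)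
  have main : ∀ (m : ℕ) (q : Pat r), DE P.E q →
      (∀ g : FG r, (∃ g₁ ∈ (q.shift g).stab, ∃ g₂ ∈ (q.shift g).stab, g₁.norm ≤ 2 * k + 1 ∧
        g₂.norm ≤ 2 * k + 1 ∧ g₁ * g₂ ≠ g₂ * g₁) →
        {w : FG r | w ∈ (q.shift g).stab ∧ w.norm ≤ 2 * k + 1}.ncard ≤ m) → False := by
    intro m
    induction m with
    | zero =>
      intro q hq hm
      -- some point has noncommuting short elements
      have hex : ∃ g : FG r, ∃ g₁ ∈ (q.shift g).stab, ∃ g₂ ∈ (q.shift g).stab,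
          g₁.norm ≤ 2 * k + 1 ∧ g₂.norm ≤ 2 * k + 1 ∧ g₁ * g₂ ≠ g₂ * g₁ := by
        by_contra hcon
        obtain ⟨q'', href, hn⟩ := hq.2.2.2
        apply hn
        intro g
        refine descent_base P hsign hloc cyclic k hk (q.shift g) (DE_shift_9626 _ q hq g) ?_ _
          (href.shift g)
        intro g₁ h1 g₂ h2 n1 n2
        by_contra hne
        exact hcon ⟨g, g₁, h1, g₂, h2, n1, n2, hne⟩
      obtain ⟨g, hg⟩ := hex
      have h1 := hm g hg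
      obtain ⟨g₁, h1', -, -, n1, -, -⟩ := hg
      have h2 : 0 < {w : FG r | w ∈ (q.shift g).stab ∧ w.norm ≤ 2 * k + 1}.ncard :=
        (Set.ncard_pos (hfin q g)).2 ⟨g₁, h1', n1⟩
      omega
    | succ m ih =>
      intro q hq hm
      obtain ⟨q1, hq1, hle, hne⟩ := descent_step_9626 P hexit hloc q hq
      refine ih q1 hq1 ?_
      intro g hg
      have hsub : ∀ w, w ∈ (q1.shift g).stab → w ∈ (q.shift g).stab := by
        intro w hw
        rw [mem_stab_shift] at hw ⊢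
        exact hle hw
      have hg' := hg
      obtain ⟨g₁, h1, g₂, h2, n1, n2, hnc⟩ := hg
      have h3 := hm g ⟨g₁, hsub _ h1, g₂, hsub _ h2, n1, n2, hnc⟩
      have c1 := star k (q1.shift g).stab (DE_shift_9626 _ q1 hq1 g).2.1 g₁ g₂ h1 h2 n1 n2 hnc
      have c2 := star k (q.shift g).stab (DE_shift_9626 _ q hq g).2.1 g₁ g₂ (hsub _ h1)
        (hsub _ h2) n1 n2 hnc
      have hss : {w : FG r | w ∈ (q1.shift g).stab ∧ w.norm ≤ 2 * k + 1} ⊂
          {w : FG r | w ∈ (q.shift g).stab ∧ w.norm ≤ 2 * k + 1} := by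
        refine (Set.ssubset_iff_subset_ne).2 ⟨fun w hw => ⟨hsub w hw.1, hw.2⟩, fun he => ?_⟩
        rw [he, c2] at c1
        apply hne
        ext u
        rw [← mem_stab_shift_conj_9626 q1 g u, ← mem_stab_shift_conj_9626 q g u, c1]
      have h4 := Set.ncard_lt_ncard hss (hfin q g)
      omega
  refine main {w : FG r | w.norm ≤ 2 * k + 1}.ncard q hDE ?_
  intro g _
  exact Set.ncard_le_ncard (fun w hw => hw.2) (finite_ball r (2 * k + 1))

end Pool.Agent.H815.HF
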