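import Pool.Agent.H815.HF.Basic

set_option autoImplicit false

open Filter Topology

namespace Pool.Agent.H815.HF

/-- limits of patterns along converging points refine the pattern of the limit -/
theorem limB9359 {r : ℕ} {ι : Type} (a : ℝ → Fin r → ℝ ≃o ℝ)
    (hcont : ∀ w : FG r,
      ContinuousOn (fun y : ℝ × ℝ => wa (a y.1) w y.2) (Set.Icc 0 1 ×ˢ Set.univ))
    (U : Ultrafilter ι) (s y : ι → ℝ) (t z : ℝ) (ht : t ∈ Set.Icc (0 : ℝ) 1)
    (hs : ∀ᶠ k in (U : Filter ι), s k ∈ Set.Icc (0 : ℝ) 1)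
    (hst : Tendsto s (U : Filter ι) (𝓝 t)) (hyz : Tendsto y (U : Filter ι) (𝓝 z)) :
    (limPat U (fun k => patOf (a (s k)) (y k))).Refines (patOf (a t) z) := by
  have hlim : ∀ w : FG r, Tendsto (fun k => wa (a (s k)) w (y k)) (U : Filter ι)
      (𝓝 (wa (a t) w z)) := by
    intro w
    have h1 := hcont w (t, z) ⟨ht, Set.mem_univ _⟩
    have h2 : Tendsto (fun k => (s k, y k)) (U : Filter ι)
        (𝓝[Set.Icc (0 : ℝ) 1 ×ˢ Set.univ] (t, z)) := by
      rw [tendsto_nhdsWithin_iff]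
      refine ⟨hst.prodMk_nhds hyz, ?_⟩
      filter_upwards [hs] with k hk using ⟨hk, Set.mem_univ _⟩
    have h3 := Filter.Tendsto.comp (g := fun y : ℝ × ℝ => wa (a y.1) w y.2) h1 h2
    exact h3
  intro w v h
  rw [limPat_le] at h
  have h4 : ∀ᶠ k in (U : Filter ι), wa (a (s k)) w (y k) ≤ wa (a (s k)) v (y k) := by
    filter_upwards [h] with k hk
    exact hk
  show wa (a t) w z ≤ wa (a t) v z
  exact le_of_tendsto_of_tendsto (hlim w) (hlim v) h4

/-- First exit time of a path of tuples. -/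
theorem exit0 {r : ℕ} (P : LP r) (a : ℝ → Fin r → ℝ ≃o ℝ)
    (hcont : ∀ w : FG r,
      ContinuousOn (fun y : ℝ × ℝ => wa (a y.1) w y.2) (Set.Icc 0 1 ×ˢ Set.univ))
    (t₀ R₁ : ℝ) (ht₀ : 0 < t₀)
    (hgood : ∀ t z : ℝ, 0 ≤ t → t ≤ 1 → (t ≤ t₀ ∨ R₁ ≤ |z|) → GoodAt P.E (a t) z)
    (z' : ℝ) (hbad : ¬ GoodAt P.E (a 1) z') :
    ∃ t z : ℝ, 0 < t ∧ t ≤ 1 ∧ (∀ s, 0 ≤ s → s ≤ t → P.E.f ℝ (a s) = a s) ∧
      ∃ q'' : Pat r, q''.Refines (patOf (a t) z) ∧ ¬ GoodP P.E q'' := by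
  set S : Set ℝ := {s | 0 ≤ s ∧ s ≤ 1 ∧ ∃ y, ¬ GoodAt P.E (a s) y} with hS
  have h1S : (1 : ℝ) ∈ S := ⟨zero_le_one, le_rfl, z', hbad⟩
  have hlow : ∀ s ∈ S, t₀ ≤ s := by
    rintro s ⟨hs0, hs1, y, hy⟩
    by_contra hcon
    push Not at hcon
    exact hy (hgood s y hs0 hs1 (Or.inl hcon.le))
  have hbdd : BddBelow S := ⟨t₀, hlow⟩
  have hne : S.Nonempty := ⟨1, h1S⟩
  set t := sInf S with ht
  have ht0 : t₀ ≤ t := le_csInf hne hlow
  have htpos : 0 < t := lt_of_lt_of_le ht₀ ht0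
  have ht1 : t ≤ 1 := csInf_le hbdd h1S
  have hlt : ∀ s, 0 ≤ s → s < t → ∀ y, GoodAt P.E (a s) y := by
    intro s hs0 hst y
    by_contra hcon
    have : s ∈ S := ⟨hs0, hst.le.trans ht1, y, hcon⟩
    exact notMem_of_lt_csInf hst hbdd this
  have hat : ∀ y, GoodAt P.E (a t) y := by
    intro y
    let U : Ultrafilter ℝ := Ultrafilter.of (𝓝[<] t)
    have hU : (U : Filter ℝ) ≤ 𝓝[<] t := Ultrafilter.of_le _
    have hev : ∀ᶠ s in (U : Filter ℝ), 0 ≤ s ∧ s < t := by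
      apply hU
      have h1 : ∀ᶠ s in 𝓝[<] t, s < t := self_mem_nhdsWithin
      have h2 : ∀ᶠ s in 𝓝[<] t, 0 < s := nhdsWithin_le_nhds (lt_mem_nhds htpos)
      filter_upwards [h1, h2] with s hs1 hs2 using ⟨hs2.le, hs1⟩
    have href := limB9359 a hcont U (fun s => s) (fun _ => y) t y ⟨htpos.le, ht1⟩
      (by filter_upwards [hev] with s hs using ⟨hs.1, hs.2.le.trans ht1⟩)
      (hU.trans nhdsWithin_le_nhds) tendsto_const_nhds
    have hgl : GoodP P.E (limPat U (fun s => patOf (a s) y)) := by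
      rw [goodP_lim]
      filter_upwards [hev] with s hs
      exact (goodP_iff P.E (hasPat_patOf _ _)).2 (hlt s hs.1 hs.2 y)
    exact (goodP_iff P.E (hasPat_patOf _ _)).1 (goodP_mono P.E href hgl)
  have hle : ∀ s, 0 ≤ s → s ≤ t → P.E.f ℝ (a s) = a s := by
    intro s hs0 hst
    have hg : ∀ y, GoodAt P.E (a s) y := by
      rcases lt_or_eq_of_le hst with h | h
      · exact hlt s hs0 h
      · rw [h]; exact hat
    funext i
    ext x
    exact hg x i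
  obtain ⟨u, _, hu, huS⟩ := exists_seq_tendsto_sInf hne hbdd
  have huy : ∀ n, ∃ y, ¬ GoodAt P.E (a (u n)) y := fun n => (huS n).2.2
  choose y hy using huy
  have hyR : ∀ n, y n ∈ Set.Icc (-R₁) R₁ := by
    intro n
    have : |y n| ≤ R₁ := by
      by_contra hcon
      push Not at hcon
      exact hy n (hgood (u n) (y n) (huS n).1 (huS n).2.1 (Or.inr hcon.le))
    exact abs_le.1 this
  let U : Ultrafilter ℕ := hyperfilter ℕ
  have hUa : (U : Filter ℕ) ≤ atTop := Nat.hyperfilter_le_atTop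
  obtain ⟨z, _, hz⟩ := isCompact_iff_ultrafilter_le_nhds.1 (isCompact_Icc (a := -R₁) (b := R₁))
    (U.map y) (by
      rw [Ultrafilter.coe_map, le_principal_iff, Filter.mem_map]
      exact Filter.Eventually.of_forall hyR)
  have hz' : Tendsto y (U : Filter ℕ) (𝓝 z) := hz
  refine ⟨t, z, htpos, ht1, hle, limPat U (fun k => patOf (a (u k)) (y k)), ?_, ?_⟩
  · exact limB9359 a hcont U u y t z ⟨htpos.le, ht1⟩
      (Filter.Eventually.of_forall fun n => ⟨(huS n).1, (huS n).2.1⟩) (hu.mono_left hUa) hz'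
  · intro hg
    rw [goodP_lim] at hg
    obtain ⟨k, hk⟩ := hg.exists
    exact hy k ((goodP_iff P.E (hasPat_patOf _ _)).1 hk)

/-- Limits of patterns at approximating points: if the word `w` moves all rational points at
rational times, then the pattern at `(t, z)` has a refinement fixed by `E` in which `w` is
nontrivial. -/
theorem exit_refine {r : ℕ} (P : LP r) (a : ℝ → Fin r → ℝ ≃o ℝ)
    (hcont : ∀ w : FG r,
      ContinuousOn (fun y : ℝ × ℝ => wa (a y.1) w y.2) (Set.Icc 0 1 ×ˢ Set.univ))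
    (t z : ℝ) (ht : 0 < t) (ht1 : t ≤ 1) (hE : ∀ s, 0 ≤ s → s ≤ t → P.E.f ℝ (a s) = a s)
    (w : FG r) (hw : ∀ s y : ℚ, 0 < s → s ≤ 1 → wa (a s) w (y : ℝ) ≠ y) :
    ∃ q' : Pat r, InC P.E q' ∧ q'.Refines (patOf (a t) z) ∧ w ∉ q'.stab := by
  have hs : ∀ k : ℕ, ∃ s : ℚ, max 0 (t - 1 / ((k : ℝ) + 1)) < s ∧ (s : ℝ) < t := by
    intro k
    apply exists_rat_btwn
    apply max_lt ht
    have : (0 : ℝ) < 1 / ((k : ℝ) + 1) := by positivity
    linarith
  have hy : ∀ k : ℕ, ∃ y : ℚ, z - 1 / ((k : ℝ) + 1) < y ∧ (y : ℝ) < z := by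
    intro k
    apply exists_rat_btwn
    have : (0 : ℝ) < 1 / ((k : ℝ) + 1) := by positivity
    linarith
  choose s hs1 hs2 using hs
  choose y hy1 hy2 using hy
  have h0 : Tendsto (fun k : ℕ => 1 / ((k : ℝ) + 1)) atTop (𝓝 0) := tendsto_one_div_add_atTop_nhds_zero_nat
  have hst : Tendsto (fun k => (s k : ℝ)) atTop (𝓝 t) := by
    have h1 : Tendsto (fun k : ℕ => t - 1 / ((k : ℝ) + 1)) atTop (𝓝 t) := by
      simpa using tendsto_const_nhds.sub h0
    exact tendsto_of_tendsto_of_tendsto_of_le_of_le h1 tendsto_const_nhds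
      (fun k => (le_max_right _ _).trans (hs1 k).le) (fun k => (hs2 k).le)
  have hyt : Tendsto (fun k => (y k : ℝ)) atTop (𝓝 z) := by
    have h1 : Tendsto (fun k : ℕ => z - 1 / ((k : ℝ) + 1)) atTop (𝓝 z) := by
      simpa using tendsto_const_nhds.sub h0
    exact tendsto_of_tendsto_of_tendsto_of_le_of_le h1 tendsto_const_nhds
      (fun k => (hy1 k).le) (fun k => (hy2 k).le)
  have hs0 : ∀ k, (0 : ℝ) < s k := fun k => lt_of_le_of_lt (le_max_left _ _) (hs1 k)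
  let U : Ultrafilter ℕ := hyperfilter ℕ
  have hUa : (U : Filter ℕ) ≤ atTop := Nat.hyperfilter_le_atTop
  refine ⟨limPat U (fun k => patOf (a (s k)) (y k)), ?_, ?_, ?_⟩
  · exact inC_lim P.E U _ (Filter.Eventually.of_forall fun k =>
      inC_of_eq P.E (hasPat_patOf _ _) (hE _ (hs0 k).le (hs2 k).le))
  · exact limB9359 a hcont U (fun k => (s k : ℝ)) (fun k => (y k : ℝ)) t z ⟨ht.le, ht1⟩
      (Filter.Eventually.of_forall fun k => ⟨(hs0 k).le, (hs2 k).le.trans ht1⟩)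
      (hst.mono_left hUa) (hyt.mono_left hUa)
  · rw [mem_stab]
    rintro ⟨h1, h2⟩
    rw [limPat_le] at h1 h2
    obtain ⟨k, hk1, hk2⟩ := (h1.and h2).exists
    have hk1' : wa (a (s k)) w (y k : ℝ) ≤ wa (a (s k)) 1 (y k : ℝ) := hk1
    have hk2' : wa (a (s k)) 1 (y k : ℝ) ≤ wa (a (s k)) w (y k : ℝ) := hk2
    rw [wa_one] at hk1' hk2'
    have hp : (0 : ℚ) < s k := by exact_mod_cast hs0 k
    have hl : s k ≤ 1 := by exact_mod_cast ((hs2 k).le.trans ht1)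
    exact hw (s k) (y k) hp hl (le_antisymm hk1' hk2')

end Pool.Agent.H815.HF
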