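import Pool.Agent.H815.HF.Lift

set_option autoImplicit false

namespace Pool.Agent.H815.HF

section flipaux

variable {r : ℕ}

lemma flip_one_le_pow (q : Pat r) (x : FG r) (h : q.le 1 x) (n : ℕ) : q.le 1 (x ^ n) := by
  induction n with
  | zero => rw [pow_zero]; exact q.refl' 1
  | succ n ih =>
    have h1 := q.mul' (x ^ n) _ _ h
    rw [mul_one, ← pow_succ] at h1
    exact q.trans' _ _ _ ih h1

lemma flip_pow_le_one (q : Pat r) (x : FG r) (h : q.le x 1) (n : ℕ) : q.le (x ^ n) 1 := by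
  induction n with
  | zero => rw [pow_zero]; exact q.refl' 1
  | succ n ih =>
    have h1 := q.mul' (x ^ n) _ _ h
    rw [mul_one, ← pow_succ] at h1
    exact q.trans' _ _ _ h1 ih

lemma flip_one_le_of_pow (q : Pat r) (x : FG r) (n : ℕ) (hn : 0 < n) (h : q.le 1 (x ^ n)) :
    q.le 1 x := by
  by_contra hc
  have h1 : q.le x 1 := (q.total' x 1).resolve_right hc
  obtain ⟨m, rfl⟩ : ∃ m, n = m + 1 := ⟨n - 1, by omega⟩
  have h3 := q.mul' x _ _ (flip_pow_le_one q x h1 m)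
  rw [mul_one, ← pow_succ'] at h3
  exact hc (q.trans' _ _ _ h h3)

lemma flip_le_one_of_pow (q : Pat r) (x : FG r) (n : ℕ) (hn : 0 < n) (h : q.le (x ^ n) 1) :
    q.le x 1 := by
  by_contra hc
  have h1 : q.le 1 x := (q.total' 1 x).resolve_right hc
  obtain ⟨m, rfl⟩ : ∃ m, n = m + 1 := ⟨n - 1, by omega⟩
  have h3 := q.mul' x _ _ (flip_one_le_pow q x h1 m)
  rw [mul_one, ← pow_succ'] at h3
  exact hc (q.trans' _ _ _ h3 h)

/-- the sign of the generator of the stabiliser determines the pattern. -/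
lemma flip_A {q q1 q2 : Pat r} {x : FG r} (hst : q.stab = Subgroup.zpowers x)
    (hr1 : q1.Refines q) (hr2 : q2.Refines q) (h1 : q1.le 1 x → q2.le 1 x)
    (h2 : q1.le x 1 → q2.le x 1) : q1.Refines q2 := by
  intro w v hwv
  have hq := hr1 _ _ hwv
  by_cases hvw : q.le v w
  · have hmem : w⁻¹ * v ∈ q.stab := (q.eqv_iff w v).1 ⟨hq, hvw⟩
    rw [hst, Subgroup.mem_zpowers_iff] at hmem
    obtain ⟨m, hm⟩ := hmem
    have f1 : q1.le 1 (w⁻¹ * v) :=
      (q1.le_mul_iff w 1 (w⁻¹ * v)).1 (by rw [mul_one, mul_inv_cancel_left]; exact hwv)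
    suffices f2 : q2.le 1 (w⁻¹ * v) by
      have f3 := q2.mul' w _ _ f2
      rw [mul_one, mul_inv_cancel_left] at f3
      exact f3
    rw [← hm] at f1 ⊢
    obtain ⟨n, rfl | rfl⟩ := m.eq_nat_or_neg
    · rw [zpow_natCast] at f1 ⊢
      rcases Nat.eq_zero_or_pos n with h0 | h0
      · subst h0
        rw [pow_zero]
        exact q2.refl' 1
      · exact flip_one_le_pow q2 x (h1 (flip_one_le_of_pow q1 x n h0 f1)) n
    · rw [zpow_neg, zpow_natCast] at f1 ⊢
      rcases Nat.eq_zero_or_pos n with h0 | h0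
      · subst h0
        rw [pow_zero, inv_one]
        exact q2.refl' 1
      · have f3 := q1.mul' (x ^ n) _ _ f1
        rw [mul_one, mul_inv_cancel] at f3
        have f4 := flip_pow_le_one q2 x (h2 (flip_le_one_of_pow q1 x n h0 f3)) n
        have f5 := q2.mul' (x ^ n)⁻¹ _ _ f4
        rw [mul_one, inv_mul_cancel] at f5
        exact f5
  · exact (q2.total' w v).resolve_right fun h => hvw (hr2 _ _ h)

variable {Ω : Type} [LinearOrder Ω]

lemma flip_pat_refines {a : Fin r → Ω ≃o Ω} {p : Ω} {q : Pat r} (h : HasPat a p q)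
    (c : Fin r → Ω → ℝ) (y : ℝ) : (patOf (lifR a c) (toLex (p, y))).Refines q := by
  intro w v hwv
  have hwv' : wa (lifR a c) w (toLex (p, y)) ≤ wa (lifR a c) v (toLex (p, y)) := hwv
  rw [wa_lifR, wa_lifR] at hwv'
  rw [← h w v]
  exact mono_fst hwv'

lemma flip_pat_le1 {a : Fin r → Ω ≃o Ω} {p : Ω} {x : FG r} (h : wa a x p = p)
    (c : Fin r → Ω → ℝ) (y : ℝ) :
    (patOf (lifR a c) (toLex (p, y))).le 1 x ↔ 0 ≤ disp a c x p := by
  show wa (lifR a c) 1 (toLex (p, y)) ≤ wa (lifR a c) x (toLex (p, y)) ↔ _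
  rw [wa_one, wa_lifR, h, Prod.Lex.toLex_le_toLex]
  simp

lemma flip_pat_le2 {a : Fin r → Ω ≃o Ω} {p : Ω} {x : FG r} (h : wa a x p = p)
    (c : Fin r → Ω → ℝ) (y : ℝ) :
    (patOf (lifR a c) (toLex (p, y))).le x 1 ↔ disp a c x p ≤ 0 := by
  show wa (lifR a c) x (toLex (p, y)) ≤ wa (lifR a c) 1 (toLex (p, y)) ↔ _
  rw [wa_one, wa_lifR, h, Prod.Lex.toLex_le_toLex]
  simp

lemma flip_shift {a : Fin r → Ω ≃o Ω} (p : Ω) (c : Fin r → Ω → ℝ) (g : FG r) (y : ℝ) :
    (toLex (wa a g p, y) : Ω ×ₗ ℝ) =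
      wa (lifR a c) g (toLex (p, y - disp a c g p)) := by
  rw [wa_lifR]
  congr 2
  ring

lemma flip_mon {a : Fin r → Ω ≃o Ω} {p : Ω} {q : Pat r} (h : HasPat a p q)
    (ht : ∀ z, ∃ w, wa a w p = z) {x : FG r} (hst : q.stab = Subgroup.zpowers x)
    (hxp : wa a x p = p) (c c' : Fin r → Ω → ℝ) (h1 : 0 ≤ disp a c x p → 0 ≤ disp a c' x p)
    (h2 : disp a c x p ≤ 0 → disp a c' x p ≤ 0) (N : ℕ) (z : Ω) (y y' : ℝ) :
    Mon N (lifR a c) (toLex (z, y)) (lifR a c') (toLex (z, y')) := by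
  obtain ⟨g, rfl⟩ := ht z
  intro w v _ _ hwv
  rw [flip_shift p c g y, ← wa_mul, ← wa_mul] at hwv
  rw [flip_shift p c' g y', ← wa_mul, ← wa_mul]
  exact flip_A hst (flip_pat_refines h c _) (flip_pat_refines h c' _)
    (fun hh => (flip_pat_le1 hxp c' _).2 (h1 ((flip_pat_le1 hxp c _).1 hh)))
    (fun hh => (flip_pat_le2 hxp c' _).2 (h2 ((flip_pat_le2 hxp c _).1 hh))) _ _ hwv

/-- a cocycle with displacement one along `x`. -/
lemma flip_coc {a : Fin r → Ω ≃o Ω} {p : Ω} {q : Pat r} (h : HasPat a p q)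
    (ht : ∀ z, ∃ w, wa a w p = z) {x : FG r} (hst : q.stab = Subgroup.zpowers x)
    (hinj : ∀ m : ℤ, x ^ m = x → m = 1) :
    ∃ c : Fin r → Ω → ℝ, disp a c x p = 1 := by
  choose s hs using ht
  have hmem : ∀ g : FG r, wa a g p = p → ∃ m : ℤ, x ^ m = g := by
    intro g hg
    rw [← h.mem_stab, hst, Subgroup.mem_zpowers_iff] at hg
    exact hg
  have hex : ∀ (i : Fin r) (z : Ω), ∃ m : ℤ, x ^ m = (s (a i z))⁻¹ * FreeGroup.of i * s z := by
    intro i z
    apply hmem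
    rw [wa_mul, wa_mul, hs, wa_of]
    exact ((wa_eq_iff_inv a (s (a i z))).1 (hs (a i z))).symm
  choose m hm using hex
  have key : ∀ (w : FG r) (z : Ω), ∃ M : ℤ, disp a (fun i z => (m i z : ℝ)) w z = M ∧
      x ^ M = (s (wa a w z))⁻¹ * w * s z := by
    intro w
    induction w using fg_induction with
    | h1 =>
      intro z
      exact ⟨0, by simp, by simp⟩
    | hof i w ih =>
      intro z
      obtain ⟨M, hM1, hM2⟩ := ih z
      refine ⟨m i (wa a w z) + M, ?_, ?_⟩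
      · rw [disp_mul, disp_of, hM1]
        push_cast
        ring
      · rw [zpow_add, hm, hM2, wa_mul, wa_of]
        group
    | hinv i w ih =>
      intro z
      obtain ⟨M, hM1, hM2⟩ := ih z
      refine ⟨-m i (wa a (FreeGroup.of i)⁻¹ (wa a w z)) + M, ?_, ?_⟩
      · rw [disp_mul, disp_inv, disp_of, hM1]
        push_cast
        ring
      · have e1 : a i (wa a (FreeGroup.of i)⁻¹ (wa a w z)) = wa a w z := by
          rw [wa_of_inv, OrderIso.apply_symm_apply]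
        rw [zpow_add, zpow_neg, hm, hM2, e1, wa_mul]
        group
  obtain ⟨M, hM1, hM2⟩ := key x p
  refine ⟨fun i z => (m i z : ℝ), ?_⟩
  have hxp : wa a x p = p := by
    rw [← h.mem_stab, hst]
    exact Subgroup.mem_zpowers x
  obtain ⟨k, hk⟩ := hmem (s p) (hs p)
  rw [hxp, ← hk] at hM2
  have hM3 : x ^ M = x := by
    rw [hM2]
    group
  rw [hM1, hinj M hM3, Int.cast_one]

end flipaux

/-- The flip lemma for a generator which is positive in `q'`. -/
theorem flip_pos {r : ℕ} (P : LP r) (q q' q'' : Pat r) (hq : InC P.E q) (hq' : InC P.E q')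
    (href : q'.Refines q) (x : FG r) (hst : q.stab = Subgroup.zpowers x) (hx : ¬ q'.le x 1)
    (href' : q''.Refines q) : GoodP P.E q'' := by
  -- case of nonnegative sign
  by_cases hsgn : q''.le 1 x
  · exact goodP_mono P.E (flip_A hst href href' (fun _ => hsgn) (fun h => absurd h hx)) hq'.goodP
  have hsgn' : q''.le x 1 := (q''.total' x 1).resolve_right hsgn
  obtain ⟨Ω, hΩ, a, p, hpat, ht⟩ : ∃ (Ω : Type) (_ : LinearOrder Ω) (a : Fin r → Ω ≃o Ω) (p : Ω),
      HasPat a p q ∧ ∀ z, ∃ w, wa a w p = z :=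
    ⟨q.Q, inferInstance, q.act, q.cls 1, q.hasPat_act, q.act_trans⟩
  have hEa : P.E.f Ω a = a := hq.eq hpat ht
  obtain ⟨h, hh⟩ : ∃ h, h = P.T.f Ω a := ⟨_, rfl⟩
  have hYh : P.Y.f Ω h = a := by rw [hh, ← P.hE, hEa]
  have hxp : wa a x p = p := by
    rw [← hpat.mem_stab, hst]
    exact Subgroup.mem_zpowers x
  have hx1 : ∀ n : ℕ, 0 < n → x ^ n ≠ 1 := by
    intro n hn h1
    exact hx (flip_le_one_of_pow q' x n hn (by rw [h1]; exact q'.refl' 1))
  have hinj : ∀ m : ℤ, x ^ m = x → m = 1 := by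
    intro m hm
    by_contra hne
    have h1 : x ^ (m - 1) = 1 := by
      rw [zpow_sub_one, hm, mul_inv_cancel]
    obtain ⟨n, hn | hn⟩ := (m - 1).eq_nat_or_neg
    · rw [hn, zpow_natCast] at h1
      exact hx1 n (by omega) h1
    · rw [hn, zpow_neg, zpow_natCast, inv_eq_one] at h1
      exact hx1 n (by omega) h1
  obtain ⟨c1, hc1⟩ := flip_coc hpat ht hst hinj
  -- (C)
  have hC : ∀ c : Fin r → Ω → ℝ, 0 ≤ disp a c x p → P.E.f (Ω ×ₗ ℝ) (lifR a c) = lifR a c := by
    intro c hc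
    funext i
    ext z
    induction z using lex_ind with
    | h z y =>
      obtain ⟨g, rfl⟩ := ht z
      rw [flip_shift p c g y]
      have hr : q'.Refines (patOf (lifR a c) (toLex (p, y - disp a c g p))) :=
        flip_A hst href (flip_pat_refines hpat c _) (fun _ => (flip_pat_le1 hxp c _).2 hc)
          (fun hh => absurd hh hx)
      exact (inC_mono P.E hr hq').goodAt (hasPat_patOf _ _) g i
  -- (D)
  have hW : ∀ (i : Fin r) (z : Ω), ∃ w : FG r, w.norm ≤ P.T.N ∧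
      P.T.f (Ω ×ₗ ℝ) (lifR a c1) i (toLex (z, 0)) = wa (lifR a c1) w (toLex (z, 0)) :=
    fun i z => P.T.exists_word _ _ _
  choose W hW1 hW2 using hW
  obtain ⟨L, hL⟩ : ∃ L : (Fin r → Ω → ℝ) → Fin r → Ω → ℝ,
      ∀ c i z, L c i z = disp a c (W i z) z := ⟨fun c i z => disp a c (W i z) z, fun _ _ _ => rfl⟩
  have hTL : ∀ c : Fin r → Ω → ℝ, 0 ≤ disp a c x p → P.T.f (Ω ×ₗ ℝ) (lifR a c) = lifR h (L c) := by
    intro c hc
    obtain ⟨d, hd⟩ := op_lifR P.T a c
    rw [← hh] at hd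
    rw [hd]
    congr 1
    funext i z
    have hmon : Mon P.T.N (lifR a c1) (toLex (z, (0 : ℝ))) (lifR a c) (toLex (z, (0 : ℝ))) :=
      flip_mon hpat ht hst hxp c1 c (fun _ => hc) (fun h1 => by rw [hc1] at h1; linarith) _ z 0 0
    obtain ⟨w, hw0, hw1, hw2⟩ := P.T.loc _ _ _ _ _ _ hmon i
    have h3 : wa (lifR a c1) w (toLex (z, (0 : ℝ))) = wa (lifR a c1) (W i z) (toLex (z, 0)) := by
      rw [← hw1, hW2]
    have h4 := hmon.eq hw0 (hW1 i z) h3
    rw [h4, hd, lifR_apply, wa_lifR, toLex_inj'] at hw2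
    rw [hL]
    have := hw2.2
    linarith
  have hLadd : ∀ c c', L (fun i z => c i z + c' i z) = fun i z => L c i z + L c' i z := by
    intro c c'
    funext i z
    rw [hL, hL, hL, disp_add]
  -- (E)
  obtain ⟨y, hy⟩ := op_lifR P.Y h (fun i z => - L c1 i z)
  rw [hYh] at hy
  have hTy : P.T.f (Ω ×ₗ ℝ) (lifR a y) = lifR h (fun i z => - L c1 i z) := by
    rw [← hy, P.TY]
  have hEy : P.E.f (Ω ×ₗ ℝ) (lifR a y) = lifR a y := by
    rw [P.hE, hTy, hy]
  have hρy : disp a y x p < 0 := by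
    by_contra hcon
    push Not at hcon
    have h1 := hTL y hcon
    rw [hTy] at h1
    have h2 := lifR_inj h1
    have h3 : L (fun i z => y i z + c1 i z) = fun i z => 0 := by
      rw [hLadd, ← h2]
      funext i z
      ring
    have h4 : 0 < disp a (fun i z => y i z + c1 i z) x p := by
      rw [disp_add, hc1]
      linarith
    have h5 := hC _ h4.le
    rw [P.hE, hTL _ h4.le, h3] at h5
    have h0 : disp a (fun (_ : Fin r) (_ : Ω) => (0 : ℝ)) x p = 0 := by
      have := disp_smul a 0 c1 x p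
      simpa using this
    have h6 := hC _ h0.ge
    have h7 : L (fun (_ : Fin r) (_ : Ω) => (0 : ℝ)) = fun i z => 0 := by
      funext i z
      rw [hL]
      have := disp_smul a 0 c1 (W i z) z
      simpa using this
    rw [P.hE, hTL _ h0.ge, h7] at h6
    have h8 := lifR_inj (h5.symm.trans h6)
    rw [h8, h0] at h4
    exact lt_irrefl _ h4
  -- (F)
  have hInC : InC P.E (patOf (lifR a y) (toLex (p, (0 : ℝ)))) :=
    inC_of_eq P.E (hasPat_patOf _ _) hEy
  refine goodP_mono P.E (flip_A hst (flip_pat_refines hpat y 0) href' ?_ (fun _ => hsgn'))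
    hInC.goodP
  intro h1
  rw [flip_pat_le1 hxp] at h1
  linarith

/-- The flip lemma. -/
theorem flip {r : ℕ} (P : LP r)
    (exists_ind : ∀ (r : ℕ) (Ω B : Type) [LinearOrder Ω] [LinearOrder B] (a : Fin r → Ω ≃o Ω)
      (p : Ω), (∀ x, ∃ w, wa a w p = x) → ∀ (Γ : Subgroup (FG r)),
      (∀ w, w ∈ Γ ↔ wa a w p = p) → ∀ (β : Γ →* (B ≃o B)),
      ∃ c : Fin r → Ω → B ≃o B, ∀ w : Γ, coc a c (w : FG r) p = β w)
    (q q' q'' : Pat r) (hq : InC P.E q) (hq' : InC P.E q') (href : q'.Refines q)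
    (x : FG r) (hst : q.stab = Subgroup.zpowers x) (hx : x ∉ q'.stab) (href' : q''.Refines q) :
    GoodP P.E q'' := by
  by_cases h1 : q'.le x 1
  · have h2 : ¬ q'.le 1 x := fun h => hx ⟨h1, h⟩
    have h3 : ¬ q'.le x⁻¹ 1 := by
      intro h
      have := q'.mul' x _ _ h
      rw [mul_one, mul_inv_cancel] at this
      exact h2 this
    exact flip_pos P q q' q'' hq hq' href x⁻¹ (by rw [hst, Subgroup.zpowers_inv]) h3 href'
  · exact flip_pos P q q' q'' hq hq' href x hst h1 href'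

end Pool.Agent.H815.HF
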