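import Pool.Agent.H815.HF.Lift

set_option autoImplicit false

namespace Pool.Agent.H815.HF

theorem exists_sec_8374 {r : ℕ} {Ω : Type} [LinearOrder Ω] (a : Fin r → Ω ≃o Ω)
    (p : Ω) (ht : ∀ x, ∃ w, wa a w p = x) :
    ∃ s : Ω → FG r, (∀ x, wa a (s x) p = x) ∧ s p = 1 := by
  classical
  choose s hs using ht
  refine ⟨fun x => if x = p then 1 else s x, fun x => ?_, if_pos rfl⟩
  by_cases hx : x = p
  · simp only [if_pos hx, wa_one]
    exact hx.symm
  · simp only [if_neg hx]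
    exact hs x

/-- Induced lifts: an action of the stabiliser of `p` on a chain `B` is the fibre action of a lift. -/
theorem exists_ind {r : ℕ} {Ω B : Type} [LinearOrder Ω] [LinearOrder B] (a : Fin r → Ω ≃o Ω)
    (p : Ω) (ht : ∀ x, ∃ w, wa a w p = x) (Γ : Subgroup (FG r))
    (hΓ : ∀ w, w ∈ Γ ↔ wa a w p = p) (β : Γ →* (B ≃o B)) :
    ∃ c : Fin r → Ω → B ≃o B, ∀ w : Γ, coc a c (w : FG r) p = β w := by
  obtain ⟨s, hs, hsp⟩ := exists_sec_8374 a p ht
  have hinv : ∀ x, wa a (s x)⁻¹ x = p := fun x => by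
    have h1 := wa_inv_wa a (s x) p
    rwa [hs x] at h1
  have hmem : ∀ w x, (s (wa a w x))⁻¹ * w * s x ∈ Γ := fun w x => by
    rw [hΓ, wa_mul, hs, wa_mul, hinv]
  obtain ⟨K, hK⟩ : ∃ K : FG r → Ω → B ≃o B,
      ∀ w x, K w x = β ⟨(s (wa a w x))⁻¹ * w * s x, hmem w x⟩ := ⟨_, fun _ _ => rfl⟩
  have hKmul : ∀ w v x, K (w * v) x = K w (wa a v x) * K v x := by
    intro w v x
    rw [hK, hK, hK, ← map_mul]
    congr 1
    apply Subtype.ext
    show (s (wa a (w * v) x))⁻¹ * (w * v) * s x =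
      ((s (wa a w (wa a v x)))⁻¹ * w * s (wa a v x)) * ((s (wa a v x))⁻¹ * v * s x)
    rw [wa_mul]
    group
  have hK1 : ∀ x, K 1 x = 1 := by
    intro x
    rw [hK, ← map_one β]
    congr 1
    apply Subtype.ext
    show (s (wa a 1 x))⁻¹ * 1 * s x = 1
    rw [wa_one]
    group
  refine ⟨fun i x => K (FreeGroup.of i) x, fun w => ?_⟩
  have hcoc : ∀ w x, coc a (fun i x => K (FreeGroup.of i) x) w x = K w x := by
    intro w
    induction w using fg_induction with
    | h1 => intro x; rw [coc_one, hK1]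
    | hof i w ih =>
      intro x
      rw [coc_mul, coc_of, ih, hKmul]
    | hinv i w ih =>
      intro x
      rw [coc_mul, coc_inv, coc_of, ih, hKmul]
      congr 1
      have h2 := hKmul (FreeGroup.of i) (FreeGroup.of i)⁻¹ (wa a w x)
      rw [mul_inv_cancel, hK1] at h2
      exact inv_eq_of_mul_eq_one_right h2.symm
  rw [hcoc, hK]
  congr 1
  apply Subtype.ext
  show (s (wa a (w : FG r) p))⁻¹ * (w : FG r) * s p = w
  rw [(hΓ _).1 w.2, hsp]
  simp

/-- Two lifts with the same fibre action over `p` are conjugate by a gauge transformation which is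
the identity over `p`. -/
theorem gauge {r : ℕ} {Ω B : Type} [LinearOrder Ω] [LinearOrder B] (a : Fin r → Ω ≃o Ω)
    (p : Ω) (ht : ∀ x, ∃ w, wa a w p = x) (c c' : Fin r → Ω → B ≃o B)
    (h : ∀ w, wa a w p = p → coc a c w p = coc a c' w p) :
    ∃ u : Ω → B ≃o B, u p = 1 ∧ ∀ i x, c' i x = u (a i x) * c i x * (u x)⁻¹ := by
  obtain ⟨s, hs, hsp⟩ := exists_sec_8374 a p ht
  have hinv : ∀ x, wa a (s x)⁻¹ x = p := fun x => by
    have h1 := wa_inv_wa a (s x) p
    rwa [hs x] at h1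
  refine ⟨fun x => coc a c' (s x) p * (coc a c (s x) p)⁻¹, ?_, fun i x => ?_⟩
  · simp only [hsp, coc_one, inv_one, mul_one]
  · have hexp : ∀ k : Fin r → Ω → B ≃o B,
        coc a k ((s (a i x))⁻¹ * (FreeGroup.of i * s x)) p =
          (coc a k (s (a i x)) p)⁻¹ * (k i x * coc a k (s x) p) := by
      intro k
      rw [coc_mul, coc_mul, coc_inv, coc_of, wa_mul, wa_of, hs, hinv]
    have hfix : wa a ((s (a i x))⁻¹ * (FreeGroup.of i * s x)) p = p := by
      rw [wa_mul, wa_mul, wa_of, hs, hinv]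
    have h2 := h _ hfix
    rw [hexp, hexp] at h2
    have h3 : c' i x = coc a c' (s (a i x)) p *
        ((coc a c (s (a i x)) p)⁻¹ * (c i x * coc a c (s x) p)) * (coc a c' (s x) p)⁻¹ := by
      rw [h2]
      group
    show c' i x = coc a c' (s (a i x)) p * (coc a c (s (a i x)) p)⁻¹ * c i x *
      (coc a c' (s x) p * (coc a c (s x) p)⁻¹)⁻¹
    rw [h3]
    group

end Pool.Agent.H815.HF
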