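import Pool.Agent.H815.HF.Gen

set_option autoImplicit false

open Filter Topology

namespace Pool.Agent.H815.HF

/-- displacement functions satisfying the constraints have increments bounded below. -/
lemma nb_expand {c L R ε : ℝ} {u : ℝ → ℝ} (h : Cons c L R ε u) (A : ℝ ≃o ℝ)
    (hA : ∀ x, A x = x + u x) (x y : ℝ) : (1 - c) * |x - y| ≤ |A x - A y| := by
  rcases le_total x y with hxy | hxy
  · have h1 := (h.1 x y hxy).1
    rw [abs_sub_comm x y, abs_of_nonneg (sub_nonneg.2 hxy), abs_sub_comm (A x) (A y)]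
    refine le_trans ?_ (le_abs_self _)
    rw [hA, hA]
    nlinarith
  · have h1 := (h.1 y x hxy).1
    rw [abs_of_nonneg (sub_nonneg.2 hxy)]
    refine le_trans ?_ (le_abs_self _)
    rw [hA, hA]
    nlinarith

lemma nb_tendsto {r : ℕ} (u₀ : Fin r → ℝ → ℝ) (c L R ε : ℝ) (hc : c < 1)
    (A₀ : Fin r → ℝ ≃o ℝ) (hA₀ : ∀ i x, A₀ i x = x + u₀ i x) (z₀ : ℝ)
    (η : ℕ → ℝ) (hη : Tendsto η atTop (𝓝 0)) (u : ℕ → Fin r → ℝ → ℝ)
    (hu : ∀ k i, Cons c L R ε (u k i)) (hd : ∀ k i x, |u k i x - u₀ i x| ≤ η k)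
    (A : ℕ → Fin r → ℝ ≃o ℝ) (hA : ∀ k i x, A k i x = x + u k i x) (w : FG r) :
    Tendsto (fun k => wa (A k) w z₀) atTop (𝓝 (wa A₀ w z₀)) := by
  have hAd : ∀ k i x, |A k i x - A₀ i x| ≤ η k := by
    intro k i x
    have := hd k i x
    rw [hA, hA₀]
    rwa [show x + u k i x - (x + u₀ i x) = u k i x - u₀ i x by ring]
  induction w using fg_induction with
  | h1 => simp
  | hof i w ih =>
    simp only [wa_mul, wa_of]
    have h1 : Tendsto (fun k => A₀ i (wa (A k) w z₀)) atTop (𝓝 (A₀ i (wa A₀ w z₀))) :=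
      ((A₀ i).continuous.tendsto _).comp ih
    have h2 : Tendsto (fun k => A k i (wa (A k) w z₀) - A₀ i (wa (A k) w z₀)) atTop (𝓝 0) :=
      squeeze_zero_norm (fun k => hAd k i _) hη
    have h3 := h2.add h1
    simpa using h3
  | hinv i w ih =>
    simp only [wa_mul, wa_of_inv]
    rw [tendsto_iff_dist_tendsto_zero]
    have hb : Tendsto (fun k => (1 - c)⁻¹ * (dist (wa (A k) w z₀) (wa A₀ w z₀) + η k)) atTop
        (𝓝 0) := by
      have h4 := ((tendsto_iff_dist_tendsto_zero.1 ih).add hη).const_mul (1 - c)⁻¹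
      simpa using h4
    refine squeeze_zero (fun k => dist_nonneg) (fun k => ?_) hb
    have hpos : (0 : ℝ) < 1 - c := by linarith
    have h5 := nb_expand (hu k i) (A k i) (hA k i) ((A k i).symm (wa (A k) w z₀))
      ((A₀ i).symm (wa A₀ w z₀))
    rw [OrderIso.apply_symm_apply] at h5
    have h6 := hAd k i ((A₀ i).symm (wa A₀ w z₀))
    rw [OrderIso.apply_symm_apply] at h6
    rw [Real.dist_eq, Real.dist_eq]
    rw [← div_eq_inv_mul, le_div_iff₀ hpos]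
    have h7 : |wa (A k) w z₀ - A k i ((A₀ i).symm (wa A₀ w z₀))| ≤
        |wa (A k) w z₀ - wa A₀ w z₀| + |A k i ((A₀ i).symm (wa A₀ w z₀)) - wa A₀ w z₀| := by
      rw [abs_sub_comm (A k i ((A₀ i).symm (wa A₀ w z₀))) (wa A₀ w z₀)]
      exact abs_sub_le _ _ _
    rw [mul_comm]
    linarith

/-- Badness at a point is stable under uniformly small perturbations of the tuple. -/
theorem near_bad {r : ℕ} (P : LP r) (u₀ : Fin r → ℝ → ℝ) (c L R ε : ℝ) (hc : c < 1)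
    (hu₀ : ∀ i, Cons c L R ε (u₀ i)) (A₀ : Fin r → ℝ ≃o ℝ) (hA₀ : ∀ i x, A₀ i x = x + u₀ i x)
    (z₀ : ℝ) (hbad : ¬ GoodAt P.E A₀ z₀) :
    ∃ η : ℝ, 0 < η ∧ ∀ u : Fin r → ℝ → ℝ, (∀ i, Cons c L R ε (u i)) →
      (∀ i x, |u i x - u₀ i x| ≤ η) → ∀ A : Fin r → ℝ ≃o ℝ, (∀ i x, A i x = x + u i x) →
      ¬ GoodAt P.E A z₀ := by
  classical
  by_contra hcon
  push Not at hcon
  have hpos : ∀ k : ℕ, (0 : ℝ) < 1 / ((k : ℝ) + 1) := fun k => by positivity
  choose u hu hd A hA hG using fun k : ℕ => hcon (1 / ((k : ℝ) + 1)) (hpos k)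
  have hlim := nb_tendsto u₀ c L R ε hc A₀ hA₀ z₀ (fun k : ℕ => 1 / ((k : ℝ) + 1))
    tendsto_one_div_add_atTop_nhds_zero_nat u hu hd A hA
  have hf := (finite_ball r (max P.E.N 1)).prod (finite_ball r (max P.E.N 1))
  have key : ∀ x ∈ ({w : FG r | w.norm ≤ max P.E.N 1} ×ˢ {w : FG r | w.norm ≤ max P.E.N 1}),
      ∀ᶠ k in (atTop : Filter ℕ), (wa A₀ x.1 z₀ < wa A₀ x.2 z₀ →
        wa (A k) x.1 z₀ < wa (A k) x.2 z₀) := by
    rintro ⟨w, v⟩ _
    by_cases hlt : wa A₀ w z₀ < wa A₀ v z₀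
    · filter_upwards [(hlim w).eventually_lt (hlim v) hlt] with k hk _ using hk
    · exact Filter.Eventually.of_forall fun k hh => absurd hh hlt
  obtain ⟨k, hk⟩ := ((Filter.eventually_all_finite hf).2 key).exists
  refine hbad (good_mono P.E (a := A k) (p := z₀) ?_ (hG k))
  intro w v hw hv hwv
  by_contra hlt
  exact absurd (hk (v, w) ⟨hv, hw⟩ (not_le.1 hlt)) (not_lt.2 hwv)

end Pool.Agent.H815.HF
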