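import Pool.Agent.H815.HF.Sign
import Pool.Agent.H815.HF.Exit0
import Pool.Agent.H815.HF.Base
import Pool.Agent.H815.HF.Flip
import Pool.Agent.H815.HF.IndLift
import Pool.Agent.H815.HF.Cyclic
import Pool.Agent.H815.HF.NearBad

set_option autoImplicit false

namespace Pool.Agent.H815.HF

lemma cons_mono' {c₀ L₀ R ε₀ c L ε : ℝ} {u : ℝ → ℝ} (hc : c₀ ≤ c) (hL : L₀ ≤ L) (hε : ε₀ ≤ ε)
    (h : Cons c₀ L₀ R ε₀ u) : Cons c L R ε u := by
  refine ⟨fun x y hxy => ?_, fun x y hx hy => ?_, fun x y hx hy => ?_⟩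
  · have := h.1 x y hxy
    have hd : 0 ≤ y - x := sub_nonneg.2 hxy
    constructor
    · nlinarith [mul_le_mul_of_nonneg_right hc hd]
    · nlinarith [mul_le_mul_of_nonneg_right hL hd]
  · exact (h.2.1 x y hx hy).trans (mul_le_mul_of_nonneg_right hε (abs_nonneg _))
  · exact (h.2.2 x y hx hy).trans (mul_le_mul_of_nonneg_right hε (abs_nonneg _))

lemma closure_two {G : Type} [Group G] [DecidableEq G] (S : Finset G) (hS : S.card ≤ 2) :
    ∃ x y : G, Subgroup.closure (S : Set G) = Subgroup.closure {x, y} := by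
  have h : S.card = 0 ∨ S.card = 1 ∨ S.card = 2 := by omega
  rcases h with h | h | h
  · rw [Finset.card_eq_zero] at h
    refine ⟨1, 1, ?_⟩
    rw [h]
    simp [Subgroup.closure_singleton_one]
  · obtain ⟨a, ha⟩ := Finset.card_eq_one.1 h
    exact ⟨a, a, by rw [ha]; simp⟩
  · obtain ⟨a, b, -, hab⟩ := Finset.card_eq_two.1 h
    exact ⟨a, b, by rw [hab]; simp⟩

theorem exit_thm {r : ℕ} (P : LP r) (hr : 2 ≤ r)
    (hbad : ∃ (Ω : Type) (_ : LinearOrder Ω) (a : Fin r → Ω ≃o Ω), P.E.f Ω a ≠ a) :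
    ∃ q : Pat r, DE P.E q ∧ q.stab ≠ ⊤ := by
  classical
  obtain ⟨Ω, _, b, hb⟩ := hbad
  obtain ⟨p, hp⟩ : ∃ p, ¬ GoodAt P.E b p := by
    by_contra h
    push Not at h
    apply hb
    funext i
    ext x
    exact h x i
  -- the bad tuple on the line
  obtain ⟨u₀, c₀, L₀, R, M, z₀, hc₀, hc₀1, hL₀, hR, hu₀, hM, hpat⟩ :=
    base_tuple (max P.E.N 1) Ω b p
  obtain ⟨ε, N', hε, hnear⟩ := near_id_full P
  set c : ℝ := (1 + c₀) / 2 with hcdef
  have hc1 : c < 1 := by rw [hcdef]; linarith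
  have hc0 : c₀ < c := by rw [hcdef]; linarith
  have hcpos : 0 ≤ c := by linarith
  set L : ℝ := L₀ + 1 with hLdef
  have hLL : L₀ < L := by rw [hLdef]; linarith
  have hLpos : 1 ≤ L := by rw [hLdef]; linarith
  have hu₀' : ∀ i, Cons c L R ε (u₀ i) := fun i => cons_mono' hc0.le hLL.le hε.le (hu₀ i)
  obtain ⟨a₀, ha₀, -, -⟩ := path_exists u₀ c L R ε M hc1 hu₀' hM
  have hbad0 : ¬ GoodAt P.E (a₀ 1) z₀ := by
    intro h
    apply hp
    refine good_mono P.E (a := a₀ 1) (p := z₀) ?_ h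
    intro w v hw hv hwv
    exact (hpat (a₀ 1) (fun i x => by rw [ha₀ 1 zero_le_one le_rfl]; ring) w v hw hv).1 hwv
  obtain ⟨η, hη, hstable⟩ := near_bad P u₀ c L R ε hc1 hu₀' (a₀ 1)
    (fun i x => by rw [ha₀ 1 zero_le_one le_rfl]; ring) z₀ hbad0
  obtain ⟨u, hu, hu0, hu1, hu2, hu3⟩ := generic_full u₀ M c₀ L₀ R 0 c L ε η hM hc0 hLL hε hη hu₀
  have hM' : ∀ i x, |u i x| ≤ M + η := by
    intro i x
    have h1 := hu0 i x
    have h2 := hM i x
    calc |u i x| = |u₀ i x + (u i x - u₀ i x)| := by ring_nf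
      _ ≤ |u₀ i x| + |u i x - u₀ i x| := abs_add_le _ _
      _ ≤ M + η := add_le_add h2 h1
  obtain ⟨a, ha, hcont, hdis⟩ := path_exists u c L R ε (M + η) hc1 hu hM'
  have hbad1 : ¬ GoodAt P.E (a 1) z₀ :=
    hstable u hu hu0 (a 1) (fun i x => by rw [ha 1 zero_le_one le_rfl]; ring)
  have hlip : ∀ i x y, |u i x - u i y| ≤ L * |x - y| := by
    intro i x y
    rcases le_total x y with h | h
    · have := (hu i).1 x y h
      rw [abs_sub_comm, abs_sub_comm x y, abs_of_nonneg (sub_nonneg.2 h), abs_le]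
      constructor <;> nlinarith
    · have := (hu i).1 y x h
      rw [abs_of_nonneg (sub_nonneg.2 h), abs_le]
      constructor <;> nlinarith
  have hLpos' : 0 < L := by linarith
  -- goodness for small times and far points
  have hgood : ∀ t z : ℝ, 0 ≤ t → t ≤ 1 →
      (t ≤ ε / L ∨ (R + N' * (M + η)) ≤ |z|) → GoodAt P.E (a t) z := by
    intro t z ht ht1 hcase
    apply hnear
    intro i w v hw hv
    rw [ha t ht ht1, ha t ht ht1]
    have e : wa (a t) w z + t * u i (wa (a t) w z) - (wa (a t) v z + t * u i (wa (a t) v z)) -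
        (wa (a t) w z - wa (a t) v z) = t * (u i (wa (a t) w z) - u i (wa (a t) v z)) := by ring
    rw [e, abs_mul, abs_of_nonneg ht]
    rcases hcase with h | h
    · calc t * |u i (wa (a t) w z) - u i (wa (a t) v z)|
          ≤ (ε / L) * (L * |wa (a t) w z - wa (a t) v z|) :=
            mul_le_mul h (hlip _ _ _) (abs_nonneg _) (by positivity)
        _ = ε * |wa (a t) w z - wa (a t) v z| := by field_simp
    · have hMη : 0 ≤ M + η := (abs_nonneg _).trans (hM' i 0)
      have hw' : |wa (a t) w z - z| ≤ N' * (M + η) :=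
        (hdis t ht ht1 w z).trans (mul_le_mul_of_nonneg_right (by exact_mod_cast hw) hMη)
      have hv' : |wa (a t) v z - z| ≤ N' * (M + η) :=
        (hdis t ht ht1 v z).trans (mul_le_mul_of_nonneg_right (by exact_mod_cast hv) hMη)
      have key : |u i (wa (a t) w z) - u i (wa (a t) v z)| ≤
          ε * |wa (a t) w z - wa (a t) v z| := by
        rw [abs_le] at hw' hv'
        rcases le_total 0 z with hz | hz
        · rw [abs_of_nonneg hz] at h
          exact (hu i).2.1 _ _ (by linarith) (by linarith)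
        · rw [abs_of_nonpos hz] at h
          exact (hu i).2.2 _ _ (by linarith) (by linarith)
      calc t * |u i (wa (a t) w z) - u i (wa (a t) v z)|
          ≤ 1 * |u i (wa (a t) w z) - u i (wa (a t) v z)| :=
            mul_le_mul_of_nonneg_right ht1 (abs_nonneg _)
        _ ≤ _ := by rw [one_mul]; exact key
  obtain ⟨t, z, ht0, ht1, hE, q'', hq'', hq''bad⟩ := exit0 P a hcont (ε / L)
    (R + N' * (M + η)) (by positivity) hgood z₀ hbad1
  set q := patOf (a t) z with hqdef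
  have hpq : HasPat (a t) z q := hasPat_patOf _ _
  have hqC : InC P.E q := inC_of_eq P.E hpq (hE t ht0.le le_rfl)
  -- rank at most two
  obtain ⟨S, hS, hS'⟩ := tree_real (a t) (fun i x => x + t * u i x)
    (fun i x => ha t ht0.le ht1 i x) z 2 (fun D _ => by have := hu1 t ht0 ht1 D; omega)
  have hstabS : q.stab = Subgroup.closure (S : Set (FG r)) := by
    ext w
    rw [hS', hpq.mem_stab]
  -- nontrivial words move rational points
  have hrat : ∀ w : FG r, w ≠ 1 → ∀ s y : ℚ, 0 < s → s ≤ 1 → wa (a s) w (y : ℝ) ≠ y := by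
    intro w hw s y hs hs1
    have hs' : (0 : ℝ) < s := by exact_mod_cast hs
    have hs1' : (s : ℝ) ≤ 1 := by exact_mod_cast hs1
    exact free_of_zero (a s) (fun i x => x + (s:ℝ) * u i x) (fun i x => ha s hs'.le hs1' i x)
      (y : ℝ) (fun D hD => hu3 s y hs hs1 D hD) w hw
  have hrefine : ∀ w : FG r, w ≠ 1 →
      ∃ q' : Pat r, InC P.E q' ∧ q'.Refines q ∧ w ∉ q'.stab :=
    fun w hw => exit_refine P a hcont t z ht0 ht1 hE w (hrat w hw)
  -- the stabiliser is not commutative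
  have hnc : ∃ g₁ ∈ q.stab, ∃ g₂ ∈ q.stab, g₁ * g₂ ≠ g₂ * g₁ := by
    by_contra hcomm
    push Not at hcomm
    obtain ⟨x, hx⟩ := CyclicM.cyclic_of_comm q.stab hcomm
    apply hq''bad
    by_cases hx1 : x = 1
    · rw [hx1] at hx
      have hx' : ∀ w, w ∈ q.stab → w = 1 := by
        intro w hw
        rw [hx] at hw
        simpa using hw
      refine goodP_of_ball P.E (q' := q) ?_ hqC.goodP
      intro w v _ _ hwv
      rcases q''.total' w v with h | h
      · exact h
      · have h1 : q.eqv w v := ⟨hwv, hq'' _ _ h⟩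
        have h2 := hx' _ ((q.eqv_iff w v).1 h1)
        have h3 : w = v := by
          rw [inv_mul_eq_one] at h2
          exact h2
        rw [h3]
        exact q''.refl' v
    · obtain ⟨q', hq'C, hq'ref, hxq'⟩ := hrefine x hx1
      exact flip P (fun r Ω B _ _ a p ht Γ hΓ β => exists_ind a p ht Γ hΓ β) q q' q'' hqC hq'C
        hq'ref x hx hxq' hq''
  obtain ⟨g₁, hg₁, g₂, hg₂, hne⟩ := hnc
  refine ⟨q, ⟨hqC, ?_, ?_, ?_⟩, ?_⟩
  · obtain ⟨x, y, hxy⟩ := closure_two S hS
    exact ⟨x, y, by rw [hstabS, hxy]⟩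
  · obtain ⟨q', hq'C, hq'ref, hw⟩ := hrefine ((g₁ * g₂)⁻¹ * (g₂ * g₁)) (by
      intro h
      rw [inv_mul_eq_one] at h
      exact hne h)
    refine ⟨q', hq'C, hq'ref, g₁, hg₁, g₂, hg₂, ?_⟩
    rw [q'.eqv_iff]
    exact hw
  · exact ⟨q'', hq'', fun h => hq''bad h.goodP⟩
  · intro htop
    have h0 : ∀ i, u i z = 0 := by
      intro i
      have h1 : FreeGroup.of i ∈ q.stab := by rw [htop]; trivial
      have h2 := (hpq.mem_stab _).1 h1
      rw [wa_of, ha t ht0.le ht1] at h2
      have h3 : t * u i z = 0 := by linarith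
      rcases mul_eq_zero.1 h3 with h4 | h4
      · exact absurd h4 ht0.ne'
      · exact h4
    have h5 := hu2 {z}
    have h6 : ec (fun i x => x + u i x) {z} = r := by
      unfold ec
      rw [Finset.filter_true_of_mem]
      · simp
      · rintro ⟨x, i⟩ hx
        simp only [Finset.mem_product, Finset.mem_singleton, Finset.mem_univ, and_true] at hx
        simp [hx, h0]
    rw [h6] at h5
    simp at h5
    omega

end Pool.Agent.H815.HF
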