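import Mathlib

set_option autoImplicit false

namespace Pool.Agent.H815.HF.HollandM

section H170

variable {G : Type} [Group G] [Lattice G] [MulLeftMono G] [MulRightMono G]

theorem h170_inf_mul_le (u v w : G) (hu : 1 ≤ u) (hv : 1 ≤ v) (hw : 1 ≤ w) :
    (u * v) ⊓ w ≤ (u ⊓ w) * (v ⊓ w) := by
  rw [mul_inf, inf_mul, inf_mul]
  have h1 : w ≤ w * v := le_mul_of_one_le_right' hv
  have h2 : w ≤ u * w := le_mul_of_one_le_left' hu
  have h3 : w ≤ w * w := le_mul_of_one_le_right' hw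
  exact le_inf (le_inf inf_le_left (inf_le_right.trans h1)) (le_inf (inf_le_right.trans h2) (inf_le_right.trans h3))

theorem h170_posneg (t : G) : (t ⊔ 1) ⊓ (t⁻¹ ⊔ 1) = 1 := by
  have h1 : t ⊔ 1 = (t⁻¹ ⊔ 1) * t := by
    rw [sup_mul, inv_mul_cancel, one_mul, sup_comm]
  have h2 : (t⁻¹ ⊔ 1) * (t ⊓ 1) = 1 := by
    have h3 : (t⁻¹ ⊔ 1)⁻¹ = t ⊓ 1 := by rw [inv_sup, inv_inv, inv_one]
    rw [← h3, mul_inv_cancel]
  calc (t ⊔ 1) ⊓ (t⁻¹ ⊔ 1) = ((t⁻¹ ⊔ 1) * t) ⊓ ((t⁻¹ ⊔ 1) * 1) := by rw [← h1, mul_one]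
    _ = (t⁻¹ ⊔ 1) * (t ⊓ 1) := by rw [mul_inf]
    _ = 1 := h2

/-- convex submonoid of the positive cone avoiding `h` -/
def h170Cvx (h : G) (M : Submonoid G) : Prop :=
  (∀ x ∈ M, 1 ≤ x) ∧ (∀ x y, 1 ≤ x → x ≤ y → y ∈ M → x ∈ M) ∧ h ∉ M

/-- existence of a prime one -/
theorem h170_prime (h : G) (hh : ¬ h ≤ 1) (h1 : 1 ≤ h) : ∃ M : Submonoid G, h170Cvx h M ∧
    ∀ a b : G, a ⊓ b = 1 → a ∈ M ∨ b ∈ M := by
  have hz := zorn_le_nonempty₀ {M : Submonoid G | h170Cvx h M} (by
    intro c hc hch y hy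
    have hne : c.Nonempty := ⟨y, hy⟩
    have hmem : ∀ x, x ∈ sSup c ↔ ∃ s ∈ c, x ∈ s := fun x =>
      Submonoid.mem_sSup_of_directedOn hne hch.directedOn
    refine ⟨sSup c, ⟨?_, ?_, ?_⟩, fun z hz => le_sSup hz⟩
    · intro x hx
      obtain ⟨s, hs, hxs⟩ := (hmem x).1 hx
      exact (hc hs).1 x hxs
    · intro x y hx hxy hyM
      obtain ⟨s, hs, hys⟩ := (hmem y).1 hyM
      exact (hmem x).2 ⟨s, hs, (hc hs).2.1 x y hx hxy hys⟩
    · intro hx
      obtain ⟨s, hs, hxs⟩ := (hmem h).1 hx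
      exact (hc hs).2.2 hxs) ⊥ (by
    refine ⟨?_, ?_, ?_⟩
    · intro x hx
      rw [Submonoid.mem_bot] at hx
      exact hx.ge
    · intro x y hx hxy hy
      rw [Submonoid.mem_bot] at hy ⊢
      rw [hy] at hxy
      exact le_antisymm hxy hx
    · intro hx
      rw [Submonoid.mem_bot] at hx
      exact hh hx.le)
  obtain ⟨M, -, hM⟩ := hz
  obtain ⟨hpos, hcvx, hnot⟩ := hM.prop
  refine ⟨M, ⟨hpos, hcvx, hnot⟩, ?_⟩
  intro a b hab
  by_contra hcon
  push Not at hcon
  obtain ⟨ha, hb⟩ := hcon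
  have ha1 : 1 ≤ a := by rw [← hab]; exact inf_le_left
  have hb1 : 1 ≤ b := by rw [← hab]; exact inf_le_right
  -- the enlarged submonoid
  have hcl1 : ∀ d : G, 1 ≤ d → ∀ y ∈ Submonoid.closure ((M : Set G) ∪ {d}), 1 ≤ y := by
    intro d hd y hy
    induction hy using Submonoid.closure_induction with
    | mem x hx =>
      rcases hx with hx | hx
      · exact hpos x hx
      · rw [Set.mem_singleton_iff] at hx
        rw [hx]; exact hd
    | one => exact le_rfl
    | mul x y hx hy ihx ihy => exact one_le_mul ihx ihy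
  have key : ∀ d : G, 1 ≤ d → d ∉ M → ∃ y ∈ Submonoid.closure ((M : Set G) ∪ {d}), h ≤ y := by
    intro d hd hdM
    by_contra hno
    push Not at hno
    let N : Submonoid G :=
      { carrier := {x | 1 ≤ x ∧ ∃ y ∈ Submonoid.closure ((M : Set G) ∪ {d}), x ≤ y}
        one_mem' := ⟨le_rfl, 1, Submonoid.one_mem _, le_rfl⟩
        mul_mem' := by
          rintro x x' ⟨hx, y, hy, hxy⟩ ⟨hx', y', hy', hxy'⟩
          exact ⟨one_le_mul hx hx', y * y', Submonoid.mul_mem _ hy hy', mul_le_mul' hxy hxy'⟩ }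
    have hN : h170Cvx h N := by
      refine ⟨fun x hx => hx.1, ?_, ?_⟩
      · rintro x y hx hxy ⟨hy, y', hy', hyy'⟩
        exact ⟨hx, y', hy', hxy.trans hyy'⟩
      · rintro ⟨-, y, hy, hhy⟩
        exact hno y hy hhy
    have hMN : M ≤ N := by
      intro x hx
      exact ⟨hpos x hx, x, Submonoid.subset_closure (Or.inl hx), le_rfl⟩
    have hNM := hM.2 hN hMN
    exact hdM (hNM ⟨hd, d, Submonoid.subset_closure (Or.inr rfl), le_rfl⟩)
  obtain ⟨y, hy, hhy⟩ := key a ha1 ha
  obtain ⟨y', hy', hhy'⟩ := key b hb1 hb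
  have hM1 : ∀ x z : G, 1 ≤ z → x ∈ M → x ⊓ z ∈ M := fun x z hz hx =>
    hcvx _ x (le_inf (hpos x hx) hz) inf_le_left hx
  have s1 : ∀ z ∈ Submonoid.closure ((M : Set G) ∪ {b}), a ⊓ z ∈ M := by
    intro z hz
    induction hz using Submonoid.closure_induction with
    | mem x hx =>
      rcases hx with hx | hx
      · rw [inf_comm]
        exact hM1 x a ha1 hx
      · rw [Set.mem_singleton_iff] at hx
        rw [hx, hab]
        exact M.one_mem
    | one =>
      rw [inf_comm]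
      exact hM1 1 a ha1 M.one_mem
    | mul u v hu hv ihu ihv =>
      have hu1 := hcl1 b hb1 u hu
      have hv1 := hcl1 b hb1 v hv
      have h2 := h170_inf_mul_le u v a hu1 hv1 ha1
      rw [inf_comm]
      refine hcvx _ _ (le_inf (one_le_mul hu1 hv1) ha1) h2 ?_
      rw [inf_comm u a, inf_comm v a]
      exact M.mul_mem ihu ihv
  have hy'1 := hcl1 b hb1 y' hy'
  have s2 : ∀ z ∈ Submonoid.closure ((M : Set G) ∪ {a}), z ⊓ y' ∈ M := by
    intro z hz
    induction hz using Submonoid.closure_induction with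
    | mem x hx =>
      rcases hx with hx | hx
      · exact hM1 x y' hy'1 hx
      · rw [Set.mem_singleton_iff] at hx
        rw [hx]
        exact s1 y' hy'
    | one => exact hM1 1 y' hy'1 M.one_mem
    | mul u v hu hv ihu ihv =>
      have hu1 := hcl1 a ha1 u hu
      have hv1 := hcl1 a ha1 v hv
      have h2 := h170_inf_mul_le u v y' hu1 hv1 hy'1
      exact hcvx _ _ (le_inf (one_le_mul hu1 hv1) hy'1) h2 (M.mul_mem ihu ihv)
  exact hnot (hcvx h (y ⊓ y') h1 (le_inf hhy hhy') (s2 y hy))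

/-- the coset preorder -/
def h170R (M : Submonoid G) (x y : G) : Prop := ∃ m ∈ M, x ≤ y * m

theorem h170R_refl (M : Submonoid G) (x : G) : h170R M x x := ⟨1, M.one_mem, by rw [mul_one]⟩

theorem h170R_trans (M : Submonoid G) {x y z : G} (h1 : h170R M x y) (h2 : h170R M y z) : h170R M x z := by
  obtain ⟨m, hm, h1⟩ := h1
  obtain ⟨m', hm', h2⟩ := h2
  refine ⟨m' * m, M.mul_mem hm' hm, h1.trans ?_⟩
  rw [← mul_assoc]
  exact mul_le_mul_left h2 m

theorem h170R_of_le (M : Submonoid G) {x y : G} (h : x ≤ y) : h170R M x y :=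
  ⟨1, M.one_mem, by rwa [mul_one]⟩

theorem h170R_total (M : Submonoid G) (hP : ∀ a b : G, a ⊓ b = 1 → a ∈ M ∨ b ∈ M) (x y : G) :
    h170R M x y ∨ h170R M y x := by
  rcases hP _ _ (h170_posneg (y⁻¹ * x)) with h | h
  · left
    refine ⟨_, h, ?_⟩
    rw [mul_sup, mul_inv_cancel_left]
    exact le_sup_left
  · right
    refine ⟨_, h, ?_⟩
    rw [mul_sup, mul_inv_rev, inv_inv, mul_inv_cancel_left]
    exact le_sup_left

theorem h170R_mul (M : Submonoid G) (a x y : G) : h170R M (a * x) (a * y) ↔ h170R M x y := by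
  unfold h170R
  constructor
  · rintro ⟨m, hm, h⟩
    refine ⟨m, hm, ?_⟩
    rw [mul_assoc] at h
    exact (mul_le_mul_iff_left a).1 h
  · rintro ⟨m, hm, h⟩
    refine ⟨m, hm, ?_⟩
    rw [mul_assoc]
    exact (mul_le_mul_iff_left a).2 h

/-- the quotient -/
def h170S (M : Submonoid G) : Setoid G where
  r x y := h170R M x y ∧ h170R M y x
  iseqv := ⟨fun x => ⟨h170R_refl M x, h170R_refl M x⟩, fun h => ⟨h.2, h.1⟩,
    fun h1 h2 => ⟨h170R_trans M h1.1 h2.1, h170R_trans M h2.2 h1.2⟩⟩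

def h170Q (M : Submonoid G) : Type := Quotient (h170S M)

def h170mk (M : Submonoid G) (x : G) : h170Q M := Quotient.mk (h170S M) x

theorem h170mk_eq (M : Submonoid G) (x y : G) : h170mk M x = h170mk M y ↔ h170R M x y ∧ h170R M y x :=
  ⟨fun h => Quotient.exact h, fun h => Quotient.sound h⟩

def h170le (M : Submonoid G) : h170Q M → h170Q M → Prop :=
  Quotient.lift₂ (fun x y => h170R M x y) (by
    intro a b a' b' h1 h2
    exact propext ⟨fun h => h170R_trans M (h170R_trans M h1.2 h) h2.1,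
      fun h => h170R_trans M (h170R_trans M h1.1 h) h2.2⟩)

theorem h170_mk_surj (M : Submonoid G) (q : h170Q M) : ∃ x, h170mk M x = q := Quotient.exists_rep q

@[instance_reducible] noncomputable def h170LO (M : Submonoid G) (hP : ∀ a b : G, a ⊓ b = 1 → a ∈ M ∨ b ∈ M) : LinearOrder (h170Q M) :=
  { le := h170le M
    le_refl := by
      intro q
      obtain ⟨x, rfl⟩ := h170_mk_surj M q
      exact h170R_refl M x
    le_trans := by
      intro p q r h1 h2
      obtain ⟨x, rfl⟩ := h170_mk_surj M p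
      obtain ⟨y, rfl⟩ := h170_mk_surj M q
      obtain ⟨z, rfl⟩ := h170_mk_surj M r
      exact h170R_trans M h1 h2
    le_antisymm := by
      intro p q h1 h2
      obtain ⟨x, rfl⟩ := h170_mk_surj M p
      obtain ⟨y, rfl⟩ := h170_mk_surj M q
      exact (h170mk_eq M x y).2 ⟨h1, h2⟩
    le_total := by
      intro p q
      obtain ⟨x, rfl⟩ := h170_mk_surj M p
      obtain ⟨y, rfl⟩ := h170_mk_surj M q
      exact h170R_total M hP x y
    toDecidableLE := Classical.decRel _ }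

def h170act (M : Submonoid G) (a : G) : h170Q M → h170Q M :=
  Quotient.map' (s₁ := h170S M) (s₂ := h170S M) (fun x => a * x) (by
    intro x y h
    exact ⟨(h170R_mul M a x y).2 h.1, (h170R_mul M a y x).2 h.2⟩)

theorem h170act_mk (M : Submonoid G) (a x : G) : h170act M a (h170mk M x) = h170mk M (a * x) := rfl

end H170

/-- Holland's representation theorem: every element `g ≠ 1` of a lattice-ordered group acts
nontrivially in some representation by automorphisms of a chain (`l`-homomorphism into `Aut(Ω)`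
with the pointwise lattice operations). -/
theorem holland (G : Type) [Group G] [Lattice G] [MulLeftMono G] [MulRightMono G]
    (g : G) (hg : g ≠ 1) :
    ∃ (Ω : Type) (_ : LinearOrder Ω) (ρ : G →* (Ω ≃o Ω)),
      (∀ (a b : G) (x : Ω), ρ (a ⊔ b) x = max (ρ a x) (ρ b x)) ∧
      (∀ (a b : G) (x : Ω), ρ (a ⊓ b) x = min (ρ a x) (ρ b x)) ∧
      ρ g ≠ 1 := by
  have h1 : 1 ≤ g ⊔ g⁻¹ := one_le_mabs g
  have hh : ¬ (g ⊔ g⁻¹) ≤ 1 := by
    intro h
    have a1 : g ≤ 1 := le_sup_left.trans h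
    have a2 : g⁻¹ ≤ 1 := le_sup_right.trans h
    exact hg (le_antisymm a1 (Left.inv_le_one_iff.1 a2))
  obtain ⟨M, ⟨hpos, hcvx, hnot⟩, hP⟩ := h170_prime (g ⊔ g⁻¹) hh h1
  let LO := h170LO M hP
  have hle : ∀ x y : G, h170mk M x ≤ h170mk M y ↔ h170R M x y := fun x y => Iff.rfl
  let act : G → (h170Q M ≃o h170Q M) := fun a =>
    { toFun := h170act M a
      invFun := h170act M a⁻¹
      left_inv := by
        intro q
        obtain ⟨x, rfl⟩ := h170_mk_surj M q
        rw [h170act_mk, h170act_mk, inv_mul_cancel_left]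
      right_inv := by
        intro q
        obtain ⟨x, rfl⟩ := h170_mk_surj M q
        rw [h170act_mk, h170act_mk, mul_inv_cancel_left]
      map_rel_iff' := by
        intro p q
        obtain ⟨x, rfl⟩ := h170_mk_surj M p
        obtain ⟨y, rfl⟩ := h170_mk_surj M q
        exact h170R_mul M a x y }
  have hact : ∀ a x, act a (h170mk M x) = h170mk M (a * x) := fun a x => rfl
  let ρ : G →* (h170Q M ≃o h170Q M) :=
    { toFun := act
      map_one' := by
        ext q
        obtain ⟨x, rfl⟩ := h170_mk_surj M q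
        rw [hact, one_mul]
        rfl
      map_mul' := by
        intro a b
        ext q
        obtain ⟨x, rfl⟩ := h170_mk_surj M q
        rw [RelIso.mul_apply, hact, hact, hact, mul_assoc] }
  have hρ : ∀ a x, ρ a (h170mk M x) = h170mk M (a * x) := fun a x => rfl
  have hsup : ∀ y z : G, h170mk M (y ⊔ z) = max (h170mk M y) (h170mk M z) := by
    have hs : ∀ y z : G, h170R M y z → h170mk M (y ⊔ z) = h170mk M z := by
      rintro y z ⟨m, hm, h⟩
      refine (h170mk_eq M _ _).2 ⟨⟨m, hm, ?_⟩, h170R_of_le M le_sup_right⟩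
      exact sup_le h (le_mul_of_one_le_right' (hpos m hm))
    intro y z
    rcases h170R_total M hP y z with h | h
    · rw [hs y z h, max_eq_right ((hle y z).2 h)]
    · rw [sup_comm, hs z y h, max_eq_left ((hle z y).2 h)]
  have hinf : ∀ y z : G, h170mk M (y ⊓ z) = min (h170mk M y) (h170mk M z) := by
    have hs : ∀ y z : G, h170R M y z → h170mk M (y ⊓ z) = h170mk M y := by
      rintro y z ⟨m, hm, h⟩
      refine (h170mk_eq M _ _).2 ⟨h170R_of_le M inf_le_left, ⟨m, hm, ?_⟩⟩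
      rw [inf_mul]
      exact le_inf (le_mul_of_one_le_right' (hpos m hm)) h
    intro y z
    rcases h170R_total M hP y z with h | h
    · rw [hs y z h, min_eq_left ((hle y z).2 h)]
    · rw [inf_comm, hs z y h, min_eq_right ((hle z y).2 h)]
  refine ⟨h170Q M, LO, ρ, ?_, ?_, ?_⟩
  · intro a b q
    obtain ⟨x, rfl⟩ := h170_mk_surj M q
    rw [hρ, hρ, hρ, sup_mul, hsup]
  · intro a b q
    obtain ⟨x, rfl⟩ := h170_mk_surj M q
    rw [hρ, hρ, hρ, inf_mul, hinf]
  · intro h
    have h2 : h170mk M g = h170mk M 1 := by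
      have h3 := hρ g 1
      rw [h, mul_one] at h3
      exact h3.symm
    obtain ⟨⟨m, hm, e1⟩, ⟨m', hm', e2⟩⟩ := (h170mk_eq M _ _).1 h2
    rw [one_mul] at e1
    have e3 : g⁻¹ ≤ m' := by
      have := mul_le_mul_right e2 g⁻¹
      rwa [mul_one, inv_mul_cancel_left] at this
    refine hnot (hcvx _ (m * m') h1 ?_ (M.mul_mem hm hm'))
    refine sup_le (e1.trans (le_mul_of_one_le_right' (hpos m' hm'))) (e3.trans (le_mul_of_one_le_left' (hpos m hm)))

end Pool.Agent.H815.HF.HollandM
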