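import Pool.Agent.H815.HF.IndPat

set_option autoImplicit false

namespace Pool.Agent.H815.HF

lemma pat_ext {r : ℕ} {q q' : Pat r} (h : ∀ w v, q.le w v ↔ q'.le w v) : q = q' := by
  cases q
  cases q'
  congr
  funext w v
  exact propext (h w v)

lemma indPat_le_iff {r s : ℕ} (q : Pat r) (ι : FG s ≃* q.stab) (ρ : Pat s) (w v : FG r)
    (h : w⁻¹ * v ∈ q.stab) : (IndPat q ι ρ).le w v ↔ ρ.le 1 (ι.symm ⟨w⁻¹ * v, h⟩) := by
  constructor
  · rintro (⟨h1, h2⟩ | ⟨_, h2⟩)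
    · exact absurd ((q.eqv_iff w v).2 h).2 h2
    · exact h2
  · intro h2
    exact Or.inr ⟨h, h2⟩

lemma indPat_le_iff' {r s : ℕ} (q : Pat r) (ι : FG s ≃* q.stab) (ρ : Pat s) (w v : FG r)
    (h : ¬ q.eqv w v) : (IndPat q ι ρ).le w v ↔ q.le w v := by
  constructor
  · rintro (⟨h1, h2⟩ | ⟨h1, h2⟩)
    · exact h1
    · exact absurd ((q.eqv_iff w v).2 h1) h
  · intro h2
    exact Or.inl ⟨h2, fun h3 => h ⟨h2, h3⟩⟩

theorem ind_refines {r s : ℕ} (q : Pat r) (ι : FG s ≃* q.stab) (ρ : Pat s) :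
    (IndPat q ι ρ).Refines q := by
  rintro w v (⟨h1, _⟩ | ⟨h1, _⟩)
  · exact h1
  · exact ((q.eqv_iff w v).2 h1).1

theorem ind_mono {r s : ℕ} (q : Pat r) (ι : FG s ≃* q.stab) {ρ ρ' : Pat s}
    (h : ρ'.Refines ρ) : (IndPat q ι ρ').Refines (IndPat q ι ρ) := by
  rintro w v (h1 | ⟨h1, h2⟩)
  · exact Or.inl h1
  · exact Or.inr ⟨h1, h _ _ h2⟩

theorem ind_stab {r s : ℕ} (q : Pat r) (ι : FG s ≃* q.stab) (ρ : Pat s) (w : FG r) :
    w ∈ (IndPat q ι ρ).stab ↔ ∃ h : w ∈ q.stab, ι.symm ⟨w, h⟩ ∈ ρ.stab := by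
  have key : ∀ h : w ∈ q.stab, (IndPat q ι ρ).eqv w 1 ↔ ρ.eqv (ι.symm ⟨w, h⟩) 1 := by
    intro h
    have h1 : w⁻¹ * 1 ∈ q.stab := by rw [mul_one]; exact q.stab.inv_mem h
    have h2 : (1 : FG r)⁻¹ * w ∈ q.stab := by rw [inv_one, one_mul]; exact h
    have e1 : (⟨w⁻¹ * 1, h1⟩ : q.stab) = (⟨w, h⟩ : q.stab)⁻¹ := Subtype.ext (by simp)
    have e2 : (⟨(1 : FG r)⁻¹ * w, h2⟩ : q.stab) = ⟨w, h⟩ := Subtype.ext (by simp)
    rw [Pat.eqv, Pat.eqv, indPat_le_iff q ι ρ w 1 h1, indPat_le_iff q ι ρ 1 w h2, e1, e2, map_inv]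
    rw [← ρ.le_mul_iff (ι.symm ⟨w, h⟩) 1 (ι.symm ⟨w, h⟩)⁻¹]
    rw [mul_one, mul_inv_cancel]
  constructor
  · intro h
    have h' : (IndPat q ι ρ).eqv w 1 := h
    have h0 : w ∈ q.stab := ⟨ind_refines q ι ρ _ _ h'.1, ind_refines q ι ρ _ _ h'.2⟩
    exact ⟨h0, (key h0).1 h'⟩
  · rintro ⟨h0, h⟩
    exact (key h0).2 h

theorem ind_surj {r s : ℕ} (q : Pat r) (ι : FG s ≃* q.stab) (q' : Pat r) (h : q'.Refines q) :
    ∃ ρ : Pat s, IndPat q ι ρ = q' := by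
  refine ⟨{ le := fun x y => q'.le (ι x : FG r) (ι y : FG r)
            refl' := fun x => q'.refl' _
            trans' := fun x y z => q'.trans' _ _ _
            total' := fun x y => q'.total' _ _
            mul' := fun x y z hh => by
              rw [map_mul, map_mul]
              exact q'.mul' _ _ _ hh }, ?_⟩
  apply pat_ext
  intro w v
  by_cases hq : q.eqv w v
  · have h1 := (q.eqv_iff w v).1 hq
    rw [indPat_le_iff q ι _ w v h1]
    show q'.le ((ι 1 : q.stab) : FG r) ((ι (ι.symm ⟨w⁻¹ * v, h1⟩) : q.stab) : FG r) ↔ _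
    rw [map_one, MulEquiv.apply_symm_apply]
    exact (q'.le_iff_inv w v).symm
  · rw [indPat_le_iff' q ι _ w v hq]
    constructor
    · intro h1
      rcases q'.total' w v with h2 | h2
      · exact h2
      · exact absurd ⟨h1, h v w h2⟩ hq
    · exact h w v

/-- the pattern of an induced lift. -/
theorem ind_hasPat {r s : ℕ} {Ω B : Type} [LinearOrder Ω] [LinearOrder B]
    (a : Fin r → Ω ≃o Ω) (p : Ω) (q : Pat r) (hq : HasPat a p q) (ι : FG s ≃* q.stab)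
    (b : Fin s → B ≃o B) (y : B) (ρ : Pat s) (hρ : HasPat b y ρ) (c : Fin r → Ω → B ≃o B)
    (hc : ∀ w : FG s, coc a c (ι w : FG r) p = FreeGroup.lift b w) :
    HasPat (lif a c) (toLex (p, y)) (IndPat q ι ρ) := by
  intro w v
  rw [wa_lif, wa_lif, Prod.Lex.toLex_le_toLex]
  show wa a w p < wa a v p ∨ (wa a w p = wa a v p ∧ coc a c w p y ≤ coc a c v p y) ↔ _
  by_cases e : wa a w p = wa a v p
  · have h0 : q.eqv w v := (hq.eqv_iff w v).2 e
    have h1 := (q.eqv_iff w v).1 h0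
    rw [indPat_le_iff q ι ρ w v h1]
    have hfix : wa a (w⁻¹ * v) p = p := (hq.mem_stab _).1 h1
    have hcg : coc a c (w⁻¹ * v) p = FreeGroup.lift b (ι.symm ⟨w⁻¹ * v, h1⟩) := by
      have := hc (ι.symm ⟨w⁻¹ * v, h1⟩)
      rwa [MulEquiv.apply_symm_apply] at this
    have hcv : coc a c v p = coc a c w p * FreeGroup.lift b (ι.symm ⟨w⁻¹ * v, h1⟩) := by
      rw [← hcg]
      conv_lhs => rw [show v = w * (w⁻¹ * v) by group]
      rw [coc_mul, hfix]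
    have h2 : coc a c w p y ≤ coc a c v p y ↔ y ≤ wa b (ι.symm ⟨w⁻¹ * v, h1⟩) y := by
      rw [hcv]
      exact (coc a c w p).le_iff_le
    have h3 : y ≤ wa b (ι.symm ⟨w⁻¹ * v, h1⟩) y ↔ ρ.le 1 (ι.symm ⟨w⁻¹ * v, h1⟩) := by
      rw [← hρ, wa_one]
    rw [← h3, ← h2]
    constructor
    · rintro (h4 | h4)
      · exact absurd e h4.ne
      · exact h4.2
    · intro h4
      exact Or.inr ⟨e, h4⟩
  · have h0 : ¬ q.eqv w v := fun h => e ((hq.eqv_iff w v).1 h)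
    rw [indPat_le_iff' q ι ρ w v h0, ← hq]
    constructor
    · rintro (h4 | h4)
      · exact h4.le
      · exact absurd h4.1 e
    · intro h4
      exact Or.inl (lt_of_le_of_ne h4 e)

/-- transitivity of an induced lift. -/
theorem ind_trans {r s : ℕ} {Ω B : Type} [LinearOrder Ω] [LinearOrder B]
    (a : Fin r → Ω ≃o Ω) (p : Ω) (q : Pat r) (hq : HasPat a p q)
    (ht : ∀ x, ∃ w, wa a w p = x) (ι : FG s ≃* q.stab)
    (b : Fin s → B ≃o B) (y : B) (ht' : ∀ x, ∃ w, wa b w y = x) (c : Fin r → Ω → B ≃o B)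
    (hc : ∀ w : FG s, coc a c (ι w : FG r) p = FreeGroup.lift b w) :
    ∀ z, ∃ w, wa (lif a c) w (toLex (p, y)) = z := by
  intro z
  induction z using lex_ind with
  | h x t =>
    obtain ⟨w, hw⟩ := ht x
    obtain ⟨u, hu⟩ := ht' ((coc a c w p).symm t)
    have hfix : wa a (ι u : FG r) p = p := (hq.mem_stab _).1 (ι u).2
    refine ⟨w * (ι u : FG r), ?_⟩
    rw [wa_lif, wa_mul, hfix, hw, coc_mul, hfix, hc u]
    rw [toLex_inj']
    refine ⟨rfl, ?_⟩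
    show coc a c w p (wa b u y) = t
    rw [hu]
    exact (coc a c w p).apply_symm_apply t

end Pool.Agent.H815.HF
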