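import Mathlib

set_option autoImplicit false

namespace Pool.Agent.H815.HF.IsoTwoM

theorem comm_of_subsingleton8808 {X : Type} [Subsingleton X] (a b : FreeGroup X) :
    a * b = b * a := by
  have h1 : ∀ (x : X) (b : FreeGroup X), Commute (FreeGroup.of x) b := by
    intro x b
    induction b using FreeGroup.induction_on with
    | C1 => exact Commute.one_right _
    | of y => rw [Subsingleton.elim x y]
    | inv_of y h => exact h.inv_right
    | mul u v hu hv => exact hu.mul_right hv
  have h2 : Commute a b := by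
    induction a using FreeGroup.induction_on with
    | C1 => exact Commute.one_left _
    | of y => exact h1 y b
    | inv_of y h => exact h.inv_left
    | mul u v hu hv => exact hu.mul_left hv
  exact h2

theorem surj_of_embedding8808 {X : Type} (ι : Fin 3 ↪ X) :
    ∃ χ : FreeGroup X →* Multiplicative (Fin 3 → ℤ), Function.Surjective χ := by
  classical
  let f : X → Multiplicative (Fin 3 → ℤ) :=
    Function.extend ι (fun j => Multiplicative.ofAdd (Pi.single j (1 : ℤ))) 1
  have hf : ∀ j, f (ι j) = Multiplicative.ofAdd (Pi.single j (1 : ℤ)) := fun j =>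
    ι.injective.extend_apply _ _ j
  refine ⟨FreeGroup.lift f, fun v => ?_⟩
  refine ⟨(FreeGroup.of (ι 0)) ^ (v.toAdd 0) * (FreeGroup.of (ι 1)) ^ (v.toAdd 1) *
    (FreeGroup.of (ι 2)) ^ (v.toAdd 2), ?_⟩
  rw [map_mul, map_mul, map_zpow, map_zpow, map_zpow, FreeGroup.lift_apply_of,
    FreeGroup.lift_apply_of, FreeGroup.lift_apply_of, hf, hf, hf]
  apply Multiplicative.toAdd.injective
  rw [toAdd_mul, toAdd_mul, toAdd_zpow, toAdd_zpow, toAdd_zpow, toAdd_ofAdd, toAdd_ofAdd,
    toAdd_ofAdd]
  funext i
  fin_cases i <;> simp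

/-- A non commutative subgroup of a free group without homomorphism onto `ℤ³` is free of rank 2. -/
theorem iso_two {r : ℕ} (H : Subgroup (FreeGroup (Fin r)))
    (hnc : ∃ a ∈ H, ∃ b ∈ H, a * b ≠ b * a)
    (h3 : ¬ ∃ χ : H →* Multiplicative (Fin 3 → ℤ), Function.Surjective χ) :
    Nonempty (FreeGroup (Fin 2) ≃* H) := by
  classical
  haveI : IsFreeGroup H := subgroupIsFreeOfIsFree H
  let e : H ≃* FreeGroup (IsFreeGroup.Generators H) := IsFreeGroup.toFreeGroup H
  have hno : ¬ Nonempty (Fin 3 ↪ IsFreeGroup.Generators H) := by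
    rintro ⟨ι⟩
    obtain ⟨χ, hχ⟩ := surj_of_embedding8808 ι
    exact h3 ⟨χ.comp e.toMonoidHom, hχ.comp e.surjective⟩
  haveI : Finite (IsFreeGroup.Generators H) := by
    by_contra hinf
    rw [not_finite_iff_infinite] at hinf
    exact hno ⟨Fin.valEmbedding.trans (Infinite.natEmbedding _)⟩
  haveI : Fintype (IsFreeGroup.Generators H) := Fintype.ofFinite _
  have hlt : Fintype.card (IsFreeGroup.Generators H) < 3 := by
    by_contra hge
    push Not at hge
    exact hno (Function.Embedding.nonempty_of_card_le (by simpa using hge))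
  have hgt : 1 < Fintype.card (IsFreeGroup.Generators H) := by
    by_contra hle
    push Not at hle
    haveI : Subsingleton (IsFreeGroup.Generators H) := Fintype.card_le_one_iff_subsingleton.mp hle
    obtain ⟨a, ha, b, hb, hab⟩ := hnc
    apply hab
    have := comm_of_subsingleton8808 (e ⟨a, ha⟩) (e ⟨b, hb⟩)
    rw [← map_mul, ← map_mul] at this
    have := e.injective this
    exact congrArg Subtype.val this
  have h2 : Fintype.card (IsFreeGroup.Generators H) = 2 := by omega
  exact ⟨((FreeGroup.freeGroupCongr (Fintype.equivFinOfCardEq h2)).symm).trans e.symm⟩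

/-- A group generated by two elements has no homomorphism onto `ℤ³`. -/
theorem no_surj_three {G : Type} [Group G] (x y : G) (hxy : Subgroup.closure {x, y} = ⊤) :
    ¬ ∃ χ : G →* Multiplicative (Fin 3 → ℤ), Function.Surjective χ := by
  rintro ⟨χ, hχ⟩
  have h1 : Subgroup.closure {χ x, χ y} = ⊤ := by
    have := MonoidHom.map_closure χ {x, y}
    rw [hxy, Subgroup.map_top_of_surjective χ hχ, Set.image_pair] at this
    exact this.symm
  let a : Fin 3 → ℤ := (χ x).toAdd
  let b : Fin 3 → ℤ := (χ y).toAdd
  let L : (Fin 2 → ℤ) →ₗ[ℤ] (Fin 3 → ℤ) :=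
    (LinearMap.proj (R := ℤ) (φ := fun _ : Fin 2 => ℤ) 0).smulRight a +
      (LinearMap.proj (R := ℤ) (φ := fun _ : Fin 2 => ℤ) 1).smulRight b
  have hL : Function.Surjective L := by
    intro v
    have hv : Multiplicative.ofAdd v ∈ Subgroup.closure {χ x, χ y} := by
      rw [h1]; trivial
    obtain ⟨m, n, hmn⟩ := Subgroup.mem_closure_pair.mp hv
    refine ⟨![m, n], ?_⟩
    have := congrArg Multiplicative.toAdd hmn
    rw [toAdd_mul, toAdd_zpow, toAdd_zpow, toAdd_ofAdd] at this
    simpa [L] using this
  have h2 := LinearMap.finrank_range_le L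
  rw [LinearMap.range_eq_top.mpr hL, finrank_top] at h2
  simp at h2

end Pool.Agent.H815.HF.IsoTwoM
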