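import Pool.Agent.H815.HF.IndLift
import Pool.Agent.H815.HF.Comp

set_option autoImplicit false

namespace Pool.Agent.H815.HF

/-- the fibre action at the stabiliser of `p` -/
lemma loc_coc {r m : ℕ} {Ω : Type} [LinearOrder Ω] (a : Fin r → Ω ≃o Ω) (p : Ω)
    (q : Pat r) (ι : FG m ≃* q.stab) {B : Type} [LinearOrder B]
    (b : Fin m → B ≃o B) (c : Fin r → Ω → B ≃o B)
    (hc : ∀ w : FG m, coc a c (ι w : FG r) p = FreeGroup.lift b w) (g : FG r) (hg : g ∈ q.stab) :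
    coc a c g p = FreeGroup.lift b (ι.symm ⟨g, hg⟩) := by
  have := hc (ι.symm ⟨g, hg⟩)
  rwa [MulEquiv.apply_symm_apply] at this

lemma loc_indep {r m : ℕ} (O : Op r r) {Ω : Type} [LinearOrder Ω] (a : Fin r → Ω ≃o Ω) (p : Ω)
    (ht : ∀ x, ∃ w, wa a w p = x) (q : Pat r) (hq : HasPat a p q) (ι : FG m ≃* q.stab)
    {B : Type} [LinearOrder B] (b : Fin m → B ≃o B) (c c' : Fin r → Ω → B ≃o B)
    (hc : ∀ w : FG m, coc a c (ι w : FG r) p = FreeGroup.lift b w)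
    (hc' : ∀ w : FG m, coc a c' (ι w : FG r) p = FreeGroup.lift b w)
    (d d' : Fin r → Ω → B ≃o B) (hd : O.f (Ω ×ₗ B) (lif a c) = lif (O.f Ω a) d)
    (hd' : O.f (Ω ×ₗ B) (lif a c') = lif (O.f Ω a) d') (w : FG r)
    (hw : wa (O.f Ω a) w p = p) : coc (O.f Ω a) d w p = coc (O.f Ω a) d' w p := by
  obtain ⟨u, hu1, hu⟩ := gauge a p ht c c' (by
    intro w hw
    have hmem : w ∈ q.stab := (hq.mem_stab w).2 hw
    rw [loc_coc a p q ι b c hc w hmem, loc_coc a p q ι b c' hc' w hmem])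
  set U : (Ω ×ₗ B) ≃o (Ω ×ₗ B) := lif1 (OrderIso.refl Ω) u with hU
  have hUa : ∀ x y, U (toLex (x, y)) = toLex (x, u x y) := fun _ _ => rfl
  have hUi : ∀ x y, U⁻¹ (toLex (x, y)) = toLex (x, (u x)⁻¹ y) := fun _ _ => rfl
  have h1 : lif a c' = fun i => U * lif a c i * U⁻¹ := by
    funext i
    ext z
    induction z using lex_ind with
    | h x y =>
      show lif a c' i (toLex (x, y)) = U (lif a c i (U⁻¹ (toLex (x, y))))
      rw [hUi, lif_apply, lif_apply, hUa, hu]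
      rfl
  have h2 : lif (O.f Ω a) d' = fun i => U * lif (O.f Ω a) d i * U⁻¹ := by
    rw [← hd', h1, op_conj, hd]
  have h3 : ∀ i z, U (lif (O.f Ω a) d i z) = lif (O.f Ω a) d' i (U z) := by
    intro i z
    rw [h2]
    show _ = U (lif (O.f Ω a) d i (U⁻¹ (U z)))
    rw [show U⁻¹ (U z) = z from U.symm_apply_apply z]
  ext y
  have h4 := wa_nat (lif (O.f Ω a) d) (lif (O.f Ω a) d') U h3 w (toLex (p, y))
  rw [hUa, hu1, wa_lif, wa_lif, hUa, hw, hu1, toLex_inj'] at h4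
  exact h4.2

lemma loc_mon {r m : ℕ} {Ω : Type} [LinearOrder Ω] (a : Fin r → Ω ≃o Ω) (p : Ω)
    (q : Pat r) (hq : HasPat a p q) (ι : FG m ≃* q.stab) (N1 N' : ℕ)
    (hN : ∀ (x : FG r) (hx : x ∈ q.stab), x.norm ≤ 2 * N1 → (ι.symm ⟨x, hx⟩).norm ≤ N')
    {B : Type} [LinearOrder B] (b : Fin m → B ≃o B) (c : Fin r → Ω → B ≃o B)
    (hc : ∀ w : FG m, coc a c (ι w : FG r) p = FreeGroup.lift b w) (y : B)
    {B' : Type} [LinearOrder B'] (b' : Fin m → B' ≃o B') (c' : Fin r → Ω → B' ≃o B')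
    (hc' : ∀ w : FG m, coc a c' (ι w : FG r) p = FreeGroup.lift b' w) (y' : B')
    (h : Mon N' b y b' y') : Mon N1 (lif a c) (toLex (p, y)) (lif a c') (toLex (p, y')) := by
  intro w v hw hv hle
  rw [wa_lif, wa_lif, Prod.Lex.toLex_le_toLex] at hle ⊢
  rcases hle with hlt | ⟨heq, hle⟩
  · exact Or.inl hlt
  · have heq' : wa a w p = wa a v p := heq
    refine Or.inr ⟨heq, ?_⟩
    have hg : w⁻¹ * v ∈ q.stab := (q.eqv_iff w v).1 ((hq.eqv_iff w v).2 heq')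
    have hfix : wa a (w⁻¹ * v) p = p := (hq.mem_stab _).1 hg
    have hnorm : (w⁻¹ * v).norm ≤ 2 * N1 := by
      have h1 := FreeGroup.norm_mul_le w⁻¹ v
      rw [FreeGroup.norm_inv_eq] at h1
      omega
    have hgn := hN _ hg hnorm
    have hcv : coc a c v p = coc a c w p * FreeGroup.lift b (ι.symm ⟨w⁻¹ * v, hg⟩) := by
      rw [← loc_coc a p q ι b c hc _ hg]
      conv_lhs => rw [show v = w * (w⁻¹ * v) by group]
      rw [coc_mul, hfix]
    have hcv' : coc a c' v p = coc a c' w p * FreeGroup.lift b' (ι.symm ⟨w⁻¹ * v, hg⟩) := by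
      rw [← loc_coc a p q ι b' c' hc' _ hg]
      conv_lhs => rw [show v = w * (w⁻¹ * v) by group]
      rw [coc_mul, hfix]
    have h2 : y ≤ wa b (ι.symm ⟨w⁻¹ * v, hg⟩) y := by
      have h3 : coc a c w p y ≤ coc a c v p y := hle
      rw [hcv] at h3
      exact (coc a c w p).le_iff_le.1 h3
    have h4 := h 1 (ι.symm ⟨w⁻¹ * v, hg⟩) (by simp) hgn (by rw [wa_one]; exact h2)
    rw [wa_one] at h4
    show coc a c' w p y' ≤ coc a c' v p y'
    rw [hcv']
    exact (coc a c' w p).le_iff_le.2 h4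

/-- Localisation of a local operator at a transitive system. -/
theorem loc_op {r m m' : ℕ} (O : Op r r) {Ω : Type} [LinearOrder Ω] (a : Fin r → Ω ≃o Ω) (p : Ω)
    (ht : ∀ x, ∃ w, wa a w p = x) (q : Pat r) (hq : HasPat a p q) (ι : FG m ≃* q.stab)
    (q₂ : Pat r) (hq₂ : HasPat (O.f Ω a) p q₂) (ι' : FG m' ≃* q₂.stab) :
    ∃ O' : Op m m', ∀ (B : Type) [LinearOrder B] (b : Fin m → B ≃o B)
      (c : Fin r → Ω → B ≃o B), (∀ w : FG m, coc a c (ι w : FG r) p = FreeGroup.lift b w) →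
      ∀ d : Fin r → Ω → B ≃o B, O.f (Ω ×ₗ B) (lif a c) = lif (O.f Ω a) d →
      ∀ j : Fin m', O'.f B b j = coc (O.f Ω a) d (ι' (FreeGroup.of j) : FG r) p := by
  classical
  have hex : ∀ (B : Type) (_ : LinearOrder B) (b : Fin m → B ≃o B),
      ∃ cd : (Fin r → Ω → B ≃o B) × (Fin r → Ω → B ≃o B),
        (∀ w : FG m, coc a cd.1 (ι w : FG r) p = FreeGroup.lift b w) ∧
        O.f (Ω ×ₗ B) (lif a cd.1) = lif (O.f Ω a) cd.2 := by
    intro B _ b
    obtain ⟨c, hc⟩ := exists_ind a p ht q.stab (fun w => hq.mem_stab w)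
      ((FreeGroup.lift b).comp ι.symm.toMonoidHom)
    obtain ⟨d, hd⟩ := op_lif O a c
    refine ⟨(c, d), fun w => ?_, hd⟩
    rw [hc (ι w)]
    show FreeGroup.lift b (ι.symm (ι w)) = _
    rw [MulEquiv.symm_apply_apply]
  choose CD hCD1 hCD2 using hex
  have hl : ∀ j : Fin m', wa (O.f Ω a) (ι' (FreeGroup.of j) : FG r) p = p := fun j =>
    (hq₂.mem_stab _).1 (ι' (FreeGroup.of j)).2
  set Lm : ℕ := Finset.univ.sup (fun j : Fin m' => (ι' (FreeGroup.of j) : FG r).norm) with hLm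
  have hLj : ∀ j : Fin m', (ι' (FreeGroup.of j) : FG r).norm ≤ Lm := fun j =>
    Finset.le_sup (f := fun j : Fin m' => (ι' (FreeGroup.of j) : FG r).norm) (Finset.mem_univ j)
  set N1 : ℕ := O.N * (Lm + 2) with hN1
  obtain ⟨N', hN'⟩ := ((finite_ball r (2 * N1)).image
    (fun x : FG r => if h : x ∈ q.stab then (ι.symm ⟨x, h⟩).norm else 0)).bddAbove
  have hN : ∀ (x : FG r) (hx : x ∈ q.stab), x.norm ≤ 2 * N1 → (ι.symm ⟨x, hx⟩).norm ≤ N' := by
    intro x hx hn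
    have := hN' (Set.mem_image_of_mem _ hn)
    simpa [hx] using this
  refine ⟨{ f := fun B i b j => coc (O.f Ω a) (CD B i b).2 (ι' (FreeGroup.of j) : FG r) p
            N := N'
            loc := ?_ }, ?_⟩
  · intro B _ b y B' _ b' y' hmon j
    have h1 := loc_mon a p q hq ι N1 N' hN b _ (hCD1 B _ b) y b' _ (hCD1 B' _ b') y' hmon
    have h2 : O.N * ((ι' (FreeGroup.of j) : FG r).norm + 2) ≤ N1 := by
      rw [hN1]
      exact Nat.mul_le_mul_left _ (by have := hLj j; omega)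
    obtain ⟨v, hv, h3, h4⟩ := O.word_loc (ι' (FreeGroup.of j) : FG r) _ _ _ _ (h1.mono h2)
    rw [hCD2 B _ b, wa_lif, wa_lif, toLex_inj', hl j] at h3
    rw [hCD2 B' _ b', wa_lif, wa_lif, toLex_inj', hl j] at h4
    have hvs : v ∈ q.stab := (hq.mem_stab v).2 h3.1.symm
    refine ⟨ι.symm ⟨v, hvs⟩, ?_, ?_, ?_⟩
    · refine hN v hvs ?_
      have h5 : O.N * (ι' (FreeGroup.of j) : FG r).norm ≤
          O.N * ((ι' (FreeGroup.of j) : FG r).norm + 2) := Nat.mul_le_mul_left _ (by omega)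
      omega
    · show coc (O.f Ω a) (CD B _ b).2 (ι' (FreeGroup.of j) : FG r) p y = _
      rw [h3.2, loc_coc a p q ι b _ (hCD1 B _ b) v hvs]
      rfl
    · show coc (O.f Ω a) (CD B' _ b').2 (ι' (FreeGroup.of j) : FG r) p y' = _
      rw [h4.2, loc_coc a p q ι b' _ (hCD1 B' _ b') v hvs]
      rfl
  · intro B _ b c hc d hd j
    exact loc_indep O a p ht q hq ι b _ c (hCD1 B _ b) hc _ d (hCD2 B _ b) hd _ (hl j)

end Pool.Agent.H815.HF
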