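import Pool.Agent.H815.HF.IndLift

set_option autoImplicit false

namespace Pool.Agent.H815.HF

theorem hom_9357 {r : ℕ} {Ω B : Type} [LinearOrder Ω] [LinearOrder B] (a : Fin r → Ω ≃o Ω)
    (c : Fin r → Ω → B ≃o B) (p : Ω) (q : Pat r) (hq : HasPat a p q) (ι : FG 2 ≃* q.stab)
    (b : Fin 2 → B ≃o B) (hb : ∀ j, b j = coc a c (ι (FreeGroup.of j) : FG r) p) (w : FG 2) :
    coc a c (ι w : FG r) p = FreeGroup.lift b w := by
  let φ : q.stab →* (B ≃o B) := MonoidHom.mk' (fun w => coc a c (w : FG r) p) (by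
    intro w v
    have hv : wa a (v : FG r) p = p := (hq.mem_stab _).1 v.2
    show coc a c ((w : FG r) * (v : FG r)) p = _
    rw [coc_mul, hv])
  have h1 : φ.comp ι.toMonoidHom = FreeGroup.lift b := by
    ext1 j
    rw [FreeGroup.lift_apply_of, hb j]
    rfl
  have h2 := congrArg (fun f : FG 2 →* (B ≃o B) => f w) h1
  exact h2

theorem exists_lift_9357 {r : ℕ} {Ω B : Type} [LinearOrder Ω] [LinearOrder B]
    (a : Fin r → Ω ≃o Ω) (p : Ω) (ht : ∀ x, ∃ w, wa a w p = x) (q : Pat r) (hq : HasPat a p q)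
    (ι : FG 2 ≃* q.stab) (b : Fin 2 → B ≃o B) :
    ∃ c : Fin r → Ω → B ≃o B, ∀ w : FG 2, coc a c (ι w : FG r) p = FreeGroup.lift b w := by
  obtain ⟨c, hc⟩ := exists_ind a p ht q.stab (fun w => hq.mem_stab w)
    ((FreeGroup.lift b).comp ι.symm.toMonoidHom)
  refine ⟨c, fun w => ?_⟩
  rw [hc (ι w)]
  show FreeGroup.lift b (ι.symm (ι w)) = _
  rw [MulEquiv.symm_apply_apply]

theorem lif_inj_9357 {r : ℕ} {Ω B : Type} [LinearOrder Ω] [LinearOrder B]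
    {a : Fin r → Ω ≃o Ω} {c c' : Fin r → Ω → B ≃o B} (h : lif a c = lif a c') : c = c' := by
  funext i x
  ext y
  have h1 := congrArg (fun f : Fin r → (Ω ×ₗ B) ≃o (Ω ×ₗ B) => f i (toLex (x, y))) h
  simp only [lif_apply] at h1
  rw [toLex_inj'] at h1
  exact h1.2

theorem gauge_lif_9357 {r : ℕ} {Ω B : Type} [LinearOrder Ω] [LinearOrder B]
    (a : Fin r → Ω ≃o Ω) (c c' : Fin r → Ω → B ≃o B) (u : Ω → B ≃o B)
    (hu : ∀ i x, c' i x = u (a i x) * c i x * (u x)⁻¹) :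
    lif a c' = fun i => lif1 (OrderIso.refl Ω) u * lif a c i * (lif1 (OrderIso.refl Ω) u)⁻¹ := by
  funext i
  ext z
  induction z using lex_ind with
  | h x y =>
    have h1 : (lif1 (OrderIso.refl Ω) u)⁻¹ (toLex (x, y)) = toLex (x, (u x).symm y) := by
      show (lif1 (OrderIso.refl Ω) u).symm (toLex (x, y)) = _
      rw [lif1_symm_apply]
      rfl
    show lif a c' i (toLex (x, y)) =
      lif1 (OrderIso.refl Ω) u (lif a c i ((lif1 (OrderIso.refl Ω) u)⁻¹ (toLex (x, y))))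
    rw [h1, lif_apply, lif_apply, lif1_apply, toLex_inj', hu i x]
    exact ⟨rfl, rfl⟩

/-- Localisation of a local pair. -/
theorem loc_pair {r : ℕ} (P : LP r)
    (loc_op : ∀ (r m m' : ℕ) (O : Op r r) (Ω : Type) [LinearOrder Ω] (a : Fin r → Ω ≃o Ω) (p : Ω),
      (∀ x, ∃ w, wa a w p = x) → ∀ (q : Pat r), HasPat a p q → ∀ (ι : FG m ≃* q.stab)
      (q₂ : Pat r), HasPat (O.f Ω a) p q₂ → ∀ (ι' : FG m' ≃* q₂.stab),
      ∃ O' : Op m m', ∀ (B : Type) [LinearOrder B] (b : Fin m → B ≃o B)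
        (c : Fin r → Ω → B ≃o B), (∀ w : FG m, coc a c (ι w : FG r) p = FreeGroup.lift b w) →
        ∀ d : Fin r → Ω → B ≃o B, O.f (Ω ×ₗ B) (lif a c) = lif (O.f Ω a) d →
        ∀ j : Fin m', O'.f B b j = coc (O.f Ω a) d (ι' (FreeGroup.of j) : FG r) p)
    (comp : ∀ (r s m : ℕ) (T : Op r s) (Y : Op s m),
      ∃ O : Op r m, ∀ (Ω : Type) [LinearOrder Ω] (a : Fin r → Ω ≃o Ω),
        O.f Ω a = Y.f Ω (T.f Ω a))
    {Ω : Type} [LinearOrder Ω] (a : Fin r → Ω ≃o Ω) (p : Ω) (hE : P.E.f Ω a = a)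
    (ht : ∀ x, ∃ w, wa a w p = x) (q : Pat r) (hq : HasPat a p q) (ι : FG 2 ≃* q.stab)
    (q₂ : Pat r) (hq₂ : HasPat (P.T.f Ω a) p q₂) (ι' : FG 2 ≃* q₂.stab) :
    ∃ P' : LP 2, ∀ (B : Type) [LinearOrder B] (b : Fin 2 → B ≃o B) (c : Fin r → Ω → B ≃o B),
      (∀ w : FG 2, coc a c (ι w : FG r) p = FreeGroup.lift b w) →
      (P'.E.f B b = b ↔ P.E.f (Ω ×ₗ B) (lif a c) = lif a c) := by
  obtain ⟨h, hh⟩ : ∃ h, h = P.T.f Ω a := ⟨_, rfl⟩
  have hYh : P.Y.f Ω h = a := by rw [hh, ← P.hE, hE]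
  have hth : ∀ x, ∃ w, wa h w p = x := by
    intro x
    obtain ⟨v, hv⟩ := ht x
    obtain ⟨v', hv'⟩ := P.Y.exists_word' h v p
    rw [hYh, hv] at hv'
    exact ⟨v', hv'.symm⟩
  obtain ⟨T', hT'⟩ := loc_op r 2 2 P.T Ω a p ht q hq ι q₂ hq₂ ι'
  rw [← hh] at hT' hq₂
  obtain ⟨Y', hY'⟩ := loc_op r 2 2 P.Y Ω h p hth q₂ hq₂ ι' q (by rw [hYh]; exact hq) ι
  rw [hYh] at hY'
  obtain ⟨E', hE'⟩ := comp 2 2 2 T' Y'
  have hTY : ∀ (B : Type) [LinearOrder B] (b : Fin 2 → B ≃o B), T'.f B (Y'.f B b) = b := by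
    intro B _ b
    obtain ⟨d, hd⟩ := exists_lift_9357 h p hth q₂ hq₂ ι' b
    obtain ⟨c, hc⟩ := op_lif P.Y h d
    rw [hYh] at hc
    have h1 := hY' B b d hd c hc
    have h2 := hom_9357 a c p q hq ι (Y'.f B b) h1
    have h3 : P.T.f (Ω ×ₗ B) (lif a c) = lif h d := by rw [← hc, P.TY]
    have h4 := hT' B (Y'.f B b) c h2 d h3
    funext j
    rw [h4 j, hd, FreeGroup.lift_apply_of]
  refine ⟨⟨Y', T', E', hTY, hE'⟩, fun B _ b c hc => ?_⟩
  show E'.f B b = b ↔ _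
  rw [hE']
  obtain ⟨d, hd⟩ := op_lif P.T a c
  rw [← hh] at hd
  have h1 := hT' B b c hc d hd
  have h2 := hom_9357 h d p q₂ hq₂ ι' (T'.f B b) h1
  obtain ⟨c'', hc''⟩ := op_lif P.Y h d
  rw [hYh] at hc''
  have h3 := hY' B (T'.f B b) d h2 c'' hc''
  have h4 := hom_9357 a c'' p q hq ι (Y'.f B (T'.f B b)) h3
  have h5 : P.E.f (Ω ×ₗ B) (lif a c) = lif a c'' := by rw [P.hE, hd, hc'']
  constructor
  · intro hb
    rw [hb] at h4
    have h6 : ∀ w, wa a w p = p → coc a c w p = coc a c'' w p := by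
      intro w hw
      have hws : w ∈ q.stab := (hq.mem_stab w).2 hw
      have e1 := hc (ι.symm ⟨w, hws⟩)
      have e2 := h4 (ι.symm ⟨w, hws⟩)
      rw [MulEquiv.apply_symm_apply] at e1 e2
      exact e1.trans e2.symm
    obtain ⟨u, -, hu⟩ := gauge a p ht c c'' h6
    have h7 := gauge_lif_9357 a c c'' u hu
    set U := lif1 (OrderIso.refl Ω) u with hU
    have h8 : P.E.f (Ω ×ₗ B) (P.E.f (Ω ×ₗ B) (lif a c)) = P.E.f (Ω ×ₗ B) (lif a c) := by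
      rw [P.hE (Ω ×ₗ B) (P.E.f (Ω ×ₗ B) (lif a c)), P.hE (Ω ×ₗ B) (lif a c), P.TY]
    have h9 := op_conj P.E (lif a c) U
    rw [← h7, ← h5, h8] at h9
    funext i
    have h10 : P.E.f (Ω ×ₗ B) (lif a c) i = U * P.E.f (Ω ×ₗ B) (lif a c) i * U⁻¹ := congrFun h9 i
    have h11 : P.E.f (Ω ×ₗ B) (lif a c) i = U * lif a c i * U⁻¹ := by
      rw [h5, h7]
    rw [h11] at h10
    have h12 : U * lif a c i * U⁻¹ = U * (P.E.f (Ω ×ₗ B) (lif a c) i) * U⁻¹ := by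
      rw [h11]; exact h10
    exact (mul_left_cancel (mul_right_cancel h12)).symm
  · intro hz
    have h6 : c'' = c := lif_inj_9357 (h5.symm.trans hz)
    funext j
    rw [h3 j, h6, hc, FreeGroup.lift_apply_of]

end Pool.Agent.H815.HF
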