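import Pool.Agent.H815.HF.InvDom

set_option autoImplicit false

open Metric Set Filter Topology

namespace Pool.Agent.H815.HF

theorem iodE {E : Type} [NormedAddCommGroup E] [InnerProductSpace ℝ E] [FiniteDimensional ℝ E]
    (f g : E → E) (hf : Continuous f) (hg : Continuous g) (hgf : ∀ x, g (f x) = x) :
    Function.Surjective f := by
  have hinj : Function.Injective f := Function.LeftInverse.injective hgf
  have hopen : IsOpen (range f) := by
    rw [isOpen_iff_mem_nhds]
    rintro _ ⟨x, rfl⟩
    exact Filter.mem_of_superset
      (InvDom.image_mem_nhds f x 1 one_pos hf.continuousOn hinj.injOn) (image_subset_range _ _)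
  have hclosed : IsClosed (range f) := by
    have : range f = {y | f (g y) = y} := by
      ext y
      constructor
      · rintro ⟨x, rfl⟩
        show f (g (f x)) = f x
        rw [hgf]
      · intro h
        exact ⟨g y, h⟩
    rw [this]
    exact isClosed_eq (hf.comp hg) continuous_id
  have huniv : range f = univ :=
    IsClopen.eq_univ ⟨hclosed, hopen⟩ (range_nonempty f)
  exact range_eq_univ.1 huniv

theorem iod (ι : Type) [Fintype ι] (f g : (ι → ℝ) → (ι → ℝ)) (hf : Continuous f)
    (hg : Continuous g) (hgf : ∀ x, g (f x) = x) : Function.Surjective f := by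
  let e := EuclideanSpace.equiv ι ℝ
  have h := iodE (fun x : EuclideanSpace ℝ ι => e.symm (f (e x)))
    (fun x => e.symm (g (e x))) (by fun_prop) (by fun_prop) (by
      intro x
      simp [hgf])
  intro y
  obtain ⟨x, hx⟩ := h (e.symm y)
  exact ⟨e x, by
    have := congrArg e hx
    simpa using this⟩

end Pool.Agent.H815.HF
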