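import Pool.Agent.H815.HF.Lift

set_option autoImplicit false

namespace Pool.Agent.H815.HF

lemma j8373_inv {r s : ℕ} {Ω : Type} [LinearOrder Ω] (O : Op r s) (a : Fin r → Ω ≃o Ω)
    (c : Fin r → Ω → ℝ) (g : Ω ≃o Ω) (hg : ∀ i x, g (a i x) = a i (g x))
    (hc : ∀ i x, c i (g x) = c i x) (b : Fin s → Ω ≃o Ω) (d : Fin s → Ω → ℝ)
    (hd : O.f (Ω ×ₗ ℝ) (lifR a c) = lifR b d) (i : Fin s) (x : Ω) :
    d i (g x) = d i x := by
  let W : (Ω ×ₗ ℝ) ≃o (Ω ×ₗ ℝ) := lif1 g (fun _ => 1)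
  have hW : ∀ x' y', W (toLex (x', y')) = toLex (g x', y') := fun _ _ => rfl
  have h1 := O.nat (lifR a c) (lifR a c) W W.monotone (by
    intro j z
    induction z using lex_ind with
    | h x' y' =>
      rw [lifR_apply, hW, hW, lifR_apply, toLex_inj']
      exact ⟨hg j x', by rw [hc]⟩) i (toLex (x, 0))
  rw [hd, hW, lifR_apply, lifR_apply, hW, toLex_inj'] at h1
  simpa using h1.2.symm

/-- The step lemma for normal-valued tuples: invariance of domain (hypothesis `hiod`) shows that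
periodic real lifts of a tuple fixed by `E` are fixed by `E`. -/
theorem nstep {r : ℕ} (P : LP r)
    (hiod : ∀ (ι : Type) [Fintype ι] (f g : (ι → ℝ) → (ι → ℝ)), Continuous f → Continuous g →
      (∀ x, g (f x) = x) → Function.Surjective f)
    (op_cont : ∀ (r s : ℕ) (Ω : Type) [LinearOrder Ω] (O : Op r s) (a : Fin r → Ω ≃o Ω)
      (V : Type) [TopologicalSpace V] (c : V → Fin r → Ω → ℝ),
      (∀ i x, Continuous fun v => c v i x) → ∀ (d : V → Fin s → Ω → ℝ),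
      (∀ v, O.f (Ω ×ₗ ℝ) (lifR a (c v)) = lifR (O.f Ω a) (d v)) → ∀ (i : Fin s) (x : Ω),
      Continuous fun v => d v i x)
    (Ω : Type) [LinearOrder Ω] (a : Fin r → Ω ≃o Ω) (G : Subgroup (Ω ≃o Ω))
    (hcomm : ∀ g ∈ G, ∀ i, g * a i = a i * g)
    (hfin : ∃ F : Finset Ω, ∀ x, ∃ g ∈ G, g x ∈ F)
    (hE : P.E.f Ω a = a) (c : Fin r → Ω → ℝ) (hc : ∀ i, ∀ g ∈ G, ∀ x, c i (g x) = c i x) :
    P.E.f (Ω ×ₗ ℝ) (lifR a c) = lifR a c := by
  classical
  let S : Setoid Ω :=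
    { r := fun x y => ∃ g ∈ G, g x = y
      iseqv := ⟨fun x => ⟨1, G.one_mem, rfl⟩,
        fun {x y} h => by
          obtain ⟨g, hg, h⟩ := h
          exact ⟨g⁻¹, G.inv_mem hg, by rw [← h]; exact g.symm_apply_apply x⟩,
        fun {x y z} h h' => by
          obtain ⟨g, hg, h⟩ := h
          obtain ⟨g', hg', h'⟩ := h'
          exact ⟨g' * g, G.mul_mem hg' hg, by rw [← h', ← h]; rfl⟩⟩ }
  let K : Type := Quotient S
  let π : Ω → K := fun x => Quotient.mk S x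
  have hπg : ∀ g ∈ G, ∀ x, π (g x) = π x := fun g hg x =>
    (Quotient.sound (s := S) (show S.r x (g x) from ⟨g, hg, rfl⟩)).symm
  obtain ⟨F, hF⟩ := hfin
  haveI hKf : Finite K := Finite.of_surjective (fun x : F => π x.1) (by
     intro k
     obtain ⟨x, rfl⟩ := Quotient.exists_rep k
     obtain ⟨g, hg, hx⟩ := hF x
     exact ⟨⟨g x, hx⟩, hπg g hg x⟩)
  haveI : Fintype K := Fintype.ofFinite K
  let ρ : K → Ω := fun k => Quotient.out k
  have hρ : ∀ k, π (ρ k) = k := fun k => Quotient.out_eq k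
  have hlift : ∀ (d : Fin r → Ω → ℝ), (∀ i, ∀ g ∈ G, ∀ x, d i (g x) = d i x) →
      ∀ i x, d i (ρ (π x)) = d i x := by
    intro d hd i x
    have h : π (ρ (π x)) = π x := hρ _
    obtain ⟨g, hg, hgx⟩ := Quotient.exact h
    exact (hd i g hg _).symm.trans (congrArg _ hgx)
  let cc : (Fin r × K → ℝ) → Fin r → Ω → ℝ := fun v i x => v (i, π x)
  have hcci : ∀ v i, ∀ g ∈ G, ∀ x, cc v i (g x) = cc v i x := by
    intro v i g hg x
    show v (i, π (g x)) = v (i, π x)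
    rw [hπg g hg]
  have hY : P.Y.f Ω (P.T.f Ω a) = a := by rw [← P.hE]; exact hE
  choose dT hdT using fun v => op_lifR P.T a (cc v)
  choose dY hdY' using fun v => op_lifR P.Y (P.T.f Ω a) (cc v)
  have hdY : ∀ v, P.Y.f (Ω ×ₗ ℝ) (lifR (P.T.f Ω a) (cc v)) = lifR a (dY v) := by
    intro v
    rw [hdY' v, hY]
  have hga : ∀ g ∈ G, ∀ i x, g (a i x) = a i (g x) := fun g hg i x =>
    congrArg (fun f : Ω ≃o Ω => f x) (hcomm g hg i)
  have hgh : ∀ g ∈ G, ∀ i x, g (P.T.f Ω a i x) = P.T.f Ω a i (g x) := fun g hg i x =>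
    P.T.nat a a g g.monotone (hga g hg) i x
  have hTi : ∀ v i, ∀ g ∈ G, ∀ x, dT v i (g x) = dT v i x := fun v i g hg x =>
    j8373_inv P.T a (cc v) g (hga g hg) (fun i x => hcci v i g hg x) _ (dT v) (hdT v) i x
  have hYi : ∀ v i, ∀ g ∈ G, ∀ x, dY v i (g x) = dY v i x := fun v i g hg x =>
    j8373_inv P.Y (P.T.f Ω a) (cc v) g (hgh g hg) (fun i x => hcci v i g hg x) _ (dY v) (hdY v) i x
  let gT : (Fin r × K → ℝ) → (Fin r × K → ℝ) := fun v p => dT v p.1 (ρ p.2)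
  let gY : (Fin r × K → ℝ) → (Fin r × K → ℝ) := fun v p => dY v p.1 (ρ p.2)
  have hgT : ∀ v, cc (gT v) = dT v := by
    intro v
    funext i x
    exact hlift (dT v) (hTi v) i x
  have hgY : ∀ v, cc (gY v) = dY v := by
    intro v
    funext i x
    exact hlift (dY v) (hYi v) i x
  have hccinj : ∀ v w, cc v = cc w → v = w := by
    intro v w hvw
    funext p
    obtain ⟨i, k⟩ := p
    have h1 := congrFun (congrFun hvw i) (ρ k)
    change v (i, π (ρ k)) = w (i, π (ρ k)) at h1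
    rw [hρ] at h1
    exact h1
  have hcc_cont : ∀ i x, Continuous fun v : (Fin r × K → ℝ) => cc v i x := fun i x =>
    continuous_apply (i, π x)
  have hgTc : Continuous gT := continuous_pi fun p =>
    op_cont r r Ω P.T a (Fin r × K → ℝ) cc hcc_cont dT hdT p.1 (ρ p.2)
  have hgYc : Continuous gY := continuous_pi fun p =>
    op_cont r r Ω P.Y (P.T.f Ω a) (Fin r × K → ℝ) cc hcc_cont dY hdY' p.1 (ρ p.2)
  have hTY : ∀ v, gT (gY v) = v := by
    intro v
    apply hccinj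
    have h1 := P.TY (Ω ×ₗ ℝ) (lifR (P.T.f Ω a) (cc v))
    rw [hdY v, ← hgY v, hdT (gY v), ← hgT (gY v)] at h1
    exact lifR_inj h1
  have hsurj := hiod (Fin r × K) gY gT hgYc hgTc hTY
  obtain ⟨v', hv'⟩ := hsurj (fun p => c p.1 (ρ p.2))
  have hcv : cc (gY v') = c := by
    rw [hv']
    funext i x
    exact hlift c hc i x
  rw [P.hE, ← hcv, hdT (gY v'), ← hgT (gY v'), hTY v', hdY v', hgY v']

end Pool.Agent.H815.HF
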