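import Pool.Agent.H815.HF.Basic

set_option autoImplicit false

open Filter Topology

namespace Pool.Agent.H815.HF

/-- Near identity tuples of homeomorphisms of the line are fixed by `E`. -/
theorem near_id {r : ℕ} (P : LP r)
    (cluster : ∀ (N : ℕ) (U : Ultrafilter ℕ) (x : FG r → ℕ → ℝ) (ε : ℕ → ℝ),
      Tendsto ε (U : Filter ℕ) (𝓝 0) →
      (∀ (i : Fin r) (w v : FG r), w.norm ≤ N → v.norm ≤ N →
        (FreeGroup.of i * w).norm ≤ N → (FreeGroup.of i * v).norm ≤ N → ∀ k,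
        |(x (FreeGroup.of i * w) k - x (FreeGroup.of i * v) k) - (x w k - x v k)| ≤
          ε k * |x w k - x v k|) →
      ∃ (Ω : Type) (_ : LinearOrder Ω) (b : Fin r → Ω ≃o Ω) (p : Ω), P.E.f Ω b = b ∧
        ∀ w v : FG r, w.norm ≤ N → v.norm ≤ N → (∀ᶠ k in (U : Filter ℕ), x v k < x w k) →
          wa b v p < wa b w p) :
    ∃ (ε : ℝ) (N : ℕ), 0 < ε ∧ ∀ (a : Fin r → ℝ ≃o ℝ) (z : ℝ),
      (∀ (i : Fin r) (w v : FG r), w.norm ≤ N → v.norm ≤ N →
        |(a i (wa a w z) - a i (wa a v z)) - (wa a w z - wa a v z)| ≤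
          ε * |wa a w z - wa a v z|) → GoodAt P.E a z := by
  set N : ℕ := max P.E.N 1 with hN
  by_contra hcon
  have hcon' : ∀ k : ℕ, ∃ (a : Fin r → ℝ ≃o ℝ) (z : ℝ),
      (∀ (i : Fin r) (w v : FG r), w.norm ≤ N → v.norm ≤ N →
        |(a i (wa a w z) - a i (wa a v z)) - (wa a w z - wa a v z)| ≤
          (1 / ((k : ℝ) + 1)) * |wa a w z - wa a v z|) ∧ ¬ GoodAt P.E a z := by
    intro k
    by_contra hk
    apply hcon
    refine ⟨1 / ((k : ℝ) + 1), N, by positivity, ?_⟩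
    intro a z hc
    by_contra hg
    exact hk ⟨a, z, hc, hg⟩
  choose a z hc hg using hcon'
  set U : Ultrafilter ℕ := Filter.hyperfilter ℕ with hU
  have hUle : (U : Filter ℕ) ≤ atTop := by
    rw [← Nat.cofinite_eq_atTop]
    exact Filter.hyperfilter_le_cofinite
  have hε : Tendsto (fun k : ℕ => 1 / ((k : ℝ) + 1)) (U : Filter ℕ) (𝓝 0) :=
    (tendsto_one_div_add_atTop_nhds_zero_nat (𝕜 := ℝ)).mono_left hUle
  obtain ⟨Ω, _, b, p, hEb, hst⟩ := cluster N U (fun w k => wa (a k) w (z k))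
    (fun k => 1 / ((k : ℝ) + 1)) hε (by
      intro i w v hw hv _ _ k
      simp only [wa_mul, wa_of]
      exact hc k i w v hw hv)
  have hgood : GoodAt P.E b p := by
    intro i
    rw [hEb]
  have hf := (finite_ball r N).prod (finite_ball r N)
  have key : ∀ y ∈ ({w : FG r | w.norm ≤ N} ×ˢ {w : FG r | w.norm ≤ N}),
      ∀ᶠ k in (U : Filter ℕ), (wa b y.1 p ≤ wa b y.2 p →
        wa (a k) y.1 (z k) ≤ wa (a k) y.2 (z k)) := by
    rintro ⟨w, v⟩ hy
    by_cases h : wa b w p ≤ wa b v p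
    · have h' : ∀ᶠ k in (U : Filter ℕ), ¬ (wa (a k) v (z k) < wa (a k) w (z k)) := by
        rw [Ultrafilter.eventually_not]
        intro hlt
        exact absurd (hst w v hy.1 hy.2 hlt) (not_lt.2 h)
      filter_upwards [h'] with k hk _ using not_lt.1 hk
    · exact Filter.Eventually.of_forall fun k hh => absurd hh h
  have hall := (Filter.eventually_all_finite hf).2 key
  obtain ⟨k, hk⟩ := hall.exists
  apply hg k
  refine good_mono P.E (a := b) (p := p) ?_ hgood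
  intro w v hw hv hwv
  exact hk (w, v) ⟨hw, hv⟩ hwv

end Pool.Agent.H815.HF
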