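import Pool.Agent.H815.HF.Nice

set_option autoImplicit false

namespace Pool.Agent.H815.HF

theorem exists_c_8804 {r : ℕ} {Ω : Type} [LinearOrder Ω] (G : Subgroup (Ω ≃o Ω))
    (C : AddSubgroup ℝ) (W : Finset Ω)
    (hW : ∀ x ∈ W, ∀ y ∈ W, ∀ g ∈ G, g x = y → x = y) (val : Fin r → Ω → C) :
    ∃ c : Fin r → Ω → C, (∀ i, ∀ x ∈ W, c i x = val i x) ∧ ∀ i, ∀ g ∈ G, ∀ x, c i (g x) = c i x := by
  classical
  set c : Fin r → Ω → C := fun i y =>
    if h : ∃ x, x ∈ W ∧ ∃ g ∈ G, g x = y then val i h.choose else 0 with hc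
  have c1 : ∀ i, ∀ x ∈ W, ∀ g ∈ G, ∀ y, g x = y → c i y = val i x := by
    intro i x hx g hg y hy
    have h : ∃ x, x ∈ W ∧ ∃ g ∈ G, g x = y := ⟨x, hx, g, hg, hy⟩
    simp only [hc]
    rw [dif_pos h]
    obtain ⟨hx', g', hg', hy'⟩ := h.choose_spec
    have : h.choose = x := by
      refine hW _ hx' x hx (g⁻¹ * g') (G.mul_mem (G.inv_mem hg) hg') ?_
      change g⁻¹ (g' h.choose) = x
      rw [hy', ← hy]
      exact g.symm_apply_apply x
    rw [this]
  refine ⟨c, fun i x hx => c1 i x hx 1 G.one_mem x rfl, fun i g hg y => ?_⟩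
  by_cases h : ∃ x, x ∈ W ∧ ∃ g ∈ G, g x = y
  · obtain ⟨x, hx, k, hk, hxy⟩ := h
    rw [c1 i x hx k hk y hxy, c1 i x hx (g * k) (G.mul_mem hg hk) (g y) (by
      change g (k x) = g y
      rw [hxy])]
  · have h' : ¬ ∃ x, x ∈ W ∧ ∃ k ∈ G, k x = g y := by
      rintro ⟨x, hx, k, hk, hxy⟩
      refine h ⟨x, hx, g⁻¹ * k, G.mul_mem (G.inv_mem hg) hk, ?_⟩
      change g⁻¹ (k x) = y
      rw [hxy]
      exact g.symm_apply_apply y
    simp only [hc]
    rw [dif_neg h, dif_neg h']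

theorem exists_M_8804 {Ω : Type} (C : AddSubgroup ℝ) (hC : C.FG) (Z : Finset (Ω × C)) :
    ∃ M : ℤ, (∀ z ∈ Z, ∀ z' ∈ Z, ∀ u : C, z.2 + M • u = z'.2 → z.2 = z'.2) ∧
      ∃ R : Finset C, ∀ y : C, ∃ u : C, y + M • u ∈ R := by
  classical
  have : AddGroup.FG C := (AddGroup.fg_iff_addSubgroup_fg C).2 hC
  have : Module.Finite ℤ C := Module.Finite.iff_addGroup_fg.2 inferInstance
  have : Module.Free ℤ C := inferInstance
  set e := Module.finBasis ℤ C with he
  set M : ℕ := 1 + ∑ z ∈ Z, ∑ z' ∈ Z, ∑ i, (e.repr (z'.2 - z.2) i).natAbs with hM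
  have hMpos : 0 < (M : ℤ) := by
    have : 0 < M := by omega
    exact_mod_cast this
  refine ⟨(M : ℤ), ?_, ?_⟩
  · intro z hz z' hz' u hu
    have h1 : z'.2 - z.2 = (M : ℤ) • u := by rw [← hu]; abel
    have h2 : e.repr (z'.2 - z.2) = 0 := by
      ext i
      have h3 : e.repr (z'.2 - z.2) i = (M : ℤ) * e.repr u i := by
        rw [h1, map_zsmul]; simp
      have h4 : (e.repr (z'.2 - z.2) i).natAbs < M := by
        have h5 : (e.repr (z'.2 - z.2) i).natAbs ≤ ∑ i, (e.repr (z'.2 - z.2) i).natAbs :=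
          Finset.single_le_sum (f := fun i => (e.repr (z'.2 - z.2) i).natAbs)
            (fun _ _ => Nat.zero_le _) (Finset.mem_univ i)
        have h6 : ∑ i, (e.repr (z'.2 - z.2) i).natAbs ≤
            ∑ z' ∈ Z, ∑ i, (e.repr (z'.2 - z.2) i).natAbs :=
          Finset.single_le_sum (f := fun z' : Ω × C => ∑ i, (e.repr (z'.2 - z.2) i).natAbs)
            (fun _ _ => Nat.zero_le _) hz'
        have h7 : ∑ z' ∈ Z, ∑ i, (e.repr (z'.2 - z.2) i).natAbs ≤
            ∑ z ∈ Z, ∑ z' ∈ Z, ∑ i, (e.repr (z'.2 - z.2) i).natAbs :=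
          Finset.single_le_sum
            (f := fun z : Ω × C => ∑ z' ∈ Z, ∑ i, (e.repr (z'.2 - z.2) i).natAbs)
            (fun _ _ => Nat.zero_le _) hz
        omega
      have h8 : e.repr (z'.2 - z.2) i = 0 := by
        refine Int.eq_zero_of_dvd_of_natAbs_lt_natAbs (d := (M : ℤ)) ⟨_, h3⟩ ?_
        simpa using h4
      rw [h8]; rfl
    have h9 : z'.2 - z.2 = 0 := by
      have := congrArg e.repr.symm h2
      simpa using this
    exact (sub_eq_zero.1 h9).symm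
  · set n := Module.finrank ℤ C
    refine ⟨(Fintype.piFinset (fun _ : Fin n => Finset.Ico (0 : ℤ) M)).image
      (fun f => ∑ i, f i • e i), fun y => ?_⟩
    refine ⟨- ∑ i, (e.repr y i / (M : ℤ)) • e i, ?_⟩
    rw [Finset.mem_image]
    refine ⟨fun i => e.repr y i % (M : ℤ), ?_, ?_⟩
    · rw [Fintype.mem_piFinset]
      intro i
      rw [Finset.mem_Ico]
      exact ⟨Int.emod_nonneg _ hMpos.ne', Int.emod_lt_of_pos _ hMpos⟩
    · have h1 : y = ∑ i, (e.repr y i) • e i := (e.sum_repr y).symm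
      have h2 : (M : ℤ) • (- ∑ i, (e.repr y i / (M : ℤ)) • e i) =
          - ∑ i, ((M : ℤ) * (e.repr y i / (M : ℤ))) • e i := by
        rw [smul_neg, Finset.smul_sum]
        simp only [smul_smul]
      rw [h2]
      conv_rhs => rw [h1]
      rw [← sub_eq_add_neg, ← Finset.sum_sub_distrib]
      refine Finset.sum_congr rfl (fun i _ => ?_)
      rw [e.sum_repr y, ← sub_smul]
      congr 1
      have := Int.emod_add_mul_ediv (e.repr y i) (M : ℤ)
      linarith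

/-- the periodic group of the lift -/
def G'_8804 {Ω : Type} [LinearOrder Ω] (G : Subgroup (Ω ≃o Ω)) (C : AddSubgroup ℝ) (M : ℤ) :
    Subgroup ((Ω ×ₗ C) ≃o (Ω ×ₗ C)) where
  carrier := {θ | ∃ g ∈ G, ∃ u : C, ∀ x y, θ (toLex (x, y)) = toLex (g x, y + M • u)}
  one_mem' := ⟨1, G.one_mem, 0, fun x y => by simp⟩
  mul_mem' := by
    rintro θ θ' ⟨g, hg, u, hu⟩ ⟨g', hg', u', hu'⟩
    refine ⟨g * g', G.mul_mem hg hg', u' + u, fun x y => ?_⟩
    change θ (θ' (toLex (x, y))) = toLex (g (g' x), _)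
    rw [hu', hu, smul_add, add_assoc]
  inv_mem' := by
    rintro θ ⟨g, hg, u, hu⟩
    refine ⟨g⁻¹, G.inv_mem hg, -u, fun x y => ?_⟩
    apply θ.injective
    change θ (θ.symm (toLex (x, y))) = _
    rw [OrderIso.apply_symm_apply, hu]
    have h1 : g (g⁻¹ x) = x := g.apply_symm_apply x
    rw [h1, smul_neg, neg_add_cancel_right]

theorem mem_G'_8804 {Ω : Type} [LinearOrder Ω] (G : Subgroup (Ω ≃o Ω)) (C : AddSubgroup ℝ) (M : ℤ)
    (θ : (Ω ×ₗ C) ≃o (Ω ×ₗ C)) : θ ∈ G'_8804 G C M ↔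
      ∃ g ∈ G, ∃ u : C, ∀ x y, θ (toLex (x, y)) = toLex (g x, y + M • u) := Iff.rfl

/-- The inductive step for nice systems. -/
theorem nice_step {r : ℕ} (P : LP r)
    (nstep : ∀ (Ω : Type) [LinearOrder Ω] (a : Fin r → Ω ≃o Ω) (G : Subgroup (Ω ≃o Ω)),
      (∀ g ∈ G, ∀ i, g * a i = a i * g) → (∃ F : Finset Ω, ∀ x, ∃ g ∈ G, g x ∈ F) →
      P.E.f Ω a = a → ∀ (c : Fin r → Ω → ℝ), (∀ i, ∀ g ∈ G, ∀ x, c i (g x) = c i x) →
      P.E.f (Ω ×ₗ ℝ) (lifR a c) = lifR a c)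
    (Ω : Type) [LinearOrder Ω] (b : Fin r → Ω ≃o Ω) (G : Subgroup (Ω ≃o Ω)) (hN : Nice P Ω b G)
    (C : AddSubgroup ℝ) (hC : C.FG) (W : Finset Ω)
    (hW : ∀ x ∈ W, ∀ y ∈ W, ∀ g ∈ G, g x = y → x = y) (val : Fin r → Ω → C)
    (Z : Finset (Ω × C)) (hZ : ∀ z ∈ Z, z.1 ∈ W) :
    ∃ (c : Fin r → Ω → C) (G' : Subgroup ((Ω ×ₗ C) ≃o (Ω ×ₗ C))),
      (∀ i, ∀ x ∈ W, c i x = val i x) ∧
      Nice P (Ω ×ₗ C) (lif b (fun i x => OrderIso.addRight (c i x))) G' ∧
      ∀ z ∈ Z, ∀ z' ∈ Z, ∀ g ∈ G', g (toLex z) = toLex z' → z = z' := by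
  obtain ⟨hN1, ⟨F, hF⟩, hN3⟩ := hN
  obtain ⟨c, hc1, hc2⟩ := exists_c_8804 G C W hW val
  obtain ⟨M, hM1, R, hR⟩ := exists_M_8804 C hC Z
  refine ⟨c, G'_8804 G C M, hc1, ⟨?_, ?_, ?_⟩, ?_⟩
  · rintro θ ⟨g, hg, u, hu⟩ i
    ext z
    induction z using lex_ind with
    | h x y =>
      change θ (lif b (fun i x => OrderIso.addRight (c i x)) i (toLex (x, y))) =
        lif b (fun i x => OrderIso.addRight (c i x)) i (θ (toLex (x, y)))
      rw [hu, lif_apply, lif_apply, hu, toLex_inj']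
      constructor
      · have := congrArg (fun f : Ω ≃o Ω => f x) (hN1 g hg i)
        exact this
      · rw [OrderIso.addRight_apply, OrderIso.addRight_apply, hc2 i g hg]
        abel
  · classical
    refine ⟨(F ×ˢ R).image (fun z => toLex z), fun z => ?_⟩
    induction z using lex_ind with
    | h x y =>
      obtain ⟨g, hg, hgx⟩ := hF x
      obtain ⟨u, hu⟩ := hR y
      refine ⟨lif1 g (fun _ => OrderIso.addRight (M • u)), ?_, ?_⟩
      · exact ⟨g, hg, u, fun x y => rfl⟩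
      · rw [Finset.mem_image]
        exact ⟨(g x, y + M • u), Finset.mem_product.2 ⟨hgx, hu⟩, rfl⟩
  · have key := nstep Ω b G hN1 ⟨F, hF⟩ hN3 (fun i x => ((c i x : C) : ℝ))
      (fun i g hg x => by rw [hc2 i g hg])
    set e : Ω ×ₗ C → Ω ×ₗ ℝ := fun z => toLex ((ofLex z).1, ((ofLex z).2 : ℝ)) with he
    have hea : ∀ (x : Ω) (y : C), e (toLex (x, y)) = toLex (x, (y : ℝ)) := fun _ _ => rfl
    have hmono : Monotone e := by
      intro z z' hzz
      induction z using lex_ind with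
      | h x y =>
        induction z' using lex_ind with
        | h x' y' =>
          rw [hea, hea, Prod.Lex.toLex_le_toLex]
          rw [Prod.Lex.toLex_le_toLex] at hzz
          rcases hzz with h | ⟨h1, h2⟩
          · exact Or.inl h
          · exact Or.inr ⟨h1, h2⟩
    have hinj : Function.Injective e := by
      intro z z' hzz
      induction z using lex_ind with
      | h x y =>
        induction z' using lex_ind with
        | h x' y' =>
          rw [hea, hea, toLex_inj'] at hzz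
          rw [toLex_inj']
          exact ⟨hzz.1, Subtype.ext hzz.2⟩
    have hcomm : ∀ i z, e (lif b (fun i x => OrderIso.addRight (c i x)) i z) =
        lifR b (fun i x => ((c i x : C) : ℝ)) i (e z) := by
      intro i z
      induction z using lex_ind with
      | h x y => rfl
    funext i
    ext z
    apply hinj
    rw [P.E.nat _ (lifR b (fun i x => ((c i x : C) : ℝ))) e hmono hcomm i z, key, hcomm]
  · rintro z hz z' hz' θ ⟨g, hg, u, hu⟩ hθ
    have h1 : θ (toLex (z.1, z.2)) = toLex (z'.1, z'.2) := hθ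
    rw [hu, toLex_inj'] at h1
    exact Prod.ext (hW _ (hZ z hz) _ (hZ z' hz') g hg h1.1) (hM1 z hz z' hz' u h1.2)

end Pool.Agent.H815.HF
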