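import Pool.Agent.H815.HF.OpCont
import Pool.Agent.H815.HF.NStep
import Pool.Agent.H815.HF.NiceStep
import Pool.Agent.H815.HF.Cluster
import Pool.Agent.H815.HF.NearId
import Pool.Agent.H815.HF.Iod

set_option autoImplicit false

namespace Pool.Agent.H815.HF

theorem op_cont' (r s : ℕ) (Ω : Type) [LinearOrder Ω] (O : Op r s) (a : Fin r → Ω ≃o Ω)
      (V : Type) [TopologicalSpace V] (c : V → Fin r → Ω → ℝ)
      (hc : ∀ i x, Continuous fun v => c v i x) (d : V → Fin s → Ω → ℝ)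
      (hd : ∀ v, O.f (Ω ×ₗ ℝ) (lifR a (c v)) = lifR (O.f Ω a) (d v)) (i : Fin s) (x : Ω) :
      Continuous fun v => d v i x := op_cont O a c hc d hd i x

theorem near_id_full {r : ℕ} (P : LP r) :
    ∃ (ε : ℝ) (N : ℕ), 0 < ε ∧ ∀ (a : Fin r → ℝ ≃o ℝ) (z : ℝ),
      (∀ (i : Fin r) (w v : FG r), w.norm ≤ N → v.norm ≤ N →
        |(a i (wa a w z) - a i (wa a v z)) - (wa a w z - wa a v z)| ≤
          ε * |wa a w z - wa a v z|) → GoodAt P.E a z :=
  near_id P (cluster P (fun Ω _ b G hN C hC W hW val Z hZ =>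
    nice_step P (fun Ω _ a G h1 h2 h3 c hc =>
      nstep P iod (fun r s Ω _ O a V _ c hc d hd i x => op_cont' r s Ω O a V c hc d hd i x)
        Ω a G h1 h2 h3 c hc) Ω b G hN C hC W hW val Z hZ))

end Pool.Agent.H815.HF
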