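import Pool.Agent.H815.HF.IndLift

set_option autoImplicit false

namespace Pool.Agent.H815.HF

theorem rank_bound_disp {r : ℕ} {Ω : Type} [LinearOrder Ω] (a : Fin r → Ω ≃o Ω) (p : Ω)
    (s : Ω → FG r) (hs : ∀ x, wa a (s x) p = x) (φ : FG r → ℝ)
    (hφ : ∀ u v, wa a u p = p → wa a v p = p → φ (u * v) = φ u + φ v) (w : FG r) (x : Ω) :
    disp a (fun i x => φ ((s (a i x))⁻¹ * FreeGroup.of i * s x)) w x =
      φ ((s (wa a w x))⁻¹ * w * s x) := by
  have hinv : ∀ x, wa a (s x)⁻¹ x = p := fun x => by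
    have h1 := wa_inv_wa a (s x) p
    rwa [hs x] at h1
  have hmem : ∀ w x, wa a ((s (wa a w x))⁻¹ * w * s x) p = p := by
    intro w x
    rw [wa_mul, wa_mul, hs, hinv]
  have hφ1 : φ 1 = 0 := by
    have := hφ 1 1 (wa_one a p) (wa_one a p)
    rw [mul_one] at this
    linarith
  induction w using fg_induction generalizing x with
  | h1 => rw [disp_one, wa_one, mul_one, inv_mul_cancel, hφ1]
  | hof i w ih =>
    have h1 := hmem (FreeGroup.of i) (wa a w x)
    rw [wa_of] at h1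
    rw [disp_mul, disp_of, ih, wa_mul, wa_of, ← hφ _ _ h1 (hmem w x)]
    congr 1
    group
  | hinv i w ih =>
    have h1 := hmem (FreeGroup.of i)⁻¹ (wa a w x)
    have h2 := hmem (FreeGroup.of i) (wa a (FreeGroup.of i)⁻¹ (wa a w x))
    have h3 := hφ _ _ h1 h2
    have h4 : (s (wa a (FreeGroup.of i)⁻¹ (wa a w x)))⁻¹ * (FreeGroup.of i)⁻¹ * s (wa a w x) *
        ((s (wa a (FreeGroup.of i) (wa a (FreeGroup.of i)⁻¹ (wa a w x))))⁻¹ * FreeGroup.of i *
          s (wa a (FreeGroup.of i)⁻¹ (wa a w x))) = 1 := by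
      rw [wa_wa_inv]
      group
    rw [h4, hφ1] at h3
    rw [disp_mul, disp_inv, disp_of, ih, wa_mul]
    have h5 := hφ _ _ h1 (hmem w x)
    have h6 : (s (wa a (FreeGroup.of i)⁻¹ (wa a w x)))⁻¹ * (FreeGroup.of i)⁻¹ * s (wa a w x) *
        ((s (wa a w x))⁻¹ * w * s x) =
        (s (wa a (FreeGroup.of i)⁻¹ (wa a w x)))⁻¹ * ((FreeGroup.of i)⁻¹ * w) * s x := by
      group
    rw [h6] at h5
    rw [h5]
    rw [wa_of] at h3
    linarith

theorem rank_bound_cont {r : ℕ} {Ω : Type} [LinearOrder Ω] (a : Fin r → Ω ≃o Ω)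
    {V : Type} [TopologicalSpace V] (c : V → Fin r → Ω → ℝ)
    (hc : ∀ i x, Continuous fun v => c v i x) (w : FG r) (x : Ω) :
    Continuous fun v => disp a (c v) w x := by
  induction w using fg_induction generalizing x with
  | h1 => simp only [disp_one]; exact continuous_const
  | hof i w ih =>
    simp only [disp_mul, disp_of]
    exact (hc _ _).add (ih x)
  | hinv i w ih =>
    simp only [disp_mul, disp_inv, disp_of]
    exact (hc _ _).neg.add (ih x)

theorem rank_bound_gauge {r : ℕ} {Ω : Type} [LinearOrder Ω] (a : Fin r → Ω ≃o Ω) (p : Ω)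
    (s : Ω → FG r) (hs : ∀ x, wa a (s x) p = x) (hsp : s p = 1) (c1 c2 : Fin r → Ω → ℝ)
    (h : ∀ w, wa a w p = p → disp a c1 w p = disp a c2 w p) :
    ∃ u : Ω → ℝ, u p = 0 ∧ ∀ i x, c1 i x = u (a i x) + c2 i x - u x := by
  have hinv : ∀ x, wa a (s x)⁻¹ x = p := fun x => by
    have h1 := wa_inv_wa a (s x) p
    rwa [hs x] at h1
  refine ⟨fun x => disp a c1 (s x) p - disp a c2 (s x) p, ?_, fun i x => ?_⟩
  · simp only [hsp, disp_one, sub_self]
  · have hexp : ∀ k : Fin r → Ω → ℝ,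
        disp a k ((s (a i x))⁻¹ * (FreeGroup.of i * s x)) p =
          - disp a k (s (a i x)) p + (k i x + disp a k (s x) p) := by
      intro k
      rw [disp_mul, disp_mul, disp_inv, disp_of, wa_mul, wa_of, hs, hinv]
    have hfix : wa a ((s (a i x))⁻¹ * (FreeGroup.of i * s x)) p = p := by
      rw [wa_mul, wa_mul, wa_of, hs, hinv]
    have h2 := h _ hfix
    rw [hexp, hexp] at h2
    simp only
    linarith

theorem rank_bound_trans {r : ℕ} {Ω : Type} [LinearOrder Ω] (a : Fin r → Ω ≃o Ω)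
    (c1 c2 : Fin r → Ω → ℝ) (u : Ω → ℝ) (h : ∀ i x, c1 i x = u (a i x) + c2 i x - u x)
    (w : FG r) (x : Ω) : disp a c1 w x = u (wa a w x) + disp a c2 w x - u x := by
  induction w using fg_induction generalizing x with
  | h1 => rw [disp_one, disp_one, wa_one]; ring
  | hof i w ih =>
    rw [disp_mul, disp_mul, disp_of, disp_of, wa_mul, wa_of, ih, h]
    ring
  | hinv i w ih =>
    rw [disp_mul, disp_mul, disp_inv, disp_inv, disp_of, disp_of, wa_mul, ih, h, wa_of_inv,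
      OrderIso.apply_symm_apply]
    ring

/-- applying a local operator to two gauge equivalent real lifts -/
theorem rank_bound_op {r t : ℕ} {Ω : Type} [LinearOrder Ω] (O : Op r t) (a : Fin r → Ω ≃o Ω)
    (c1 c2 : Fin r → Ω → ℝ) (u : Ω → ℝ) (h : ∀ i x, c1 i x = u (a i x) + c2 i x - u x)
    (d1 d2 : Fin t → Ω → ℝ) (h1 : O.f (Ω ×ₗ ℝ) (lifR a c1) = lifR (O.f Ω a) d1)
    (h2 : O.f (Ω ×ₗ ℝ) (lifR a c2) = lifR (O.f Ω a) d2) (i : Fin t) (x : Ω) :
    d1 i x = u (O.f Ω a i x) + d2 i x - u x := by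
  obtain ⟨W, hW⟩ : ∃ W : (Ω ×ₗ ℝ) ≃o (Ω ×ₗ ℝ), W = lif1 (OrderIso.refl Ω) (fun x => tr (u x)) :=
    ⟨_, rfl⟩
  have hWa : ∀ x y, W (toLex (x, y)) = toLex (x, y + u x) := by
    intro x y
    rw [hW]
    rfl
  have hWi : ∀ x y, W⁻¹ (toLex (x, y)) = toLex (x, y - u x) := by
    intro x y
    apply W.injective
    rw [show W (W⁻¹ (toLex (x, y))) = toLex (x, y) from W.apply_symm_apply _, hWa, toLex_inj']
    exact ⟨rfl, by ring⟩
  have hl : lifR a c1 = fun i => W * lifR a c2 i * W⁻¹ := by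
    funext j
    ext z
    induction z using lex_ind with
    | h x y =>
      show lifR a c1 j (toLex (x, y)) = W (lifR a c2 j (W⁻¹ (toLex (x, y))))
      rw [hWi, lifR_apply, lifR_apply, hWa, toLex_inj', h]
      exact ⟨rfl, by ring⟩
  have h3 := op_conj O (lifR a c2) W
  rw [← hl, h1, h2] at h3
  have h4 := congrArg (fun f : (Ω ×ₗ ℝ) ≃o (Ω ×ₗ ℝ) => f (toLex (x, 0))) (congrFun h3 i)
  have h5 : lifR (O.f Ω a) d1 i (toLex (x, 0)) =
    W (lifR (O.f Ω a) d2 i (W⁻¹ (toLex (x, 0)))) := h4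
  rw [hWi, lifR_apply, lifR_apply, hWa, toLex_inj'] at h5
  linarith [h5.2]

/-- Rank bound: if the stabiliser of `p` under `a` is free of rank two, the stabiliser under
`h = T(a)` has no homomorphism onto `ℤ³`. -/
theorem rank_bound {r : ℕ} (P : LP r)
    (hiod : ∀ (ι : Type) [Fintype ι] (f g : (ι → ℝ) → (ι → ℝ)), Continuous f → Continuous g →
      (∀ x, g (f x) = x) → Function.Surjective f)
    (op_cont : ∀ (r s : ℕ) (Ω : Type) [LinearOrder Ω] (O : Op r s) (a : Fin r → Ω ≃o Ω)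
      (V : Type) [TopologicalSpace V] (c : V → Fin r → Ω → ℝ),
      (∀ i x, Continuous fun v => c v i x) → ∀ (d : V → Fin s → Ω → ℝ),
      (∀ v, O.f (Ω ×ₗ ℝ) (lifR a (c v)) = lifR (O.f Ω a) (d v)) → ∀ (i : Fin s) (x : Ω),
      Continuous fun v => d v i x)
    {Ω : Type} [LinearOrder Ω] (a : Fin r → Ω ≃o Ω) (p : Ω) (hE : P.E.f Ω a = a)
    (ht : ∀ x, ∃ w, wa a w p = x) (q : Pat r) (hq : HasPat a p q) (ι : FG 2 ≃* q.stab)
    (H : Subgroup (FG r)) (hH : ∀ w, w ∈ H ↔ wa (P.T.f Ω a) w p = p) :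
    ¬ ∃ χ : H →* Multiplicative (Fin 3 → ℤ), Function.Surjective χ := by
  classical
  rintro ⟨χ, hχ⟩
  obtain ⟨h, hh⟩ : ∃ h, h = P.T.f Ω a := ⟨_, rfl⟩
  rw [← hh] at hH
  have hY : P.Y.f Ω h = a := by
    rw [hh, ← P.hE, hE]
  have hstab : ∀ w, w ∈ q.stab ↔ wa a w p = p := by
    intro w
    have := hq.eqv_iff w 1
    rw [wa_one] at this
    exact this
  have hth : ∀ x, ∃ w, wa h w p = x := by
    intro x
    obtain ⟨w, hw⟩ := ht x
    obtain ⟨v, hv⟩ := P.Y.exists_word' h w p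
    rw [hY, hw] at hv
    exact ⟨v, hv.symm⟩
  obtain ⟨s, hs, hsp⟩ := exists_sec_8374 a p ht
  obtain ⟨sh, hsh, hshp⟩ := exists_sec_8374 h p hth
  -- integer valued characters of `H`
  obtain ⟨X, hX⟩ : ∃ X : FG r → Fin 3 → ℝ, ∀ w (hw : w ∈ H) m, X w m = (((χ ⟨w, hw⟩).toAdd m : ℤ) : ℝ) := by
    refine ⟨fun w m => if hw : w ∈ H then (((χ ⟨w, hw⟩).toAdd m : ℤ) : ℝ) else 0, ?_⟩
    intro w hw m
    simp only [dif_pos hw]
  have hXmul : ∀ u v m, wa h u p = p → wa h v p = p → X (u * v) m = X u m + X v m := by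
    intro u v m hu hv
    have hu' : u ∈ H := (hH u).2 hu
    have hv' : v ∈ H := (hH v).2 hv
    rw [hX _ (H.mul_mem hu' hv'), hX _ hu', hX _ hv']
    have : (⟨u * v, H.mul_mem hu' hv'⟩ : H) = ⟨u, hu'⟩ * ⟨v, hv'⟩ := rfl
    rw [this, map_mul, toAdd_mul]
    push_cast [Pi.add_apply]
    ring
  -- the cocycle `D`
  obtain ⟨D, hD⟩ : ∃ D : (Fin 3 → ℝ) → Fin r → Ω → ℝ, D = fun ξ i x =>
      (fun w => ∑ m, ξ m * X w m) ((sh (h i x))⁻¹ * FreeGroup.of i * sh x) := ⟨_, rfl⟩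
  have hDc : ∀ i x, Continuous fun ξ => D ξ i x := by
    intro i x
    rw [hD]
    exact continuous_finsetSum _ (fun m _ => (continuous_apply m).mul continuous_const)
  have hDd : ∀ ξ w, wa h w p = p → disp h (D ξ) w p = ∑ m, ξ m * X w m := by
    intro ξ w hw
    have := rank_bound_disp h p sh hsh (fun w => ∑ m, ξ m * X w m) (by
      intro u v hu hv
      rw [← Finset.sum_add_distrib]
      refine Finset.sum_congr rfl (fun m _ => ?_)
      rw [hXmul u v m hu hv]
      ring) w p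
    rw [hD]
    rw [this, hw, hshp]
    simp
  -- integer valued characters of the stabiliser under `a`
  obtain ⟨ex, hex⟩ : ∃ ex : FG 2 →* Multiplicative (Fin 2 → ℤ), ex = FreeGroup.lift
      (fun j => Multiplicative.ofAdd (Pi.single j 1)) := ⟨_, rfl⟩
  obtain ⟨Z, hZ⟩ : ∃ Z : FG r → Fin 2 → ℝ, ∀ w (hw : w ∈ q.stab) m,
      Z w m = (((ex (ι.symm ⟨w, hw⟩)).toAdd m : ℤ) : ℝ) := by
    refine ⟨fun w m => if hw : w ∈ q.stab then (((ex (ι.symm ⟨w, hw⟩)).toAdd m : ℤ) : ℝ) else 0, ?_⟩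
    intro w hw m
    simp only [dif_pos hw]
  have hZmul : ∀ u v m, wa a u p = p → wa a v p = p → Z (u * v) m = Z u m + Z v m := by
    intro u v m hu hv
    have hu' : u ∈ q.stab := (hstab u).2 hu
    have hv' : v ∈ q.stab := (hstab v).2 hv
    rw [hZ _ (q.stab.mul_mem hu' hv'), hZ _ hu', hZ _ hv']
    have : (⟨u * v, q.stab.mul_mem hu' hv'⟩ : q.stab) = ⟨u, hu'⟩ * ⟨v, hv'⟩ := rfl
    rw [this, map_mul, map_mul, toAdd_mul]
    push_cast [Pi.add_apply]
    ring
  have hZof : ∀ j m, Z ((ι (FreeGroup.of j) : q.stab) : FG r) m = if j = m then 1 else 0 := by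
    intro j m
    rw [hZ _ (ι (FreeGroup.of j)).2]
    rw [Subtype.coe_eta, MulEquiv.symm_apply_apply, hex, FreeGroup.lift_apply_of, toAdd_ofAdd]
    by_cases hjm : j = m
    · subst hjm; simp
    · rw [Pi.single_eq_of_ne (Ne.symm hjm), if_neg hjm]; simp
  obtain ⟨C, hC⟩ : ∃ C : (Fin 2 → ℝ) → Fin r → Ω → ℝ, C = fun η i x =>
      (fun w => ∑ m, η m * Z w m) ((s (a i x))⁻¹ * FreeGroup.of i * s x) := ⟨_, rfl⟩
  have hCc : ∀ i x, Continuous fun η => C η i x := by
    intro i x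
    rw [hC]
    exact continuous_finsetSum _ (fun m _ => (continuous_apply m).mul continuous_const)
  have hCd : ∀ η w, wa a w p = p → disp a (C η) w p = ∑ m, η m * Z w m := by
    intro η w hw
    have := rank_bound_disp a p s hs (fun w => ∑ m, η m * Z w m) (by
      intro u v hu hv
      rw [← Finset.sum_add_distrib]
      refine Finset.sum_congr rfl (fun m _ => ?_)
      rw [hZmul u v m hu hv]
      ring) w p
    rw [hC]
    rw [this, hw, hsp]
    simp
  -- the operators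
  have he : ∀ ξ, ∃ e : Fin r → Ω → ℝ, P.Y.f (Ω ×ₗ ℝ) (lifR h (D ξ)) = lifR (P.Y.f Ω h) e :=
    fun ξ => op_lifR P.Y h (D ξ)
  choose e he using he
  have hec := op_cont r r Ω P.Y h (Fin 3 → ℝ) D hDc e he
  have hf : ∀ η, ∃ f : Fin r → Ω → ℝ, P.T.f (Ω ×ₗ ℝ) (lifR a (C η)) = lifR (P.T.f Ω a) f :=
    fun η => op_lifR P.T a (C η)
  choose f hf using hf
  have hfc := op_cont r r Ω P.T a (Fin 2 → ℝ) C hCc f hf
  have hl : ∀ m : Fin 3, ∃ l : H, χ l = Multiplicative.ofAdd (Pi.single m 1) := fun m => hχ _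
  choose l hl using hl
  have hlp : ∀ m, wa h (l m : FG r) p = p := fun m => (hH _).1 (l m).2
  obtain ⟨η, hη⟩ : ∃ η : (Fin 3 → ℝ) → Fin 2 → ℝ, η = fun ξ j =>
    disp a (e ξ) (ι (FreeGroup.of j) : q.stab) p := ⟨_, rfl⟩
  have hηc : ∀ j, Continuous fun ξ => η ξ j := by
    intro j
    rw [hη]
    exact rank_bound_cont a e hec _ _
  obtain ⟨τ, hτ⟩ : ∃ τ : (Fin 2 → ℝ) → Fin 3 → ℝ, τ = fun η m =>
    disp h (f η) (l m : FG r) p := ⟨_, rfl⟩
  have hτc : Continuous τ := by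
    rw [hτ]
    exact continuous_pi (fun m => rank_bound_cont h f hfc _ _)
  have hmain : ∀ ξ, τ (η ξ) = ξ := by
    intro ξ
    have hsame : ∀ v : FG 2, disp a (e ξ) (ι v : q.stab) p = disp a (C (η ξ)) (ι v : q.stab) p := by
      intro v
      have hfix : ∀ v : FG 2, wa a ((ι v : q.stab) : FG r) p = p := fun v => (hstab _).1 (ι v).2
      have hof : ∀ j : Fin 2, disp a (e ξ) (ι (FreeGroup.of j) : q.stab) p =
          disp a (C (η ξ)) (ι (FreeGroup.of j) : q.stab) p := by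
        intro j
        rw [hCd _ _ (hfix _)]
        simp only [hZof]
        simp [hη]
      induction v using fg_induction with
      | h1 => rw [map_one]; simp
      | hof i w ih =>
        rw [map_mul, Subgroup.coe_mul, disp_mul, disp_mul, ih, hfix, hof]
      | hinv i w ih =>
        rw [map_mul, Subgroup.coe_mul, disp_mul, disp_mul, ih, hfix, map_inv, Subgroup.coe_inv,
          disp_inv, disp_inv]
        have h7 : wa a ((ι (FreeGroup.of i) : q.stab) : FG r)⁻¹ p = p := by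
          have := hfix (FreeGroup.of i)⁻¹
          rwa [map_inv, Subgroup.coe_inv] at this
        rw [h7, hof]
    have hsame' : ∀ w, wa a w p = p → disp a (e ξ) w p = disp a (C (η ξ)) w p := by
      intro w hw
      have hw' := (hstab w).2 hw
      have := hsame (ι.symm ⟨w, hw'⟩)
      rwa [MulEquiv.apply_symm_apply] at this
    obtain ⟨u, hup, hu⟩ := rank_bound_gauge a p s hs hsp _ _ hsame'
    have hTe : P.T.f (Ω ×ₗ ℝ) (lifR a (e ξ)) = lifR (P.T.f Ω a) (D ξ) := by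
      have h8 := P.TY (Ω ×ₗ ℝ) (lifR h (D ξ))
      rw [he ξ, hY] at h8
      rw [h8, hh]
    have h9 := rank_bound_op P.T a (e ξ) (C (η ξ)) u hu (D ξ) (f (η ξ)) hTe (hf _)
    rw [← hh] at h9
    funext m
    have h10 := rank_bound_trans h (D ξ) (f (η ξ)) u h9 (l m : FG r) p
    rw [hlp, hup, hDd _ _ (hlp m)] at h10
    have h11 : ∑ m', ξ m' * X (l m : FG r) m' = ξ m := by
      have h12 : ∀ m', X (l m : FG r) m' = if m = m' then 1 else 0 := by
        intro m'
        rw [hX _ (l m).2, Subtype.coe_eta, hl, toAdd_ofAdd]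
        by_cases hmm : m = m'
        · subst hmm; simp
        · rw [Pi.single_eq_of_ne (Ne.symm hmm), if_neg hmm]; simp
      simp only [h12]
      simp
    rw [h11] at h10
    rw [hτ]
    simp only
    linarith
  have hηc' : Continuous η := continuous_pi hηc
  obtain ⟨ξ, hξ⟩ := hiod (Fin 3) (fun ξ => ![η ξ 0, η ξ 1, 0]) (fun x => τ ![x 0, x 1]) (by
      apply continuous_pi
      intro m
      fin_cases m
      · exact hηc 0
      · exact hηc 1
      · exact continuous_const) (by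
      apply hτc.comp
      apply continuous_pi
      intro m
      fin_cases m
      · exact continuous_apply 0
      · exact continuous_apply 1) (by
      intro ξ
      have : (![(![η ξ 0, η ξ 1, 0] : Fin 3 → ℝ) 0, (![η ξ 0, η ξ 1, 0] : Fin 3 → ℝ) 1] : Fin 2 → ℝ) = η ξ := by
        funext m
        fin_cases m <;> rfl
      rw [this]
      exact hmain ξ) ![0, 0, 1]
  have := congrFun hξ 2
  simp at this


end Pool.Agent.H815.HF
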