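import Pool.Agent.H815.HF.HNoncomm
import Pool.Agent.H815.HF.RankBound
import Pool.Agent.H815.HF.LocOp
import Pool.Agent.H815.HF.LocPair
import Pool.Agent.H815.HF.IsoTwo
import Pool.Agent.H815.HF.IndPatLem
import Pool.Agent.H815.HF.Near

set_option autoImplicit false

namespace Pool.Agent.H815.HF

/-- a lift with prescribed fibre action. -/
theorem exists_lift_of {r s : ℕ} {Ω B : Type} [LinearOrder Ω] [LinearOrder B]
    (a : Fin r → Ω ≃o Ω) (p : Ω) (ht : ∀ x, ∃ w, wa a w p = x) (q : Pat r) (hq : HasPat a p q)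
    (ι : FG s ≃* q.stab) (b : Fin s → B ≃o B) :
    ∃ c : Fin r → Ω → B ≃o B, ∀ w : FG s, coc a c (ι w : FG r) p = FreeGroup.lift b w := by
  obtain ⟨c, hc⟩ := exists_ind a p ht q.stab (fun w => hq.mem_stab w)
    ((FreeGroup.lift b).comp ι.symm.toMonoidHom)
  refine ⟨c, fun w => ?_⟩
  rw [hc (ι w)]
  simp

theorem localise {r : ℕ} (P : LP r) (q : Pat r) (hq : DE P.E q) :
    ∃ (P' : LP 2) (ι : FG 2 ≃* q.stab), ∀ ρ : Pat 2, InC P'.E ρ ↔ InC P.E (IndPat q ι ρ) := by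
  obtain ⟨hC, ⟨x, y, hxy⟩, ⟨q', hq'C, hq'ref, g₁, hg₁, g₂, hg₂, hne⟩, -⟩ := hq
  -- the stabiliser is free of rank two
  obtain ⟨ι⟩ : Nonempty (FG 2 ≃* q.stab) := by
    apply IsoTwoM.iso_two
    · refine ⟨g₁, hg₁, g₂, hg₂, fun h => hne ?_⟩
      rw [h]
      exact ⟨q'.refl' _, q'.refl' _⟩
    · have hx : x ∈ q.stab := by rw [hxy]; exact Subgroup.subset_closure (by simp)
      have hy : y ∈ q.stab := by rw [hxy]; exact Subgroup.subset_closure (by simp)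
      apply IsoTwoM.no_surj_three (⟨x, hx⟩ : q.stab) ⟨y, hy⟩
      rw [eq_top_iff]
      rintro ⟨z, hz⟩ -
      have h1 : z ∈ Subgroup.closure {x, y} := by rw [← hxy]; exact hz
      have h2 : (Subgroup.closure {(⟨x, hx⟩ : q.stab), ⟨y, hy⟩}).map q.stab.subtype =
          Subgroup.closure {x, y} := by
        rw [MonoidHom.map_closure]
        congr 1
        ext t
        simp [Set.mem_image, eq_comm]
      rw [← h2] at h1
      obtain ⟨t, ht, ht'⟩ := h1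
      have : t = ⟨z, hz⟩ := Subtype.ext ht'
      rw [← this]
      exact ht
  have hE := hC.eq q.hasPat_act q.act_trans
  -- the refinement q' as a lift
  obtain ⟨ρ', hρ'⟩ := ind_surj q ι q' hq'ref
  obtain ⟨c, hc⟩ := exists_lift_of q.act (q.cls 1) q.act_trans q q.hasPat_act ι ρ'.act
  have hp' : HasPat (lif q.act c) (toLex (q.cls 1, ρ'.cls 1)) q' := by
    have := ind_hasPat q.act (q.cls 1) q q.hasPat_act ι ρ'.act (ρ'.cls 1) ρ' ρ'.hasPat_act c hc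
    rwa [hρ'] at this
  have ht' := ind_trans q.act (q.cls 1) q q.hasPat_act q.act_trans ι ρ'.act (ρ'.cls 1)
    ρ'.act_trans c hc
  have hEc := hq'C.eq hp' ht'
  have f₁ := (q.hasPat_act.mem_stab g₁).1 hg₁
  have f₂ := (q.hasPat_act.mem_stab g₂).1 hg₂
  obtain ⟨u, v, hu, hv, huv⟩ := h_noncomm P q.act (q.cls 1) hE q.act_trans c hEc g₁ g₂ f₁ f₂ (by
    intro h
    apply hne
    rw [hp'.eqv_iff, wa_lif, wa_lif, h, wa_mul, wa_mul, f₁, f₂, f₁])
  let q₂ := patOf (P.T.f q.Q q.act) (q.cls 1)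
  have hq₂ : HasPat (P.T.f q.Q q.act) (q.cls 1) q₂ := hasPat_patOf _ _
  obtain ⟨ι'⟩ : Nonempty (FG 2 ≃* q₂.stab) := by
    apply IsoTwoM.iso_two
    · exact ⟨u, (hq₂.mem_stab u).2 hu, v, (hq₂.mem_stab v).2 hv, huv⟩
    · exact rank_bound P iod op_cont' q.act (q.cls 1) hE q.act_trans q q.hasPat_act ι q₂.stab
        (fun w => hq₂.mem_stab w)
  obtain ⟨P', hP'⟩ := loc_pair P
    (fun r m m' O Ω _ a p ht q hq ι q₂ hq₂ ι' => loc_op O a p ht q hq ι q₂ hq₂ ι')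
    (fun r s m T Y => Op.comp T Y) q.act (q.cls 1) hE q.act_trans q q.hasPat_act ι q₂ hq₂ ι'
  refine ⟨P', ι, fun ρ => ?_⟩
  obtain ⟨c', hc'⟩ := exists_lift_of q.act (q.cls 1) q.act_trans q q.hasPat_act ι ρ.act
  have h1 := ind_hasPat q.act (q.cls 1) q q.hasPat_act ι ρ.act (ρ.cls 1) ρ ρ.hasPat_act c' hc'
  have h2 := ind_trans q.act (q.cls 1) q q.hasPat_act q.act_trans ι ρ.act (ρ.cls 1)
    ρ.act_trans c' hc'
  have h3 := hP' ρ.Q ρ.act c' hc'
  constructor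
  · intro h
    exact inC_of_eq P.E h1 (h3.1 (h.eq ρ.hasPat_act ρ.act_trans))
  · intro h
    exact inC_of_eq P'.E ρ.hasPat_act (h3.2 (h.eq h1 h2))

end Pool.Agent.H815.HF
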