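import Pool.Agent.H815.HF.Term

set_option autoImplicit false

namespace Pool.Agent.H815.HF

theorem infIso_apply' {Ω : Type} [LinearOrder Ω] (f g : Ω ≃o Ω) (x : Ω) :
    infIso f g x = min (f x) (g x) := rfl

theorem supIso_apply' {Ω : Type} [LinearOrder Ω] (f g : Ω ≃o Ω) (x : Ω) :
    supIso f g x = max (f x) (g x) := rfl

/-- the automorphism group of a chain as an `l`-group -/
def AutC (Ω : Type) [LinearOrder Ω] : Type := Ω ≃o Ω

instance (Ω : Type) [LinearOrder Ω] : Group (AutC Ω) := inferInstanceAs (Group (Ω ≃o Ω))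

instance (Ω : Type) [LinearOrder Ω] : Lattice (AutC Ω) where
  le := fun (f g : Ω ≃o Ω) => ∀ x, f x ≤ g x
  le_refl f x := le_rfl
  le_trans f g h h1 h2 x := (h1 x).trans (h2 x)
  le_antisymm f g h1 h2 := by
    apply OrderIso.ext
    funext x
    exact le_antisymm (h1 x) (h2 x)
  sup f g := supIso f g
  le_sup_left f g x := le_max_left _ _
  le_sup_right f g x := le_max_right _ _
  sup_le f g h h1 h2 x := max_le (h1 x) (h2 x)
  inf f g := infIso f g
  inf_le_left f g x := min_le_left _ _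
  inf_le_right f g x := min_le_right _ _
  le_inf f g h h1 h2 x := le_min (h1 x) (h2 x)

instance (Ω : Type) [LinearOrder Ω] : MulLeftMono (AutC Ω) :=
  ⟨fun (f a b : Ω ≃o Ω) (h : ∀ x, a x ≤ b x) x => f.monotone (h x)⟩

instance (Ω : Type) [LinearOrder Ω] : MulRightMono (AutC Ω) :=
  ⟨fun (f a b : Ω ≃o Ω) (h : ∀ x, a x ≤ b x) x => h (f x)⟩

theorem ev_hom {r : ℕ} {G H : Type} [Group G] [Lattice G] [Group H] [Lattice H] (φ : G →* H)
    (h1 : ∀ a b, φ (a ⊔ b) = φ a ⊔ φ b) (h2 : ∀ a b, φ (a ⊓ b) = φ a ⊓ φ b) (g : Fin r → G)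
    (τ : Tm r) : φ (τ.ev g) = τ.ev (fun i => φ (g i)) := by
  induction τ with
  | var i => rfl
  | one => exact map_one φ
  | mul a b iha ihb =>
    show φ (a.ev g * b.ev g) = _
    rw [map_mul, iha, ihb]; rfl
  | inv a ih =>
    show φ ((a.ev g)⁻¹) = _
    rw [map_inv, ih]; rfl
  | sup a b iha ihb =>
    show φ (a.ev g ⊔ b.ev g) = _
    rw [h1, iha, ihb]; rfl
  | inf a b iha ihb =>
    show φ (a.ev g ⊓ b.ev g) = _
    rw [h2, iha, ihb]; rfl

theorem act_eq_ev {r : ℕ} {Ω : Type} [LinearOrder Ω] (g : Fin r → Ω ≃o Ω) (τ : Tm r) :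
    τ.act g = (τ.ev (G := AutC Ω) g : AutC Ω) := by
  induction τ with
  | var i => rfl
  | one => rfl
  | mul a b iha ihb =>
    show a.act g * b.act g = _
    rw [iha, ihb]; rfl
  | inv a ih =>
    show (a.act g)⁻¹ = _
    rw [ih]; rfl
  | sup a b iha ihb =>
    show supIso (a.act g) (b.act g) = _
    rw [iha, ihb]; rfl
  | inf a b iha ihb =>
    show infIso (a.act g) (b.act g) = _
    rw [iha, ihb]; rfl

/-- values of terms -/
def valSub {n : ℕ} {F : Type} [Group F] [Lattice F] (x : Fin n → F) : Subgroup F where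
  carrier := {y | ∃ τ : Tm n, τ.ev x = y}
  mul_mem' := by
    rintro _ _ ⟨a, rfl⟩ ⟨b, rfl⟩
    exact ⟨Tm.mul a b, rfl⟩
  one_mem' := ⟨Tm.one, rfl⟩
  inv_mem' := by
    rintro _ ⟨a, rfl⟩
    exact ⟨Tm.inv a, rfl⟩

theorem exists_term (n : ℕ) (F : Type) [Group F] [Lattice F] [MulLeftMono F] [MulRightMono F]
    (x : Fin n → F)
    (huniv : ∀ (G : Type) [Group G] [Lattice G] [MulLeftMono G] [MulRightMono G] (g : Fin n → G),
          ∃! φ : F →* G, (∀ a b : F, φ (a ⊔ b) = φ a ⊔ φ b) ∧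
            (∀ a b : F, φ (a ⊓ b) = φ a ⊓ φ b) ∧ ∀ i, φ (x i) = g i) (y : F) :
    ∃ τ : Tm n, τ.ev x = y := by
  letI lat : Lattice (valSub x) := Subtype.lattice (P := fun y => y ∈ valSub x)
    (by
      rintro _ _ ⟨a, rfl⟩ ⟨b, rfl⟩
      exact ⟨Tm.sup a b, rfl⟩)
    (by
      rintro _ _ ⟨a, rfl⟩ ⟨b, rfl⟩
      exact ⟨Tm.inf a b, rfl⟩)
  haveI m1 : MulLeftMono (valSub x) := ⟨fun a b c h => by
    show (a : F) * b ≤ a * c
    exact mul_le_mul_right (show (b : F) ≤ c from h) _⟩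
  haveI m2 : MulRightMono (valSub x) := ⟨fun a b c h => by
    show (b : F) * a ≤ c * a
    exact mul_le_mul_left (show (b : F) ≤ c from h) _⟩
  obtain ⟨φ, ⟨p1, p2, p3⟩, -⟩ := huniv (valSub x) (fun i => ⟨x i, Tm.var i, rfl⟩)
  obtain ⟨φ0, -, hu⟩ := huniv F x
  have e1 := hu ((valSub x).subtype.comp φ) ⟨fun a b => by
      show ((φ (a ⊔ b) : valSub x) : F) = _
      rw [p1]; rfl, fun a b => by
      show ((φ (a ⊓ b) : valSub x) : F) = _
      rw [p2]; rfl, fun i => by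
      show ((φ (x i) : valSub x) : F) = _
      rw [p3]⟩
  have e2 := hu (MonoidHom.id F) ⟨fun a b => rfl, fun a b => rfl, fun i => rfl⟩
  have e3 : ((φ y : valSub x) : F) = y := DFunLike.congr_fun (e1.trans e2.symm) y
  have := (φ y).2
  rw [e3] at this
  exact this

end Pool.Agent.H815.HF


namespace Pool.Agent.H815.HF

/-- Reduction of the Hopf property of the free `l`-group of rank `n` to a statement about
automorphism groups of chains (Holland's theorem is the hypothesis `holland`). -/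
theorem reduction (n : ℕ) (F : Type) [Group F] [Lattice F] [MulLeftMono F] [MulRightMono F]
    (x : Fin n → F)
    (huniv : ∀ (G : Type) [Group G] [Lattice G] [MulLeftMono G] [MulRightMono G] (g : Fin n → G),
          ∃! φ : F →* G, (∀ a b : F, φ (a ⊔ b) = φ a ⊔ φ b) ∧
            (∀ a b : F, φ (a ⊓ b) = φ a ⊓ φ b) ∧ ∀ i, φ (x i) = g i)
    (holland : ∀ (G : Type) [Group G] [Lattice G] [MulLeftMono G] [MulRightMono G]
      (g : G), g ≠ 1 →
      ∃ (Ω : Type) (_ : LinearOrder Ω) (ρ : G →* (Ω ≃o Ω)),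
        (∀ (a b : G) (x : Ω), ρ (a ⊔ b) x = max (ρ a x) (ρ b x)) ∧
        (∀ (a b : G) (x : Ω), ρ (a ⊓ b) x = min (ρ a x) (ρ b x)) ∧
        ρ g ≠ 1)
    (hmain : ∀ Y T : Fin n → Tm n,
      (∀ (Ω : Type) [LinearOrder Ω] (a : Fin n → Ω ≃o Ω) (i : Fin n),
        (T i).act (fun j => (Y j).act a) = a i) →
      (∀ (Ω : Type) [LinearOrder Ω] (a : Fin n → Ω ≃o Ω) (i : Fin n),
        (Y i).act (fun j => (T j).act a) = a i))
    (ψ : F →* F) (hsup : ∀ a b : F, ψ (a ⊔ b) = ψ a ⊔ ψ b)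
    (hinf : ∀ a b : F, ψ (a ⊓ b) = ψ a ⊓ ψ b) (hsurj : Function.Surjective ψ) :
    Function.Injective ψ := by
  have hterm := exists_term n F x huniv
  choose Yt hYt using fun i => hterm (ψ (x i))
  choose y hy using fun i => hsurj (x i)
  choose Tt hTt using fun i => hterm (y i)
  have h4 : ∀ i, (Tt i).ev (fun j => (Yt j).ev x) = x i := by
    intro i
    have h := ev_hom ψ hsup hinf x (Tt i)
    rw [hTt, hy] at h
    rw [h]
    simp only [hYt]
  have h5 : ∀ (Ω : Type) [LinearOrder Ω] (a : Fin n → Ω ≃o Ω) (i : Fin n),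
      (Tt i).act (fun j => (Yt j).act a) = a i := by
    intro Ω _ a i
    obtain ⟨φ, ⟨p1, p2, p3⟩, -⟩ := huniv (AutC Ω) a
    have h := congrArg φ (h4 i)
    rw [ev_hom φ p1 p2, p3] at h
    rw [act_eq_ev, ← h]
    congr 1
    funext j
    rw [act_eq_ev, ev_hom φ p1 p2]
    congr 1
    funext k
    exact (p3 k).symm
  have h6 := hmain Yt Tt h5
  have h7 : ∀ i, (Yt i).ev (fun j => (Tt j).ev x) = x i := by
    intro i
    by_contra hne
    have hne' : (Yt i).ev (fun j => (Tt j).ev x) * (x i)⁻¹ ≠ 1 := by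
      rwa [ne_eq, mul_inv_eq_one]
    obtain ⟨Ω, _, ρ, r1, r2, r3⟩ := holland F _ hne'
    apply r3
    rw [map_mul, map_inv, mul_inv_eq_one]
    let ρ' : F →* AutC Ω := ρ
    have s1 : ∀ a b, ρ' (a ⊔ b) = ρ' a ⊔ ρ' b := by
      intro a b
      apply OrderIso.ext
      funext z
      exact r1 a b z
    have s2 : ∀ a b, ρ' (a ⊓ b) = ρ' a ⊓ ρ' b := by
      intro a b
      apply OrderIso.ext
      funext z
      exact r2 a b z
    have h := h6 Ω (fun j => ρ (x j)) i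
    show ρ' _ = ρ' _
    rw [ev_hom ρ' s1 s2]
    rw [act_eq_ev] at h
    refine Eq.trans ?_ h
    congr 1
    funext j
    rw [act_eq_ev, ev_hom ρ' s1 s2]
    rfl
  obtain ⟨θ, ⟨q1, q2, q3⟩, -⟩ := huniv F y
  have h8 : ∀ i, θ (ψ (x i)) = x i := by
    intro i
    rw [← hYt i, ev_hom θ q1 q2]
    refine Eq.trans ?_ (h7 i)
    congr 1
    funext j
    rw [q3, hTt]
  obtain ⟨φ0, -, hu⟩ := huniv F x
  have e1 := hu (θ.comp ψ) ⟨fun a b => by
      show θ (ψ (a ⊔ b)) = _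
      rw [hsup, q1]; rfl, fun a b => by
      show θ (ψ (a ⊓ b)) = _
      rw [hinf, q2]; rfl, h8⟩
  have e2 := hu (MonoidHom.id F) ⟨fun a b => rfl, fun a b => rfl, fun i => rfl⟩
  have h9 : ∀ u, θ (ψ u) = u := fun u => DFunLike.congr_fun (e1.trans e2.symm) u
  intro u v huv
  rw [← h9 u, huv, h9 v]

end Pool.Agent.H815.HF
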