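import Mathlib

set_option autoImplicit false

namespace Pool.Agent.H815.HF.StarM



section star

variable {r : ℕ} {X : Type} [MulAction (FreeGroup (Fin r)) X]

/-- level of a point -/
noncomputable def lev (p x : X) : ℕ := sInf {n | ∃ w : FreeGroup (Fin r), w • p = x ∧ w.norm ≤ n}

theorem lev_le (p : X) (w : FreeGroup (Fin r)) : lev (r := r) p (w • p) ≤ w.norm :=
  Nat.sInf_le ⟨w, rfl, le_rfl⟩

theorem lev_spec (p : X) (htr : ∀ x, ∃ w : FreeGroup (Fin r), w • p = x) (x : X) :
    ∃ w : FreeGroup (Fin r), w • p = x ∧ w.norm ≤ lev (r := r) p x := by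
  have hne : {n | ∃ w : FreeGroup (Fin r), w • p = x ∧ w.norm ≤ n}.Nonempty := by
    obtain ⟨w, hw⟩ := htr x
    exact ⟨w.norm, w, hw, le_rfl⟩
  exact Nat.sInf_mem hne

theorem exists_parent (p : X) (htr : ∀ x, ∃ w : FreeGroup (Fin r), w • p = x) (x : X) (hx : x ≠ p) :
    ∃ y : Fin r × Bool, lev (r := r) p ((FreeGroup.mk [y])⁻¹ • x) < lev (r := r) p x := by
  obtain ⟨w, hw, hn⟩ := lev_spec p htr x
  have hmk := FreeGroup.mk_toWord (x := w)
  rcases hL : w.toWord with _ | ⟨y, L⟩
  · exfalso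
    rw [hL] at hmk
    apply hx
    rw [← hw, ← hmk, ← FreeGroup.one_eq_mk, one_smul]
  · refine ⟨y, ?_⟩
    rw [hL] at hmk
    have h1 : FreeGroup.mk (y :: L) = FreeGroup.mk [y] * FreeGroup.mk L := by
      rw [FreeGroup.mul_mk]; rfl
    have h2 : (FreeGroup.mk [y])⁻¹ • x = FreeGroup.mk L • p := by
      rw [← hw, ← hmk, h1, mul_smul, inv_smul_smul]
    rw [h2]
    refine lt_of_le_of_lt ((lev_le p _).trans FreeGroup.norm_mk_le) ?_
    refine lt_of_lt_of_le ?_ hn
    unfold FreeGroup.norm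
    rw [hL]
    simp

open Classical in
/-- section along the geodesic tree -/
noncomputable def sec (p : X) (t : X → Fin r × Bool)
    (ht : ∀ x, x ≠ p → lev (r := r) p ((FreeGroup.mk [t x])⁻¹ • x) < lev (r := r) p x) (x : X) :
    FreeGroup (Fin r) :=
  if h : x = p then 1 else
    have := ht x h
    FreeGroup.mk [t x] * sec p t ht ((FreeGroup.mk [t x])⁻¹ • x)
termination_by lev (r := r) p x

theorem exists_sec (p : X) (htr : ∀ x, ∃ w : FreeGroup (Fin r), w • p = x) :
    ∃ s : X → FreeGroup (Fin r), s p = 1 ∧ ∀ x, x ≠ p → ∃ y : Fin r × Bool,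
      lev (r := r) p ((FreeGroup.mk [y])⁻¹ • x) < lev (r := r) p x ∧
      s x = FreeGroup.mk [y] * s ((FreeGroup.mk [y])⁻¹ • x) := by
  classical
  by_cases hall : ∀ x, x = p
  · exact ⟨fun _ => 1, rfl, fun x hx => absurd (hall x) hx⟩
  push Not at hall
  obtain ⟨x0, hx0⟩ := hall
  obtain ⟨y0, -⟩ := exists_parent p htr x0 hx0
  have h1 : ∀ x, ∃ y : Fin r × Bool, x ≠ p →
      lev (r := r) p ((FreeGroup.mk [y])⁻¹ • x) < lev (r := r) p x := by
    intro x
    by_cases hx : x = p
    · exact ⟨y0, fun h => absurd hx h⟩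
    · obtain ⟨y, hy⟩ := exists_parent p htr x hx
      exact ⟨y, fun _ => hy⟩
  choose t ht using h1
  refine ⟨sec p t ht, ?_, ?_⟩
  · rw [sec, dif_pos rfl]
  · intro x hx
    refine ⟨t x, ht x hx, ?_⟩
    rw [sec, dif_neg hx]

/-- the properties of the section -/
structure IsSec (p : X) (s : X → FreeGroup (Fin r)) : Prop where
  base : s p = 1
  step : ∀ x, x ≠ p → ∃ y : Fin r × Bool,
      lev (r := r) p ((FreeGroup.mk [y])⁻¹ • x) < lev (r := r) p x ∧
      s x = FreeGroup.mk [y] * s ((FreeGroup.mk [y])⁻¹ • x)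

theorem IsSec.induct {p : X} {s : X → FreeGroup (Fin r)} (hs : IsSec p s) (Q : X → Prop) (h0 : Q p)
    (h1 : ∀ x, x ≠ p → ∀ y : Fin r × Bool,
      lev (r := r) p ((FreeGroup.mk [y])⁻¹ • x) < lev (r := r) p x →
      s x = FreeGroup.mk [y] * s ((FreeGroup.mk [y])⁻¹ • x) →
      Q ((FreeGroup.mk [y])⁻¹ • x) → Q x) (x : X) : Q x := by
  induction h : lev (r := r) p x using Nat.strong_induction_on generalizing x with
  | _ n ih =>
    by_cases hx : x = p
    · rw [hx]; exact h0
    · obtain ⟨y, hy1, hy2⟩ := hs.step x hx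
      exact h1 x hx y hy1 hy2 (ih _ (by rw [← h]; exact hy1) _ rfl)

theorem IsSec.smul {p : X} {s : X → FreeGroup (Fin r)} (hs : IsSec p s) (x : X) : s x • p = x := by
  apply hs.induct (fun x => s x • p = x)
  · rw [hs.base, one_smul]
  · intro x _ y _ h2 h3
    rw [h2, mul_smul, h3, smul_inv_smul]

theorem IsSec.norm_le {p : X} {s : X → FreeGroup (Fin r)} (hs : IsSec p s) (x : X) :
    (s x).norm ≤ lev (r := r) p x := by
  apply hs.induct (fun x => (s x).norm ≤ lev (r := r) p x)
  · rw [hs.base, FreeGroup.norm_one]; exact Nat.zero_le _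
  · intro x _ y h1 h2 h3
    rw [h2]
    refine (FreeGroup.norm_mul_le _ _).trans ?_
    have h4 : (FreeGroup.mk [y]).norm ≤ 1 := FreeGroup.norm_mk_le
    omega

/-- generator attached to an edge -/
def edge (s : X → FreeGroup (Fin r)) (e : X × Fin r) : FreeGroup (Fin r) :=
  (s (FreeGroup.of e.2 • e.1))⁻¹ * FreeGroup.of e.2 * s e.1

theorem mk_true (i : Fin r) : FreeGroup.mk [(i, true)] = FreeGroup.of i := rfl

theorem mk_false (i : Fin r) : FreeGroup.mk [(i, false)] = (FreeGroup.of i)⁻¹ := rfl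

/-- the tree edges have trivial generators -/
theorem tree_edge {p : X} {s : X → FreeGroup (Fin r)} (i : Fin r) (b : Bool) (x : X)
    (h : s x = FreeGroup.mk [(i, b)] * s ((FreeGroup.mk [(i, b)])⁻¹ • x)) :
    edge s (if b then ((FreeGroup.mk [(i, b)])⁻¹ • x, i) else (x, i)) = 1 := by
  cases b
  · rw [mk_false, inv_inv] at h
    simp only [Bool.false_eq_true, if_false]
    unfold edge
    simp only
    rw [h]
    group
  · rw [mk_true] at h
    simp only [if_true]
    unfold edge
    simp only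
    rw [mk_true, smul_inv_smul, h]
    group

/-! crossing numbers modulo two -/

/-- permutation attached to a generator -/
def crossPerm (f : X × Fin r → ZMod 2) (i : Fin r) : Equiv.Perm (X × ZMod 2) where
  toFun q := (FreeGroup.of i • q.1, q.2 + f (q.1, i))
  invFun q := ((FreeGroup.of i)⁻¹ • q.1, q.2 - f ((FreeGroup.of i)⁻¹ • q.1, i))
  left_inv q := by simp
  right_inv q := by simp

/-- the action on the double cover -/
def Psi (f : X × Fin r → ZMod 2) : FreeGroup (Fin r) →* Equiv.Perm (X × ZMod 2) :=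
  FreeGroup.lift (crossPerm f)

/-- crossing number -/
def kap (f : X × Fin r → ZMod 2) (w : FreeGroup (Fin r)) (x : X) : ZMod 2 := (Psi f w (x, 0)).2

theorem Psi_of (f : X × Fin r → ZMod 2) (i : Fin r) (x : X) (v : ZMod 2) :
    Psi f (FreeGroup.of i) (x, v) = (FreeGroup.of i • x, v + f (x, i)) := by
  unfold Psi
  rw [FreeGroup.lift_apply_of]
  rfl

theorem Psi_of_inv (f : X × Fin r → ZMod 2) (i : Fin r) (x : X) (v : ZMod 2) :
    Psi f (FreeGroup.of i)⁻¹ (x, v) =
      ((FreeGroup.of i)⁻¹ • x, v - f ((FreeGroup.of i)⁻¹ • x, i)) := by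
  unfold Psi
  rw [_root_.map_inv, FreeGroup.lift_apply_of]
  rfl

theorem Psi_apply (f : X × Fin r → ZMod 2) (w : FreeGroup (Fin r)) (x : X) (v : ZMod 2) :
    Psi f w (x, v) = (w • x, v + kap f w x) := by
  have h : ∀ x, ∃ k, ∀ v, Psi f w (x, v) = (w • x, v + k) := by
    induction w using FreeGroup.induction_on with
    | C1 =>
      intro x
      refine ⟨0, fun v => ?_⟩
      rw [_root_.map_one, one_smul, add_zero]
      rfl
    | of i =>
      intro x
      exact ⟨f (x, i), fun v => Psi_of f i x v⟩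
    | inv_of i _ =>
      intro x
      exact ⟨-f ((FreeGroup.of i)⁻¹ • x, i), fun v => by rw [Psi_of_inv, sub_eq_add_neg]⟩
    | mul w1 w2 h1 h2 =>
      intro x
      obtain ⟨k2, hk2⟩ := h2 x
      obtain ⟨k1, hk1⟩ := h1 (w2 • x)
      refine ⟨k2 + k1, fun v => ?_⟩
      rw [_root_.map_mul, Equiv.Perm.mul_apply, hk2, hk1, mul_smul, add_assoc]
  obtain ⟨k, hk⟩ := h x
  have h2 : kap f w x = k := by
    unfold kap
    rw [hk, zero_add]
  rw [h2, hk]

theorem kap_one (f : X × Fin r → ZMod 2) (x : X) : kap f 1 x = 0 := by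
  unfold kap
  rw [_root_.map_one]
  rfl

theorem kap_mul (f : X × Fin r → ZMod 2) (w w' : FreeGroup (Fin r)) (x : X) :
    kap f (w * w') x = kap f w' x + kap f w (w' • x) := by
  have h : (Psi f (w * w') (x, 0)).2 = kap f w' x + kap f w (w' • x) := by
    rw [_root_.map_mul, Equiv.Perm.mul_apply, Psi_apply f w' x 0, Psi_apply, zero_add]
  exact h

theorem kap_of (f : X × Fin r → ZMod 2) (i : Fin r) (x : X) :
    kap f (FreeGroup.of i) x = f (x, i) := by
  unfold kap
  rw [Psi_of, zero_add]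

theorem kap_of_inv (f : X × Fin r → ZMod 2) (i : Fin r) (x : X) :
    kap f (FreeGroup.of i)⁻¹ x = -f ((FreeGroup.of i)⁻¹ • x, i) := by
  unfold kap
  rw [Psi_of_inv, zero_sub]

theorem kap_inv (f : X × Fin r → ZMod 2) (w : FreeGroup (Fin r)) (x : X) :
    kap f w⁻¹ (w • x) = -kap f w x := by
  have h := kap_mul f w⁻¹ w x
  rw [inv_mul_cancel, kap_one] at h
  exact eq_neg_of_add_eq_zero_right h.symm

open Classical in
/-- indicator of an edge -/
noncomputable def ind (e e' : X × Fin r) : ZMod 2 := if e' = e then 1 else 0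

theorem kap_sec {p : X} {s : X → FreeGroup (Fin r)} (hs : IsSec p s) (e : X × Fin r)
    (he : edge s e ≠ 1) (x : X) : kap (ind e) (s x) p = 0 := by
  apply hs.induct (fun x => kap (ind e) (s x) p = 0)
  · rw [hs.base, kap_one]
  · rintro x _ ⟨i, b⟩ _ h2 h3
    have h4 := tree_edge (p := p) i b x h2
    have h5 : s ((FreeGroup.mk [(i, b)])⁻¹ • x) • p = (FreeGroup.mk [(i, b)])⁻¹ • x := hs.smul _
    rw [h2, kap_mul, h3, zero_add, h5]
    cases b
    · rw [mk_false, kap_of_inv, inv_inv, inv_smul_smul]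
      simp only [Bool.false_eq_true, if_false] at h4
      unfold ind
      rw [if_neg, neg_zero]
      rintro rfl
      exact he h4
    · rw [mk_true, kap_of]
      simp only [if_true] at h4
      rw [mk_true] at h4
      unfold ind
      rw [if_neg]
      rintro rfl
      exact he h4

theorem kap_edge {p : X} {s : X → FreeGroup (Fin r)} (hs : IsSec p s) (e : X × Fin r)
    (he : edge s e ≠ 1) (e' : X × Fin r) : kap (ind e) (edge s e') p = ind e e' := by
  unfold edge
  rw [mul_assoc, kap_mul, kap_mul, kap_sec hs e he, zero_add, kap_of, mul_smul, hs.smul]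
  have h1 : kap (ind e) (s (FreeGroup.of e'.2 • e'.1))⁻¹ (FreeGroup.of e'.2 • e'.1) = 0 := by
    have h2 := kap_inv (ind e) (s (FreeGroup.of e'.2 • e'.1)) p
    rw [hs.smul, kap_sec hs e he, neg_zero] at h2
    exact h2
  rw [h1, add_zero]

theorem no_three {p : X} {s : X → FreeGroup (Fin r)} (hs : IsSec p s)
    {Δ : Subgroup (FreeGroup (Fin r))} (hΔ : ∀ w, w • p = p ↔ w ∈ Δ)
    (hgen : ∃ x y : FreeGroup (Fin r), Δ = Subgroup.closure {x, y})
    (e : Fin 3 → X × Fin r) (hinj : Function.Injective e) (he : ∀ j, edge s (e j) ≠ 1) : False := by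
  obtain ⟨x, y, hxy⟩ := hgen
  have key : ∀ a b : Fin 3 → ZMod 2, ∃ c : Fin 3 → ZMod 2, c ≠ 0 ∧
      c 0 * a 0 + c 1 * a 1 + c 2 * a 2 = 0 ∧ c 0 * b 0 + c 1 * b 1 + c 2 * b 2 = 0 := by
    decide
  obtain ⟨c, hc, hc1, hc2⟩ := key (fun j => kap (ind (e j)) x p) (fun j => kap (ind (e j)) y p)
  have hall : ∀ w ∈ Δ, c 0 * kap (ind (e 0)) w p + c 1 * kap (ind (e 1)) w p +
      c 2 * kap (ind (e 2)) w p = 0 := by
    intro w hw
    rw [hxy] at hw
    have h2 : w • p = p ∧ c 0 * kap (ind (e 0)) w p + c 1 * kap (ind (e 1)) w p +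
        c 2 * kap (ind (e 2)) w p = 0 := by
      induction hw using Subgroup.closure_induction with
      | mem z hz =>
        refine ⟨(hΔ z).2 (by rw [hxy]; exact Subgroup.subset_closure hz), ?_⟩
        rcases hz with rfl | hz
        · exact hc1
        · rw [Set.mem_singleton_iff] at hz
          rw [hz]; exact hc2
      | one =>
        refine ⟨one_smul _ _, ?_⟩
        rw [kap_one, kap_one, kap_one]; ring
      | mul z z' _ _ h3 h4 =>
        refine ⟨by rw [mul_smul, h4.1, h3.1], ?_⟩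
        rw [kap_mul, kap_mul, kap_mul, h4.1]
        linear_combination h3.2 + h4.2
      | inv z _ h3 =>
        have h4 : z⁻¹ • p = p := by
          rw [inv_smul_eq_iff]; exact h3.1.symm
        refine ⟨h4, ?_⟩
        have h5 : ∀ f : X × Fin r → ZMod 2, kap f z⁻¹ p = -kap f z p := by
          intro f
          have := kap_inv f z p
          rwa [h3.1] at this
        rw [h5, h5, h5]
        linear_combination (-1) * h3.2
    exact h2.2
  have hed : ∀ j, edge s (e j) ∈ Δ := by
    intro j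
    rw [← hΔ]
    unfold edge
    rw [mul_smul, mul_smul, hs.smul]
    have := hs.smul (FreeGroup.of (e j).2 • (e j).1)
    rw [inv_smul_eq_iff]
    exact this.symm
  have hz : ∀ j, c j = 0 := by
    intro j
    have h3 := hall _ (hed j)
    rw [kap_edge hs _ (he 0), kap_edge hs _ (he 1), kap_edge hs _ (he 2)] at h3
    unfold ind at h3
    fin_cases j
    · have n1 : ¬ e 0 = e 1 := fun h => absurd (hinj h) (by decide)
      have n2 : ¬ e 0 = e 2 := fun h => absurd (hinj h) (by decide)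
      simpa [n1, n2] using h3
    · have n1 : ¬ e 1 = e 0 := fun h => absurd (hinj h) (by decide)
      have n2 : ¬ e 1 = e 2 := fun h => absurd (hinj h) (by decide)
      simpa [n1, n2] using h3
    · have n1 : ¬ e 2 = e 0 := fun h => absurd (hinj h) (by decide)
      have n2 : ¬ e 2 = e 1 := fun h => absurd (hinj h) (by decide)
      simpa [n1, n2] using h3
  exact hc (funext hz)

/-- path decomposition -/
theorem path_mem {p : X} {s : X → FreeGroup (Fin r)} (hs : IsSec p s)
    (H : Subgroup (FreeGroup (Fin r))) (E : X → Prop)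
    (hE : ∀ e : X × Fin r, E e.1 → E (FreeGroup.of e.2 • e.1) → edge s e ∈ H)
    (L : List (Fin r × Bool)) (h0 : E p)
    (hL : ∀ L1 L2 : List (Fin r × Bool), L1 ++ L2 = L → E (FreeGroup.mk L2 • p)) :
    (s (FreeGroup.mk L • p))⁻¹ * FreeGroup.mk L ∈ H := by
  induction L with
  | nil =>
    rw [← FreeGroup.one_eq_mk, one_smul, hs.base]
    simp
  | cons y L ih =>
    have ih' := ih (fun L1 L2 h => hL (y :: L1) L2 (by rw [List.cons_append, h]))
    have e1 : FreeGroup.mk (y :: L) = FreeGroup.mk [y] * FreeGroup.mk L := by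
      rw [FreeGroup.mul_mk]; rfl
    have a1 : E (FreeGroup.mk L • p) := hL [y] L rfl
    have a2 : E (FreeGroup.mk (y :: L) • p) := hL [] (y :: L) rfl
    obtain ⟨x, hx⟩ : ∃ x, x = FreeGroup.mk L • p := ⟨_, rfl⟩
    rw [e1, mul_smul, ← hx] at a2
    rw [← hx] at a1
    rw [e1, mul_smul, ← hx]
    rw [← hx] at ih'
    have e2 : (s (FreeGroup.mk [y] • x))⁻¹ * (FreeGroup.mk [y] * FreeGroup.mk L) =
        ((s (FreeGroup.mk [y] • x))⁻¹ * FreeGroup.mk [y] * s x) * ((s x)⁻¹ * FreeGroup.mk L) := by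
      group
    rw [e2]
    refine H.mul_mem ?_ ih'
    obtain ⟨i, b⟩ := y
    cases b
    · rw [mk_false] at a2 ⊢
      have h1 := hE ((FreeGroup.of i)⁻¹ • x, i) a2 (by simpa using a1)
      have h2 := H.inv_mem h1
      unfold edge at h2
      simp only [smul_inv_smul] at h2
      have e3 : ((s x)⁻¹ * FreeGroup.of i * s ((FreeGroup.of i)⁻¹ • x))⁻¹ =
        (s ((FreeGroup.of i)⁻¹ • x))⁻¹ * (FreeGroup.of i)⁻¹ * s x := by group
      rw [e3] at h2
      exact h2
    · rw [mk_true] at a2 ⊢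
      exact hE (x, i) a1 a2

theorem star_abs (p : X) (htr : ∀ x, ∃ w : FreeGroup (Fin r), w • p = x) (k : ℕ)
    (Δ : Subgroup (FreeGroup (Fin r))) (hΔ : ∀ w, w • p = p ↔ w ∈ Δ)
    (hgen : ∃ x y : FreeGroup (Fin r), Δ = Subgroup.closure {x, y})
    (g₁ g₂ : FreeGroup (Fin r)) (h₁ : g₁ ∈ Δ) (h₂ : g₂ ∈ Δ)
    (hn₁ : g₁.norm ≤ 2 * k + 1) (hn₂ : g₂.norm ≤ 2 * k + 1) (hne : g₁ * g₂ ≠ g₂ * g₁) :
    Subgroup.closure {w : FreeGroup (Fin r) | w ∈ Δ ∧ w.norm ≤ 2 * k + 1} = Δ := by
  obtain ⟨s, hs0, hs1⟩ := exists_sec p htr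
  have hs : IsSec p s := ⟨hs0, hs1⟩
  have hed : ∀ e, edge s e ∈ Δ := by
    intro e
    rw [← hΔ]
    unfold edge
    rw [mul_smul, mul_smul, hs.smul]
    have := hs.smul (FreeGroup.of e.2 • e.1)
    rw [inv_smul_eq_iff]
    exact this.symm
  -- short edges
  obtain ⟨S, hS⟩ : ∃ S : Set (FreeGroup (Fin r)), S = {w | ∃ e : X × Fin r,
    lev (r := r) p e.1 ≤ k ∧ lev (r := r) p (FreeGroup.of e.2 • e.1) ≤ k ∧ edge s e = w} := ⟨_, rfl⟩
  have hSsub : S ⊆ {w : FreeGroup (Fin r) | w ∈ Δ ∧ w.norm ≤ 2 * k + 1} := by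
    rw [hS]
    rintro w ⟨e, h3, h4, rfl⟩
    refine ⟨hed e, ?_⟩
    unfold edge
    refine (FreeGroup.norm_mul_le _ _).trans ?_
    have h5 := FreeGroup.norm_mul_le (s (FreeGroup.of e.2 • e.1))⁻¹ (FreeGroup.of e.2)
    rw [FreeGroup.norm_inv_eq, FreeGroup.norm_of] at h5
    have h6 := hs.norm_le (FreeGroup.of e.2 • e.1)
    have h7 := hs.norm_le e.1
    omega
  have hlev0 : lev (r := r) p p ≤ k := by
    have := lev_le (r := r) p 1
    rw [one_smul, FreeGroup.norm_one] at this
    omega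
  have hshort : ∀ w ∈ Δ, w.norm ≤ 2 * k + 1 → w ∈ Subgroup.closure S := by
    intro w hw hn
    have hwp : w • p = p := (hΔ w).2 hw
    have h3 := path_mem hs (Subgroup.closure S) (fun x => lev (r := r) p x ≤ k)
      (by
        intro e he1 he2
        apply Subgroup.subset_closure
        rw [hS]
        exact ⟨e, he1, he2, rfl⟩)
      w.toWord hlev0
      (by
        intro L1 L2 hL
        have hlen : L1.length + L2.length ≤ 2 * k + 1 := by
          have : w.norm = w.toWord.length := rfl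
          rw [this, ← hL, List.length_append] at hn
          exact hn
        have h4 : lev (r := r) p (FreeGroup.mk L2 • p) ≤ L2.length :=
          (lev_le p _).trans FreeGroup.norm_mk_le
        have h5 : lev (r := r) p (FreeGroup.mk L2 • p) ≤ L1.length := by
          have h6 : FreeGroup.mk L1 * FreeGroup.mk L2 = w := by
            rw [FreeGroup.mul_mk, hL, FreeGroup.mk_toWord]
          have h7 : FreeGroup.mk L2 • p = (FreeGroup.mk L1)⁻¹ • p := by
            rw [eq_inv_smul_iff, ← mul_smul, h6, hwp]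
          rw [h7]
          refine (lev_le p _).trans ?_
          rw [FreeGroup.norm_inv_eq]
          exact FreeGroup.norm_mk_le
        omega)
    rw [FreeGroup.mk_toWord, hwp, hs.base, inv_one, one_mul] at h3
    exact h3
  -- two different essential short edges
  have htwo : ∃ e₁ e₂ : X × Fin r, e₁ ≠ e₂ ∧ edge s e₁ ≠ 1 ∧ edge s e₂ ≠ 1 ∧
      edge s e₁ ∈ S ∧ edge s e₂ ∈ S := by
    by_contra hcon
    push Not at hcon
    apply hne
    have hz : ∃ z : FreeGroup (Fin r), ∀ w ∈ S, w ∈ Subgroup.zpowers z := by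
      by_cases hex : ∃ e, edge s e ≠ 1 ∧ edge s e ∈ S
      · obtain ⟨e, he1, he2⟩ := hex
        refine ⟨edge s e, ?_⟩
        intro w hw
        have hw' := hw
        rw [hS] at hw'
        obtain ⟨e', -, -, he'⟩ := hw'
        by_cases h1 : w = 1
        · rw [h1]; exact one_mem _
        · by_cases h5 : e = e'
          · rw [h5, he']; exact Subgroup.mem_zpowers w
          · exfalso
            refine hcon e e' h5 he1 (by rw [he']; exact h1) he2 (by rw [he']; exact hw)
      · push Not at hex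
        refine ⟨1, ?_⟩
        intro w hw
        have hw' := hw
        rw [hS] at hw'
        obtain ⟨e', -, -, he'⟩ := hw'
        by_cases h1 : w = 1
        · rw [h1]; exact one_mem _
        · exact absurd (by rw [he']; exact hw) (hex e' (by rw [he']; exact h1))
    obtain ⟨z, hz⟩ := hz
    have hcl : Subgroup.closure S ≤ Subgroup.zpowers z := by
      rw [Subgroup.closure_le]; exact hz
    obtain ⟨a, ha⟩ := Subgroup.mem_zpowers_iff.1 (hcl (hshort g₁ h₁ hn₁))
    obtain ⟨b, hb⟩ := Subgroup.mem_zpowers_iff.1 (hcl (hshort g₂ h₂ hn₂))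
    rw [← ha, ← hb, ← zpow_add, ← zpow_add, add_comm]
  obtain ⟨e₁, e₂, he12, hx1, hx2, hS1, hS2⟩ := htwo
  have hallS : ∀ e : X × Fin r, edge s e ∈ Subgroup.closure S := by
    intro e
    by_cases h3 : edge s e = 1
    · rw [h3]; exact one_mem _
    · by_cases h4 : e = e₁
      · rw [h4]; exact Subgroup.subset_closure hS1
      · by_cases h5 : e = e₂
        · rw [h5]; exact Subgroup.subset_closure hS2
        · exfalso
          apply no_three hs hΔ hgen ![e, e₁, e₂]
          · intro a b hab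
            fin_cases a <;> fin_cases b <;> simp_all
          · intro a
            fin_cases a
            · exact h3
            · exact hx1
            · exact hx2
  apply le_antisymm
  · rw [Subgroup.closure_le]
    intro w hw
    exact hw.1
  · refine le_trans ?_ (Subgroup.closure_mono hSsub)
    intro w hw
    have hwp : w • p = p := (hΔ w).2 hw
    have h3 := path_mem hs (Subgroup.closure S) (fun _ => True) (fun e _ _ => hallS e) w.toWord
      trivial (fun _ _ _ => trivial)
    rw [FreeGroup.mk_toWord, hwp, hs.base, inv_one, one_mul] at h3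
    exact h3

end star

/-- Star lemma: let `Δ` be a subgroup of the free group `F` generated by two elements. If the
intersection of `Δ` with the ball of radius `2k+1` is not commutative, it generates `Δ`. -/
theorem star_lemma (r k : ℕ) (Δ : Subgroup (FreeGroup (Fin r)))
    (hgen : ∃ x y : FreeGroup (Fin r), Δ = Subgroup.closure {x, y})
    (g₁ g₂ : FreeGroup (Fin r)) (h₁ : g₁ ∈ Δ) (h₂ : g₂ ∈ Δ)
    (hn₁ : g₁.norm ≤ 2 * k + 1) (hn₂ : g₂.norm ≤ 2 * k + 1) (hne : g₁ * g₂ ≠ g₂ * g₁) :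
    Subgroup.closure {w : FreeGroup (Fin r) | w ∈ Δ ∧ w.norm ≤ 2 * k + 1} = Δ := by
  apply star_abs (X := FreeGroup (Fin r) ⧸ Δ) ((1 : FreeGroup (Fin r)) : FreeGroup (Fin r) ⧸ Δ)
    ?_ k Δ ?_ hgen g₁ g₂ h₁ h₂ hn₁ hn₂ hne
  · intro x
    induction x using QuotientGroup.induction_on with
    | H w =>
      refine ⟨w, ?_⟩
      show ((w * 1 : FreeGroup (Fin r)) : FreeGroup (Fin r) ⧸ Δ) = w
      rw [mul_one]
  · intro w
    have h1 : w • ((1 : FreeGroup (Fin r)) : FreeGroup (Fin r) ⧸ Δ) =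
      ((w * 1 : FreeGroup (Fin r)) : FreeGroup (Fin r) ⧸ Δ) := rfl
    rw [h1, mul_one, eq_comm, QuotientGroup.eq, inv_one, one_mul]

end Pool.Agent.H815.HF.StarM
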