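import Pool.Agent.H815.HF.Term

set_option autoImplicit false

namespace Pool.Agent.H815.HF

/-- Local families of automorphisms. -/
def LocFam {r : ℕ} (φ : ∀ (Ω : Type) [LinearOrder Ω], (Fin r → Ω ≃o Ω) → (Ω ≃o Ω))
    (N : ℕ) : Prop :=
  ∀ (Ω : Type) [LinearOrder Ω] (a : Fin r → Ω ≃o Ω) (p : Ω)
    (Ω' : Type) [LinearOrder Ω'] (a' : Fin r → Ω' ≃o Ω') (p' : Ω'),
    Mon N a p a' p' →
      ∃ w : FG r, w.norm ≤ N ∧ φ Ω a p = wa a w p ∧ φ Ω' a' p' = wa a' w p'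

lemma Mon.shiftN {r N M : ℕ} {Ω Ω' : Type} [LinearOrder Ω] [LinearOrder Ω']
    {a : Fin r → Ω ≃o Ω} {p : Ω} {a' : Fin r → Ω' ≃o Ω'} {p' : Ω'}
    (h : Mon (N + M) a p a' p') {v : FG r} (hv : v.norm ≤ M) :
    Mon N a (wa a v p) a' (wa a' v p') := by
  intro w u hw hu hwu
  rw [← wa_mul, ← wa_mul] at hwu ⊢
  refine h _ _ ?_ ?_ hwu
  · exact (FreeGroup.norm_mul_le w v).trans (add_le_add hw hv)
  · exact (FreeGroup.norm_mul_le u v).trans (add_le_add hu hv)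

lemma LocFam.mono {r N M : ℕ} {φ : ∀ (Ω : Type) [LinearOrder Ω], (Fin r → Ω ≃o Ω) → (Ω ≃o Ω)}
    (h : LocFam φ N) (hNM : N ≤ M) : LocFam φ M := by
  intro Ω _ a p Ω' _ a' p' hm
  obtain ⟨w, h0, h1, h2⟩ := h Ω a p Ω' a' p' (hm.mono hNM)
  exact ⟨w, h0.trans hNM, h1, h2⟩

lemma locFam_mul {r N M : ℕ} {φ ψ χ : ∀ (Ω : Type) [LinearOrder Ω],
    (Fin r → Ω ≃o Ω) → (Ω ≃o Ω)}
    (hφ : LocFam φ N) (hψ : LocFam ψ M)
    (hχ : ∀ (Ω : Type) [LinearOrder Ω] (a : Fin r → Ω ≃o Ω) (p : Ω),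
      χ Ω a p = φ Ω a (ψ Ω a p)) : LocFam χ (N + M) := by
  intro Ω _ a p Ω' _ a' p' hm
  obtain ⟨v, h0, h1, h2⟩ := hψ Ω a p Ω' a' p' (hm.mono (Nat.le_add_left M N))
  obtain ⟨w, h3, h4, h5⟩ := hφ Ω a (wa a v p) Ω' a' (wa a' v p') (hm.shiftN h0)
  refine ⟨w * v, (FreeGroup.norm_mul_le w v).trans (add_le_add h3 h0), ?_, ?_⟩
  · rw [wa_mul, ← h4, ← h1]; exact hχ Ω a p
  · rw [wa_mul, ← h5, ← h2]; exact hχ Ω' a' p'

lemma locFam_max {r N M : ℕ} {φ ψ χ : ∀ (Ω : Type) [LinearOrder Ω],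
    (Fin r → Ω ≃o Ω) → (Ω ≃o Ω)}
    (hφ : LocFam φ N) (hψ : LocFam ψ M)
    (hχ : ∀ (Ω : Type) [LinearOrder Ω] (a : Fin r → Ω ≃o Ω) (p : Ω),
      χ Ω a p = max (φ Ω a p) (ψ Ω a p)) : LocFam χ (max N M) := by
  intro Ω _ a p Ω' _ a' p' hm
  obtain ⟨v, h0, h1, h2⟩ := hφ Ω a p Ω' a' p' (hm.mono (le_max_left N M))
  obtain ⟨w, h3, h4, h5⟩ := hψ Ω a p Ω' a' p' (hm.mono (le_max_right N M))
  have h0' := h0.trans (le_max_left N M)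
  have h3' := h3.trans (le_max_right N M)
  rcases le_total (wa a v p) (wa a w p) with h | h
  · refine ⟨w, h3', ?_, ?_⟩
    · rw [hχ Ω a p, h1, h4, max_eq_right h]
    · rw [hχ Ω' a' p', h2, h5, max_eq_right (hm _ _ h0' h3' h)]
  · refine ⟨v, h0', ?_, ?_⟩
    · rw [hχ Ω a p, h1, h4, max_eq_left h]
    · rw [hχ Ω' a' p', h2, h5, max_eq_left (hm _ _ h3' h0' h)]

lemma locFam_min {r N M : ℕ} {φ ψ χ : ∀ (Ω : Type) [LinearOrder Ω],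
    (Fin r → Ω ≃o Ω) → (Ω ≃o Ω)}
    (hφ : LocFam φ N) (hψ : LocFam ψ M)
    (hχ : ∀ (Ω : Type) [LinearOrder Ω] (a : Fin r → Ω ≃o Ω) (p : Ω),
      χ Ω a p = min (φ Ω a p) (ψ Ω a p)) : LocFam χ (max N M) := by
  intro Ω _ a p Ω' _ a' p' hm
  obtain ⟨v, h0, h1, h2⟩ := hφ Ω a p Ω' a' p' (hm.mono (le_max_left N M))
  obtain ⟨w, h3, h4, h5⟩ := hψ Ω a p Ω' a' p' (hm.mono (le_max_right N M))
  have h0' := h0.trans (le_max_left N M)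
  have h3' := h3.trans (le_max_right N M)
  rcases le_total (wa a v p) (wa a w p) with h | h
  · refine ⟨v, h0', ?_, ?_⟩
    · rw [hχ Ω a p, h1, h4, min_eq_left h]
    · rw [hχ Ω' a' p', h2, h5, min_eq_left (hm _ _ h0' h3' h)]
  · refine ⟨w, h3', ?_, ?_⟩
    · rw [hχ Ω a p, h1, h4, min_eq_right h]
    · rw [hχ Ω' a' p', h2, h5, min_eq_right (hm _ _ h3' h0' h)]

/-- A term and its inverse are local. -/
lemma locFam_term {r : ℕ} (t : Tm r) :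
    ∃ N : ℕ, LocFam (fun (Ω : Type) [LinearOrder Ω] (a : Fin r → Ω ≃o Ω) => t.act a) N ∧
      LocFam (fun (Ω : Type) [LinearOrder Ω] (a : Fin r → Ω ≃o Ω) => (t.act a)⁻¹) N := by
  induction t with
  | var i =>
    refine ⟨1, ?_, ?_⟩
    · intro Ω _ a p Ω' _ a' p' hm
      exact ⟨FreeGroup.of i, norm_of_le_one i, (wa_of a i p).symm, (wa_of a' i p').symm⟩
    · intro Ω _ a p Ω' _ a' p' hm
      refine ⟨(FreeGroup.of i)⁻¹, ?_, ?_, ?_⟩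
      · rw [FreeGroup.norm_inv_eq]; exact norm_of_le_one i
      · rw [wa_of_inv]; rfl
      · rw [wa_of_inv]; rfl
  | one =>
    refine ⟨0, ?_, ?_⟩
    · intro Ω _ a p Ω' _ a' p' hm
      refine ⟨1, by simp, ?_, ?_⟩
      · rw [wa_one]; rfl
      · rw [wa_one]; rfl
    · intro Ω _ a p Ω' _ a' p' hm
      refine ⟨1, by simp, ?_, ?_⟩
      · rw [wa_one]; rfl
      · rw [wa_one]; rfl
  | mul x y hx hy =>
    obtain ⟨N, h1, h2⟩ := hx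
    obtain ⟨M, h3, h4⟩ := hy
    refine ⟨N + M, ?_, ?_⟩
    · exact locFam_mul h1 h3 (fun Ω _ a p => rfl)
    · rw [add_comm]
      exact locFam_mul h4 h2 (fun Ω _ a p => rfl)
  | inv x hx =>
    obtain ⟨N, h1, h2⟩ := hx
    refine ⟨N, h2, ?_⟩
    exact h1
  | sup x y hx hy =>
    obtain ⟨N, h1, h2⟩ := hx
    obtain ⟨M, h3, h4⟩ := hy
    refine ⟨max N M, ?_, ?_⟩
    · exact locFam_max h1 h3 (fun Ω _ a p => rfl)
    · exact locFam_min h2 h4 (fun Ω _ a p => rfl)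
  | inf x y hx hy =>
    obtain ⟨N, h1, h2⟩ := hx
    obtain ⟨M, h3, h4⟩ := hy
    refine ⟨max N M, ?_, ?_⟩
    · exact locFam_min h1 h3 (fun Ω _ a p => rfl)
    · exact locFam_max h2 h4 (fun Ω _ a p => rfl)

/-- Terms define local operators. -/
theorem term_op {r s : ℕ} (τ : Fin s → Tm r) :
    ∃ O : Op r s, ∀ (Ω : Type) [LinearOrder Ω] (a : Fin r → Ω ≃o Ω) (i : Fin s),
      O.f Ω a i = (τ i).act a := by
  choose N hN using fun i => (locFam_term (τ i))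
  refine ⟨⟨fun Ω _ a i => (τ i).act a, Finset.univ.sup N, ?_⟩, ?_⟩
  · intro Ω _ a p Ω' _ a' p' hm i
    exact ((hN i).1.mono (Finset.le_sup (Finset.mem_univ i))) Ω a p Ω' a' p' hm
  · intro Ω _ a i
    rfl

end Pool.Agent.H815.HF
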