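import Pool.Agent.H815.HF.Exit
import Pool.Agent.H815.HF.Descent
import Pool.Agent.H815.HF.Localise
import Pool.Agent.H815.HF.Star
import Pool.Agent.H815.HF.Cyclic
import Pool.Agent.H815.HF.TermOp
import Pool.Agent.H815.HF.Comp
import Pool.Agent.H815.HF.Reduction
import Pool.Agent.H815.HF.Holland

set_option autoImplicit false

namespace Pool.Agent.H815.HF

/-- For every local pair of rank at least two, `Y ∘ T = id`. -/
theorem lp_main {r : ℕ} (P : LP r) (hr : 2 ≤ r) (Ω : Type) [LinearOrder Ω] (a : Fin r → Ω ≃o Ω) :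
    P.E.f Ω a = a := by
  by_contra h
  obtain ⟨q, hq, -⟩ := exit_thm P hr ⟨Ω, inferInstance, a, h⟩
  exact descent P (fun P' hbad => exit_thm P' le_rfl hbad) (fun P' w hw => sign_lemma P' w hw)
    (fun q hq => localise P q hq) (fun H hH => CyclicM.cyclic_of_comm H hH)
    (fun k Δ hΔ g₁ g₂ h1 h2 h3 h4 h5 => StarM.star_lemma r k Δ hΔ g₁ g₂ h1 h2 h3 h4 h5) q hq

theorem terms_main (n : ℕ) (hn : 2 ≤ n) (Y T : Fin n → Tm n)
    (h : ∀ (Ω : Type) [LinearOrder Ω] (a : Fin n → Ω ≃o Ω) (i : Fin n),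
        (T i).act (fun j => (Y j).act a) = a i)
    (Ω : Type) [LinearOrder Ω] (a : Fin n → Ω ≃o Ω) (i : Fin n) :
    (Y i).act (fun j => (T j).act a) = a i := by
  obtain ⟨OY, hY⟩ := term_op Y
  obtain ⟨OT, hT⟩ := term_op T
  obtain ⟨OE, hE⟩ := Op.comp OT OY
  have eY : ∀ (Ω : Type) [LinearOrder Ω] (a : Fin n → Ω ≃o Ω),
      OY.f Ω a = fun j => (Y j).act a := fun Ω _ a => funext (hY Ω a)
  have eT : ∀ (Ω : Type) [LinearOrder Ω] (a : Fin n → Ω ≃o Ω),
      OT.f Ω a = fun j => (T j).act a := fun Ω _ a => funext (hT Ω a)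
  let P : LP n :=
    { Y := OY
      T := OT
      E := OE
      TY := by
        intro Ω _ a
        funext i
        rw [hT, eY]
        exact h Ω a i
      hE := hE }
  have h1 := congrFun (lp_main P hn Ω a) i
  have h2 : P.E.f Ω a = fun i => (Y i).act (fun j => (T j).act a) := by
    show OE.f Ω a = _
    rw [hE, eT, eY]
  rw [h2] at h1
  exact h1

end Pool.Agent.H815.HF
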