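import Pool.Agent.H815.HF.Basic

set_option autoImplicit false

open scoped BoundedContinuousFunction

namespace Pool.Agent.H815.HF

/-- The constraints on displacement functions: slopes in `[-c, L]`, and `ε`-Lipschitz outside
`[-R, R]`. -/
def Cons (c L R ε : ℝ) (u : ℝ → ℝ) : Prop :=
  (∀ x y, x ≤ y → -(c * (y - x)) ≤ u y - u x ∧ u y - u x ≤ L * (y - x)) ∧
  (∀ x y, R ≤ x → R ≤ y → |u y - u x| ≤ ε * |y - x|) ∧
  (∀ x y, x ≤ -R → y ≤ -R → |u y - u x| ≤ ε * |y - x|)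

/-- The complete metric space of admissible displacement tuples near `u₀`. -/
def XSet {r : ℕ} (u₀ : Fin r → ℝ → ℝ) (c L R ε η : ℝ) : Set (Fin r → (ℝ →ᵇ ℝ)) :=
  {u | ∀ i, Cons c L R ε (u i) ∧ ∀ x, |u i x - u₀ i x| ≤ η}

/-- The set of admissible tuples for which no parameter in `Θ` solves all the edge equations. -/
def Avoid {r : ℕ} (u₀ : Fin r → ℝ → ℝ) (c L R ε η : ℝ) {V m : ℕ}
    (edges : Finset (Fin V × Fin r)) (tgt : Fin V × Fin r → Fin V)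
    (ι : (Fin m → ℝ) → ℝ × (Fin V → ℝ)) (Θ : Set (Fin m → ℝ)) :
    Set (XSet u₀ c L R ε η) :=
  {u | ∀ θ ∈ Θ, ∃ e ∈ edges,
    (ι θ).2 (tgt e) ≠ (ι θ).2 e.1 + (ι θ).1 * (u : Fin r → (ℝ →ᵇ ℝ)) e.2 ((ι θ).2 e.1)}

end Pool.Agent.H815.HF
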