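import Pool.Agent.H815.HF.Gen

set_option autoImplicit false

open scoped BoundedContinuousFunction

namespace Pool.Agent.H815.HF

theorem edges_of_ec {r V : ℕ} (f : Fin r → ℝ → ℝ) (D : Finset ℝ) (z : Fin V → ℝ)
    (hz : Function.Injective z) (hzD : ∀ x, x ∈ D ↔ ∃ v, z v = x) (k : ℕ) (hk : k ≤ ec f D) :
    ∃ (edges : Finset (Fin V × Fin r)) (tgt : Fin V × Fin r → Fin V), edges.card = k ∧
      ∀ e ∈ edges, z (tgt e) = f e.2 (z e.1) := by
  classical
  set S : Finset (Fin V × Fin r) := Finset.univ.filter (fun e => f e.2 (z e.1) ∈ D) with hS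
  have hcard : ec f D = S.card := by
    unfold ec
    symm
    apply Finset.card_bij (fun (e : Fin V × Fin r) _ => ((z e.1, e.2) : ℝ × Fin r))
    · intro e he
      rw [Finset.mem_filter] at he ⊢
      refine ⟨?_, he.2⟩
      rw [Finset.mem_product]
      exact ⟨(hzD _).2 ⟨_, rfl⟩, Finset.mem_univ _⟩
    · intro e he e' he' h
      rw [Prod.mk.injEq] at h
      exact Prod.ext (hz h.1) h.2
    · rintro ⟨x, i⟩ hx
      rw [Finset.mem_filter, Finset.mem_product] at hx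
      obtain ⟨v, rfl⟩ := (hzD x).1 hx.1.1
      exact ⟨(v, i), Finset.mem_filter.2 ⟨Finset.mem_univ _, hx.2⟩, rfl⟩
  rw [hcard] at hk
  obtain ⟨edges, hsub, hc⟩ := Finset.exists_subset_card_eq hk
  refine ⟨edges, fun e => if h : ∃ v, z v = f e.2 (z e.1) then h.choose else e.1, hc, ?_⟩
  intro e he
  have h1 := (Finset.mem_filter.1 (hsub he)).2
  have h2 := (hzD _).1 h1
  simp only [dif_pos h2]
  exact h2.choose_spec

theorem exists_n {V : ℕ} (z : Fin V → ℝ) (hz : Function.Injective z) (t : ℝ) (ht : 0 < t) :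
    ∃ n : ℕ, 1 / ((n : ℝ) + 1) ≤ t ∧ (∀ v, |z v| ≤ (n : ℝ) + 1) ∧
      ∀ v w, v ≠ w → 1 / ((n : ℝ) + 1) ≤ |z v - z w| := by
  have h0 : Filter.Tendsto (fun n : ℕ => 1 / ((n : ℝ) + 1)) Filter.atTop (nhds 0) :=
    tendsto_one_div_add_atTop_nhds_zero_nat
  have h1 : ∀ δ : ℝ, 0 < δ → ∀ᶠ n : ℕ in Filter.atTop, 1 / ((n : ℝ) + 1) ≤ δ :=
    fun δ hδ => (h0.eventually (gt_mem_nhds hδ)).mono fun n hn => le_of_lt hn
  have h2 : ∀ b : ℝ, ∀ᶠ n : ℕ in Filter.atTop, b ≤ (n : ℝ) + 1 := by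
    intro b
    filter_upwards [Filter.eventually_ge_atTop ⌈b⌉₊] with n hn
    have h3 := Nat.le_ceil b
    have h4 : (⌈b⌉₊ : ℝ) ≤ n := by exact_mod_cast hn
    linarith
  have h3 : ∀ᶠ n : ℕ in Filter.atTop, ∀ v, |z v| ≤ (n : ℝ) + 1 :=
    Filter.eventually_all.2 fun v => h2 _
  have h4 : ∀ᶠ n : ℕ in Filter.atTop, ∀ v w, v ≠ w → 1 / ((n : ℝ) + 1) ≤ |z v - z w| := by
    refine Filter.eventually_all.2 fun v => Filter.eventually_all.2 fun w => ?_
    by_cases hvw : v = w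
    · exact Filter.Eventually.of_forall fun n h => absurd hvw h
    · filter_upwards [h1 (|z v - z w|) (abs_pos.2 (sub_ne_zero.2 fun h => hvw (hz h)))] with n hn _
      exact hn
  obtain ⟨n, ⟨hn1, hn2⟩, hn3⟩ := (((h1 t ht).and h3).and h4).exists
  exact ⟨n, hn1, hn2, hn3⟩

/-- the compact parameter set -/
def ThS {V m : ℕ} (ι : (Fin m → ℝ) → ℝ × (Fin V → ℝ)) (n : ℕ) : Set (Fin m → ℝ) :=
  {θ | (∀ k, |θ k| ≤ (n : ℝ) + 1) ∧ 1 / ((n : ℝ) + 1) ≤ (ι θ).1 ∧
    ∀ v w, v ≠ w → 1 / ((n : ℝ) + 1) ≤ |(ι θ).2 v - (ι θ).2 w|}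

theorem ThS_compact {V m : ℕ} (ι : (Fin m → ℝ) → ℝ × (Fin V → ℝ)) (hι : Continuous ι) (n : ℕ) :
    IsCompact (ThS ι n) := by
  have hsub : ThS ι n ⊆ Metric.closedBall (0 : Fin m → ℝ) ((n : ℝ) + 1) := by
    rintro θ ⟨h1, -, -⟩
    rw [mem_closedBall_zero_iff, pi_norm_le_iff_of_nonneg (by positivity)]
    intro k
    exact h1 k
  refine (isCompact_closedBall (0 : Fin m → ℝ) ((n : ℝ) + 1)).of_isClosed_subset ?_ hsub
  have h1 : IsClosed {θ : Fin m → ℝ | ∀ k, |θ k| ≤ (n : ℝ) + 1} := by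
    simp only [Set.setOf_forall]
    refine isClosed_iInter fun k => isClosed_le ?_ continuous_const
    exact (continuous_apply k).abs
  have h2 : IsClosed {θ : Fin m → ℝ | 1 / ((n : ℝ) + 1) ≤ (ι θ).1} :=
    isClosed_le continuous_const (continuous_fst.comp hι)
  have h3 : IsClosed {θ : Fin m → ℝ | ∀ v w, v ≠ w → 1 / ((n : ℝ) + 1) ≤ |(ι θ).2 v - (ι θ).2 w|} := by
    simp only [Set.setOf_forall]
    refine isClosed_iInter fun v => isClosed_iInter fun w => isClosed_iInter fun _ =>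
      isClosed_le continuous_const ?_
    have h4 : Continuous (fun θ => (ι θ).2) := continuous_snd.comp hι
    exact (((continuous_apply v).comp h4).sub ((continuous_apply w).comp h4)).abs
  exact h1.inter (h2.inter h3)

theorem lip_of {V m : ℕ} (ι : (Fin m → ℝ) → ℝ × (Fin V → ℝ))
    (h1 : ∀ θ θ', |(ι θ).1 - (ι θ').1| ≤ dist θ θ')
    (h2 : ∀ θ θ' v, |(ι θ).2 v - (ι θ').2 v| ≤ dist θ θ') : LipschitzWith 1 ι := by
  apply LipschitzWith.of_dist_le_mul
  intro θ θ'
  rw [NNReal.coe_one, one_mul, Prod.dist_eq]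
  apply max_le
  · rw [Real.dist_eq]; exact h1 θ θ'
  · rw [dist_pi_le_iff dist_nonneg]
    intro v
    rw [Real.dist_eq]; exact h2 θ θ' v

theorem abs_le_dist {m : ℕ} (θ θ' : Fin m → ℝ) (k : Fin m) : |θ k - θ' k| ≤ dist θ θ' := by
  rw [← Real.dist_eq]; exact dist_le_pi_dist θ θ' k

theorem cons_cont {c₀ L₀ R ε₀ : ℝ} {u : ℝ → ℝ} (h : Cons c₀ L₀ R ε₀ u) : Continuous u := by
  have hl : LipschitzWith (Real.toNNReal (|c₀| + |L₀|)) u := by
    apply LipschitzWith.of_dist_le_mul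
    have key : ∀ x y, x ≤ y → dist (u x) (u y) ≤ (|c₀| + |L₀|) * dist x y := by
      intro x y hxy
      obtain ⟨h1, h2⟩ := h.1 x y hxy
      rw [Real.dist_eq, Real.dist_eq, abs_sub_comm, abs_sub_comm x y, abs_of_nonneg (sub_nonneg.2 hxy),
        abs_le]
      have h3 : 0 ≤ y - x := sub_nonneg.2 hxy
      have h4 : c₀ * (y - x) ≤ |c₀| * (y - x) := mul_le_mul_of_nonneg_right (le_abs_self _) h3
      have h5 : L₀ * (y - x) ≤ |L₀| * (y - x) := mul_le_mul_of_nonneg_right (le_abs_self _) h3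
      have h6 : 0 ≤ |c₀| * (y - x) := by positivity
      have h7 : 0 ≤ |L₀| * (y - x) := by positivity
      constructor <;> linarith
    intro x y
    rw [Real.coe_toNNReal _ (by positivity)]
    rcases le_total x y with hxy | hxy
    · exact key x y hxy
    · rw [dist_comm, dist_comm x y]
      exact key y x hxy
  exact hl.continuous

theorem cons_mono {c₀ L₀ R ε₀ c L ε : ℝ} {u : ℝ → ℝ} (hc : c₀ < c) (hL : L₀ < L) (hε : ε₀ < ε)
    (h : Cons c₀ L₀ R ε₀ u) : Cons c L R ε u := by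
  refine ⟨?_, ?_, ?_⟩
  · intro x y hxy
    obtain ⟨h1, h2⟩ := h.1 x y hxy
    have h3 : 0 ≤ y - x := sub_nonneg.2 hxy
    have h4 : c₀ * (y - x) ≤ c * (y - x) := mul_le_mul_of_nonneg_right hc.le h3
    have h5 : L₀ * (y - x) ≤ L * (y - x) := mul_le_mul_of_nonneg_right hL.le h3
    constructor <;> linarith
  · intro x y hx hy
    exact (h.2.1 x y hx hy).trans (mul_le_mul_of_nonneg_right hε.le (abs_nonneg _))
  · intro x y hx hy
    exact (h.2.2 x y hx hy).trans (mul_le_mul_of_nonneg_right hε.le (abs_nonneg _))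

theorem enum (D : Finset ℝ) : ∃ z : Fin D.card → ℝ, Function.Injective z ∧
    ∀ x, x ∈ D ↔ ∃ v, z v = x := by
  refine ⟨fun v => (D.equivFin.symm v : ℝ), ?_, ?_⟩
  · intro v w h
    exact D.equivFin.symm.injective (Subtype.ext h)
  · intro x
    constructor
    · intro hx
      exact ⟨D.equivFin ⟨x, hx⟩, by simp⟩
    · rintro ⟨v, rfl⟩
      exact (D.equivFin.symm v).2

/-- Existence of a generic displacement tuple near `u₀` (Baire category). -/
theorem generic {r : ℕ} (u₀ : Fin r → ℝ → ℝ) (M c₀ L₀ R ε₀ c L ε η : ℝ)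
    (hM : ∀ i x, |u₀ i x| ≤ M) (hc : c₀ < c) (hL : L₀ < L) (hε : ε₀ < ε) (hη : 0 < η)
    (hu₀ : ∀ i, Cons c₀ L₀ R ε₀ (u₀ i))
    (xset_closed : IsClosed (XSet u₀ c L R ε η))
    (avoid_open : ∀ (V m : ℕ) (edges : Finset (Fin V × Fin r)) (tgt : Fin V × Fin r → Fin V)
      (ι : (Fin m → ℝ) → ℝ × (Fin V → ℝ)), Continuous ι → ∀ (Θ : Set (Fin m → ℝ)),
      IsCompact Θ → IsOpen (Avoid u₀ c L R ε η edges tgt ι Θ))
    (avoid_dense : ∀ (V m : ℕ) (edges : Finset (Fin V × Fin r)) (tgt : Fin V × Fin r → Fin V)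
      (ι : (Fin m → ℝ) → ℝ × (Fin V → ℝ)) (K : NNReal), LipschitzWith K ι →
      ∀ (Θ : Set (Fin m → ℝ)), IsCompact Θ → ∀ (t₀ κ : ℝ), 0 < t₀ → 0 < κ →
      (∀ θ ∈ Θ, t₀ ≤ (ι θ).1) →
      (∀ θ ∈ Θ, ∀ v w, v ≠ w → κ ≤ |(ι θ).2 v - (ι θ).2 w|) → m < edges.card →
      Dense (Avoid u₀ c L R ε η edges tgt ι Θ)) :
    ∃ u : Fin r → ℝ → ℝ, (∀ i, Cons c L R ε (u i)) ∧ (∀ i x, |u i x - u₀ i x| ≤ η) ∧
      (∀ t : ℝ, 0 < t → t ≤ 1 → ∀ D : Finset ℝ, ec (fun i x => x + t * u i x) D ≤ D.card + 1) ∧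
      (∀ D : Finset ℝ, ec (fun i x => x + u i x) D ≤ D.card) ∧
      (∀ t z : ℚ, 0 < t → t ≤ 1 → ∀ D : Finset ℝ, (z : ℝ) ∈ D →
        ec (fun i x => x + (t : ℝ) * u i x) D + 1 ≤ D.card) := by
  classical
  -- nonempty
  have hne : Nonempty (XSet u₀ c L R ε η) := by
    refine ⟨⟨fun i => BoundedContinuousFunction.ofNormedAddCommGroup (u₀ i) (cons_cont (hu₀ i)) M
      (fun x => by rw [Real.norm_eq_abs]; exact hM i x), ?_⟩⟩
    intro i
    refine ⟨cons_mono hc hL hε (hu₀ i), ?_⟩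
    intro x
    simp only [BoundedContinuousFunction.coe_ofNormedAddCommGroup, sub_self, abs_zero]
    exact hη.le
  haveI : CompleteSpace (XSet u₀ c L R ε η) := xset_closed.completeSpace_coe
  have hres : ∀ (V m : ℕ) (edges : Finset (Fin V × Fin r)) (tgt : Fin V × Fin r → Fin V)
      (ι : (Fin m → ℝ) → ℝ × (Fin V → ℝ)), LipschitzWith 1 ι → ∀ n : ℕ, m < edges.card →
      ∀ᶠ u in residual (XSet u₀ c L R ε η), u ∈ Avoid u₀ c L R ε η edges tgt ι (ThS ι n) := by
    intro V m edges tgt ι hι n hcard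
    have hcomp := ThS_compact ι hι.continuous n
    have hpos : 0 < 1 / ((n : ℝ) + 1) := by positivity
    exact residual_of_dense_open (avoid_open V m edges tgt ι hι.continuous _ hcomp)
      (avoid_dense V m edges tgt ι 1 hι _ hcomp (1 / ((n : ℝ) + 1)) (1 / ((n : ℝ) + 1)) hpos hpos
        (fun θ hθ => hθ.2.1) (fun θ hθ => hθ.2.2) hcard)
  -- the three parametrisations
  let ι1 : ∀ V : ℕ, (Fin (V + 1) → ℝ) → ℝ × (Fin V → ℝ) := fun V θ => (θ 0, fun v => θ v.succ)
  let ι2 : ∀ V : ℕ, (Fin V → ℝ) → ℝ × (Fin V → ℝ) := fun V θ => (1, θ)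
  let ι3 : ∀ (V : ℕ) (t z : ℚ), (Fin V → ℝ) → ℝ × (Fin (V + 1) → ℝ) :=
    fun V t z θ => ((t : ℝ), Fin.cons (z : ℝ) θ)
  have hι1 : ∀ V, LipschitzWith 1 (ι1 V) := fun V =>
    lip_of _ (fun θ θ' => abs_le_dist θ θ' 0) (fun θ θ' v => abs_le_dist θ θ' v.succ)
  have hι2 : ∀ V, LipschitzWith 1 (ι2 V) := fun V =>
    lip_of _ (fun θ θ' => by simp [ι2]) (fun θ θ' v => abs_le_dist θ θ' v)
  have hι3 : ∀ V t z, LipschitzWith 1 (ι3 V t z) := fun V t z =>
    lip_of _ (fun θ θ' => by simp [ι3]) (fun θ θ' v => by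
      refine Fin.cases ?_ (fun w => ?_) v
      · simp [ι3]
      · simpa [ι3] using abs_le_dist θ θ' w)
  have hev : ∀ᶠ u in residual (XSet u₀ c L R ε η),
      (∀ (V n : ℕ) (edges : Finset (Fin V × Fin r)) (tgt : Fin V × Fin r → Fin V),
        edges.card = V + 2 → u ∈ Avoid u₀ c L R ε η edges tgt (ι1 V) (ThS (ι1 V) n)) ∧
      (∀ (V n : ℕ) (edges : Finset (Fin V × Fin r)) (tgt : Fin V × Fin r → Fin V),
        edges.card = V + 1 → u ∈ Avoid u₀ c L R ε η edges tgt (ι2 V) (ThS (ι2 V) n)) ∧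
      (∀ (V n : ℕ) (t z : ℚ) (edges : Finset (Fin (V + 1) × Fin r))
        (tgt : Fin (V + 1) × Fin r → Fin (V + 1)), edges.card = V + 1 →
        u ∈ Avoid u₀ c L R ε η edges tgt (ι3 V t z) (ThS (ι3 V t z) n)) := by
    refine Filter.Eventually.and ?_ (Filter.Eventually.and ?_ ?_)
    · refine eventually_countable_forall.2 fun V => eventually_countable_forall.2 fun n =>
        eventually_countable_forall.2 fun edges => eventually_countable_forall.2 fun tgt => ?_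
      by_cases hcard : edges.card = V + 2
      · exact (hres V (V + 1) edges tgt (ι1 V) (hι1 V) n (by omega)).mono fun u hu _ => hu
      · exact Filter.Eventually.of_forall fun u h => absurd h hcard
    · refine eventually_countable_forall.2 fun V => eventually_countable_forall.2 fun n =>
        eventually_countable_forall.2 fun edges => eventually_countable_forall.2 fun tgt => ?_
      by_cases hcard : edges.card = V + 1
      · exact (hres V V edges tgt (ι2 V) (hι2 V) n (by omega)).mono fun u hu _ => hu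
      · exact Filter.Eventually.of_forall fun u h => absurd h hcard
    · refine eventually_countable_forall.2 fun V => eventually_countable_forall.2 fun n =>
        eventually_countable_forall.2 fun t => eventually_countable_forall.2 fun z =>
        eventually_countable_forall.2 fun edges => eventually_countable_forall.2 fun tgt => ?_
      by_cases hcard : edges.card = V + 1
      · exact (hres (V + 1) V edges tgt (ι3 V t z) (hι3 V t z) n (by omega)).mono fun u hu _ => hu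
      · exact Filter.Eventually.of_forall fun u h => absurd h hcard
  obtain ⟨u, hu1, hu2, hu3⟩ := (dense_of_mem_residual hev).nonempty
  refine ⟨fun i => ((u : Fin r → (ℝ →ᵇ ℝ)) i : ℝ → ℝ), fun i => (u.2 i).1, fun i => (u.2 i).2, ?_, ?_, ?_⟩
  · intro t ht0 ht1 D
    by_contra hcon
    push Not at hcon
    obtain ⟨z, hz, hzD⟩ := enum D
    obtain ⟨edges, tgt, hcard, hedge⟩ := edges_of_ec _ D z hz hzD (D.card + 2) hcon
    obtain ⟨n, hn1, hn2, hn3⟩ := exists_n z hz t ht0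
    have hmem : (Fin.cons t z : Fin (D.card + 1) → ℝ) ∈ ThS (ι1 D.card) n := by
      refine ⟨?_, ?_, ?_⟩
      · intro k
        refine Fin.cases ?_ (fun w => ?_) k
        · rw [Fin.cons_zero, abs_of_pos ht0]
          have : (0 : ℝ) ≤ n := Nat.cast_nonneg n
          linarith
        · rw [Fin.cons_succ]; exact hn2 w
      · simpa [ι1] using hn1
      · intro v w hvw
        simpa [ι1] using hn3 v w hvw
    obtain ⟨e, he, hne'⟩ := hu1 D.card n edges tgt hcard _ hmem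
    apply hne'
    simpa [ι1] using hedge e he
  · intro D
    by_contra hcon
    push Not at hcon
    obtain ⟨z, hz, hzD⟩ := enum D
    obtain ⟨edges, tgt, hcard, hedge⟩ := edges_of_ec _ D z hz hzD (D.card + 1) hcon
    obtain ⟨n, hn1, hn2, hn3⟩ := exists_n z hz 1 one_pos
    have hmem : z ∈ ThS (ι2 D.card) n := ⟨hn2, hn1, hn3⟩
    obtain ⟨e, he, hne'⟩ := hu2 D.card n edges tgt hcard _ hmem
    apply hne'
    simpa [ι2] using hedge e he
  · intro t z0 ht0 ht1 D hzD0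
    by_contra hcon
    push Not at hcon
    set D' := D.erase (z0 : ℝ) with hD'
    have hcardD : D'.card + 1 = D.card := Finset.card_erase_add_one hzD0
    obtain ⟨z', hz', hzD'⟩ := enum D'
    set z : Fin (D'.card + 1) → ℝ := Fin.cons (z0 : ℝ) z' with hzdef
    have hz : Function.Injective z := by
      rw [hzdef, Fin.cons_injective_iff]
      refine ⟨?_, hz'⟩
      rintro ⟨v, hv⟩
      have : (z0 : ℝ) ∈ D' := (hzD' _).2 ⟨v, hv⟩
      exact Finset.notMem_erase _ _ this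
    have hzD : ∀ x, x ∈ D ↔ ∃ v, z v = x := by
      intro x
      constructor
      · intro hx
        by_cases hx0 : x = z0
        · exact ⟨0, by rw [hzdef, Fin.cons_zero, hx0]⟩
        · obtain ⟨v, hv⟩ := (hzD' x).1 (Finset.mem_erase.2 ⟨hx0, hx⟩)
          exact ⟨v.succ, by rw [hzdef, Fin.cons_succ, hv]⟩
      · rintro ⟨v, rfl⟩
        refine Fin.cases ?_ (fun w => ?_) v
        · rw [hzdef, Fin.cons_zero]; exact hzD0
        · rw [hzdef, Fin.cons_succ]
          exact Finset.mem_of_mem_erase ((hzD' _).2 ⟨w, rfl⟩)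
    obtain ⟨edges, tgt, hcard, hedge⟩ := edges_of_ec _ D z hz hzD (D'.card + 1)
      (by rw [hcardD]; exact Nat.le_of_lt_succ hcon)
    have ht0' : (0 : ℝ) < t := by exact_mod_cast ht0
    obtain ⟨n, hn1, hn2, hn3⟩ := exists_n z hz t ht0'
    have hmem : z' ∈ ThS (ι3 D'.card t z0) n := by
      refine ⟨?_, hn1, hn3⟩
      intro k
      have := hn2 k.succ
      rwa [hzdef, Fin.cons_succ] at this
    obtain ⟨e, he, hne'⟩ := hu3 D'.card n t z0 edges tgt hcard _ hmem
    apply hne'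
    exact hedge e he

end Pool.Agent.H815.HF
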