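import Pool.Agent.H815.HF.AvoidOpen
import Pool.Agent.H815.HF.AvoidLocal
import Pool.Agent.H815.HF.AvoidDense
import Pool.Agent.H815.HF.Generic

set_option autoImplicit false

namespace Pool.Agent.H815.HF

theorem generic_full {r : ℕ} (u₀ : Fin r → ℝ → ℝ) (M c₀ L₀ R ε₀ c L ε η : ℝ)
    (hM : ∀ i x, |u₀ i x| ≤ M) (hc : c₀ < c) (hL : L₀ < L) (hε : ε₀ < ε) (hη : 0 < η)
    (hu₀ : ∀ i, Cons c₀ L₀ R ε₀ (u₀ i)) :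
    ∃ u : Fin r → ℝ → ℝ, (∀ i, Cons c L R ε (u i)) ∧ (∀ i x, |u i x - u₀ i x| ≤ η) ∧
      (∀ t : ℝ, 0 < t → t ≤ 1 → ∀ D : Finset ℝ, ec (fun i x => x + t * u i x) D ≤ D.card + 1) ∧
      (∀ D : Finset ℝ, ec (fun i x => x + u i x) D ≤ D.card) ∧
      (∀ t z : ℚ, 0 < t → t ≤ 1 → ∀ D : Finset ℝ, (z : ℝ) ∈ D →
        ec (fun i x => x + (t : ℝ) * u i x) D + 1 ≤ D.card) := by
  refine generic u₀ M c₀ L₀ R ε₀ c L ε η hM hc hL hε hη hu₀ (xset_closed u₀ c L R ε η)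
    (fun V m edges tgt ι hι Θ hΘ => avoid_open u₀ c L R ε η edges tgt ι hι Θ hΘ) ?_
  intro V m edges tgt ι K hι Θ hΘ t₀ κ ht₀ hκ ht hsep hm
  exact avoid_dense u₀ c₀ L₀ R ε₀ c L ε η hc hL hε hη hu₀ edges tgt ι K hι Θ hΘ t₀ κ ht₀ hκ ht
    hsep hm (fun Θ hΘ => avoid_open u₀ c L R ε η edges tgt ι hι.continuous Θ hΘ)
    (fun Θ hΘ ht hsep z₀ hz₀ => avoid_dense_local u₀ c₀ L₀ R ε₀ c L ε η hc hL hε hη hu₀ edges tgt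
      ι K hι Θ hΘ t₀ κ ht₀ hκ ht hsep z₀ hz₀ hm)

end Pool.Agent.H815.HF
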