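import Pool.Agent.H815.HF.Lift

set_option autoImplicit false

namespace Pool.Agent.H815.HF

/-- If the tuple `h = T(a)` has commutative stabiliser at `p` then the fibre action over `p` of a
lift of `a` fixed by `E` is commutative (contrapositive form). -/
theorem h_noncomm {r : ℕ} (P : LP r) {Ω B : Type} [LinearOrder Ω] [LinearOrder B]
    (a : Fin r → Ω ≃o Ω) (p : Ω) (hE : P.E.f Ω a = a) (ht : ∀ x, ∃ w, wa a w p = x)
    (c : Fin r → Ω → B ≃o B) (hEc : P.E.f (Ω ×ₗ B) (lif a c) = lif a c)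
    (g₁ g₂ : FG r) (h₁ : wa a g₁ p = p) (h₂ : wa a g₂ p = p)
    (hne : coc a c (g₁ * g₂) p ≠ coc a c (g₂ * g₁) p) :
    ∃ u v : FG r, wa (P.T.f Ω a) u p = p ∧ wa (P.T.f Ω a) v p = p ∧ u * v ≠ v * u := by
  by_contra hcon0
  have hcon : ∀ u v : FG r, wa (P.T.f Ω a) u p = p → wa (P.T.f Ω a) v p = p → u * v = v * u := by
    intro u v hu hv
    by_contra hc
    exact hcon0 ⟨u, v, hu, hv, hc⟩
  clear hcon0
  obtain ⟨d, hd⟩ := op_lif P.T a c
  have hY : P.Y.f Ω (P.T.f Ω a) = a := by rw [← P.hE, hE]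
  have hYd : P.Y.f (Ω ×ₗ B) (lif (P.T.f Ω a) d) = lif a c := by rw [← hd, ← P.hE, hEc]
  generalize P.T.f Ω a = h at hcon hd hY hYd
  have htr : ∀ x, ∃ w, wa h w p = x := by
    intro x
    obtain ⟨w, hw⟩ := ht x
    obtain ⟨v, hv⟩ := P.Y.exists_word' h w p
    exact ⟨v, by rw [← hv, hY, hw]⟩
  choose s hs using htr
  have hs' : ∀ x, wa h (s x)⁻¹ x = p := fun x => ((wa_eq_iff_inv h (s x)).1 (hs x)).symm
  have hfix : ∀ u, wa h u p = p → ∀ x, wa h (s x * u * (s x)⁻¹) x = x := by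
    intro u hu x
    rw [wa_mul, wa_mul, hs' x, hu, hs x]
  -- the main commutation
  have hmain : ∀ u, wa h u p = p → ∀ (i : Fin r) (x : Ω),
      d i x * coc h d (s x * u * (s x)⁻¹) x =
        coc h d (s (h i x) * u * (s (h i x))⁻¹) (h i x) * d i x := by
    intro u hu i x
    have hγ : ((s (h i x))⁻¹ * FreeGroup.of i * s x) * u =
        u * ((s (h i x))⁻¹ * FreeGroup.of i * s x) := by
      refine hcon _ _ ?_ hu
      rw [wa_mul, wa_mul, hs x, wa_of, hs']
    have hw : FreeGroup.of i * (s x * u * (s x)⁻¹) =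
        (s (h i x) * u * (s (h i x))⁻¹) * FreeGroup.of i := by
      calc FreeGroup.of i * (s x * u * (s x)⁻¹)
          = s (h i x) * (((s (h i x))⁻¹ * FreeGroup.of i * s x) * u) * (s x)⁻¹ := by group
        _ = s (h i x) * (u * ((s (h i x))⁻¹ * FreeGroup.of i * s x)) * (s x)⁻¹ := by rw [hγ]
        _ = (s (h i x) * u * (s (h i x))⁻¹) * FreeGroup.of i := by group
    have h1 := coc_mul h d (FreeGroup.of i) (s x * u * (s x)⁻¹) x
    have h2 := coc_mul h d (s (h i x) * u * (s (h i x))⁻¹) (FreeGroup.of i) x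
    rw [hfix u hu x, coc_of] at h1
    rw [wa_of, coc_of] at h2
    rw [← h1, ← h2, hw]
  have hUp : ∀ u, wa h u p = p → coc h d (s p * u * (s p)⁻¹) p = coc h d u p := by
    intro u hu
    rw [hcon (s p) u (hs p) hu, mul_inv_cancel_right]
  have hcommp : ∀ u, wa h u p = p → ∀ g, wa a g p = p → ∀ y,
      coc h d u p (coc a c g p y) = coc a c g p (coc h d u p y) := by
    intro u hu g hg y
    let Θ : (Ω ×ₗ B) ≃o (Ω ×ₗ B) :=
      lif1 (OrderIso.refl Ω) (fun x => coc h d (s x * u * (s x)⁻¹) x)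
    have hΘ : ∀ x y, Θ (toLex (x, y)) = toLex (x, coc h d (s x * u * (s x)⁻¹) x y) :=
      fun _ _ => rfl
    have hc1 : ∀ (i : Fin r) (z : Ω ×ₗ B), Θ (lif h d i z) = lif h d i (Θ z) := by
      intro i z
      induction z using lex_ind with
      | h x y =>
        rw [lif_apply, hΘ, hΘ, lif_apply, toLex_inj']
        refine ⟨rfl, ?_⟩
        have h1 := congrArg (fun f : B ≃o B => f y) (hmain u hu i x)
        exact h1.symm
    have hc2 : ∀ (i : Fin r) (z : Ω ×ₗ B), Θ (lif a c i z) = lif a c i (Θ z) := by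
      intro i z
      have h1 := P.Y.nat (lif h d) (lif h d) Θ Θ.monotone hc1 i z
      rw [hYd] at h1
      exact h1
    have h2 := wa_nat (lif a c) (lif a c) Θ hc2 g (toLex (p, y))
    rw [wa_lif, hΘ, hΘ, wa_lif, hg, hUp u hu, toLex_inj'] at h2
    exact h2.2
  have hword : ∀ g, wa a g p = p → ∀ y, ∃ u, wa h u p = p ∧ coc a c g p y = coc h d u p y := by
    intro g hg y
    obtain ⟨u, hu⟩ := P.Y.exists_word' (lif h d) g (toLex (p, y))
    rw [hYd, wa_lif, wa_lif, toLex_inj', hg] at hu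
    exact ⟨u, hu.1.symm, hu.2⟩
  apply hne
  ext y
  rw [coc_mul, coc_mul, h₁, h₂]
  show coc a c g₁ p (coc a c g₂ p y) = coc a c g₂ p (coc a c g₁ p y)
  obtain ⟨v, hv, hv'⟩ := hword g₂ h₂ y
  obtain ⟨u, hu, hu'⟩ := hword g₁ h₁ y
  rw [hv', hu', ← hcommp v hv g₁ h₁ y, ← hcommp u hu g₂ h₂ y, hv', hu']
  have h3 := coc_mul h d v u p
  have h4 := coc_mul h d u v p
  rw [hu] at h3
  rw [hv] at h4
  have h5 : coc h d v p * coc h d u p = coc h d u p * coc h d v p := by
    rw [← h3, ← h4, hcon u v hu hv]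
  exact congrArg (fun f : B ≃o B => f y) h5

end Pool.Agent.H815.HF
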