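import Pool.Agent.H815.HF.Lift

set_option autoImplicit false

namespace Pool.Agent.H815.HF

variable {r s : ℕ}

lemma Pat.le_iff_inv (q : Pat r) (w v : FG r) : q.le w v ↔ q.le 1 (w⁻¹ * v) := by
  rw [← q.le_mul_iff w 1 (w⁻¹ * v)]
  simp

/-- The refinement of `q` given by a pattern on a free group isomorphic to the stabiliser. -/
def IndPat (q : Pat r) (ι : FG s ≃* q.stab) (ρ : Pat s) : Pat r where
  le := Ind q ι ρ
  refl' w := by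
    refine Or.inr ⟨by rw [inv_mul_cancel]; exact q.stab.one_mem, ?_⟩
    have : (⟨w⁻¹ * w, by rw [inv_mul_cancel]; exact q.stab.one_mem⟩ : q.stab) = 1 :=
      Subtype.ext (inv_mul_cancel w)
    rw [this, map_one]
    exact ρ.refl' 1
  trans' u v w := by
    rintro (⟨h1, h2⟩ | ⟨h1, h2⟩) (⟨h3, h4⟩ | ⟨h3, h4⟩)
    · exact Or.inl ⟨q.trans' _ _ _ h1 h3, fun h => h2 (q.trans' _ _ _ h3 h)⟩
    · have h5 := (q.eqv_iff v w).2 h3
      exact Or.inl ⟨q.trans' _ _ _ h1 h5.1, fun h => h2 (q.trans' _ _ _ h5.1 h)⟩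
    · have h5 := (q.eqv_iff u v).2 h1
      exact Or.inl ⟨q.trans' _ _ _ h5.1 h3, fun h => h4 (q.trans' _ _ _ h h5.1)⟩
    · have h6 : u⁻¹ * w = (u⁻¹ * v) * (v⁻¹ * w) := by group
      have h5 : u⁻¹ * w ∈ q.stab := by
        rw [h6]; exact q.stab.mul_mem h1 h3
      refine Or.inr ⟨h5, ?_⟩
      have h7 : (⟨u⁻¹ * w, h5⟩ : q.stab) = ⟨u⁻¹ * v, h1⟩ * ⟨v⁻¹ * w, h3⟩ := Subtype.ext h6
      rw [h7, map_mul]
      refine ρ.trans' _ _ _ h2 ?_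
      have := ρ.mul' (ι.symm ⟨u⁻¹ * v, h1⟩) _ _ h4
      rwa [mul_one] at this
  total' u v := by
    rcases q.total' u v with h | h
    · by_cases h' : q.le v u
      · have h1 := (q.eqv_iff u v).1 ⟨h, h'⟩
        have h2 := (q.eqv_iff v u).1 ⟨h', h⟩
        rcases ρ.total' 1 (ι.symm ⟨u⁻¹ * v, h1⟩) with h3 | h3
        · exact Or.inl (Or.inr ⟨h1, h3⟩)
        · refine Or.inr (Or.inr ⟨h2, ?_⟩)
          have h4 : (⟨v⁻¹ * u, h2⟩ : q.stab) = (⟨u⁻¹ * v, h1⟩ : q.stab)⁻¹ :=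
            Subtype.ext (by simp)
          rw [h4, map_inv]
          have := ρ.mul' (ι.symm ⟨u⁻¹ * v, h1⟩)⁻¹ _ _ h3
          rwa [inv_mul_cancel, mul_one] at this
      · exact Or.inl (Or.inl ⟨h, h'⟩)
    · by_cases h' : q.le u v
      · have h1 := (q.eqv_iff u v).1 ⟨h', h⟩
        have h2 := (q.eqv_iff v u).1 ⟨h, h'⟩
        rcases ρ.total' 1 (ι.symm ⟨u⁻¹ * v, h1⟩) with h3 | h3
        · exact Or.inl (Or.inr ⟨h1, h3⟩)
        · refine Or.inr (Or.inr ⟨h2, ?_⟩)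
          have h4 : (⟨v⁻¹ * u, h2⟩ : q.stab) = (⟨u⁻¹ * v, h1⟩ : q.stab)⁻¹ :=
            Subtype.ext (by simp)
          rw [h4, map_inv]
          have := ρ.mul' (ι.symm ⟨u⁻¹ * v, h1⟩)⁻¹ _ _ h3
          rwa [inv_mul_cancel, mul_one] at this
      · exact Or.inr (Or.inl ⟨h, h'⟩)
  mul' u v w := by
    have e : (u * v)⁻¹ * (u * w) = v⁻¹ * w := by group
    rintro (⟨h1, h2⟩ | ⟨h1, h2⟩)
    · exact Or.inl ⟨q.mul' _ _ _ h1, fun h => h2 ((q.le_mul_iff u _ _).1 h)⟩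
    · have h3 : (u * v)⁻¹ * (u * w) ∈ q.stab := by rw [e]; exact h1
      refine Or.inr ⟨h3, ?_⟩
      have h4 : (⟨(u * v)⁻¹ * (u * w), h3⟩ : q.stab) = ⟨v⁻¹ * w, h1⟩ := Subtype.ext e
      rw [h4]
      exact h2

end Pool.Agent.H815.HF
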