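import Pool.Agent.H815.HF.Basic

set_option autoImplicit false

namespace Pool.Agent.H815.HF

variable {r s : ℕ} {Ω B : Type} [LinearOrder Ω] [LinearOrder B]

/-- An automorphism of the lexicographic product given by an automorphism of the base and a
family of automorphisms of the fibre. -/
def lif1 (g : Ω ≃o Ω) (c : Ω → B ≃o B) : (Ω ×ₗ B) ≃o (Ω ×ₗ B) where
  toFun z := toLex (g (ofLex z).1, c (ofLex z).1 (ofLex z).2)
  invFun z := toLex (g.symm (ofLex z).1, (c (g.symm (ofLex z).1)).symm (ofLex z).2)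
  left_inv z := by simp
  right_inv z := by simp
  map_rel_iff' := by
    intro x y
    obtain ⟨x1, x2⟩ := x
    obtain ⟨y1, y2⟩ := y
    show toLex (g x1, c x1 x2) ≤ toLex (g y1, c y1 y2) ↔ toLex (x1, x2) ≤ toLex (y1, y2)
    rw [Prod.Lex.toLex_le_toLex, Prod.Lex.toLex_le_toLex]
    simp only
    constructor
    · rintro (h | ⟨h1, h2⟩)
      · exact Or.inl (g.lt_iff_lt.1 h)
      · have h3 : x1 = y1 := g.injective h1
        subst h3
        exact Or.inr ⟨rfl, (c x1).le_iff_le.1 h2⟩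
    · rintro (h | ⟨h1, h2⟩)
      · exact Or.inl (g.lt_iff_lt.2 h)
      · subst h1
        exact Or.inr ⟨rfl, (c x1).le_iff_le.2 h2⟩

@[simp] lemma lif1_apply (g : Ω ≃o Ω) (c : Ω → B ≃o B) (x : Ω) (y : B) :
    lif1 g c (toLex (x, y)) = toLex (g x, c x y) := rfl

@[simp] lemma lif1_symm_apply (g : Ω ≃o Ω) (c : Ω → B ≃o B) (x : Ω) (y : B) :
    (lif1 g c).symm (toLex (x, y)) = toLex (g.symm x, (c (g.symm x)).symm y) := rfl

omit [LinearOrder Ω] [LinearOrder B] in
lemma lex_ind {P : (Ω ×ₗ B) → Prop} (h : ∀ x y, P (toLex (x, y))) (z : Ω ×ₗ B) : P z := by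
  obtain ⟨x, y⟩ := z
  exact h x y

omit [LinearOrder Ω] [LinearOrder B] in
lemma lex_ext {z z' : Ω ×ₗ B} (h1 : (ofLex z).1 = (ofLex z').1) (h2 : (ofLex z).2 = (ofLex z').2) :
    z = z' := by
  obtain ⟨x, y⟩ := z
  obtain ⟨x', y'⟩ := z'
  change x = x' at h1
  change y = y' at h2
  subst h1; subst h2; rfl

omit [LinearOrder Ω] [LinearOrder B] in
lemma toLex_inj' {x x' : Ω} {y y' : B} :
    (toLex (x, y) : Ω ×ₗ B) = toLex (x', y') ↔ x = x' ∧ y = y' := by
  rw [toLex_inj, Prod.mk.injEq]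

/-- lifts of a tuple. -/
def lif (a : Fin r → Ω ≃o Ω) (c : Fin r → Ω → B ≃o B) (i : Fin r) : (Ω ×ₗ B) ≃o (Ω ×ₗ B) :=
  lif1 (a i) (c i)

@[simp] lemma lif_apply (a : Fin r → Ω ≃o Ω) (c : Fin r → Ω → B ≃o B) (i : Fin r) (x : Ω) (y : B) :
    lif a c i (toLex (x, y)) = toLex (a i x, c i x y) := rfl

lemma mono_fst : Monotone (fun z : Ω ×ₗ B => (ofLex z).1) := Prod.Lex.monotone_fst_ofLex

/-- an automorphism of the lexicographic product covering an automorphism of the base. -/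
lemma fib (G : (Ω ×ₗ B) ≃o (Ω ×ₗ B)) (g : Ω ≃o Ω)
    (h : ∀ x y, (ofLex (G (toLex (x, y)))).1 = g x) :
    ∃ d : Ω → B ≃o B, G = lif1 g d := by
  have h' : ∀ x y, (ofLex (G.symm (toLex (x, y)))).1 = g.symm x := by
    intro x y
    apply g.injective
    rw [← h _ (ofLex (G.symm (toLex (x, y)))).2]
    simp
  have e1 : ∀ x y, G (toLex (x, y)) = toLex (g x, (ofLex (G (toLex (x, y)))).2) := fun x y =>
    lex_ext (h x y) rfl
  have e2 : ∀ x y, G.symm (toLex (x, y)) =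
      toLex (g.symm x, (ofLex (G.symm (toLex (x, y)))).2) := fun x y => lex_ext (h' x y) rfl
  refine ⟨fun x =>
    { toFun := fun y => (ofLex (G (toLex (x, y)))).2
      invFun := fun y => (ofLex (G.symm (toLex (g x, y)))).2
      left_inv := ?_
      right_inv := ?_
      map_rel_iff' := ?_ }, ?_⟩
  · intro y
    dsimp only
    rw [← e1 x y]
    simp
  · intro y
    dsimp only
    have := e2 (g x) y
    rw [g.symm_apply_apply] at this
    rw [← this]
    simp
  · intro y y'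
    show (ofLex (G (toLex (x, y)))).2 ≤ (ofLex (G (toLex (x, y')))).2 ↔ y ≤ y'
    have h1 : G (toLex (x, y)) ≤ G (toLex (x, y')) ↔ y ≤ y' := by
      rw [G.le_iff_le, Prod.Lex.toLex_le_toLex]
      simp
    rw [← h1, e1 x y, e1 x y', Prod.Lex.toLex_le_toLex]
    simp
  · ext z
    induction z using lex_ind with
    | h x y => exact e1 x y

/-- local operators map lifts to lifts. -/
lemma op_lif (O : Op r s) (a : Fin r → Ω ≃o Ω) (c : Fin r → Ω → B ≃o B) :
    ∃ d : Fin s → Ω → B ≃o B, O.f (Ω ×ₗ B) (lif a c) = lif (O.f Ω a) d := by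
  have h : ∀ i, ∃ d : Ω → B ≃o B, O.f (Ω ×ₗ B) (lif a c) i = lif1 (O.f Ω a i) d := by
    intro i
    apply fib
    intro x y
    exact O.nat (lif a c) a (fun z : Ω ×ₗ B => (ofLex z).1) mono_fst (fun _ _ => rfl) i
      (toLex (x, y))
  choose d hd using h
  exact ⟨d, funext hd⟩

lemma exists_coc (a : Fin r → Ω ≃o Ω) (c : Fin r → Ω → B ≃o B) (w : FG r) :
    ∃ k : Ω → B ≃o B, ∀ x y, wa (lif a c) w (toLex (x, y)) = toLex (wa a w x, k x y) := by
  obtain ⟨k, hk⟩ := fib (FreeGroup.lift (lif a c) w) (FreeGroup.lift a w) (by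
    intro x y
    exact wa_nat (lif a c) a (fun z : Ω ×ₗ B => (ofLex z).1) (fun _ _ => rfl) w (toLex (x, y)))
  refine ⟨k, fun x y => ?_⟩
  show (FreeGroup.lift (lif a c) w : (Ω ×ₗ B) ≃o (Ω ×ₗ B)) (toLex (x, y)) = _
  rw [hk]
  rfl

/-- the action of a word on the fibres. -/
noncomputable def coc (a : Fin r → Ω ≃o Ω) (c : Fin r → Ω → B ≃o B) (w : FG r) (x : Ω) : B ≃o B :=
  (exists_coc a c w).choose x

lemma wa_lif (a : Fin r → Ω ≃o Ω) (c : Fin r → Ω → B ≃o B) (w : FG r) (x : Ω) (y : B) :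
    wa (lif a c) w (toLex (x, y)) = toLex (wa a w x, coc a c w x y) :=
  (exists_coc a c w).choose_spec x y

lemma coc_eq (a : Fin r → Ω ≃o Ω) (c : Fin r → Ω → B ≃o B) (w : FG r) (x : Ω) (k : B ≃o B)
    (h : ∀ y, wa (lif a c) w (toLex (x, y)) = toLex (wa a w x, k y)) : coc a c w x = k := by
  ext y
  have := h y
  rw [wa_lif, toLex_inj'] at this
  exact this.2

@[simp] lemma coc_one (a : Fin r → Ω ≃o Ω) (c : Fin r → Ω → B ≃o B) (x : Ω) :
    coc a c 1 x = 1 := by
  apply coc_eq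
  intro y
  simp

lemma coc_mul (a : Fin r → Ω ≃o Ω) (c : Fin r → Ω → B ≃o B) (w v : FG r) (x : Ω) :
    coc a c (w * v) x = coc a c w (wa a v x) * coc a c v x := by
  apply coc_eq
  intro y
  rw [wa_mul, wa_lif, wa_lif, wa_mul]
  rfl

@[simp] lemma coc_of (a : Fin r → Ω ≃o Ω) (c : Fin r → Ω → B ≃o B) (i : Fin r) (x : Ω) :
    coc a c (FreeGroup.of i) x = c i x := by
  apply coc_eq
  intro y
  simp

lemma coc_inv (a : Fin r → Ω ≃o Ω) (c : Fin r → Ω → B ≃o B) (w : FG r) (x : Ω) :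
    coc a c w⁻¹ x = (coc a c w (wa a w⁻¹ x))⁻¹ := by
  have h := coc_mul a c w w⁻¹ x
  rw [mul_inv_cancel, coc_one] at h
  exact (inv_eq_of_mul_eq_one_right h.symm).symm

/-- conjugation by an automorphism commutes with local operators. -/
lemma op_conj (O : Op r s) (a : Fin r → Ω ≃o Ω) (U : Ω ≃o Ω) :
    O.f Ω (fun i => U * a i * U⁻¹) = fun i => U * O.f Ω a i * U⁻¹ := by
  funext i
  ext x
  have := O.nat a (fun i => U * a i * U⁻¹) U U.monotone (by
    intro j y
    show U (a j y) = U (a j (U⁻¹ (U y)))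
    rw [show U⁻¹ (U y) = y from U.symm_apply_apply y]) i (U⁻¹ x)
  rw [show U (U⁻¹ x) = x from U.apply_symm_apply x] at this
  exact this.symm

/-- translation of the line. -/
def tr (t : ℝ) : ℝ ≃o ℝ := OrderIso.addRight t

@[simp] lemma tr_apply (t y : ℝ) : tr t y = y + t := rfl

lemma tr_add (t t' : ℝ) : tr (t + t') = tr t * tr t' := by
  ext y
  show y + (t + t') = (y + t') + t
  ring

lemma tr_inj {t t' : ℝ} (h : tr t = tr t') : t = t' := by
  have := congrArg (fun f : ℝ ≃o ℝ => f 0) h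
  simpa using this

@[simp] lemma tr_zero : tr 0 = 1 := by
  ext y
  show y + 0 = y
  simp

/-- real lifts. -/
noncomputable def lifR (a : Fin r → Ω ≃o Ω) (c : Fin r → Ω → ℝ) : Fin r → (Ω ×ₗ ℝ) ≃o (Ω ×ₗ ℝ) :=
  lif a (fun i x => tr (c i x))

@[simp] lemma lifR_apply (a : Fin r → Ω ≃o Ω) (c : Fin r → Ω → ℝ) (i : Fin r) (x : Ω) (y : ℝ) :
    lifR a c i (toLex (x, y)) = toLex (a i x, y + c i x) := rfl

/-- displacement of a word in a real lift. -/
noncomputable def disp (a : Fin r → Ω ≃o Ω) (c : Fin r → Ω → ℝ) (w : FG r) (x : Ω) : ℝ :=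
  coc a (fun i x => tr (c i x)) w x 0

lemma coc_lifR (a : Fin r → Ω ≃o Ω) (c : Fin r → Ω → ℝ) (w : FG r) (x : Ω) :
    coc a (fun i x => tr (c i x)) w x = tr (disp a c w x) := by
  have key : ∃ t : ℝ, coc a (fun i x => tr (c i x)) w x = tr t := by
    induction w using fg_induction generalizing x with
    | h1 => exact ⟨0, by simp⟩
    | hof i w ih =>
      obtain ⟨t, ht⟩ := ih x
      exact ⟨c i (wa a w x) + t, by rw [coc_mul, coc_of, ht, tr_add]⟩
    | hinv i w ih =>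
      obtain ⟨t, ht⟩ := ih x
      refine ⟨- c i (wa a (FreeGroup.of i)⁻¹ (wa a w x)) + t, ?_⟩
      rw [coc_mul, coc_inv, coc_of, ht, tr_add]
      congr 1
      rw [inv_eq_iff_mul_eq_one, ← tr_add, add_neg_cancel, tr_zero]
  obtain ⟨t, ht⟩ := key
  rw [disp, ht]
  congr 1
  simp

lemma wa_lifR (a : Fin r → Ω ≃o Ω) (c : Fin r → Ω → ℝ) (w : FG r) (x : Ω) (y : ℝ) :
    wa (lifR a c) w (toLex (x, y)) = toLex (wa a w x, y + disp a c w x) := by
  rw [lifR, wa_lif, coc_lifR]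
  rfl

@[simp] lemma disp_one (a : Fin r → Ω ≃o Ω) (c : Fin r → Ω → ℝ) (x : Ω) : disp a c 1 x = 0 := by
  simp [disp]

lemma disp_mul (a : Fin r → Ω ≃o Ω) (c : Fin r → Ω → ℝ) (w v : FG r) (x : Ω) :
    disp a c (w * v) x = disp a c w (wa a v x) + disp a c v x := by
  apply tr_inj
  rw [tr_add, ← coc_lifR, ← coc_lifR, ← coc_lifR, coc_mul]

@[simp] lemma disp_of (a : Fin r → Ω ≃o Ω) (c : Fin r → Ω → ℝ) (i : Fin r) (x : Ω) :
    disp a c (FreeGroup.of i) x = c i x := by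
  simp [disp]

lemma disp_inv (a : Fin r → Ω ≃o Ω) (c : Fin r → Ω → ℝ) (w : FG r) (x : Ω) :
    disp a c w⁻¹ x = - disp a c w (wa a w⁻¹ x) := by
  have := disp_mul a c w w⁻¹ x
  rw [mul_inv_cancel, disp_one] at this
  linarith

lemma disp_add (a : Fin r → Ω ≃o Ω) (c c' : Fin r → Ω → ℝ) (w : FG r) (x : Ω) :
    disp a (fun i x => c i x + c' i x) w x = disp a c w x + disp a c' w x := by
  induction w using fg_induction generalizing x with
  | h1 => simp
  | hof i w ih =>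
    rw [disp_mul, disp_mul, disp_mul, ih, disp_of, disp_of, disp_of]; ring
  | hinv i w ih =>
    rw [disp_mul, disp_mul, disp_mul, ih, disp_inv, disp_inv, disp_inv, disp_of, disp_of, disp_of]
    ring

lemma disp_smul (a : Fin r → Ω ≃o Ω) (k : ℝ) (c : Fin r → Ω → ℝ) (w : FG r) (x : Ω) :
    disp a (fun i x => k * c i x) w x = k * disp a c w x := by
  induction w using fg_induction generalizing x with
  | h1 => simp
  | hof i w ih =>
    rw [disp_mul, disp_mul, ih, disp_of, disp_of]; ring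
  | hinv i w ih =>
    rw [disp_mul, disp_mul, ih, disp_inv, disp_inv, disp_of, disp_of]
    ring

lemma lifR_inj {a : Fin r → Ω ≃o Ω} {c c' : Fin r → Ω → ℝ} (h : lifR a c = lifR a c') :
    c = c' := by
  funext i x
  have h1 := congrFun h i
  have h2 := congrArg (fun f : (Ω ×ₗ ℝ) ≃o (Ω ×ₗ ℝ) => f (toLex (x, 0))) h1
  simp only [lifR_apply] at h2
  rw [toLex_inj'] at h2
  simpa using h2.2

/-- local operators map real lifts to real lifts. -/
lemma op_lifR (O : Op r s) (a : Fin r → Ω ≃o Ω) (c : Fin r → Ω → ℝ) :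
    ∃ d : Fin s → Ω → ℝ, O.f (Ω ×ₗ ℝ) (lifR a c) = lifR (O.f Ω a) d := by
  obtain ⟨d, hd⟩ := op_lif O a (fun i x => tr (c i x))
  refine ⟨fun i x => d i x 0, ?_⟩
  have hd' : O.f (Ω ×ₗ ℝ) (lifR a c) = lif (O.f Ω a) d := hd
  rw [hd']
  funext i
  ext z
  induction z using lex_ind with
  | h x y =>
    let W : (Ω ×ₗ ℝ) ≃o (Ω ×ₗ ℝ) := lif1 (OrderIso.refl Ω) (fun _ => tr y)
    have hW : ∀ x' y', W (toLex (x', y')) = toLex (x', y' + y) := fun _ _ => rfl
    have h1 := O.nat (lifR a c) (lifR a c) W W.monotone (by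
        intro j z
        induction z using lex_ind with
        | h x' y' =>
          rw [lifR_apply, hW, hW, lifR_apply, toLex_inj']
          exact ⟨rfl, by ring⟩) i (toLex (x, 0))
    rw [hd', hW, lif_apply, lif_apply, hW, toLex_inj'] at h1
    rw [lifR_apply, lif_apply, toLex_inj']
    refine ⟨rfl, ?_⟩
    have h2 := h1.2
    rw [zero_add] at h2
    rw [← h2, add_comm]

end Pool.Agent.H815.HF
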