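import Pool.Agent.H815.HF.Lift

set_option autoImplicit false

namespace Pool.Agent.H815.HF

/-- Periodic systems fixed by `E`: `G` is a group of automorphisms of the chain commuting with
the tuple, with finitely many orbits. -/
def Nice {r : ℕ} (P : LP r) (Ω : Type) [LinearOrder Ω] (b : Fin r → Ω ≃o Ω)
    (G : Subgroup (Ω ≃o Ω)) : Prop :=
  (∀ g ∈ G, ∀ i, g * b i = b i * g) ∧ (∃ F : Finset Ω, ∀ x, ∃ g ∈ G, g x ∈ F) ∧ P.E.f Ω b = b

end Pool.Agent.H815.HF
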