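import Pool.Agent.H815.HF.Lift

set_option autoImplicit false

namespace Pool.Agent.H815.HF

lemma disp_cont_aux {r : ℕ} {Ω : Type} [LinearOrder Ω] (a : Fin r → Ω ≃o Ω)
    {V : Type} [TopologicalSpace V] (c : V → Fin r → Ω → ℝ)
    (hc : ∀ i x, Continuous fun v => c v i x) (w : FG r) (x : Ω) :
    Continuous fun v => disp a (c v) w x := by
  induction w using fg_induction generalizing x with
  | h1 => simp only [disp_one]; exact continuous_const
  | hof i w ih =>
    simp only [disp_mul, disp_of]
    exact (hc i _).add (ih x)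
  | hinv i w ih =>
    simp only [disp_mul, disp_inv, disp_of]
    exact (hc i _).neg.add (ih x)

/-- The real cocycle of the value of a local operator depends continuously on the cocycle. -/
theorem op_cont {r s : ℕ} {Ω : Type} [LinearOrder Ω] (O : Op r s) (a : Fin r → Ω ≃o Ω)
    {V : Type} [TopologicalSpace V] (c : V → Fin r → Ω → ℝ)
    (hc : ∀ i x, Continuous fun v => c v i x) (d : V → Fin s → Ω → ℝ)
    (hd : ∀ v, O.f (Ω ×ₗ ℝ) (lifR a (c v)) = lifR (O.f Ω a) (d v)) (i : Fin s) (x : Ω) :
    Continuous fun v => d v i x := by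
  have hdc := disp_cont_aux a c hc
  rw [continuous_iff_continuousAt]
  intro v0
  rw [Metric.continuousAt_iff']
  intro ε hε
  have hf := finite_ball r O.N
  have E1 : ∀ᶠ v in nhds v0, ∀ w ∈ {w : FG r | w.norm ≤ O.N},
      |disp a (c v) w x - disp a (c v0) w x| < ε := by
    refine (Filter.eventually_all_finite hf).2 fun w _ => ?_
    have h1 := (Metric.continuousAt_iff'.1 ((hdc w x).continuousAt (x := v0))) ε hε
    simpa only [Real.dist_eq] using h1
  have E2 : ∀ᶠ v in nhds v0, ∀ p ∈ ({w : FG r | w.norm ≤ O.N} ×ˢ {w : FG r | w.norm ≤ O.N}),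
      disp a (c v0) p.1 x < disp a (c v0) p.2 x → disp a (c v) p.1 x < disp a (c v) p.2 x := by
    refine (Filter.eventually_all_finite (hf.prod hf)).2 fun p _ => ?_
    by_cases h : disp a (c v0) p.1 x < disp a (c v0) p.2 x
    · have h1 := ((hdc p.1 x).continuousAt (x := v0)).eventually_lt
        ((hdc p.2 x).continuousAt (x := v0)) h
      filter_upwards [h1] with v hv _ using hv
    · exact Filter.Eventually.of_forall fun v hh => absurd hh h
  filter_upwards [E1, E2] with v h1 h2
  have hmon : Mon O.N (lifR a (c v)) (toLex (x, (0:ℝ))) (lifR a (c v0)) (toLex (x, (0:ℝ))) := by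
    intro w u hw hu hwu
    rw [wa_lifR, wa_lifR, Prod.Lex.toLex_le_toLex] at hwu ⊢
    rcases hwu with hlt | ⟨he, hle⟩
    · exact Or.inl hlt
    · refine Or.inr ⟨he, ?_⟩
      by_contra hcon
      have h3 : disp a (c v0) u x < disp a (c v0) w x := by
        have := not_le.1 hcon
        simpa using this
      have h4 := h2 (u, w) ⟨hu, hw⟩ h3
      have h5 : disp a (c v) w x ≤ disp a (c v) u x := by simpa using hle
      exact absurd h4 (not_lt.2 h5)
  obtain ⟨w, hw, e1, e2⟩ := O.loc _ (lifR a (c v)) (toLex (x, (0:ℝ))) _ (lifR a (c v0))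
    (toLex (x, (0:ℝ))) hmon i
  rw [hd v, lifR_apply, wa_lifR, toLex_inj'] at e1
  rw [hd v0, lifR_apply, wa_lifR, toLex_inj'] at e2
  have e1' : d v i x = disp a (c v) w x := by simpa using e1.2
  have e2' : d v0 i x = disp a (c v0) w x := by simpa using e2.2
  rw [Real.dist_eq, e1', e2']
  exact h1 w hw

end Pool.Agent.H815.HF
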