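import Pool.Agent.H815.HF.Gen

set_option autoImplicit false

namespace Pool.Agent.H815.HF

theorem pe_lip_aux {c L R ε : ℝ} {u : ℝ → ℝ} (hu : Cons c L R ε u) (x y : ℝ) :
    |u y - u x| ≤ (|c| + |L|) * |y - x| := by
  have key : ∀ x y, x ≤ y → |u y - u x| ≤ (|c| + |L|) * |y - x| := by
    intro x y hxy
    obtain ⟨h1, h2⟩ := hu.1 x y hxy
    have h0 : 0 ≤ y - x := by linarith
    rw [abs_of_nonneg h0, abs_le]
    have h3 : c * (y - x) ≤ |c| * (y - x) := mul_le_mul_of_nonneg_right (le_abs_self c) h0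
    have h4 : L * (y - x) ≤ |L| * (y - x) := mul_le_mul_of_nonneg_right (le_abs_self L) h0
    have h5 : 0 ≤ |c| * (y - x) := mul_nonneg (abs_nonneg _) h0
    have h6 : 0 ≤ |L| * (y - x) := mul_nonneg (abs_nonneg _) h0
    constructor
    · rw [add_mul]; linarith
    · rw [add_mul]; linarith
  rcases le_total x y with h | h
  · exact key x y h
  · have := key y x h
    rw [abs_sub_comm, abs_sub_comm y x]
    exact this

theorem pe_cont_aux {c L R ε : ℝ} {u : ℝ → ℝ} (hu : Cons c L R ε u) : Continuous u := by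
  have : LipschitzWith (Real.toNNReal (|c| + |L|)) u := by
    apply LipschitzWith.of_dist_le_mul
    intro x y
    rw [Real.coe_toNNReal _ (by positivity), Real.dist_eq, Real.dist_eq]
    exact pe_lip_aux hu y x
  exact this.continuous

theorem pe_incr_aux {c L R ε : ℝ} {u : ℝ → ℝ} (hu : Cons c L R ε u) {t : ℝ} (ht0 : 0 ≤ t)
    (ht1 : t ≤ 1) (x y : ℝ) (hxy : x ≤ y) :
    (1 - max c 0) * (y - x) ≤ (y + t * u y) - (x + t * u x) := by
  obtain ⟨h1, h2⟩ := hu.1 x y hxy
  have h0 : 0 ≤ y - x := by linarith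
  have h3 : t * c ≤ max c 0 := by
    rcases le_total c 0 with hc | hc
    · calc t * c ≤ 0 := mul_nonpos_of_nonneg_of_nonpos ht0 hc
        _ ≤ max c 0 := le_max_right _ _
    · calc t * c ≤ 1 * c := mul_le_mul_of_nonneg_right ht1 hc
        _ = c := one_mul c
        _ ≤ max c 0 := le_max_left _ _
  have h4 : t * (-(c * (y - x))) ≤ t * (u y - u x) := mul_le_mul_of_nonneg_left h1 ht0
  have h5 : t * c * (y - x) ≤ max c 0 * (y - x) := mul_le_mul_of_nonneg_right h3 h0
  linarith

theorem pe_abs_aux {c L R ε : ℝ} {u : ℝ → ℝ} (hu : Cons c L R ε u) (hc : c < 1) {t : ℝ}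
    (ht0 : 0 ≤ t) (ht1 : t ≤ 1) (x y : ℝ) :
    (1 - max c 0) * |y - x| ≤ |(y + t * u y) - (x + t * u x)| := by
  rcases le_total x y with h | h
  · rw [abs_of_nonneg (by linarith : 0 ≤ y - x)]
    exact (pe_incr_aux hu ht0 ht1 x y h).trans (le_abs_self _)
  · rw [abs_sub_comm y x, abs_sub_comm (y + t * u y), abs_of_nonneg (by linarith : 0 ≤ x - y)]
    exact (pe_incr_aux hu ht0 ht1 y x h).trans (le_abs_self _)

theorem pe_iso_aux {c L R ε M : ℝ} {u : ℝ → ℝ} (hu : Cons c L R ε u) (hc : c < 1)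
    (hM : ∀ x, |u x| ≤ M) {t : ℝ} (ht0 : 0 ≤ t) (ht1 : t ≤ 1) :
    ∃ a : ℝ ≃o ℝ, ∀ x, a x = x + t * u x := by
  have hc' : 0 < 1 - max c 0 := by
    have : max c 0 < 1 := max_lt hc one_pos
    linarith
  have hcont : Continuous (fun x => x + t * u x) :=
    continuous_id.add (continuous_const.mul (pe_cont_aux hu))
  have hmono : StrictMono (fun x => x + t * u x) := by
    intro x y hxy
    have h := pe_incr_aux hu ht0 ht1 x y hxy.le
    have h2 : 0 < (1 - max c 0) * (y - x) := mul_pos hc' (by linarith)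
    show x + t * u x < y + t * u y
    linarith
  have hbd : ∀ x, |t * u x| ≤ M := by
    intro x
    rw [abs_mul, abs_of_nonneg ht0]
    calc t * |u x| ≤ 1 * |u x| := mul_le_mul_of_nonneg_right ht1 (abs_nonneg _)
      _ = |u x| := one_mul _
      _ ≤ M := hM x
  have htop : Filter.Tendsto (fun x => x + t * u x) Filter.atTop Filter.atTop := by
    apply Filter.tendsto_atTop_mono (f := fun x => x + (-M))
    · intro x
      have := (abs_le.1 (hbd x)).1
      linarith
    · exact Filter.tendsto_atTop_add_const_right _ _ Filter.tendsto_id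
  have hbot : Filter.Tendsto (fun x => x + t * u x) Filter.atBot Filter.atBot := by
    refine Filter.tendsto_atBot_mono (f := fun x => x + M) ?_ ?_
    · intro x
      have := (abs_le.1 (hbd x)).2
      linarith
    · exact Filter.tendsto_atBot_add_const_right _ _ Filter.tendsto_id
  have hsurj : Function.Surjective (fun x => x + t * u x) := hcont.surjective htop hbot
  exact ⟨hmono.orderIsoOfSurjective _ hsurj, fun x => rfl⟩

/-- The path of tuples of homeomorphisms. -/
theorem path_exists {r : ℕ} (u : Fin r → ℝ → ℝ) (c L R ε M : ℝ) (hc : c < 1)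
    (hu : ∀ i, Cons c L R ε (u i)) (hM : ∀ i x, |u i x| ≤ M) :
    ∃ a : ℝ → Fin r → ℝ ≃o ℝ, (∀ t, 0 ≤ t → t ≤ 1 → ∀ i x, a t i x = x + t * u i x) ∧
      (∀ w : FG r, ContinuousOn (fun y : ℝ × ℝ => wa (a y.1) w y.2) (Set.Icc 0 1 ×ˢ Set.univ)) ∧
      (∀ t, 0 ≤ t → t ≤ 1 → ∀ (w : FG r) (z : ℝ), |wa (a t) w z - z| ≤ w.norm * M) := by
  have hc' : 0 < 1 - max c 0 := by
    have : max c 0 < 1 := max_lt hc one_pos
    linarith
  have hex : ∀ t : ℝ, ∀ i, ∃ a : ℝ ≃o ℝ, 0 ≤ t → t ≤ 1 → ∀ x, a x = x + t * u i x := by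
    intro t i
    by_cases h : 0 ≤ t ∧ t ≤ 1
    · obtain ⟨a, ha⟩ := pe_iso_aux (hu i) hc (hM i) h.1 h.2
      exact ⟨a, fun _ _ => ha⟩
    · exact ⟨OrderIso.refl ℝ, fun h1 h2 => absurd ⟨h1, h2⟩ h⟩
  choose a ha using hex
  have hinvc : ∀ i, ContinuousOn (fun y : ℝ × ℝ => (a y.1 i).symm y.2)
      (Set.Icc 0 1 ×ˢ Set.univ) := by
    intro i
    have hM0 : 0 ≤ M := (abs_nonneg _).trans (hM i 0)
    have hL : LipschitzOnWith (Real.toNNReal ((1 + M) / (1 - max c 0)))
        (fun y : ℝ × ℝ => (a y.1 i).symm y.2) (Set.Icc 0 1 ×ˢ Set.univ) := by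
      apply LipschitzOnWith.of_dist_le_mul
      rintro ⟨t, z⟩ ⟨⟨ht0, ht1⟩, -⟩ ⟨t', z'⟩ ⟨⟨ht0', ht1'⟩, -⟩
      simp only at ht0 ht1 ht0' ht1'
      rw [Real.coe_toNNReal _ (by positivity), Real.dist_eq, Prod.dist_eq, Real.dist_eq,
        Real.dist_eq]
      simp only
      obtain ⟨y, hy⟩ : ∃ y, y = (a t i).symm z := ⟨_, rfl⟩
      obtain ⟨y', hy'⟩ : ∃ y', y' = (a t' i).symm z' := ⟨_, rfl⟩
      have hz : z = y + t * u i y := by rw [← ha t i ht0 ht1, hy, OrderIso.apply_symm_apply]
      have hz' : z' = y' + t' * u i y' := by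
        rw [← ha t' i ht0' ht1', hy', OrderIso.apply_symm_apply]
      rw [← hy, ← hy']
      have h1 := pe_abs_aux (hu i) hc ht0 ht1 y' y
      have h2 : (y + t * u i y) - (y' + t * u i y') = (z - z') + (t' - t) * u i y' := by
        rw [hz, hz']
        ring
      have h3 : |(z - z') + (t' - t) * u i y'| ≤ |z - z'| + |t - t'| * M := by
        refine (abs_add_le _ _).trans ?_
        rw [abs_mul, abs_sub_comm t' t]
        have := mul_le_mul_of_nonneg_left (hM i y') (abs_nonneg (t - t'))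
        linarith
      rw [h2] at h1
      have h4 := le_max_left |t - t'| |z - z'|
      have h5 := le_max_right |t - t'| |z - z'|
      have h6 := mul_le_mul_of_nonneg_right h4 hM0
      rw [div_mul_eq_mul_div, le_div_iff₀ hc']
      have h7 : (1 + M) * max |t - t'| |z - z'| = max |t - t'| |z - z'| +
        max |t - t'| |z - z'| * M := by ring
      rw [h7]
      have h8 : |y - y'| * (1 - max c 0) = (1 - max c 0) * |y - y'| := mul_comm _ _
      rw [h8]
      linarith
    exact hL.continuousOn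
  refine ⟨a, fun t h0 h1 i x => ha t i h0 h1 x, ?_, ?_⟩
  · intro w
    induction w using fg_induction with
    | h1 =>
      simp only [wa_one]
      exact continuousOn_snd
    | hof i w ih =>
      have h1 : ContinuousOn (fun y : ℝ × ℝ => wa (a y.1) w y.2 + y.1 * u i (wa (a y.1) w y.2))
          (Set.Icc 0 1 ×ˢ Set.univ) :=
        ih.add (continuousOn_fst.mul ((pe_cont_aux (hu i)).comp_continuousOn ih))
      refine h1.congr ?_
      rintro ⟨t, z⟩ ⟨⟨ht0, ht1⟩, -⟩
      simp only at ht0 ht1 ⊢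
      rw [wa_mul, wa_of, ha t i ht0 ht1]
    | hinv i w ih =>
      have h1 : ContinuousOn (fun y : ℝ × ℝ => (y.1, wa (a y.1) w y.2))
          (Set.Icc 0 1 ×ˢ Set.univ) := continuousOn_fst.prodMk ih
      have h2 : Set.MapsTo (fun y : ℝ × ℝ => (y.1, wa (a y.1) w y.2))
          (Set.Icc (0 : ℝ) 1 ×ˢ Set.univ) (Set.Icc (0 : ℝ) 1 ×ˢ Set.univ) := by
        rintro ⟨t, z⟩ ⟨ht, -⟩
        exact ⟨ht, Set.mem_univ _⟩
      refine ((hinvc i).comp h1 h2).congr ?_
      rintro ⟨t, z⟩ -
      simp only [Function.comp]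
      rw [wa_mul, wa_of_inv]
  · intro t ht0 ht1 w z
    have hlet : ∀ i x, |a t i x - x| ≤ M := by
      intro i x
      rw [ha t i ht0 ht1, show x + t * u i x - x = t * u i x by ring, abs_mul, abs_of_nonneg ht0]
      calc t * |u i x| ≤ 1 * |u i x| := mul_le_mul_of_nonneg_right ht1 (abs_nonneg _)
        _ = |u i x| := one_mul _
        _ ≤ M := hM i x
    have hlet' : ∀ i x, |(a t i).symm x - x| ≤ M := by
      intro i x
      have h := hlet i ((a t i).symm x)
      rw [OrderIso.apply_symm_apply, abs_sub_comm] at h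
      exact h
    have key : ∀ (l : List (Fin r × Bool)), |wa (a t) (FreeGroup.mk l) z - z| ≤ l.length * M := by
      intro l
      induction l with
      | nil =>
        rw [← FreeGroup.one_eq_mk, wa_one]
        simp
      | cons p l ih =>
        obtain ⟨i, b⟩ := p
        have h1 : (FreeGroup.mk ((i, b) :: l) : FG r) = FreeGroup.mk [(i, b)] * FreeGroup.mk l := by
          rw [FreeGroup.mul_mk]
          rfl
        rw [h1, wa_mul, List.length_cons]
        push_cast
        have h2 : |wa (a t) (FreeGroup.mk [(i, b)]) (wa (a t) (FreeGroup.mk l) z) -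
            wa (a t) (FreeGroup.mk l) z| ≤ M := by
          cases b with
          | true =>
            have h3 : (FreeGroup.mk [(i, true)] : FG r) = FreeGroup.of i := rfl
            rw [h3, wa_of]
            exact hlet i _
          | false =>
            have h3 : (FreeGroup.mk [(i, false)] : FG r) = (FreeGroup.of i)⁻¹ := rfl
            rw [h3, wa_of_inv]
            exact hlet' i _
        have h4 := abs_sub_le (wa (a t) (FreeGroup.mk [(i, b)]) (wa (a t) (FreeGroup.mk l) z))
          (wa (a t) (FreeGroup.mk l) z) z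
        rw [add_mul, one_mul]
        linarith
    have h5 := key w.toWord
    rw [FreeGroup.mk_toWord] at h5
    exact h5

end Pool.Agent.H815.HF
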