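import Mathlib

set_option autoImplicit false

namespace Pool.Agent.H815.HF.TreeM

/-- Number of edges `(x, i)`, `x ∈ D`, `f i x ∈ D`, of the Schreier graph inside `D`. -/
def ec {r : ℕ} {X : Type} [DecidableEq X] (f : Fin r → X → X) (D : Finset X) : ℕ :=
  ((D ×ˢ (Finset.univ : Finset (Fin r))).filter (fun e => f e.2 e.1 ∈ D)).card

/-- a letter of the free group -/
def lt {r : ℕ} (i : Fin r) (b : Bool) : FreeGroup (Fin r) :=
  if b then FreeGroup.of i else (FreeGroup.of i)⁻¹

theorem mk_cons_lt {r : ℕ} (i : Fin r) (b : Bool) (L : List (Fin r × Bool)) :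
    FreeGroup.mk ((i, b) :: L) = lt i b * FreeGroup.mk L := by
  have h : FreeGroup.mk ((i, b) :: L) = FreeGroup.mk [(i, b)] * FreeGroup.mk L := by
    rw [FreeGroup.mul_mk]; rfl
  rw [h]
  congr 1
  cases b
  · simp [lt, FreeGroup.of, FreeGroup.inv_mk, FreeGroup.invRev]
  · simp [lt, FreeGroup.of]

/-- Tree lemma: if every finite set `D` containing `p` spans at most `|D| - 1 + m` edges of the
Schreier graph, then the stabiliser of `p` is generated by at most `m` elements. -/
theorem tree_lemma (r : ℕ) (X : Type) [DecidableEq X]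
    (ρ : FreeGroup (Fin r) →* Equiv.Perm X) (p : X) (m : ℕ)
    (h : ∀ D : Finset X, p ∈ D → ec (fun i x => ρ (FreeGroup.of i) x) D + 1 ≤ D.card + m) :
    ∃ S : Finset (FreeGroup (Fin r)), S.card ≤ m ∧
      ∀ w : FreeGroup (Fin r), w ∈ Subgroup.closure (S : Set (FreeGroup (Fin r))) ↔ ρ w p = p := by
  classical
  rcases isEmpty_or_nonempty (Fin r) with hempty | hne
  · refine ⟨∅, by simp, fun w => ?_⟩
    have hw : w = 1 := Subsingleton.elim _ _
    subst hw
    simp
  let O : Set X := {x | ∃ w, ρ w p = x}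
  have hpO : p ∈ O := ⟨1, by simp⟩
  have hO : ∀ (w : FreeGroup (Fin r)) (x : X), x ∈ O → ρ w x ∈ O := by
    rintro w x ⟨v, rfl⟩
    exact ⟨w * v, by simp⟩
  let lvl : X → ℕ := fun x => sInf {n | ∃ L : List (Fin r × Bool), L.length = n ∧
    ρ (FreeGroup.mk L) p = x}
  have hstep : ∀ x : X, x ∈ O → x ≠ p → ∃ (y : X) (i : Fin r) (b : Bool),
      y ∈ O ∧ lvl y < lvl x ∧ ρ (lt i b) y = x := by
    intro x hx hxp
    have hne : {n | ∃ L : List (Fin r × Bool), L.length = n ∧
        ρ (FreeGroup.mk L) p = x}.Nonempty := by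
      obtain ⟨w, hw⟩ := hx
      exact ⟨_, w.toWord, rfl, by rw [FreeGroup.mk_toWord]; exact hw⟩
    obtain ⟨L, hL1, hL2⟩ := Nat.sInf_mem hne
    cases L with
    | nil =>
      exfalso
      apply hxp
      rw [← hL2, ← FreeGroup.one_eq_mk]
      simp
    | cons a L' =>
      obtain ⟨i, b⟩ := a
      refine ⟨ρ (FreeGroup.mk L') p, i, b, ⟨_, rfl⟩, ?_, ?_⟩
      · have h1 : lvl (ρ (FreeGroup.mk L') p) ≤ L'.length := Nat.sInf_le ⟨L', rfl, rfl⟩
        have h2 : L'.length + 1 = lvl x := by
          simpa using hL1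
        omega
      · rw [mk_cons_lt, map_mul, Equiv.Perm.mul_apply] at hL2
        exact hL2
  have : Nonempty X := ⟨p⟩
  choose! par idx dir hparO hlvl hpar using hstep
  have hparT : ∀ x ∈ O, x ≠ p → dir x = true → ρ (FreeGroup.of (idx x)) (par x) = x := by
    intro x hx hxp hd
    have := hpar x hx hxp
    rw [hd] at this
    simpa [lt] using this
  have hparF : ∀ x ∈ O, x ≠ p → dir x = false → ρ (FreeGroup.of (idx x)) x = par x := by
    intro x hx hxp hd
    have := hpar x hx hxp
    rw [hd] at this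
    have h2 : (ρ (FreeGroup.of (idx x)))⁻¹ (par x) = x := by simpa [lt] using this
    rw [Equiv.Perm.inv_eq_iff_eq] at h2
    exact h2.symm
  -- the section
  obtain ⟨s, hs1, hs2⟩ : ∃ s : X → FreeGroup (Fin r), s p = 1 ∧ ∀ x ∈ O, x ≠ p →
      s x = lt (idx x) (dir x) * s (par x) := by
    let F : (x : X) → ((y : X) → (measure lvl).rel y x → FreeGroup (Fin r)) → FreeGroup (Fin r) :=
      fun x ih => if hx : x ∈ O ∧ x ≠ p then
        lt (idx x) (dir x) * ih (par x) (hlvl x hx.1 hx.2) else 1
    refine ⟨(measure lvl).wf.fix F, ?_, ?_⟩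
    · rw [WellFounded.fix_eq]
      simp [F]
    · intro x hx hxp
      rw [WellFounded.fix_eq]
      simp only [F]
      rw [dif_pos ⟨hx, hxp⟩]
  have hs : ∀ n : ℕ, ∀ x ∈ O, lvl x = n → ρ (s x) p = x := by
    intro n
    induction n using Nat.strong_induction_on with
    | _ n ih =>
      intro x hx hn
      by_cases hxp : x = p
      · rw [hxp, hs1]; simp
      · rw [hs2 x hx hxp, map_mul, Equiv.Perm.mul_apply,
          ih (lvl (par x)) (hn ▸ hlvl x hx hxp) (par x) (hparO x hx hxp) rfl]
        exact hpar x hx hxp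
  have hs' : ∀ x ∈ O, ρ (s x) p = x := fun x hx => hs _ x hx rfl
  -- tree edges
  let τ : X → X × Fin r := fun x => if dir x then (par x, idx x) else (x, idx x)
  have hτinj : ∀ x ∈ O, x ≠ p → ∀ x' ∈ O, x' ≠ p → τ x = τ x' → x = x' := by
    intro x hx hxp x' hx' hxp' heq
    have l1 := hlvl x hx hxp
    have l2 := hlvl x' hx' hxp'
    simp only [τ] at heq
    cases h1 : dir x <;> cases h2 : dir x' <;> simp [h1, h2] at heq
    · exact heq.1
    · obtain ⟨ha, hb⟩ := heq
      have e1 := hparF x hx hxp h1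
      have e2 := hparT x' hx' hxp' h2
      have e3 : par x = x' := by
        rw [← e1, ← e2, ← ha, hb]
      rw [e3] at l1
      rw [← ha] at l2
      omega
    · obtain ⟨ha, hb⟩ := heq
      have e1 := hparT x hx hxp h1
      have e2 := hparF x' hx' hxp' h2
      have e3 : par x' = x := by
        rw [← e2, ← hb, ← ha, e1]
      rw [e3] at l2
      rw [ha] at l1
      omega
    · obtain ⟨ha, hb⟩ := heq
      have e1 := hparT x hx hxp h1
      have e2 := hparT x' hx' hxp' h2
      rw [← e1, ← e2, ha, hb]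
  let c : X × Fin r → FreeGroup (Fin r) := fun e =>
    (s (ρ (FreeGroup.of e.2) e.1))⁻¹ * FreeGroup.of e.2 * s e.1
  have hcτ : ∀ x ∈ O, x ≠ p → c (τ x) = 1 := by
    intro x hx hxp
    have e2 := hs2 x hx hxp
    cases h1 : dir x
    · have hτ : τ x = (x, idx x) := by simp [τ, h1]
      have e3 := hparF x hx hxp h1
      have e4 : s x = (FreeGroup.of (idx x))⁻¹ * s (par x) := by
        rw [e2, h1]; simp [lt]
      rw [hτ]
      change (s (ρ (FreeGroup.of (idx x)) x))⁻¹ * FreeGroup.of (idx x) * s x = 1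
      rw [e3, e4]
      group
    · have hτ : τ x = (par x, idx x) := by simp [τ, h1]
      have e3 := hparT x hx hxp h1
      have e4 : s x = (FreeGroup.of (idx x)) * s (par x) := by
        rw [e2, h1]; simp [lt]
      rw [hτ]
      change (s (ρ (FreeGroup.of (idx x)) (par x)))⁻¹ * FreeGroup.of (idx x) * s (par x) = 1
      rw [e3, e4]
      group
  have hcstab : ∀ e : X × Fin r, e.1 ∈ O → ρ (c e) p = p := by
    intro e he
    have h2 : ρ (FreeGroup.of e.2) e.1 ∈ O := hO _ _ he
    simp only [c, map_mul, Equiv.Perm.mul_apply, map_inv]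
    rw [hs' _ he, Equiv.Perm.inv_eq_iff_eq, hs' _ h2]
  let N : Set (X × Fin r) := {e | e.1 ∈ O ∧ ∀ x ∈ O, x ≠ p → τ x ≠ e}
  -- generation
  have hgen : ∀ w : FreeGroup (Fin r), ∀ x ∈ O,
      (s (ρ w x))⁻¹ * w * s x ∈ Subgroup.closure (c '' N) := by
    have hedge : ∀ (i : Fin r) (x : X), x ∈ O →
        (s (ρ (FreeGroup.of i) x))⁻¹ * FreeGroup.of i * s x ∈ Subgroup.closure (c '' N) := by
      intro i x hx
      by_cases hN : (x, i) ∈ N
      · exact Subgroup.subset_closure ⟨(x, i), hN, rfl⟩
      · have : ∃ y ∈ O, y ≠ p ∧ τ y = (x, i) := by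
          by_contra hcon
          push Not at hcon
          exact hN ⟨hx, hcon⟩
        obtain ⟨y, hy, hyp, hτ⟩ := this
        have := hcτ y hy hyp
        rw [hτ] at this
        have h3 : (s (ρ (FreeGroup.of i) x))⁻¹ * FreeGroup.of i * s x = 1 := this
        rw [h3]
        exact Subgroup.one_mem _
    intro w
    induction w using FreeGroup.induction_on with
    | C1 => intro x hx; simp
    | of i => intro x hx; exact hedge i x hx
    | inv_of i _ =>
      intro x hx
      have hy : ρ (FreeGroup.of i)⁻¹ x ∈ O := hO _ _ hx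
      have := Subgroup.inv_mem _ (hedge i _ hy)
      have e1 : ρ (FreeGroup.of i) (ρ (FreeGroup.of i)⁻¹ x) = x := by
        simp
      rw [e1] at this
      simpa [mul_assoc] using this
    | mul u v hu hv =>
      intro x hx
      have h1 := hv x hx
      have h2 := hu _ (hO v x hx)
      have := Subgroup.mul_mem _ h2 h1
      simpa [mul_assoc] using this
  -- count of non tree edges
  have hchain : ∀ n : ℕ, ∀ x ∈ O, lvl x = n → ∃ D : Finset X, p ∈ D ∧ x ∈ D ∧ (∀ y ∈ D, y ∈ O) ∧
      ∀ y ∈ D, y ≠ p → par y ∈ D := by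
    intro n
    induction n using Nat.strong_induction_on with
    | _ n ih =>
      intro x hx hn
      by_cases hxp : x = p
      · subst hxp
        refine ⟨{x}, by simp, by simp, ?_, ?_⟩
        · intro y hy; rw [Finset.mem_singleton.1 hy]; exact hx
        · intro y hy hyp; exact absurd (Finset.mem_singleton.1 hy) hyp
      · obtain ⟨D, hD1, hD2, hD3, hD4⟩ := ih (lvl (par x)) (hn ▸ hlvl x hx hxp) (par x)
          (hparO x hx hxp) rfl
        refine ⟨insert x D, Finset.mem_insert_of_mem hD1, Finset.mem_insert_self _ _, ?_, ?_⟩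
        · intro y hy
          rcases Finset.mem_insert.1 hy with rfl | hy
          · exact hx
          · exact hD3 y hy
        · intro y hy hyp
          rcases Finset.mem_insert.1 hy with rfl | hy
          · exact Finset.mem_insert_of_mem hD2
          · exact Finset.mem_insert_of_mem (hD4 y hy hyp)
  have hchain' : ∀ x : X, x ∈ O → ∃ D : Finset X, p ∈ D ∧ x ∈ D ∧ (∀ y ∈ D, y ∈ O) ∧
      ∀ y ∈ D, y ≠ p → par y ∈ D := fun x hx => hchain _ x hx rfl
  choose! Dc hDc1 hDc2 hDc3 hDc4 using hchain'
  have hcount : ∀ A : Finset (X × Fin r), (∀ e ∈ A, e ∈ N) → A.card ≤ m := by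
    intro A hA
    let E : Finset X := A.image (fun e => e.1) ∪ A.image (fun e => ρ (FreeGroup.of e.2) e.1)
    have hEO : ∀ x ∈ E, x ∈ O := by
      intro x hx
      rcases Finset.mem_union.1 hx with hx | hx
      · obtain ⟨e, he, rfl⟩ := Finset.mem_image.1 hx
        exact (hA e he).1
      · obtain ⟨e, he, rfl⟩ := Finset.mem_image.1 hx
        exact hO _ _ (hA e he).1
    let D : Finset X := insert p (E.biUnion Dc)
    have hDp : p ∈ D := Finset.mem_insert_self _ _
    have hDO : ∀ y ∈ D, y ∈ O := by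
      intro y hy
      rcases Finset.mem_insert.1 hy with rfl | hy
      · exact hpO
      · obtain ⟨x, hx, hy⟩ := Finset.mem_biUnion.1 hy
        exact hDc3 x (hEO x hx) y hy
    have hDpar : ∀ y ∈ D, y ≠ p → par y ∈ D := by
      intro y hy hyp
      rcases Finset.mem_insert.1 hy with rfl | hy
      · exact absurd rfl hyp
      · obtain ⟨x, hx, hy⟩ := Finset.mem_biUnion.1 hy
        exact Finset.mem_insert_of_mem (Finset.mem_biUnion.2 ⟨x, hx, hDc4 x (hEO x hx) y hy hyp⟩)
    have hED : ∀ x ∈ E, x ∈ D := fun x hx =>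
      Finset.mem_insert_of_mem (Finset.mem_biUnion.2 ⟨x, hx, hDc2 x (hEO x hx)⟩)
    let Ed : Finset (X × Fin r) := (D ×ˢ (Finset.univ : Finset (Fin r))).filter
      (fun e => ρ (FreeGroup.of e.2) e.1 ∈ D)
    let T : Finset (X × Fin r) := (D.erase p).image τ
    have hTcard : T.card = D.card - 1 := by
      rw [Finset.card_image_of_injOn, Finset.card_erase_of_mem hDp]
      intro x hx x' hx' heq
      have hx := Finset.mem_erase.1 (Finset.mem_coe.1 hx)
      have hx' := Finset.mem_erase.1 (Finset.mem_coe.1 hx')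
      exact hτinj x (hDO x hx.2) hx.1 x' (hDO x' hx'.2) hx'.1 heq
    have hTE : T ⊆ Ed := by
      intro e he
      obtain ⟨x, hx, rfl⟩ := Finset.mem_image.1 he
      have hx := Finset.mem_erase.1 hx
      have hp' := hDpar x hx.2 hx.1
      have e1 := hpar x (hDO x hx.2) hx.1
      refine Finset.mem_filter.2 ⟨?_, ?_⟩
      · cases h1 : dir x
        · simp [τ, h1, hx.2]
        · simp [τ, h1, hp']
      · cases h1 : dir x
        · have e3 := hparF x (hDO x hx.2) hx.1 h1
          simp [τ, h1, e3, hp']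
        · have e3 := hparT x (hDO x hx.2) hx.1 h1
          simp [τ, h1, e3, hx.2]
    have hAE : A ⊆ Ed := by
      intro e he
      refine Finset.mem_filter.2 ⟨Finset.mem_product.2 ⟨hED _ ?_, Finset.mem_univ _⟩, hED _ ?_⟩
      · exact Finset.mem_union_left _ (Finset.mem_image_of_mem _ he)
      · exact Finset.mem_union_right _ (Finset.mem_image_of_mem
          (fun e : X × Fin r => ρ (FreeGroup.of e.2) e.1) he)
    have hdisj : Disjoint T A := by
      rw [Finset.disjoint_left]
      intro e he heA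
      obtain ⟨x, hx, rfl⟩ := Finset.mem_image.1 he
      have hx := Finset.mem_erase.1 hx
      exact (hA _ heA).2 x (hDO x hx.2) hx.1 rfl
    have h1 : T.card + A.card ≤ Ed.card := by
      rw [← Finset.card_union_of_disjoint hdisj]
      exact Finset.card_le_card (Finset.union_subset hTE hAE)
    have h2 := h D hDp
    have h3 : ec (fun i x => ρ (FreeGroup.of i) x) D = Ed.card := rfl
    have h4 : 1 ≤ D.card := Finset.card_pos.2 ⟨p, hDp⟩
    omega
  have hNfin : N.Finite := by
    by_contra hinf
    obtain ⟨A, hA1, hA2⟩ := Set.Infinite.exists_subset_card_eq hinf (m + 1)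
    have := hcount A (fun e he => hA1 he)
    omega
  refine ⟨hNfin.toFinset.image c, ?_, ?_⟩
  · exact Finset.card_image_le.trans (hcount _ (fun e he => hNfin.mem_toFinset.1 he))
  · intro w
    have hset : ((hNfin.toFinset.image c : Finset (FreeGroup (Fin r))) : Set (FreeGroup (Fin r)))
        = c '' N := by
      rw [Finset.coe_image, Set.Finite.coe_toFinset]
    rw [hset]
    constructor
    · intro hw
      induction hw using Subgroup.closure_induction with
      | mem x hx =>
        obtain ⟨e, he, rfl⟩ := hx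
        exact hcstab e he.1
      | one => simp
      | mul x y _ _ hx hy => rw [map_mul, Equiv.Perm.mul_apply, hy, hx]
      | inv x _ hx => rw [map_inv, Equiv.Perm.inv_eq_iff_eq, hx]
    · intro hw
      have := hgen w p hpO
      rw [hw, hs1] at this
      simpa using this

end Pool.Agent.H815.HF.TreeM
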