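import Pool.Agent.H815.HF.Near
import Pool.Agent.H815.HF.Gen2
import Pool.Agent.H815.HF.Path
import Pool.Agent.H815.HF.Tree

set_option autoImplicit false

namespace Pool.Agent.H815.HF

/-- global near identity lemma. -/
theorem near_id_global {r : ℕ} (P : LP r) :
    ∃ ε : ℝ, 0 < ε ∧ ∀ a : Fin r → ℝ ≃o ℝ,
      (∀ i x y, |(a i x - a i y) - (x - y)| ≤ ε * |x - y|) → P.E.f ℝ a = a := by
  obtain ⟨ε, N, hε, h⟩ := near_id_full P
  refine ⟨ε, hε, fun a ha => ?_⟩
  funext i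
  ext z
  exact h a z (fun i w v _ _ => ha i _ _) i

/-- words as permutations. -/
theorem lift_perm {r : ℕ} (a : Fin r → ℝ ≃o ℝ) (w : FG r) (x : ℝ) :
    (FreeGroup.lift (fun i => (a i).toEquiv) : FG r →* Equiv.Perm ℝ) w x = wa a w x := by
  induction w using fg_induction with
  | h1 => simp
  | hof i w ih =>
    rw [map_mul, Equiv.Perm.mul_apply, ih, wa_mul, wa_of, FreeGroup.lift_apply_of]
    rfl
  | hinv i w ih =>
    rw [map_mul, Equiv.Perm.mul_apply, ih, wa_mul, wa_of_inv, map_inv, FreeGroup.lift_apply_of]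
    rfl

/-- the tree lemma for tuples of homeomorphisms. -/
theorem tree_real {r : ℕ} (a : Fin r → ℝ ≃o ℝ) (f : Fin r → ℝ → ℝ) (hf : ∀ i x, a i x = f i x)
    (p : ℝ) (m : ℕ) (h : ∀ D : Finset ℝ, p ∈ D → ec f D + 1 ≤ D.card + m) :
    ∃ S : Finset (FG r), S.card ≤ m ∧
      ∀ w : FG r, w ∈ Subgroup.closure (S : Set (FG r)) ↔ wa a w p = p := by
  obtain ⟨S, hS, hS'⟩ := TreeM.tree_lemma r ℝ
    (FreeGroup.lift (fun i => (a i).toEquiv) : FG r →* Equiv.Perm ℝ) p m (by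
      intro D hD
      have := h D hD
      have e : (fun i x => (FreeGroup.lift (fun i => (a i).toEquiv) : FG r →* Equiv.Perm ℝ)
          (FreeGroup.of i) x) = f := by
        funext i x
        rw [lift_perm, wa_of, hf]
      rw [e]
      exact this)
  exact ⟨S, hS, fun w => by rw [hS', lift_perm]⟩

/-- trivial stabilisers at rational parameters. -/
theorem free_of_zero {r : ℕ} (a : Fin r → ℝ ≃o ℝ) (f : Fin r → ℝ → ℝ)
    (hf : ∀ i x, a i x = f i x) (p : ℝ) (h : ∀ D : Finset ℝ, p ∈ D → ec f D + 1 ≤ D.card)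
    (w : FG r) (hw : w ≠ 1) : wa a w p ≠ p := by
  obtain ⟨S, hS, hS'⟩ := tree_real a f hf p 0 (fun D hD => by simpa using h D hD)
  have hS0 : S = ∅ := by
    rw [← Finset.card_eq_zero]; omega
  intro h1
  have h2 := (hS' w).2 h1
  rw [hS0] at h2
  simp at h2
  exact hw h2

/-- the mirror image of a homeomorphism. -/
noncomputable def mirror (f : ℝ ≃o ℝ) : ℝ ≃o ℝ where
  toFun x := -f (-x)
  invFun x := -f.symm (-x)
  left_inv x := by simp
  right_inv x := by simp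
  map_rel_iff' := by
    intro x y
    show -f (-x) ≤ -f (-y) ↔ x ≤ y
    rw [neg_le_neg_iff, f.le_iff_le, neg_le_neg_iff]

lemma mirror_apply (f : ℝ ≃o ℝ) (x : ℝ) : mirror f x = -f (-x) := rfl

lemma wa_mirror {r : ℕ} (a : Fin r → ℝ ≃o ℝ) (w : FG r) (x : ℝ) :
    wa (fun i => mirror (a i)) w x = - wa a w (-x) := by
  induction w using fg_induction with
  | h1 => simp
  | hof i w ih => rw [wa_mul, wa_of, wa_mul, wa_of, ih, mirror_apply, neg_neg]
  | hinv i w ih =>
    rw [wa_mul, wa_of_inv, wa_mul, wa_of_inv, ih]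
    show -(a i).symm (- -_) = _
    rw [neg_neg]

theorem sign_lemma {r : ℕ} (P : LP r) (w : FG r) (hw : w ≠ 1) :
    (∃ q : Pat r, InC P.E q ∧ ¬ q.le w 1) ∧ (∃ q : Pat r, InC P.E q ∧ ¬ q.le 1 w) := by
  obtain ⟨ε, hε, hgood⟩ := near_id_global P
  obtain ⟨u, hu, hu0, -, -, hu3⟩ := generic_full (r := r) (fun _ _ => 0) 0 0 0 0 0 (1/2) 1 1 1
    (by simp) (by norm_num) (by norm_num) (by norm_num) (by norm_num) (by
      intro i
      refine ⟨?_, ?_, ?_⟩ <;> intros <;> simp)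
  obtain ⟨a, ha, -, -⟩ := path_exists u (1/2) 1 0 1 1 (by norm_num) hu (by
    intro i x
    simpa using hu0 i x)
  obtain ⟨s, hs0, hs1, hs2⟩ : ∃ s : ℚ, 0 < s ∧ s ≤ 1 ∧ (s : ℝ) ≤ ε := by
    obtain ⟨s, hs, hs'⟩ := exists_rat_btwn (lt_min hε one_pos)
    refine ⟨s, by exact_mod_cast hs, ?_, (hs'.le.trans (min_le_left _ _))⟩
    have : (s : ℝ) ≤ 1 := hs'.le.trans (min_le_right _ _)
    exact_mod_cast this
  have hs1' : (s : ℝ) ≤ 1 := by exact_mod_cast hs1
  have hs0' : (0 : ℝ) < s := by exact_mod_cast hs0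
  have hlip : ∀ i x y, |u i x - u i y| ≤ |x - y| := by
    intro i x y
    rcases le_total x y with h | h
    · have := (hu i).1 x y h
      rw [abs_sub_comm, abs_sub_comm x y, abs_of_nonneg (sub_nonneg.2 h), abs_le]
      constructor <;> linarith
    · have := (hu i).1 y x h
      rw [abs_of_nonneg (sub_nonneg.2 h), abs_le]
      constructor <;> linarith
  have hnear : ∀ i x y, |(a s i x - a s i y) - (x - y)| ≤ ε * |x - y| := by
    intro i x y
    rw [ha s hs0'.le hs1', ha s hs0'.le hs1']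
    have e : x + (s:ℝ) * u i x - (y + (s:ℝ) * u i y) - (x - y) = (s:ℝ) * (u i x - u i y) := by ring
    rw [e, abs_mul, abs_of_pos hs0']
    exact mul_le_mul hs2 (hlip i x y) (abs_nonneg _) hε.le
  have hE := hgood (a s) hnear
  have hE' := hgood (fun i => mirror (a s i)) (by
    intro i x y
    have := hnear i (-x) (-y)
    rw [mirror_apply, mirror_apply]
    rw [show -(a s i) (-x) - -(a s i) (-y) - (x - y) =
      -((a s i) (-x) - (a s i) (-y) - (-x - -y)) by ring, abs_neg]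
    rwa [show |x - y| = |-x - -y| by rw [← abs_neg]; congr 1; ring])
  have hne : wa (a s) w 0 ≠ 0 := by
    have := free_of_zero (a s) (fun i x => x + (s:ℝ) * u i x) (fun i x => ha s hs0'.le hs1' i x)
      ((0 : ℚ) : ℝ) (fun D hD => hu3 s 0 hs0 hs1 D hD) w hw
    simpa using this
  have h1 : InC P.E (patOf (a s) 0) := inC_of_eq P.E (hasPat_patOf _ _) hE
  have h2 : InC P.E (patOf (fun i => mirror (a s i)) 0) := inC_of_eq P.E (hasPat_patOf _ _) hE'
  have e1 : ∀ v v' : FG r, (patOf (a s) 0).le v v' ↔ wa (a s) v 0 ≤ wa (a s) v' 0 :=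
    fun _ _ => Iff.rfl
  have e2 : ∀ v v' : FG r, (patOf (fun i => mirror (a s i)) 0).le v v' ↔
      wa (fun i => mirror (a s i)) v 0 ≤ wa (fun i => mirror (a s i)) v' 0 :=
    fun _ _ => Iff.rfl
  rcases lt_or_gt_of_ne hne with h | h
  · refine ⟨⟨_, h2, ?_⟩, ⟨_, h1, ?_⟩⟩
    · rw [e2]; simp only [wa_mirror, wa_one, neg_zero]; linarith
    · rw [e1, wa_one]; linarith
  · refine ⟨⟨_, h1, ?_⟩, ⟨_, h2, ?_⟩⟩
    · rw [e1, wa_one]; linarith
    · rw [e2]; simp only [wa_mirror, wa_one, neg_zero]; linarith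

end Pool.Agent.H815.HF
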