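import Pool.Agent.H815.HF.Basic

set_option autoImplicit false

namespace Pool.Agent.H815.HF

/-- pointwise maximum of two automorphisms of a chain. -/
def supIso {Ω : Type} [LinearOrder Ω] (f g : Ω ≃o Ω) : Ω ≃o Ω where
  toFun x := max (f x) (g x)
  invFun x := min (f.symm x) (g.symm x)
  left_inv x := by
    dsimp only
    rcases le_total (f x) (g x) with h | h
    · rw [max_eq_right h, min_eq_right]
      · exact g.symm_apply_apply x
      · rw [g.symm_apply_apply, f.le_symm_apply]; exact h
    · rw [max_eq_left h, min_eq_left]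
      · exact f.symm_apply_apply x
      · rw [f.symm_apply_apply, g.le_symm_apply]; exact h
  right_inv x := by
    dsimp only
    rcases le_total (f.symm x) (g.symm x) with h | h
    · rw [min_eq_left h, max_eq_left]
      · exact f.apply_symm_apply x
      · rw [f.apply_symm_apply, ← g.le_symm_apply]; exact h
    · rw [min_eq_right h, max_eq_right]
      · exact g.apply_symm_apply x
      · rw [g.apply_symm_apply, ← f.le_symm_apply]; exact h
  map_rel_iff' := by
    intro x y
    show max (f x) (g x) ≤ max (f y) (g y) ↔ x ≤ y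
    constructor
    · intro h
      by_contra hxy
      push Not at hxy
      have h1 : max (f y) (g y) < max (f x) (g x) := by
        apply max_lt_max (f.lt_iff_lt.2 hxy) (g.lt_iff_lt.2 hxy)
      exact absurd h (not_le.2 h1)
    · intro h
      exact max_le_max (f.le_iff_le.2 h) (g.le_iff_le.2 h)

/-- pointwise minimum of two automorphisms of a chain. -/
def infIso {Ω : Type} [LinearOrder Ω] (f g : Ω ≃o Ω) : Ω ≃o Ω := (supIso f⁻¹ g⁻¹)⁻¹

/-- Terms of the language of `l`-groups. -/
inductive Tm (r : ℕ) : Type
  | var : Fin r → Tm r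
  | one : Tm r
  | mul : Tm r → Tm r → Tm r
  | inv : Tm r → Tm r
  | sup : Tm r → Tm r → Tm r
  | inf : Tm r → Tm r → Tm r

/-- Evaluation of a term in an `l`-group. -/
def Tm.ev {r : ℕ} {G : Type} [Group G] [Lattice G] (g : Fin r → G) : Tm r → G
  | .var i => g i
  | .one => 1
  | .mul a b => a.ev g * b.ev g
  | .inv a => (a.ev g)⁻¹
  | .sup a b => a.ev g ⊔ b.ev g
  | .inf a b => a.ev g ⊓ b.ev g

/-- Evaluation of a term in the automorphism group of a chain. -/
def Tm.act {r : ℕ} {Ω : Type} [LinearOrder Ω] (g : Fin r → Ω ≃o Ω) : Tm r → (Ω ≃o Ω)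
  | .var i => g i
  | .one => 1
  | .mul a b => a.act g * b.act g
  | .inv a => (a.act g)⁻¹
  | .sup a b => supIso (a.act g) (b.act g)
  | .inf a b => infIso (a.act g) (b.act g)

end Pool.Agent.H815.HF
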